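import Pool.Agent.H433R2.AJT.T_A2

set_option autoImplicit false

open MvPolynomial
open scoped Classical

namespace Pool.H433AJT

theorem t_A1 (hC : S_COV) (hA : S_A2) : S_A1 := by
  intro F V ι _ _ _ _ lam v U I b hlam hI
  have first : ∀ (W : Submodule F V) (D : Finset ι) (σ : ι → ι), U ≤ W →
      D ⊆ I → Mat v W D σ → (D.card : ℤ) ≤ FF lam v U I b W := by
    intro W D σ hW hD h
    have := hA F V ι lam v U I b hlam hI W D ∅ σ σ hW hD (Finset.empty_subset _) h
      (fun i hi => by simp at hi)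
    simpa using this
  intro W D σ hW hD h
  refine ⟨first W D σ hW hD h, ?_⟩
  rintro ⟨i, hi, hv, hc⟩
  have h1 := first (jn W (v i)) _ σ (le_trans hW le_sup_left)
    ((Finset.filter_subset (fun j => v j ∉ jn W (v i)) D).trans hD) (A2_Mat_restrict (v i) h)
  have h5 := hC F V ι lam v U I b W i hv
  have h7 : lam * (2 - ((cls v I W i).card : ℤ)) = - (lam * ((cls v I W i).card - 2)) := by ring
  rw [h7] at h5
  rw [h5] at h1
  obtain ⟨a1, a2, a3⟩ := A2_part (i := i) hD h
  have hc' : (3 : ℤ) ≤ ((cls v I W i).card : ℤ) := by exact_mod_cast hc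
  have h4 : 4 * (((cls v I W i).card : ℤ) - 2) ≤ lam * ((cls v I W i).card - 2) :=
    mul_le_mul_of_nonneg_right hlam (by linarith)
  rcases Nat.lt_or_ge 3 (cls v I W i).card with h8 | h8
  · omega
  · have h6 : (cls v I W i).card = 3 := by omega
    have := a3 h6
    omega

end Pool.H433AJT
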