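import Pool.Agent.H433R2.AJT.SpecC

set_option autoImplicit false

open MvPolynomial
open scoped Classical

namespace Pool.H433AJT

section A2
variable {F V ι : Type} [Field F] [AddCommGroup V] [Module F V]

theorem A2_mem_jn (W : Submodule F V) (x : V) : x ∈ jn W x :=
  (le_sup_right : Submodule.span F {x} ≤ W ⊔ Submodule.span F {x})
    (Submodule.mem_span_singleton_self x)

theorem A2_jn_eq {W : Submodule F V} {x y : V} (h : y ∈ jn W x) (hy : y ∉ W) :
    jn W y = jn W x := by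
  obtain ⟨w, hw, z, hz, hwz⟩ := Submodule.mem_sup.1 h
  obtain ⟨c, rfl⟩ := Submodule.mem_span_singleton.1 hz
  have hc : c ≠ 0 := by
    rintro rfl
    apply hy
    rw [← hwz, zero_smul, add_zero]
    exact hw
  apply le_antisymm
  · apply sup_le le_sup_left
    rw [Submodule.span_singleton_le_iff_mem]
    exact h
  · apply sup_le le_sup_left
    rw [Submodule.span_singleton_le_iff_mem]
    have e : x = c⁻¹ • (y - w) := by
      rw [← hwz, add_sub_cancel_left, smul_smul, inv_mul_cancel₀ hc, one_smul]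
    rw [e]
    apply Submodule.smul_mem
    apply Submodule.sub_mem
    · exact A2_mem_jn W y
    · exact (le_sup_left : W ≤ W ⊔ Submodule.span F {y}) hw

theorem A2_jn_mono {W : Submodule F V} {x y z : V} (h : jn W x = jn W y) :
    jn (jn W z) x = jn (jn W z) y := by
  unfold jn at h ⊢
  rw [sup_right_comm, h, sup_right_comm]

theorem A2_lt {W : Submodule F V} {x : V} (h : x ∉ W) : W < jn W x :=
  lt_of_le_of_ne le_sup_left fun he => h (he ▸ A2_mem_jn W x)

theorem A2_mem_cls {v : ι → V} {I : Finset ι} {W : Submodule F V} {i j : ι} :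
    j ∈ cls v I W i ↔ j ∈ I ∧ v j ∉ W ∧ jn W (v j) = jn W (v i) := by
  unfold cls
  rw [Finset.mem_filter]

theorem A2_mem_dbl {v : ι → V} {I : Finset ι} {W : Submodule F V} {i : ι} :
    i ∈ dbl v I W ↔ i ∈ I ∧ v i ∉ W ∧ (cls v I W i).card = 2 := by
  unfold dbl
  rw [Finset.mem_filter]

/-- restriction of a matching -/
theorem A2_Mat_restrict {v : ι → V} {W : Submodule F V} {D : Finset ι} {σ : ι → ι} (x : V)
    (h : Mat v W D σ) : Mat v (jn W x) (D.filter fun j => v j ∉ jn W x) σ := by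
  intro j hj
  rw [Finset.mem_filter] at hj
  obtain ⟨a1, a2, a3, a4, a5⟩ := h j hj.1
  obtain ⟨-, -, -, b4, -⟩ := h (σ j) a1
  refine ⟨Finset.mem_filter.2 ⟨a1, fun hm => hj.2 ?_⟩, a2, a3, hj.2, A2_jn_mono a5⟩
  have e1 := A2_jn_eq hm b4
  rw [← e1, a5]
  exact A2_mem_jn W (v j)

/-- the part of a matching inside a class is even -/
theorem A2_Mat_even {v : ι → V} {W : Submodule F V} {D : Finset ι} {σ : ι → ι} (x : V)
    (h : Mat v W D σ) : Even (D.filter fun j => v j ∈ jn W x).card := by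
  have hs : ∀ j ∈ D.filter (fun j => v j ∈ jn W x), σ j ∈ D.filter fun j => v j ∈ jn W x := by
    intro j hj
    rw [Finset.mem_filter] at hj ⊢
    obtain ⟨a1, a2, a3, a4, a5⟩ := h j hj.1
    refine ⟨a1, ?_⟩
    rw [← A2_jn_eq hj.2 a4, ← a5]
    exact A2_mem_jn W (v (σ j))
  have h0 : ∑ _j ∈ D.filter (fun j => v j ∈ jn W x), (1 : ZMod 2) = 0 := by
    refine Finset.sum_involution (fun j _ => σ j) ?_ ?_ ?_ ?_
    · intro j _; decide
    · intro j hj _
      exact (h j (Finset.mem_filter.1 hj).1).2.2.1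
    · intro j hj; exact hs j hj
    · intro j hj
      exact (h j (Finset.mem_filter.1 hj).1).2.1
  rw [Finset.sum_const, nsmul_eq_mul, mul_one] at h0
  exact (ZMod.natCast_eq_zero_iff_even).1 h0

/-- the part of `D` inside `jn W (v i)` is in the class of `i` -/
theorem A2_sub_cls {v : ι → V} {I : Finset ι} {W : Submodule F V} {D : Finset ι} {σ : ι → ι}
    {i : ι} (hD : D ⊆ I) (h : Mat v W D σ) :
    (D.filter fun j => v j ∈ jn W (v i)) ⊆ cls v I W i := by
  intro j hj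
  rw [Finset.mem_filter] at hj
  obtain ⟨a1, a2, a3, a4, a5⟩ := h j hj.1
  exact A2_mem_cls.2 ⟨hD hj.1, a4, A2_jn_eq hj.2 a4⟩

theorem A2_pair {v : ι → V} {I : Finset ι} {W : Submodule F V} {D : Finset ι} {σ : ι → ι}
    {i : ι} (hD : D ⊆ I) (h : Mat v W D σ) (hi : i ∈ D) :
    ({i, σ i} : Finset ι) ⊆ cls v I W i ∧ ({i, σ i} : Finset ι).card = 2 := by
  obtain ⟨a1, a2, a3, a4, a5⟩ := h i hi
  obtain ⟨-, -, -, b4, -⟩ := h (σ i) a1
  refine ⟨?_, Finset.card_pair a3.symm⟩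
  intro j hj
  rw [Finset.mem_insert, Finset.mem_singleton] at hj
  rcases hj with rfl | rfl
  · exact A2_mem_cls.2 ⟨hD hi, a4, rfl⟩
  · exact A2_mem_cls.2 ⟨hD a1, b4, a5⟩

/-- no class of size at least three: the matched labels are in exact pairs -/
theorem A2_small {v : ι → V} {I : Finset ι} {W : Submodule F V} {D : Finset ι} {σ : ι → ι}
    (hD : D ⊆ I) (h : Mat v W D σ) (hs : ∀ i ∈ I, v i ∉ W → (cls v I W i).card ≤ 2) :
    D ⊆ dbl v I W ∧ ∀ i ∈ D, cls v I W i = {i, σ i} := by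
  have key : ∀ i ∈ D, cls v I W i = {i, σ i} := by
    intro i hi
    obtain ⟨h1, h2⟩ := A2_pair hD h hi
    obtain ⟨a1, a2, a3, a4, a5⟩ := h i hi
    exact (Finset.eq_of_subset_of_card_le h1 (by rw [h2]; exact hs i (hD hi) a4)).symm
  refine ⟨fun i hi => ?_, key⟩
  obtain ⟨a1, a2, a3, a4, a5⟩ := h i hi
  refine A2_mem_dbl.2 ⟨hD hi, a4, ?_⟩
  rw [key i hi]
  exact Finset.card_pair a3.symm

theorem A2_small2 {v : ι → V} {I : Finset ι} {W : Submodule F V} {D₁ D₂ : Finset ι}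
    {σ₁ σ₂ : ι → ι} (hD₁ : D₁ ⊆ I) (h₁ : Mat v W D₁ σ₁) (hD₂ : D₂ ⊆ I) (h₂ : Mat v W D₂ σ₂)
    (hs : ∀ i ∈ I, v i ∉ W → (cls v I W i).card ≤ 2) :
    D₁.card + D₂.card ≤ (dbl v I W).card + ((D₁ ∩ D₂).filter fun i => σ₁ i = σ₂ i).card := by
  obtain ⟨a1, a2⟩ := A2_small hD₁ h₁ hs
  obtain ⟨b1, b2⟩ := A2_small hD₂ h₂ hs
  have e1 : ((D₁ ∩ D₂).filter fun i => σ₁ i = σ₂ i) = D₁ ∩ D₂ := by
    apply Finset.filter_true_of_mem
    intro i hi
    rw [Finset.mem_inter] at hi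
    have c1 := a2 i hi.1
    have c2 := b2 i hi.2
    have c3 : σ₁ i ∈ ({i, σ₂ i} : Finset ι) := by
      rw [← c2, c1]
      simp
    rw [Finset.mem_insert, Finset.mem_singleton] at c3
    rcases c3 with c3 | c3
    · exact absurd c3 (h₁ i hi.1).2.2.1
    · exact c3
  rw [e1, ← Finset.card_union_add_card_inter]
  exact Nat.add_le_add_right (Finset.card_le_card (Finset.union_subset a1 b1)) _

/-- the part inside a big class is small -/
theorem A2_part {v : ι → V} {I : Finset ι} {W : Submodule F V} {D : Finset ι} {σ : ι → ι}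
    {i : ι} (hD : D ⊆ I) (h : Mat v W D σ) :
    D.card = (D.filter fun j => v j ∉ jn W (v i)).card +
      (D.filter fun j => v j ∈ jn W (v i)).card ∧
    (D.filter fun j => v j ∈ jn W (v i)).card ≤ (cls v I W i).card ∧
    ((cls v I W i).card = 3 → (D.filter fun j => v j ∈ jn W (v i)).card ≤ 2) := by
  have h1 := Finset.card_filter_add_card_filter_not (s := D) (fun j => v j ∈ jn W (v i))
  have h2 : (D.filter fun j => v j ∈ jn W (v i)).card ≤ (cls v I W i).card :=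
    Finset.card_le_card (A2_sub_cls hD h)
  refine ⟨by omega, h2, fun h3 => ?_⟩
  obtain ⟨k, hk⟩ := A2_Mat_even (v i) h
  omega

theorem A2_big {lam : ℤ} (hlam : 4 ≤ lam) {v : ι → V} {I : Finset ι} {W : Submodule F V}
    {D₁ D₂ : Finset ι} {σ₁ σ₂ : ι → ι} {i : ι} (hD₁ : D₁ ⊆ I) (h₁ : Mat v W D₁ σ₁)
    (hD₂ : D₂ ⊆ I) (h₂ : Mat v W D₂ σ₂) (hc : 3 ≤ (cls v I W i).card) :
    (D₁.card : ℤ) + D₂.card ≤ (D₁.filter fun j => v j ∉ jn W (v i)).card +
      (D₂.filter fun j => v j ∉ jn W (v i)).card + lam * ((cls v I W i).card - 2) := by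
  obtain ⟨a1, a2, a3⟩ := A2_part (i := i) hD₁ h₁
  obtain ⟨b1, b2, b3⟩ := A2_part (i := i) hD₂ h₂
  rw [a1, b1]
  push_cast
  have hc' : (3 : ℤ) ≤ ((cls v I W i).card : ℤ) := by exact_mod_cast hc
  have h4 : 4 * (((cls v I W i).card : ℤ) - 2) ≤ lam * ((cls v I W i).card - 2) :=
    mul_le_mul_of_nonneg_right hlam (by linarith)
  rcases Nat.lt_or_ge 3 (cls v I W i).card with h5 | h5
  · omega
  · have h6 : (cls v I W i).card = 3 := by omega
    have := a3 h6
    have := b3 h6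
    omega

theorem A2_K {v : ι → V} {W' : Submodule F V} {D₁ D₂ : Finset ι} {σ₁ σ₂ : ι → ι} :
    (((D₁.filter fun j => v j ∉ W') ∩ (D₂.filter fun j => v j ∉ W')).filter
      fun i => σ₁ i = σ₂ i).card ≤ ((D₁ ∩ D₂).filter fun i => σ₁ i = σ₂ i).card := by
  apply Finset.card_le_card
  apply Finset.filter_subset_filter
  exact Finset.inter_subset_inter (Finset.filter_subset _ _) (Finset.filter_subset _ _)

end A2

theorem t_A2 (hC : S_COV) : S_A2 := by
  intro F V ι _ _ _ _ lam v U I b hlam hI W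
  refine WellFoundedGT.induction (motive := fun W => ∀ (D₁ D₂ : Finset ι) (σ₁ σ₂ : ι → ι), U ≤ W →
    D₁ ⊆ I → D₂ ⊆ I → Mat v W D₁ σ₁ → Mat v W D₂ σ₂ →
    (D₁.card : ℤ) + D₂.card ≤ FF lam v U I b W +
      (((D₁ ∩ D₂).filter fun i => σ₁ i = σ₂ i).card : ℤ)) W ?_
  clear W
  intro W ih D₁ D₂ σ₁ σ₂ hW hD₁ hD₂ h₁ h₂
  by_cases hs : ∀ i ∈ I, v i ∉ W → (cls v I W i).card ≤ 2
  · have h3 := A2_small2 hD₁ h₁ hD₂ h₂ hs
    have h4 := hI.2 W hW
    omega
  · push Not at hs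
    obtain ⟨i, hi, hv, hc⟩ := hs
    have h3 := A2_big hlam (i := i) hD₁ h₁ hD₂ h₂ hc
    have h4 := ih (jn W (v i)) (A2_lt hv) _ _ σ₁ σ₂ (le_trans hW le_sup_left)
      ((Finset.filter_subset (fun j => v j ∉ jn W (v i)) D₁).trans hD₁)
      ((Finset.filter_subset (fun j => v j ∉ jn W (v i)) D₂).trans hD₂)
      (A2_Mat_restrict (v i) h₁) (A2_Mat_restrict (v i) h₂)
    have h5 := hC F V ι lam v U I b W i hv
    have h6 := A2_K (v := v) (W' := jn W (v i)) (D₁ := D₁) (D₂ := D₂) (σ₁ := σ₁) (σ₂ := σ₂)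
    have h7 : lam * (2 - ((cls v I W i).card : ℤ)) = - (lam * ((cls v I W i).card - 2)) := by ring
    rw [h5, h7] at h4
    omega

end Pool.H433AJT
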