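import Pool.Agent.H433R2.AJT.SpecC

set_option autoImplicit false

open MvPolynomial
open scoped Classical

namespace Pool.H433AJT

theorem A3_jn_eq {F V : Type} [Field F] [AddCommGroup V] [Module F V] {W : Submodule F V}
    {x y : V} (h : y ∈ jn W x) (hy : y ∉ W) : jn W y = jn W x := by
  unfold jn at h ⊢
  obtain ⟨w, hw, z, hz, hwz⟩ := Submodule.mem_sup.1 h
  obtain ⟨c, rfl⟩ := Submodule.mem_span_singleton.1 hz
  have hc : c ≠ 0 := by
    rintro rfl
    apply hy
    rw [← hwz, zero_smul, add_zero]
    exact hw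
  apply le_antisymm
  · apply sup_le le_sup_left
    rw [Submodule.span_singleton_le_iff_mem]
    exact h
  · apply sup_le le_sup_left
    rw [Submodule.span_singleton_le_iff_mem]
    have e : x = c⁻¹ • (y - w) := by
      rw [← hwz, add_sub_cancel_left, smul_smul, inv_mul_cancel₀ hc, one_smul]
    rw [e]
    apply Submodule.smul_mem
    apply Submodule.sub_mem
    · exact (le_sup_right : Submodule.span F {y} ≤ W ⊔ Submodule.span F {y})
        (Submodule.mem_span_singleton_self y)
    · exact (le_sup_left : W ≤ W ⊔ Submodule.span F {y}) hw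

theorem A3_jn_mono {F V : Type} [Field F] [AddCommGroup V] [Module F V] {W : Submodule F V}
    {x y z : V} (h : jn W x = jn W y) : jn (jn W z) x = jn (jn W z) y := by
  unfold jn at h ⊢
  rw [sup_right_comm, h, sup_right_comm]

theorem t_A3 (hC : S_COV) (hP : S_PART) (hA : S_A1) : S_A3 := by
  intro F V ι _ _ _ _ lam v U I b hlam hI W hW hex
  obtain ⟨i, hi, hv, hcard⟩ := hex
  have e1 := hC F V ι lam v U I b W i hv
  obtain ⟨σ, hσ⟩ := hP F V ι v I W
  have hsub : dbl v I W ⊆ I := Finset.filter_subset _ _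
  have hmat : Mat v (jn W (v i)) (dbl v I W) σ := by
    intro j hj
    obtain ⟨a1, a2, a3, a4, a5⟩ := hσ j hj
    refine ⟨a1, a2, a3, fun hmem => ?_, A3_jn_mono a5⟩
    have h1 := A3_jn_eq hmem a4
    have h2 : cls v I W j = cls v I W i := by
      unfold cls
      rw [h1]
    have h3 : (cls v I W j).card = 2 := by
      unfold dbl at hj
      rw [Finset.mem_filter] at hj
      exact hj.2.2
    rw [h2] at h3
    omega
  have h4 := (hA F V ι lam v U I b hlam hI (jn W (v i)) (dbl v I W) σ
    (le_trans hW le_sup_left) hsub hmat).1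
  have h5 : (3 : ℤ) ≤ ((cls v I W i).card : ℤ) := by exact_mod_cast hcard
  nlinarith

end Pool.H433AJT
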