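import Pool.Agent.H433R2.AJT.SpecA

open MvPolynomial
open scoped Classical

namespace Pool.H433AJT

theorem ADAPT_main (p N : ℕ) [Fact p.Prime] (s : Set (Vec p N))
    (hs : LinearIndepOn (ZMod p) id s) :
    ∃ (g : Vec p N ≃ₗ[ZMod p] Vec p N) (F : Set (Vec p N) → Finset (Fin N)),
      (∀ B ⊆ s, (fun i => g (Pi.single i 1)) '' (F B : Set (Fin N)) = B ∧
        (F B).card = Module.finrank (ZMod p) (Submodule.span (ZMod p) B)) ∧
      (∀ B C, B ⊆ C → F B ⊆ F C) ∧
      ∀ v ∈ s, ∃ i, g (Pi.single i 1) = v ∧ ∀ B, v ∉ B → i ∉ F B := by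
  have hfin : Finite (hs.extend (Set.subset_univ s)) :=
    Module.Finite.finite_basis (Module.Basis.extend hs)
  have hcard : Nat.card (hs.extend (Set.subset_univ s)) = N := by
    rw [← Module.finrank_eq_nat_card_basis (Module.Basis.extend hs), Module.finrank_fin_fun]
  obtain ⟨e⟩ : Nonempty ((hs.extend (Set.subset_univ s)) ≃ Fin N) :=
    ⟨Finite.equivFinOfCardEq hcard⟩
  obtain ⟨b, hb⟩ : ∃ b : Module.Basis (Fin N) (ZMod p) (Vec p N),
      ∀ i, b i = ((e.symm i : hs.extend (Set.subset_univ s)) : Vec p N) := by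
    refine ⟨(Module.Basis.extend hs).reindex e, fun i => ?_⟩
    rw [Module.Basis.reindex_apply, Module.Basis.extend_apply_self]
  have hg : ∀ i, ((Pi.basisFun (ZMod p) (Fin N)).equiv b (Equiv.refl _)) (Pi.single i 1) = b i := by
    intro i
    rw [← Pi.basisFun_apply, Module.Basis.equiv_apply]
    rfl
  have hmem : ∀ v ∈ s, ∃ i, b i = v := by
    intro v hv
    have hv' : v ∈ hs.extend (Set.subset_univ s) := Module.Basis.subset_extend hs hv
    refine ⟨e ⟨v, hv'⟩, ?_⟩
    rw [hb, e.symm_apply_apply]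
  refine ⟨(Pi.basisFun (ZMod p) (Fin N)).equiv b (Equiv.refl _),
    fun B => Finset.univ.filter (fun i => b i ∈ B), ?_, ?_, ?_⟩
  · intro B hB
    have himg : b '' ((Finset.univ.filter (fun i => b i ∈ B) : Finset (Fin N)) : Set (Fin N)) = B := by
      ext v
      constructor
      · rintro ⟨i, hi, rfl⟩
        simpa using hi
      · intro hv
        obtain ⟨i, hi⟩ := hmem v (hB hv)
        refine ⟨i, ?_, hi⟩
        simp [hi, hv]
    refine ⟨?_, ?_⟩
    · simp only [hg]
      exact himg
    · have h1 : LinearIndependent (ZMod p)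
          (fun i : (Finset.univ.filter (fun i => b i ∈ B) : Finset (Fin N)) => b i) :=
        b.linearIndependent.comp _ Subtype.val_injective
      have h2 := finrank_span_eq_card h1
      have hr : Set.range (fun i : (Finset.univ.filter (fun i => b i ∈ B) : Finset (Fin N)) => b i) =
          B := by
        ext v
        constructor
        · rintro ⟨i, rfl⟩
          exact (Finset.mem_filter.1 i.2).2
        · intro hv
          obtain ⟨i, hi⟩ := hmem v (hB hv)
          exact ⟨⟨i, by simp [hi, hv]⟩, hi⟩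
      rw [Fintype.card_coe, hr] at h2
      exact h2.symm
  · intro B C hBC i hi
    simp only [Finset.mem_filter, Finset.mem_univ, true_and] at hi ⊢
    exact hBC hi
  · intro v hv
    obtain ⟨i, hi⟩ := hmem v hv
    refine ⟨i, (hg i).trans hi, fun B hB => ?_⟩
    simp only [Finset.mem_filter, Finset.mem_univ, true_and, hi]
    exact hB

theorem ADAPT_basis (p N : ℕ) [Fact p.Prime] (U : Submodule (ZMod p) (Vec p N)) :
    ∃ B : Set (Vec p N), Submodule.span (ZMod p) B = U ∧ LinearIndepOn (ZMod p) id B := by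
  obtain ⟨B, -, h1, h2⟩ := exists_linearIndependent (ZMod p) (U : Set (Vec p N))
  exact ⟨B, by rw [h1, Submodule.span_eq], h2⟩

theorem t_ADAPT : S_ADAPT := by
  intro p N _ U
  obtain ⟨B, hBU, hBi⟩ := ADAPT_basis p N U
  refine ⟨?_, ?_, ?_⟩
  · obtain ⟨g, F, h1, -, -⟩ := ADAPT_main p N B hBi
    obtain ⟨h3, h4⟩ := h1 B subset_rfl
    refine ⟨g, F B, ?_, ?_⟩
    · rw [h4, hBU]
    · rw [h3, hBU]
  · intro v hv
    have hins : LinearIndepOn (ZMod p) id (insert v B) := by
      refine hBi.id_insert ?_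
      rw [hBU]
      exact hv
    obtain ⟨g, F, h1, -, h2⟩ := ADAPT_main p N (insert v B) hins
    obtain ⟨h3, h4⟩ := h1 B (Set.subset_insert v B)
    obtain ⟨i, hi1, hi2⟩ := h2 v (Set.mem_insert v B)
    refine ⟨g, F B, i, hi2 B ?_, ?_, hi1, ?_⟩
    · intro hvB
      apply hv
      rw [← hBU]
      exact Submodule.subset_span hvB
    · rw [h4, hBU]
    · rw [h3, hBU]
  · intro W hUW
    have hBW : B ⊆ (W : Set (Vec p N)) := by
      intro x hx
      apply hUW
      rw [← hBU]
      exact Submodule.subset_span hx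
    obtain ⟨C, hC1, hC2, hC3, hC4⟩ := exists_linearIndepOn_id_extension hBi hBW
    have hCW : Submodule.span (ZMod p) C = W := by
      apply le_antisymm
      · exact Submodule.span_le.2 hC1
      · exact hC3
    obtain ⟨g, F, h1, h2, -⟩ := ADAPT_main p N C hC4
    obtain ⟨h3, h4⟩ := h1 B hC2
    obtain ⟨h5, h6⟩ := h1 C subset_rfl
    refine ⟨g, F B, F C, h2 B C hC2, ?_, ?_, ?_, ?_⟩
    · rw [h4, hBU]
    · rw [h6, hCW]
    · rw [h3, hBU]
    · rw [h5, hCW]

end Pool.H433AJT
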