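import Pool.Agent.H433R2.AJT.SpecC

open MvPolynomial
open scoped Classical

namespace Pool.H433AJT

theorem t_B (h1 : S_SUBM) (h2 : S_TRI) (h3 : S_A1) (h4 : S_A2) (h5 : S_TY) (h6 : S_TZ) : S_B := by
  intro F V ι _ _ _ _ lam v U I b hlam hI W W' hW hW'
  obtain ⟨DY, D₁, D₂, σY, σ₁, σ₂, hDY, hD₁, hD₂, hMY, hM₁, hM₂, hcount⟩ := h2 F V ι v I W W'
  have hsub := h1 F V ι lam v U I b W W'
  have hUinf : U ≤ W ⊓ W' := le_inf hW.1 hW'.1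
  have hUsup : U ≤ W ⊔ W' := hW.1.trans le_sup_left
  have hA1 := (h3 F V ι lam v U I b hlam hI (W ⊓ W') DY σY hUinf hDY hMY).1
  have hA2 := h4 F V ι lam v U I b hlam hI (W ⊔ W') D₁ D₂ σ₁ σ₂ hUsup hD₁ hD₂ hM₁ hM₂
  rw [hW.2, hW'.2] at hsub
  have hR : (4 : ℤ) * ((I.filter fun i => v i ∈ W ⊔ W' ∧ v i ∉ W ∧ v i ∉ W').card : ℤ) ≤
      lam * ((I.filter fun i => v i ∈ W ⊔ W' ∧ v i ∉ W ∧ v i ∉ W').card : ℤ) :=
    mul_le_mul_of_nonneg_right hlam (Int.natCast_nonneg _)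
  refine ⟨?_, ?_⟩
  · refine h5 F V ι lam v U I b hlam hI (W ⊓ W') DY σY hUinf hDY hMY ?_
    linarith
  · refine h6 F V ι lam v U I b hlam hI (W ⊔ W') D₁ D₂ σ₁ σ₂ hUsup hD₁ hD₂ hM₁ hM₂ ?_
    linarith

end Pool.H433AJT
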