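import Pool.Agent.H433R2.AJT.SpecC

set_option autoImplicit false

open MvPolynomial
open scoped Classical

namespace Pool.H433AJT

theorem t_BULK : S_BULK := by
  intro F V ι _ _ _ _ lam v Z hR U I J m b hIJ hJ hZ
  induction J using Finset.induction_on generalizing b with
  | empty =>
    simpa using hZ
  | insert j J hj ih =>
    rw [Finset.union_insert]
    have hjI : j ∉ I := fun h => (Finset.disjoint_left.1 hIJ h) (Finset.mem_insert_self j J)
    have hj' := hJ j (Finset.mem_insert_self j J)
    refine hR.loop U (I ∪ J) m b j ?_ hj'.1 hj'.2.1 hj'.2.2 ?_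
    · intro h
      rcases Finset.mem_union.1 h with h | h
      · exact hjI h
      · exact hj h
    · refine ih (b - lam) (hIJ.mono_right (Finset.subset_insert j J))
        (fun i hi => hJ i (Finset.mem_insert_of_mem hi)) ?_
      rw [Finset.card_insert_of_notMem hj] at hZ
      have : b - lam * ((J.card + 1 : ℕ) : ℤ) = b - lam - lam * (J.card : ℤ) := by
        push_cast
        ring
      rwa [this] at hZ

end Pool.H433AJT
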