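import Pool.Agent.H433R2.AJT.Basic

open scoped Classical

namespace Pool.H433AJT

theorem C0SUB_wt0 (lam : ℤ) (hlam : 4 ≤ lam) (k : ℕ) : 0 ≤ wt lam k := by
  unfold wt
  split_ifs with h0 h1
  · exact le_rfl
  · linarith
  · have : (0 : ℤ) ≤ k := by positivity
    exact le_min (by linarith) (by linarith)

theorem C0SUB_wt (lam : ℤ) (hlam : 4 ≤ lam) (a b : ℕ) (hab : a ≤ b) : wt lam a ≤ wt lam b := by
  by_cases ha : a = 0
  · rw [ha]
    have : wt lam 0 = 0 := by simp [wt]
    rw [this]
    exact C0SUB_wt0 lam hlam b
  · have hb : b ≠ 0 := by omega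
    have hab' : (a : ℤ) ≤ b := by exact_mod_cast hab
    unfold wt
    rw [if_neg ha, if_neg hb]
    split_ifs with h1 h2 h2
    · exact le_rfl
    · have : (0 : ℤ) ≤ b := by positivity
      exact le_min (by linarith) (by linarith)
    · omega
    · exact min_le_min (by linarith) le_rfl

theorem t_C0SUB : S_C0SUB := by
  intro F V ι _ _ _ _ lam v U I J hlam hI hJ
  obtain ⟨h1, h2, h3⟩ := hI
  refine ⟨fun i hi => h1 i (hJ hi), ?_, ?_⟩
  · intro W hW
    refine le_trans (h2 W hW) ?_
    unfold slack
    have h4 : ∑ L ∈ (J.filter (fun i => v i ∈ W)).image (fun i => jn U (v i)),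
          wt lam ((J.filter fun j => jn U (v j) = L).card) ≤
        ∑ L ∈ (I.filter (fun i => v i ∈ W)).image (fun i => jn U (v i)),
          wt lam ((I.filter fun j => jn U (v j) = L).card) := by
      calc ∑ L ∈ (J.filter (fun i => v i ∈ W)).image (fun i => jn U (v i)),
            wt lam ((J.filter fun j => jn U (v j) = L).card) ≤
          ∑ L ∈ (J.filter (fun i => v i ∈ W)).image (fun i => jn U (v i)),
            wt lam ((I.filter fun j => jn U (v j) = L).card) := by
            refine Finset.sum_le_sum fun L _ => ?_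
            exact C0SUB_wt lam hlam _ _ (Finset.card_le_card (Finset.filter_subset_filter _ hJ))
        _ ≤ _ := by
            refine Finset.sum_le_sum_of_subset_of_nonneg ?_ fun L _ _ => C0SUB_wt0 lam hlam _
            exact Finset.image_subset_image (Finset.filter_subset_filter _ hJ)
    linarith
  · intro i hi
    refine le_trans ?_ (h3 i (hJ hi))
    have h5 : (cls v J U i).card ≤ (cls v I U i).card :=
      Finset.card_le_card (Finset.filter_subset_filter _ hJ)
    exact_mod_cast h5

end Pool.H433AJT
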