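import Pool.Agent.H433R2.AJT.SpecC

open MvPolynomial
open scoped Classical

namespace Pool.H433AJT

theorem t_CON1 (h : S_FCON) : S_CON1 := by
  intro F V ι _ _ _ _ lam v U I b hlam hI i hi
  obtain ⟨h0, h1⟩ := hI
  obtain ⟨h2, h3⟩ := h F V ι lam v U I b 2 i h0 hi
  refine ⟨?_, ?_⟩
  · intro j hj
    exact (Finset.mem_filter.mp hj).2
  · intro W hW
    rw [h3 W hW, h2 W hW]
    have := h1 W (le_trans le_sup_left hW)
    linarith

end Pool.H433AJT
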