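import Pool.Agent.H433R2.AJT.SpecC

open MvPolynomial
open scoped Classical

namespace Pool.H433AJT

theorem t_CON2 (h : S_FCON) : S_CON2 := by
  intro F V ι _ _ _ _ lam v U I b hlam hI i hi hT
  obtain ⟨h0, h1⟩ := hI
  obtain ⟨h2, h3⟩ := h F V ι lam v U I b (-1) i h0 hi
  refine ⟨?_, ?_⟩
  · intro j hj
    exact (Finset.mem_filter.mp hj).2
  · intro W hW
    have hUW : U ≤ W := le_trans le_sup_left hW
    have hvW : v i ∈ W := hW (Submodule.mem_sup_right (Submodule.mem_span_singleton_self _))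
    have h4 := h2 W hW
    rw [show b + lam - 1 - lam * (((cls v I U i).card : ℤ) - 1)
      = b + lam + (-1) - lam * ((cls v I U i).card - 1) by ring]
    rw [h3 W hW, h4]
    have h5 := h1 W hUW
    have h6 : FF lam v U I b W ≠ ((dbl v I W).card : ℤ) := fun h7 => hT W ⟨hUW, h7⟩ hvW
    have h8 : ((dbl v I W).card : ℤ) < FF lam v U I b W := lt_of_le_of_ne h5 (Ne.symm h6)
    linarith

end Pool.H433AJT
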