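import Pool.Agent.H433R2.AJT.SpecA

open MvPolynomial
open scoped Classical

namespace Pool.H433AJT

variable {p N : ℕ}

theorem COORD_linP_sum {ι : Type} (s : Finset ι) (c : ι → ZMod p) (w : ι → Vec p N) :
    linP (∑ i ∈ s, c i • w i) = ∑ i ∈ s, C (c i) * linP (w i) := by
  unfold linP
  simp only [Finset.mul_sum, Finset.sum_apply, Pi.smul_apply, smul_eq_mul, map_sum, map_mul,
    Finset.sum_mul]
  rw [Finset.sum_comm]
  refine Finset.sum_congr rfl fun i _ => Finset.sum_congr rfl fun k _ => ?_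
  ring

/-- the algebra homomorphism of a linear map -/
noncomputable def COORD_phi (g : Vec p N →ₗ[ZMod p] Vec p N) :
    MvPolynomial (Fin N) (ZMod p) →ₐ[ZMod p] MvPolynomial (Fin N) (ZMod p) :=
  aeval (fun i => linP (g (Pi.single i 1)))

theorem COORD_phi_lin (g : Vec p N →ₗ[ZMod p] Vec p N) (v : Vec p N) :
    COORD_phi g (linP v) = linP (g v) := by
  have h1 : v = ∑ i, v i • (Pi.single i (1 : ZMod p) : Vec p N) := by
    funext k
    simp [Finset.sum_apply, Pi.single_apply]
  have h2 : g v = ∑ i, v i • g (Pi.single i 1) := by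
    conv_lhs => rw [h1]
    rw [map_sum]
    simp only [map_smul]
  rw [h2, COORD_linP_sum]
  unfold linP COORD_phi
  rw [map_sum]
  refine Finset.sum_congr rfl fun i _ => ?_
  rw [map_mul, aeval_X, aeval_C]
  rfl

theorem COORD_linP_single (i : Fin N) :
    linP (Pi.single i (1 : ZMod p)) = (X i : MvPolynomial (Fin N) (ZMod p)) := by
  unfold linP
  rw [Finset.sum_eq_single i]
  · simp
  · intro j _ hj
    simp [hj]
  · intro h
    exact absurd (Finset.mem_univ i) h

theorem COORD_phi_comp (g h : Vec p N →ₗ[ZMod p] Vec p N) (hgh : ∀ v, h (g v) = v)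
    (P : MvPolynomial (Fin N) (ZMod p)) : COORD_phi h (COORD_phi g P) = P := by
  have h1 : (COORD_phi h).comp (COORD_phi g) = AlgHom.id _ _ := by
    apply MvPolynomial.algHom_ext
    intro i
    rw [AlgHom.comp_apply, AlgHom.id_apply, ← COORD_linP_single, COORD_phi_lin, COORD_phi_lin, hgh]
  exact DFunLike.congr_fun h1 P

/-- the underlying ring homomorphism -/
noncomputable def COORD_phiR (g : Vec p N →ₗ[ZMod p] Vec p N) :
    MvPolynomial (Fin N) (ZMod p) →+* MvPolynomial (Fin N) (ZMod p) := (COORD_phi g).toRingHom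

theorem COORD_ker [hp : Fact p.Prime] (g : Vec p N →ₗ[ZMod p] Vec p N) :
    RingHom.ker (mkR p N) ≤ RingHom.ker ((mkR p N).comp (COORD_phiR g)) := by
  intro P hP
  rw [RingHom.mem_ker, mkR_eq_zero] at hP
  have h1 : Idl p N ≤ RingHom.ker ((mkR p N).comp (COORD_phiR g)) := by
    rw [Ideal.span_le]
    rintro _ ⟨i, rfl⟩
    show (mkR p N).comp (COORD_phiR g) (X i ^ p) = 0
    rw [map_pow, RingHom.comp_apply]
    have : (COORD_phiR g) (X i : MvPolynomial (Fin N) (ZMod p)) =
        linP (g (Pi.single i 1)) := by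
      show COORD_phi g (X i) = _
      rw [← COORD_linP_single, COORD_phi_lin]
    rw [this]
    exact lin_pow _
  exact h1 hP

/-- the ring homomorphism of a linear map -/
noncomputable def COORD_psi [Fact p.Prime] (g : Vec p N →ₗ[ZMod p] Vec p N) :
    Rg p N →+* Rg p N :=
  (mkR p N).liftOfSurjective (mkR_surj p N) ⟨_, COORD_ker g⟩

theorem COORD_psi_mk [Fact p.Prime] (g : Vec p N →ₗ[ZMod p] Vec p N)
    (P : MvPolynomial (Fin N) (ZMod p)) : COORD_psi g (mkR p N P) = mkR p N (COORD_phi g P) :=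
  RingHom.liftOfSurjective_comp_apply _ _ _ _

theorem COORD_psi_lin [Fact p.Prime] (g : Vec p N →ₗ[ZMod p] Vec p N) (v : Vec p N) :
    COORD_psi g (lin v) = lin (g v) := by
  unfold lin
  rw [COORD_psi_mk, COORD_phi_lin]

theorem COORD_psi_comp [Fact p.Prime] (g h : Vec p N →ₗ[ZMod p] Vec p N)
    (hgh : ∀ v, h (g v) = v) (f : Rg p N) : COORD_psi h (COORD_psi g f) = f := by
  obtain ⟨P, rfl⟩ := mkR_surj p N f
  rw [COORD_psi_mk, COORD_psi_mk, COORD_phi_comp g h hgh]

theorem COORD_linP_hom (v : Vec p N) : (linP v).IsHomogeneous 1 := by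
  unfold linP
  exact IsHomogeneous.sum _ _ _ fun i _ => isHomogeneous_C_mul_X _ _

theorem COORD_psi_gr [Fact p.Prime] (g : Vec p N →ₗ[ZMod p] Vec p N) (δ : ℤ) (f : Rg p N)
    (hf : f ∈ gr p N δ) : COORD_psi g f ∈ gr p N δ := by
  obtain ⟨P, rfl, hP⟩ := hf
  rw [COORD_psi_mk]
  by_cases h0 : P = 0
  · subst h0
    rw [map_zero, map_zero]
    exact zero_mem _
  · obtain ⟨α, hα⟩ := MvPolynomial.ne_zero_iff.1 h0
    have h1 := hP α hα
    have h2 : P.IsHomogeneous α.degree := by
      intro β hβ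
      have h3 := hP β hβ
      rw [← h1] at h3
      have h6 : (Finsupp.weight 1) β = β.degree :=
        (DFunLike.congr_fun (Finsupp.degree_eq_weight_one (σ := Fin N) (R := ℕ)) β).symm
      rw [h6]
      exact_mod_cast h3
    have h4 : (COORD_phi g P).IsHomogeneous α.degree := by
      have := h2.aeval (fun i => linP (g (Pi.single i 1))) (fun i => COORD_linP_hom _)
      rwa [one_mul] at this
    refine ⟨COORD_phi g P, rfl, fun β hβ => ?_⟩
    have h5 := h4 hβ
    have h6 : (Finsupp.weight 1) β = β.degree :=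
      (DFunLike.congr_fun (Finsupp.degree_eq_weight_one (σ := Fin N) (R := ℕ)) β).symm
    rw [h6] at h5
    rw [← h1]
    exact_mod_cast h5

theorem t_COORD : S_COORD := by
  intro p N _ g
  refine ⟨RingEquiv.ofRingHom (COORD_psi (g : Vec p N →ₗ[ZMod p] Vec p N))
    (COORD_psi (g.symm : Vec p N →ₗ[ZMod p] Vec p N)) ?_ ?_, ?_, ?_⟩
  · ext f
    exact COORD_psi_comp _ _ (fun v => g.apply_symm_apply v) f
  · ext f
    exact COORD_psi_comp _ _ (fun v => g.symm_apply_apply v) f
  · intro v
    exact COORD_psi_lin _ v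
  · intro δ f
    constructor
    · intro hf
      exact COORD_psi_gr _ δ f hf
    · intro hf
      have h1 := COORD_psi_gr (g.symm : Vec p N →ₗ[ZMod p] Vec p N) δ _ hf
      have h2 : COORD_psi (g.symm : Vec p N →ₗ[ZMod p] Vec p N)
          (COORD_psi (g : Vec p N →ₗ[ZMod p] Vec p N) f) = f :=
        COORD_psi_comp _ _ (fun v => g.symm_apply_apply v) f
      have h3 : COORD_psi (g.symm : Vec p N →ₗ[ZMod p] Vec p N)
          ((RingEquiv.ofRingHom (COORD_psi (g : Vec p N →ₗ[ZMod p] Vec p N))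
            (COORD_psi (g.symm : Vec p N →ₗ[ZMod p] Vec p N))
            (by ext f; exact COORD_psi_comp _ _ (fun v => g.apply_symm_apply v) f)
            (by ext f; exact COORD_psi_comp _ _ (fun v => g.symm_apply_apply v) f)) f) = f := h2
      rwa [h3] at h1

end Pool.H433AJT
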