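import Pool.Agent.H433R2.AJT.T_A2

set_option autoImplicit false

open MvPolynomial
open scoped Classical

namespace Pool.H433AJT

theorem t_DBLUP (hP : S_PART) (hA : S_A1) : S_DBLUP := by
  intro F V ι _ _ _ _ lam v U I b hlam hI W₀ W i hWW hi hT hv
  obtain ⟨hiI, hv0, hc0⟩ := A2_mem_dbl.1 hi
  have hmem : i ∈ cls v I W₀ i := A2_mem_cls.2 ⟨hiI, hv0, rfl⟩
  obtain ⟨j, hj, hji⟩ : ∃ j ∈ cls v I W₀ i, j ≠ i := by
    apply Finset.exists_mem_ne
    omega
  obtain ⟨hjI, hvj0, hjj⟩ := A2_mem_cls.1 hj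
  have hvj : v j ∉ W := by
    intro h
    apply hv
    have h1 : v i ∈ jn W₀ (v j) := by rw [hjj]; exact A2_mem_jn W₀ (v i)
    have h2 : jn W₀ (v j) ≤ W := by
      apply sup_le hWW
      rw [Submodule.span_singleton_le_iff_mem]
      exact h
    exact h2 h1
  have hjn : jn W (v j) = jn W (v i) := by
    refine A2_jn_eq ?_ hvj
    have h1 : v j ∈ jn W₀ (v i) := by rw [← hjj]; exact A2_mem_jn W₀ (v j)
    exact (sup_le_sup_right hWW (Submodule.span F {v i}) : jn W₀ (v i) ≤ jn W (v i)) h1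
  have h2 : ({i, j} : Finset ι) ⊆ cls v I W i := by
    intro k hk
    rw [Finset.mem_insert, Finset.mem_singleton] at hk
    rcases hk with rfl | rfl
    · exact A2_mem_cls.2 ⟨hiI, hv, rfl⟩
    · exact A2_mem_cls.2 ⟨hjI, hvj, hjn⟩
  have h3 := Finset.card_le_card h2
  rw [Finset.card_pair hji.symm] at h3
  refine A2_mem_dbl.2 ⟨hiI, hv, ?_⟩
  by_contra hne
  obtain ⟨σ, hσ⟩ := hP F V ι v I W
  have h4 := (hA F V ι lam v U I b hlam hI W (dbl v I W) σ hT.1 (Finset.filter_subset _ _) hσ).2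
    ⟨i, hiI, hv, by omega⟩
  have h5 := hT.2
  omega

end Pool.H433AJT
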