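import Pool.Agent.H433R2.AJT.SpecC

set_option autoImplicit false

open MvPolynomial
open scoped Classical

namespace Pool.H433AJT

theorem t_DEL2 (h1 : S_FDEL) (h2 : S_A3) : S_DEL2 := by
  intro F V ι _ _ _ _ lam v U I b hlam hI i hi
  refine ⟨fun j hj => hI.1 j (Finset.mem_of_mem_erase hj), fun W hW => ?_⟩
  obtain ⟨e1, e2, e3, e4, e5⟩ := h1 F V ι lam v U I b b W i hi
  have hb := hI.2 W hW
  rw [e1, sub_self, add_zero]
  by_cases hv : v i ∈ W
  · rw [if_pos hv, e2 hv]
    omega
  · rw [if_neg hv, add_zero]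
    by_cases c2 : (cls v I W i).card = 2
    · have := (e3 hv c2).1
      omega
    · by_cases c3 : (cls v I W i).card = 3
      · have h4 := e4 hv c3
        have h5 := h2 F V ι lam v U I b hlam hI W hW ⟨i, hi, hv, by omega⟩
        omega
      · rw [e5 hv c2 c3]
        exact hb

end Pool.H433AJT
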