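import Pool.Agent.H433R2.AJT.SpecC

open MvPolynomial
open scoped Classical

namespace Pool.H433AJT

section DICH_sec
variable {F V ι : Type} [Field F] [AddCommGroup V] [Module F V]

theorem DICH_mem (W : Submodule F V) (x : V) : x ∈ jn W x :=
  Submodule.mem_sup_right (Submodule.mem_span_singleton_self x)

theorem DICH_le (W : Submodule F V) (x : V) : W ≤ jn W x := le_sup_left

theorem DICH_jn_le {W W' : Submodule F V} {x : V} (h : W ≤ W') (hx : x ∈ W') : jn W x ≤ W' := by
  refine sup_le h ?_
  rw [Submodule.span_singleton_le_iff_mem]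
  exact hx

theorem DICH_exch {W : Submodule F V} {x y : V} (hy : y ∈ jn W x) (hyW : y ∉ W) :
    jn W y = jn W x := by
  apply le_antisymm (DICH_jn_le (DICH_le W x) hy)
  refine DICH_jn_le (DICH_le W y) ?_
  rw [Submodule.mem_sup] at hy
  obtain ⟨w, hw, z, hz, rfl⟩ := hy
  rw [Submodule.mem_span_singleton] at hz
  obtain ⟨c, rfl⟩ := hz
  have hc : c ≠ 0 := by
    rintro rfl
    apply hyW
    simpa using hw
  have h1 : c⁻¹ • ((w + c • x) - w) ∈ jn W (w + c • x) :=
    Submodule.smul_mem _ _ (Submodule.sub_mem _ (DICH_mem W _) (DICH_le W _ hw))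
  rwa [add_sub_cancel_left, smul_smul, inv_mul_cancel₀ hc, one_smul] at h1

theorem DICH_up {W W' : Submodule F V} {x y : V} (h : W ≤ W') (hxy : jn W x = jn W y) :
    jn W' x = jn W' y := by
  have h1 : jn W' x = W' ⊔ jn W x := by
    rw [← sup_assoc, sup_eq_left.mpr h]
  have h2 : jn W' y = W' ⊔ jn W y := by
    rw [← sup_assoc, sup_eq_left.mpr h]
  rw [h1, h2, hxy]

theorem DICH_mem_iff {W W' : Submodule F V} {x y : V} (h : W ≤ W') (hxy : jn W x = jn W y)
    (hx : x ∈ W') : y ∈ W' := by
  have h1 : jn W x ≤ W' := DICH_jn_le h hx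
  rw [hxy] at h1
  exact h1 (DICH_mem W y)

theorem DICH_rank [FiniteDimensional F V] {W : Submodule F V} {x : V} (hx : x ∉ W) :
    Module.finrank F (jn W x) = Module.finrank F W + 1 := by
  have hinf : W ⊓ Submodule.span F {x} = ⊥ := by
    rw [Submodule.eq_bot_iff]
    rintro y ⟨hy1, hy2⟩
    have hy2' : y ∈ Submodule.span F {x} := hy2
    rw [Submodule.mem_span_singleton] at hy2'
    obtain ⟨c, rfl⟩ := hy2'
    by_cases hc : c = 0
    · rw [hc, zero_smul]
    · exfalso
      apply hx
      have : c⁻¹ • (c • x) ∈ W := Submodule.smul_mem _ _ hy1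
      rwa [smul_smul, inv_mul_cancel₀ hc, one_smul] at this
  have h1 := Submodule.finrank_sup_add_finrank_inf_eq W (Submodule.span F {x})
  have hx0 : x ≠ 0 := by
    rintro rfl
    exact hx W.zero_mem
  rw [hinf, finrank_bot, finrank_span_singleton hx0] at h1
  simpa using h1

end DICH_sec

theorem t_DICH (hG : S_GAIN) : S_DICH := by
  intro F V ι _ _ _ _ lam v U I hlam hC
  by_contra hcon
  rw [not_or] at hcon
  obtain ⟨hn1, hn2⟩ := hcon
  push Not at hn2
  obtain ⟨hCU, hCs, hCc⟩ := hC
  -- a violation of maximal rank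
  let Q : ℕ → Prop := fun n => ∃ W : Submodule F V, Module.finrank F W = n ∧ U ≤ W ∧
    ∃ (D : Finset ι) (σ : ι → ι), D ⊆ I ∧ Mat v W D σ ∧ (∀ i ∈ D, (cls v I U i).card = 1) ∧
      slack lam v U I W < D.card
  have hQ : ∃ n, Q n := by
    obtain ⟨W, hW, D, σ, h1, h2, h3, h4⟩ := hn2
    exact ⟨_, W, rfl, hW, D, σ, h1, h2, h3, h4⟩
  have hQb : ∀ n, Q n → n ≤ Module.finrank F V := by
    rintro n ⟨W, rfl, -⟩
    exact Submodule.finrank_le W
  obtain ⟨n0, hn0⟩ := hQ
  have hmax : ∃ n, Q n ∧ ∀ k, Q k → k ≤ n := by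
    refine ⟨Nat.findGreatest Q (Module.finrank F V), ?_, ?_⟩
    · exact Nat.findGreatest_spec (hQb n0 hn0) hn0
    · intro k hk
      exact Nat.le_findGreatest (hQb k hk) hk
  obtain ⟨n, ⟨W, hWn, hUW, D, σ, hDI, hM, hD1, hviol⟩, hbest⟩ := hmax
  have hself : ∀ (W₁ : Submodule F V) (J : Finset ι), (∀ i ∈ J, v i ∉ W₁) →
      slack lam v W₁ J W₁ = 0 := by
    intro W₁ J hJ
    unfold slack
    have h1 : J.filter (fun i => v i ∈ W₁) = ∅ := by
      rw [Finset.filter_eq_empty_iff]
      intro i hi
      exact hJ i hi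
    rw [h1]
    simp
  have hDne : D.Nonempty := by
    rw [← Finset.card_pos]
    have := hCs W hUW
    have h2 : (0 : ℤ) < D.card := lt_of_le_of_lt this hviol
    exact_mod_cast h2
  have hUneW : U ≠ W := by
    rintro rfl
    obtain ⟨i, hi⟩ := hDne
    obtain ⟨h1, h2, h3, h4, h5⟩ := hM i hi
    have hc := hD1 i hi
    rw [Finset.card_eq_one] at hc
    obtain ⟨a, ha⟩ := hc
    have hi1 : i ∈ cls v I U i := by
      unfold cls
      rw [Finset.mem_filter]
      exact ⟨hDI hi, h4, rfl⟩
    have hi2 : σ i ∈ cls v I U i := by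
      unfold cls
      rw [Finset.mem_filter]
      exact ⟨hDI h1, hCU _ (hDI h1), h5⟩
    rw [ha, Finset.mem_singleton] at hi1 hi2
    exact h3 (hi2.trans hi1.symm)
  -- positive slack for larger spaces
  have hpos : ∀ W', W < W' → 0 < slack lam v W (I.filter fun i => v i ∉ W) W' := by
    intro W' hW'
    have hM' : Mat v W' (D.filter fun i => v i ∉ W') σ := by
      intro i hi
      rw [Finset.mem_filter] at hi
      obtain ⟨h1, h2, h3, h4, h5⟩ := hM i hi.1
      refine ⟨?_, h2, h3, hi.2, DICH_up hW'.le h5⟩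
      rw [Finset.mem_filter]
      refine ⟨h1, fun h => hi.2 ?_⟩
      exact DICH_mem_iff hW'.le h5 h
    have h1 : ((D.filter fun i => v i ∉ W').card : ℤ) ≤ slack lam v U I W' := by
      by_contra hlt
      push Not at hlt
      have h2 : Q (Module.finrank F W') :=
        ⟨W', rfl, hUW.trans hW'.le, _, σ, (Finset.filter_subset _ _).trans hDI, hM',
          fun i hi => hD1 i (Finset.mem_filter.mp hi).1, hlt⟩
      have h3 := hbest _ h2
      have h4 := Submodule.finrank_lt_finrank_of_lt hW'
      omega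
    have h2 := hG F V ι lam v U I hlam hCU W W' hUW hW'.le D σ hDI hM hD1
    have h3 : ((D.filter fun i => v i ∈ W').card : ℤ) + ((D.filter fun i => v i ∉ W').card : ℤ) =
        D.card := by
      have := Finset.card_filter_add_card_filter_not (s := D) (fun i => v i ∈ W')
      exact_mod_cast this
    linarith
  apply hn1
  refine ⟨W, lt_of_le_of_ne hUW hUneW, ?_, ?_, ?_, ?_⟩
  · obtain ⟨i, hi⟩ := hDne
    exact ⟨i, hDI hi, (hM i hi).2.2.2.1⟩
  · intro i hi
    exact (Finset.mem_filter.mp hi).2
  · intro W' hW'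
    rcases eq_or_lt_of_le hW' with rfl | hlt
    · rw [hself]
      intro i hi
      exact (Finset.mem_filter.mp hi).2
    · exact (hpos W' hlt).le
  · intro i hi
    have hiW : v i ∉ W := (Finset.mem_filter.mp hi).2
    have hlt : W < jn W (v i) := by
      refine lt_of_le_of_ne (DICH_le W _) ?_
      intro he
      apply hiW
      rw [he]
      exact DICH_mem W _
    have h1 := hpos _ hlt
    set J := I.filter fun i => v i ∉ W with hJ
    have himg : (J.filter (fun j => v j ∈ jn W (v i))).image (fun j => jn W (v j)) =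
        {jn W (v i)} := by
      ext L
      rw [Finset.mem_image, Finset.mem_singleton]
      constructor
      · rintro ⟨j, hj, rfl⟩
        rw [Finset.mem_filter] at hj
        exact DICH_exch hj.2 (Finset.mem_filter.mp hj.1).2
      · rintro rfl
        exact ⟨i, Finset.mem_filter.mpr ⟨hi, DICH_mem W _⟩, rfl⟩
    unfold slack at h1
    rw [himg, Finset.sum_singleton, DICH_rank hiW] at h1
    push_cast at h1
    have hsub : (cls v J W i).card ≤ (J.filter fun j => jn W (v j) = jn W (v i)).card := by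
      apply Finset.card_le_card
      intro j hj
      unfold cls at hj
      rw [Finset.mem_filter] at hj ⊢
      exact ⟨hj.1, hj.2.2⟩
    set C := (J.filter fun j => jn W (v j) = jn W (v i)).card with hCdef
    have h2 : wt lam C < 2 * lam := by linarith
    have h3 : (C : ℤ) ≤ 2 * lam + 2 := by
      unfold wt at h2
      split_ifs at h2 with h0 h1'
      · rw [h0]; push_cast; linarith
      · rw [h1']; push_cast; linarith
      · rw [min_lt_iff] at h2
        rcases h2 with h2 | h2
        · linarith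
        · linarith
    have h4 : ((cls v J W i).card : ℤ) ≤ C := by exact_mod_cast hsub
    linarith

end Pool.H433AJT
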