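import Pool.Agent.H433R2.AJT.SpecC

open MvPolynomial
open scoped Classical

namespace Pool.H433AJT

theorem t_EMP (hL : S_LOW) : S_EMP := by
  intro p N hp U j δ hj c hc _
  have hc' : c ∈ (if j = 0 then Mo U δ else (⊥ : AddSubgroup (Rg p N))) := hc
  by_cases h0 : j = 0
  · rw [if_pos h0] at hc' ⊢
    rcases hj with hj | hj
    · omega
    · exact hL p N U δ c hc' hj
  · rw [if_neg h0] at hc' ⊢
    refine ⟨0, zero_mem _, ?_⟩
    rw [map_zero]
    exact ((AddSubgroup.mem_bot).1 hc').symm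

end Pool.H433AJT
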