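import Pool.Agent.H433R2.AJT.SpecC

open MvPolynomial
open scoped Classical

namespace Pool.H433AJT

theorem t_EXSAFE (h1 : S_EXT) (h2 : S_DBLUP) : S_EXSAFE := by
  intro F V ι _ _ _ _ lam v U I b hl hInv hb hne
  by_cases ht : ∃ W, Tight lam v U I b W
  · obtain ⟨U₀, hU₀, hmin⟩ := (h1 F V ι lam v U I b hl hInv ht).1
    by_cases hex : ∃ i ∈ I, v i ∈ U₀
    · obtain ⟨i, hi, hiU⟩ := hex
      exact ⟨i, hi, fun W hW hv => absurd (hmin W hW hiU) hv⟩
    · push Not at hex
      have hnn : nn v I U₀ = 0 := by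
        unfold nn
        rw [Finset.filter_eq_empty_iff.2 (fun i hi => hex i hi)]
        simp
      have hfr : (Module.finrank F U : ℤ) ≤ Module.finrank F U₀ := by
        exact_mod_cast Submodule.finrank_mono hU₀.1
      have hF : 0 < FF lam v U I b U₀ := by
        unfold FF
        rw [hnn]
        have : 0 ≤ lam * (2 * ((Module.finrank F U₀ : ℤ) - Module.finrank F U) - 0) :=
          mul_nonneg (by linarith) (by linarith)
        linarith
      rw [hU₀.2] at hF
      have hpos : 0 < (dbl v I U₀).card := by exact_mod_cast hF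
      obtain ⟨i, hi⟩ := Finset.card_pos.1 hpos
      have hi' := hi
      unfold dbl at hi'
      rw [Finset.mem_filter] at hi'
      refine ⟨i, hi'.1, fun W hW hv => ?_⟩
      exact h2 F V ι lam v U I b hl hInv U₀ W i (hmin W hW) hi hW hv
  · obtain ⟨i, hi⟩ := hne
    exact ⟨i, hi, fun W hW => absurd ⟨W, hW⟩ ht⟩

end Pool.H433AJT
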