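import Pool.Agent.H433R2.AJT.SpecC

open MvPolynomial

open scoped Classical

namespace Pool.H433AJT

theorem t_EXT (h : S_B) : S_EXT := by
  intro F V ι _ _ _ _ lam v U I b hlam hI hex
  constructor
  · obtain ⟨U₀, hU₀, hmin⟩ := WellFounded.has_min
      (measure (fun W : Submodule F V => Module.finrank F W)).wf
      {W | Tight lam v U I b W} hex
    refine ⟨U₀, hU₀, fun W hW => ?_⟩
    have h1 := (h F V ι lam v U I b hlam hI U₀ W hU₀ hW).1
    have h2 : ¬ Module.finrank F (U₀ ⊓ W : Submodule F V) < Module.finrank F U₀ :=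
      hmin _ h1
    have h3 : (U₀ ⊓ W : Submodule F V) = U₀ :=
      Submodule.eq_of_le_of_finrank_le inf_le_left (not_lt.mp h2)
    exact inf_eq_left.mp h3
  · obtain ⟨U₁, hU₁, hmax⟩ := WellFounded.has_min
      (measure (fun W : Submodule F V => Module.finrank F V - Module.finrank F W)).wf
      {W | Tight lam v U I b W} hex
    refine ⟨U₁, hU₁, fun W hW => ?_⟩
    obtain ⟨T, hT, hle⟩ := (h F V ι lam v U I b hlam hI U₁ W hU₁ hW).2
    have h2 : ¬ Module.finrank F V - Module.finrank F T <
        Module.finrank F V - Module.finrank F U₁ := hmax _ hT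
    have h4 : Module.finrank F T ≤ Module.finrank F V := Submodule.finrank_le T
    have h5 : Module.finrank F U₁ ≤ Module.finrank F V := Submodule.finrank_le U₁
    have h3 : U₁ = T :=
      Submodule.eq_of_le_of_finrank_le (le_trans le_sup_left hle) (by omega)
    rw [h3]
    exact le_trans le_sup_right hle

end Pool.H433AJT
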