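import Pool.Agent.H433R2.AJT.SpecC


open MvPolynomial

open scoped Classical

namespace Pool.H433AJT

theorem FCON_finrank {F V : Type} [Field F] [AddCommGroup V] [Module F V] [FiniteDimensional F V]
    (U : Submodule F V) (x : V) (hx : x ∉ U) :
    Module.finrank F (jn U x : Submodule F V) = Module.finrank F U + 1 := by
  have hx0 : x ≠ 0 := by
    rintro rfl
    exact hx U.zero_mem
  have h1 := Submodule.finrank_sup_add_finrank_inf_eq U (Submodule.span F {x})
  have h2 : U ⊓ Submodule.span F {x} = ⊥ := by
    rw [eq_bot_iff]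
    intro y hy
    obtain ⟨hy1, hy2⟩ := Submodule.mem_inf.mp hy
    obtain ⟨c, rfl⟩ := Submodule.mem_span_singleton.mp hy2
    by_cases hc : c = 0
    · rw [hc, zero_smul]
      exact Submodule.zero_mem _
    · exact absurd ((Submodule.smul_mem_iff U hc).mp hy1) hx
  rw [h2, finrank_bot, finrank_span_singleton hx0, add_zero] at h1
  exact h1

theorem FCON_exch {F V : Type} [Field F] [AddCommGroup V] [Module F V]
    (U : Submodule F V) (x y : V) (hy : y ∈ jn U x) (hyU : y ∉ U) : jn U y = jn U x := by
  apply le_antisymm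
  · refine sup_le le_sup_left ?_
    rw [Submodule.span_singleton_le_iff_mem]
    exact hy
  · refine sup_le le_sup_left ?_
    rw [Submodule.span_singleton_le_iff_mem]
    obtain ⟨u, hu, z, hz, hz2⟩ := Submodule.mem_sup.mp hy
    obtain ⟨c, rfl⟩ := Submodule.mem_span_singleton.mp hz
    have hc : c ≠ 0 := by
      rintro rfl
      rw [zero_smul, add_zero] at hz2
      rw [← hz2] at hyU
      exact hyU hu
    have h1 : c • x = y - u := by rw [← hz2, add_sub_cancel_left]
    rw [← Submodule.smul_mem_iff _ hc, h1]
    exact Submodule.sub_mem _ (Submodule.mem_sup_right (Submodule.mem_span_singleton_self y))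
      (Submodule.mem_sup_left hu)

theorem t_FCON : S_FCON := by
  intro F V ι _ _ _ _ lam v U I b β i hI hi
  have hviU : v i ∉ U := hI i hi
  have hcls : cls v I U i = I.filter (fun j => v j ∈ jn U (v i)) := by
    unfold cls
    refine Finset.filter_congr fun j hj => ⟨fun h => ?_, fun h => ⟨hI j hj, ?_⟩⟩
    · rw [← h.2]
      exact Submodule.mem_sup_right (Submodule.mem_span_singleton_self _)
    · exact FCON_exch U (v i) (v j) h (hI j hj)
  refine ⟨fun W hW => ?_, fun W hW => ?_⟩
  · have hfr := FCON_finrank U (v i) hviU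
    have hnn : nn v I W = nn v (I.filter fun j => v j ∉ jn U (v i)) W + (cls v I U i).card := by
      unfold nn
      rw [hcls]
      have h1 : I.filter (fun j => v j ∈ W) =
          ((I.filter fun j => v j ∉ jn U (v i)).filter fun j => v j ∈ W) ∪
            I.filter (fun j => v j ∈ jn U (v i)) := by
        ext j
        rw [Finset.mem_union, Finset.mem_filter, Finset.mem_filter, Finset.mem_filter,
          Finset.mem_filter]
        constructor
        · rintro ⟨g1, g2⟩
          by_cases h : v j ∈ jn U (v i)
          · exact Or.inr ⟨g1, h⟩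
          · exact Or.inl ⟨⟨g1, h⟩, g2⟩
        · rintro (⟨⟨g1, _⟩, g3⟩ | ⟨g1, g2⟩)
          · exact ⟨g1, g3⟩
          · exact ⟨g1, hW g2⟩
      have h2 : Disjoint ((I.filter fun j => v j ∉ jn U (v i)).filter fun j => v j ∈ W)
          (I.filter (fun j => v j ∈ jn U (v i))) := by
        rw [Finset.disjoint_left]
        intro j hj hj2
        rw [Finset.mem_filter, Finset.mem_filter] at hj
        rw [Finset.mem_filter] at hj2
        exact hj.1.2 hj2.2
      rw [h1, Finset.card_union_of_disjoint h2]
      push_cast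
      rfl
    unfold FF
    rw [hnn, hfr]
    push_cast
    ring
  · have hcl : ∀ k, cls v (I.filter fun j => v j ∉ jn U (v i)) W k = cls v I W k := by
      intro k
      unfold cls
      ext j
      rw [Finset.mem_filter, Finset.mem_filter, Finset.mem_filter]
      constructor
      · rintro ⟨⟨g1, _⟩, g3⟩
        exact ⟨g1, g3⟩
      · rintro ⟨g1, g2⟩
        exact ⟨⟨g1, fun h => g2.1 (hW h)⟩, g2⟩
    unfold dbl
    ext k
    rw [Finset.mem_filter, Finset.mem_filter, Finset.mem_filter, hcl]
    constructor
    · rintro ⟨⟨g1, _⟩, g3⟩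
      exact ⟨g1, g3⟩
    · rintro ⟨g1, g2⟩
      exact ⟨⟨g1, fun h => g2.1 (hW h)⟩, g2⟩

end Pool.H433AJT
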