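import Pool.Agent.H433R2.AJT.SpecC

open MvPolynomial
open scoped Classical

namespace Pool.H433AJT

theorem t_FINAL (h1 : S_MAIN0) (h2 : S_RULES) (h3 : S_NRULES) (h4 : S_TWOB) (h5 : S_NULL) :
    S_FINAL := by
  intro p hp hp11 n A hA c c'
  have hodd : p % 2 = 1 := by
    rcases hp.out.eq_two_or_odd with h | h
    · omega
    · exact h
  obtain ⟨k, hk⟩ : ∃ k : ℕ, p = 2 * k + 3 := ⟨(p - 3) / 2, by omega⟩
  have hk4 : 4 ≤ k := by omega
  have hlam : (p : ℤ) = 2 * (k : ℤ) + 3 := by rw [hk]; push_cast; ring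
  have hlam4 : (4 : ℤ) ≤ (k : ℤ) := by exact_mod_cast hk4
  have hR := h2 p n (k : ℤ) hlam (by omega) (Fin n ⊕ Fin n)
    (fun i : Fin n ⊕ Fin n => Sum.elim (fun i => (Pi.single i 1 : Fin n → ZMod p)) A i)
  have hN := h3 p n (k : ℤ) hlam (by omega) (Fin n ⊕ Fin n)
    (fun i : Fin n ⊕ Fin n => Sum.elim (fun i => (Pi.single i 1 : Fin n → ZMod p)) A i)
  have hC := h4 (ZMod p) n A (k : ℤ) hlam4 hA
  have hnn := h1 (ZMod p) (Fin n → ZMod p) (Fin n ⊕ Fin n) (k : ℤ) _ _ _ hlam4 hR hN ⊥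
    Finset.univ hC
  obtain ⟨x, hx⟩ := h5 p n (Fin n ⊕ Fin n) _ (Sum.elim c c') hnn
  refine ⟨x, fun i => ?_, fun i => ?_⟩
  · have := hx (Sum.inl i)
    intro hxi
    apply this
    change ∑ k, (Pi.single i 1 : Fin n → ZMod p) k * x k = c i
    rw [Finset.sum_eq_single i]
    · rw [Pi.single_eq_same, one_mul, hxi]
    · intro j _ hj
      rw [Pi.single_eq_of_ne hj, zero_mul]
    · intro h
      exact absurd (Finset.mem_univ i) h
  · have := hx (Sum.inr i)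
    exact this

end Pool.H433AJT
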