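import Pool.Agent.H433R2.AJT.SpecA

open MvPolynomial

open scoped Classical

namespace Pool.H433AJT

theorem FR_lin_add {p N : ℕ} (v w : Vec p N) : lin (v + w) = lin v + lin w := by
  unfold lin linP
  rw [← map_add, ← Finset.sum_add_distrib]
  congr 1
  refine Finset.sum_congr rfl fun i _ => ?_
  rw [Pi.add_apply, C_add, add_mul]

theorem FR_lin_smul {p N : ℕ} (c : ZMod p) (v : Vec p N) :
    lin (c • v) = mkR p N (C c) * lin v := by
  unfold lin linP
  rw [← map_mul, Finset.mul_sum]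
  congr 1
  refine Finset.sum_congr rfl fun i _ => ?_
  rw [Pi.smul_apply, smul_eq_mul, C_mul, mul_assoc]

theorem FR_lin_zero {p N : ℕ} : lin (0 : Vec p N) = 0 := by
  unfold lin linP
  simp

theorem FR_span {p N : ℕ} (S : Set (Vec p N)) (f : Rg p N) (h : ∀ u ∈ S, lin u * f = 0) :
    ∀ u ∈ Submodule.span (ZMod p) S, lin u * f = 0 := by
  intro u hu
  induction hu using Submodule.span_induction with
  | mem x hx => exact h x hx
  | zero => rw [FR_lin_zero, zero_mul]
  | add x y _ _ hx hy => rw [FR_lin_add, add_mul, hx, hy, add_zero]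
  | smul c x _ hx => rw [FR_lin_smul, mul_assoc, hx, mul_zero]

theorem t_FR (hC : S_COORD) (hA : S_ADAPT) (hM : S_MONOFR) : S_FR := by
  intro p N _ U v hv a ha δ f hf hvf
  obtain ⟨g, T, i0, hi0, hcard, hgv, hU⟩ := (hA p N U).2.1 v hv
  obtain ⟨Φ, hΦ, hgr⟩ := hC p N g
  have hf0 : Φ (Φ.symm f) = f := Φ.apply_symm_apply f
  have hgi : ∀ i ∈ T, g (Pi.single i 1) ∈ U := by
    intro i hi
    rw [hU]
    exact Submodule.subset_span ⟨i, hi, rfl⟩
  obtain ⟨g0, hg0, hk, hfac⟩ := hM p N T i0 hi0 a ha δ (Φ.symm f) ((hgr δ _).2 (by rw [hf0]; exact hf.1))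
    (fun i hi => by
      apply Φ.injective
      rw [map_mul, hf0, hΦ, map_zero]
      exact hf.2 _ (hgi i hi))
    (by
      apply Φ.injective
      rw [map_mul, map_pow, hf0, hΦ, map_zero, hgv]
      exact hvf)
  refine ⟨Φ g0, ⟨(hgr _ _).1 hg0, ?_⟩, ?_⟩
  · intro u hu
    rw [hU] at hu
    refine FR_span _ (Φ g0) ?_ u hu
    rintro _ ⟨i, hi, rfl⟩
    show lin (g (Pi.single i 1)) * Φ g0 = 0
    rw [← hΦ, ← map_mul, hk i hi, map_zero]
  · rw [← hf0, hfac, map_mul, map_pow, hΦ, hgv]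

end Pool.H433AJT
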