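import Pool.Agent.H433R2.AJT.SpecB

open scoped Classical

namespace Pool.H433AJT

theorem GAIN_wt_le (lam : ℤ) (hl : 4 ≤ lam) (m : ℕ) : wt lam m ≤ 2 * lam := by
  unfold wt
  split_ifs
  · linarith
  · linarith
  · exact min_le_right _ _

theorem GAIN_wt_one (lam : ℤ) : wt lam 1 = lam := by
  unfold wt
  simp

theorem GAIN_wt_ge2 (lam : ℤ) (hl : 4 ≤ lam) (m : ℕ) (hm : 2 ≤ m) : lam + 2 ≤ wt lam m := by
  unfold wt
  have h0 : m ≠ 0 := by omega
  have h1 : m ≠ 1 := by omega
  rw [if_neg h0, if_neg h1]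
  have : (2 : ℤ) ≤ m := by exact_mod_cast hm
  exact le_min (by linarith) (by linarith)

theorem GAIN_wt_two (lam : ℤ) (hl : 4 ≤ lam) : wt lam 2 = lam + 2 := by
  unfold wt
  rw [if_neg (by norm_num), if_neg (by norm_num)]
  exact min_eq_left (by push_cast; linarith)

theorem GAIN_comb {ι α : Type} (lam : ℤ) (hl : 4 ≤ lam) (E D : Finset ι) (f : ι → α)
    (hD : D ⊆ E) (h1 : ∀ i ∈ D, (E.filter fun j => f j = f i).card = 1)
    (h2 : ∀ i ∈ D, ∃ j ∈ D, j ≠ i) :
    wt lam E.card + (D.card : ℤ) ≤ ∑ L ∈ E.image f, wt lam ((E.filter fun j => f j = L).card) := by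
  set Q := E.image f with hQ
  set n : α → ℕ := fun L => (E.filter fun j => f j = L).card with hn
  have hnpos : ∀ L ∈ Q, 1 ≤ n L := by
    intro L hL
    obtain ⟨i, hi, rfl⟩ := Finset.mem_image.1 hL
    exact Finset.card_pos.2 ⟨i, Finset.mem_filter.2 ⟨hi, rfl⟩⟩
  have hcard : E.card = ∑ L ∈ Q, n L := Finset.card_eq_sum_card_image f E
  set Q1 := Q.filter fun L => n L = 1 with hQ1
  set Q2 := Q.filter fun L => ¬ n L = 1 with hQ2
  have hsplit : ∑ L ∈ Q, wt lam (n L) = ∑ L ∈ Q1, wt lam (n L) + ∑ L ∈ Q2, wt lam (n L) :=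
    (Finset.sum_filter_add_sum_filter_not Q (fun L => n L = 1) _).symm
  have hs1 : ∑ L ∈ Q1, wt lam (n L) = lam * (Q1.card : ℤ) := by
    rw [Finset.sum_congr rfl (g := fun _ => lam)]
    · rw [Finset.sum_const, nsmul_eq_mul, mul_comm]
    · intro L hL
      rw [(Finset.mem_filter.1 hL).2, GAIN_wt_one]
  have hs2 : (lam + 2) * (Q2.card : ℤ) ≤ ∑ L ∈ Q2, wt lam (n L) := by
    have : ∑ _L ∈ Q2, (lam + 2) ≤ ∑ L ∈ Q2, wt lam (n L) := by
      refine Finset.sum_le_sum fun L hL => ?_
      have hL' := Finset.mem_filter.1 hL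
      have := hnpos L hL'.1
      exact GAIN_wt_ge2 lam hl _ (by have := hL'.2; omega)
    rw [Finset.sum_const, nsmul_eq_mul, mul_comm] at this
    exact this
  have hQcard : Q1.card + Q2.card = Q.card := Finset.card_filter_add_card_filter_not _
  have hDQ : D.card ≤ Q1.card := by
    refine Finset.card_le_card_of_injOn f ?_ ?_
    · intro i hi
      exact Finset.mem_coe.2 (Finset.mem_filter.2 ⟨Finset.mem_image_of_mem f (hD hi), h1 i hi⟩)
    · intro i hi j hj hij
      have hc := h1 i hi
      rw [Finset.card_eq_one] at hc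
      obtain ⟨a, ha⟩ := hc
      have hi' : i ∈ E.filter fun k => f k = f i := Finset.mem_filter.2 ⟨hD hi, rfl⟩
      have hj' : j ∈ E.filter fun k => f k = f i := Finset.mem_filter.2 ⟨hD hj, hij.symm⟩
      rw [ha, Finset.mem_singleton] at hi' hj'
      rw [hi', hj']
  have hwE := GAIN_wt_le lam hl E.card
  show wt lam E.card + (D.card : ℤ) ≤ ∑ L ∈ Q, wt lam (n L)
  rcases D.eq_empty_or_nonempty with hDe | ⟨i0, hi0⟩
  · rw [hDe, Finset.card_empty, Nat.cast_zero, add_zero]
    rcases Nat.lt_or_ge Q.card 2 with hq | hq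
    · rcases Nat.lt_or_ge Q.card 1 with hq0 | hq1
      · have : Q = ∅ := Finset.card_eq_zero.1 (by omega)
        rw [this, Finset.sum_empty] at hcard ⊢
        rw [hcard]
        simp [wt]
      · obtain ⟨L, hL⟩ := Finset.card_eq_one.1 (show Q.card = 1 by omega)
        rw [hL, Finset.sum_singleton] at hcard ⊢
        rw [hcard]
    · rw [hsplit, hs1]
      have e1 : (2 : ℤ) ≤ (Q1.card : ℤ) + Q2.card := by
        have : 2 ≤ Q1.card + Q2.card := by omega
        exact_mod_cast this
      have e2 : (0 : ℤ) ≤ Q2.card := by positivity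
      nlinarith
  · obtain ⟨j0, hj0, hne⟩ := h2 i0 hi0
    have hD2 : 2 ≤ D.card := by
      have : ({i0, j0} : Finset ι) ⊆ D := by
        intro x hx
        rcases Finset.mem_insert.1 hx with rfl | hx
        · exact hi0
        · rw [Finset.mem_singleton.1 hx]
          exact hj0
      have h3 := Finset.card_le_card this
      rwa [Finset.card_pair (Ne.symm hne)] at h3
    have e1 : (2 : ℤ) ≤ Q1.card := by exact_mod_cast hD2.trans hDQ
    have e2 : (D.card : ℤ) ≤ Q1.card := by exact_mod_cast hDQ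
    rcases Nat.eq_zero_or_pos Q2.card with ht | ht
    · have hQ2e : Q2 = ∅ := Finset.card_eq_zero.1 ht
      have hEQ : E.card = Q1.card := by
        rw [hcard]
        have e3 : ∀ L ∈ Q, n L = 1 := by
          intro L hL
          by_contra hcon
          have : L ∈ Q2 := Finset.mem_filter.2 ⟨hL, hcon⟩
          rw [hQ2e] at this
          exact absurd this (Finset.notMem_empty _)
        rw [Finset.sum_congr rfl e3, Finset.sum_const, smul_eq_mul, mul_one]
        omega
      rw [hsplit, hs1, hQ2e, Finset.sum_empty, add_zero]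
      rcases Nat.lt_or_ge Q1.card 3 with h3 | h3
      · have hE2 : E.card = 2 := by omega
        have hQ12 : (Q1.card : ℤ) = 2 := by
          have : Q1.card = 2 := by omega
          exact_mod_cast this
        rw [hE2, GAIN_wt_two lam hl, hQ12]
        linarith
      · have h3' : (3 : ℤ) ≤ Q1.card := by exact_mod_cast h3
        nlinarith
    · have ht' : (1 : ℤ) ≤ Q2.card := by exact_mod_cast ht
      rw [hsplit, hs1]
      nlinarith

theorem t_GAIN : S_GAIN := by
  intro F V ι _ _ _ _ lam v U I hl hI W W' hUW hWW D σ hDI hM hD1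
  have hfW : ∀ i, jn U (v i) ≤ W ↔ v i ∈ W := by
    intro i
    constructor
    · intro h
      exact h (Submodule.mem_sup_right (Submodule.mem_span_singleton_self _))
    · intro h
      exact sup_le hUW ((Submodule.span_singleton_le_iff_mem _ _).2 h)
  have hgf : ∀ i, W ⊔ jn U (v i) = jn W (v i) := by
    intro i
    show W ⊔ (U ⊔ Submodule.span F {v i}) = W ⊔ Submodule.span F {v i}
    rw [← sup_assoc, sup_eq_left.2 hUW]
  have hgW : ∀ i, v i ∈ W' → jn W (v i) ≤ W' := fun i hi =>
    sup_le hWW ((Submodule.span_singleton_le_iff_mem _ _).2 hi)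
  have hgmem : ∀ i, v i ∈ jn W (v i) := fun i =>
    Submodule.mem_sup_right (Submodule.mem_span_singleton_self _)
  set A1 := (I.filter fun i => v i ∉ W).filter fun i => v i ∈ W' with hA1
  have hmA1 : ∀ i, i ∈ A1 ↔ i ∈ I ∧ v i ∉ W ∧ v i ∈ W' := by
    intro i
    rw [hA1, Finset.mem_filter, Finset.mem_filter, and_assoc]
  -- splitting of the classes in W'
  have himg : (I.filter fun i => v i ∈ W').image (fun i => jn U (v i)) =
      (I.filter fun i => v i ∈ W).image (fun i => jn U (v i)) ∪ A1.image (fun i => jn U (v i)) := by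
    rw [← Finset.image_union]
    congr 1
    ext i
    rw [Finset.mem_union, hmA1, Finset.mem_filter, Finset.mem_filter]
    constructor
    · intro h
      by_cases hw : v i ∈ W
      · exact Or.inl ⟨h.1, hw⟩
      · exact Or.inr ⟨h.1, hw, h.2⟩
    · rintro (h | h)
      · exact ⟨h.1, hWW h.2⟩
      · exact ⟨h.1, h.2.2⟩
  have hdisj : Disjoint ((I.filter fun i => v i ∈ W).image (fun i => jn U (v i)))
      (A1.image (fun i => jn U (v i))) := by
    rw [Finset.disjoint_left]
    intro L hL hL'
    obtain ⟨i, hi, rfl⟩ := Finset.mem_image.1 hL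
    obtain ⟨j, hj, hji⟩ := Finset.mem_image.1 hL'
    have h1 := (hfW i).2 (Finset.mem_filter.1 hi).2
    have hji' : jn U (v j) = jn U (v i) := hji
    rw [← hji', hfW] at h1
    exact ((hmA1 j).1 hj).2.1 h1
  -- the key inequality
  have hkey : ∑ C ∈ A1.image (fun i => jn W (v i)),
        wt lam (((I.filter fun i => v i ∉ W).filter fun j => jn W (v j) = C).card) +
      ((D.filter fun i => v i ∈ W').card : ℤ) ≤
      ∑ L ∈ A1.image (fun i => jn U (v i)), wt lam ((I.filter fun j => jn U (v j) = L).card) := by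
    have hmaps : ∀ L ∈ A1.image (fun i => jn U (v i)), W ⊔ L ∈ A1.image (fun i => jn W (v i)) := by
      intro L hL
      obtain ⟨i, hi, rfl⟩ := Finset.mem_image.1 hL
      rw [hgf]
      exact Finset.mem_image_of_mem _ hi
    have hmapsD : ∀ i ∈ D.filter (fun i => v i ∈ W'), jn W (v i) ∈
        A1.image (fun i => jn W (v i)) := by
      intro i hi
      have hi' := Finset.mem_filter.1 hi
      exact Finset.mem_image_of_mem (fun i => jn W (v i))
        ((hmA1 i).2 ⟨hDI hi'.1, (hM i hi'.1).2.2.2.1, hi'.2⟩)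
    rw [← Finset.sum_fiberwise_of_maps_to hmaps,
      Finset.card_eq_sum_card_fiberwise (f := fun i => jn W (v i)) (fun i hi =>
        Finset.mem_coe.2 (hmapsD i (Finset.mem_coe.1 hi)))]
    push_cast
    rw [← Finset.sum_add_distrib]
    refine Finset.sum_le_sum fun C hC => ?_
    obtain ⟨i0, hi0, hi0C⟩ := Finset.mem_image.1 hC
    have hi0C' : jn W (v i0) = C := hi0C
    have hCW : C ≤ W' := by
      rw [← hi0C']
      exact hgW i0 ((hmA1 i0).1 hi0).2.2
    set E := (I.filter fun i => v i ∉ W).filter fun j => jn W (v j) = C with hE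
    have hmE : ∀ j, j ∈ E ↔ j ∈ I ∧ v j ∉ W ∧ jn W (v j) = C := by
      intro j
      rw [hE, Finset.mem_filter, Finset.mem_filter, and_assoc]
    have hEA : ∀ j ∈ E, j ∈ A1 := by
      intro j hj
      have hj' := (hmE j).1 hj
      refine (hmA1 j).2 ⟨hj'.1, hj'.2.1, hCW ?_⟩
      rw [← hj'.2.2]
      exact hgmem j
    have hQ : (A1.image (fun i => jn U (v i))).filter (fun L => W ⊔ L = C) =
        E.image (fun i => jn U (v i)) := by
      ext L
      rw [Finset.mem_filter, Finset.mem_image, Finset.mem_image]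
      constructor
      · rintro ⟨⟨i, hi, rfl⟩, hL⟩
        rw [hgf] at hL
        exact ⟨i, (hmE i).2 ⟨((hmA1 i).1 hi).1, ((hmA1 i).1 hi).2.1, hL⟩, rfl⟩
      · rintro ⟨i, hi, rfl⟩
        refine ⟨⟨i, hEA i hi, rfl⟩, ?_⟩
        rw [hgf]
        exact ((hmE i).1 hi).2.2
    have hfib : ∀ i ∈ E, (I.filter fun j => jn U (v j) = jn U (v i)) =
        E.filter fun j => jn U (v j) = jn U (v i) := by
      intro i hi
      ext j
      rw [Finset.mem_filter, Finset.mem_filter]
      constructor
      · rintro ⟨hj, hji⟩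
        refine ⟨(hmE j).2 ⟨hj, ?_, ?_⟩, hji⟩
        · intro hw
          have := (hfW j).2 hw
          rw [hji, hfW] at this
          exact ((hmE i).1 hi).2.1 this
        · rw [← hgf, hji, hgf]
          exact ((hmE i).1 hi).2.2
      · rintro ⟨hj, hji⟩
        exact ⟨((hmE j).1 hj).1, hji⟩
    rw [hQ]
    have hsum : ∑ L ∈ E.image (fun i => jn U (v i)), wt lam ((I.filter fun j => jn U (v j) = L).card)
        = ∑ L ∈ E.image (fun i => jn U (v i)),
          wt lam ((E.filter fun j => jn U (v j) = L).card) := by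
      refine Finset.sum_congr rfl fun L hL => ?_
      obtain ⟨i, hi, rfl⟩ := Finset.mem_image.1 hL
      show wt lam ((I.filter fun j => jn U (v j) = jn U (v i)).card) =
        wt lam ((E.filter fun j => jn U (v j) = jn U (v i)).card)
      rw [hfib i hi]
    rw [hsum]
    have hDE : ∀ i, i ∈ (D.filter fun i => v i ∈ W').filter (fun i => jn W (v i) = C) → i ∈ E := by
      intro i hi
      have hi1 := Finset.mem_filter.1 hi
      have hi2 := Finset.mem_filter.1 hi1.1
      exact (hmE i).2 ⟨hDI hi2.1, (hM i hi2.1).2.2.2.1, hi1.2⟩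
    refine GAIN_comb lam hl E ((D.filter fun i => v i ∈ W').filter (fun i => jn W (v i) = C))
      (fun i => jn U (v i)) hDE ?_ ?_
    · intro i hi
      have hiE := hDE i hi
      have hiD := (Finset.mem_filter.1 (Finset.mem_filter.1 hi).1).1
      show (E.filter fun j => jn U (v j) = jn U (v i)).card = 1
      rw [← hfib i hiE, ← hD1 i hiD]
      congr 1
      ext j
      unfold cls
      rw [Finset.mem_filter, Finset.mem_filter]
      constructor
      · rintro ⟨h1, h2⟩
        exact ⟨h1, hI j h1, h2⟩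
      · rintro ⟨h1, _, h2⟩
        exact ⟨h1, h2⟩
    · intro i hi
      have hi1 := Finset.mem_filter.1 hi
      have hi2 := Finset.mem_filter.1 hi1.1
      have hm := hM i hi2.1
      have hgs : jn W (v (σ i)) = C := hm.2.2.2.2.trans hi1.2
      refine ⟨σ i, Finset.mem_filter.2 ⟨Finset.mem_filter.2 ⟨hm.1, hCW ?_⟩, hgs⟩, hm.2.2.1⟩
      rw [← hgs]
      exact hgmem (σ i)
  unfold slack
  rw [himg, Finset.sum_union hdisj]
  have hkey' := hkey
  nlinarith [hkey']

end Pool.H433AJT
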