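import Pool.Agent.H433R2.AJT.SpecA

open MvPolynomial
open scoped Classical

namespace Pool.H433AJT

theorem HZ_emb (p N : ℕ) [Fact p.Prime] (U : Submodule (ZMod p) (Vec p N)) :
    ∀ l : List (Vec p N × ℕ), ∃ e : Rg p N → (cplx U l).C,
      (∀ δ, ∀ g ∈ Mo U δ, e g ∈ (cplx U l).G 0 δ) ∧ (∀ r g : Rg p N, r • e g = e (r * g)) ∧
      (e 0 = 0) ∧ (∀ g, e g = 0 → g = 0) ∧
      (∀ g, (∀ a ∈ l, lin a.1 ^ (p - a.2) * g = 0) → (cplx U l).d (e g) = 0) := by
  intro l
  induction l with
  | nil =>
    refine ⟨fun g => g, ?_, ?_, rfl, ?_, ?_⟩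
    · intro δ g hg
      exact hg
    · intro r g
      rfl
    · intro g hg
      exact hg
    · intro g _
      rfl
  | cons a l ih =>
    obtain ⟨e, h1, h2, h3, h4, h5⟩ := ih
    refine ⟨fun g => (fun i : ℕ => if i = 0 then e g else 0 : ℕ → (cplx U l).C), ?_, ?_, ?_, ?_, ?_⟩
    · intro δ g hg
      show (∀ i, i ≤ 0 → (if i = 0 then e g else 0) ∈ (cplx U l).G (0 - i) (δ + sh p a.2 i)) ∧
        ∀ i, 0 < i → (if i = 0 then e g else 0) = 0
      refine ⟨fun i hi => ?_, fun i hi => ?_⟩
      · obtain rfl : i = 0 := by omega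
        have h6 : sh p a.2 0 = 0 := by simp [sh]
        rw [if_pos rfl, h6]
        simpa using h1 δ g hg
      · rw [if_neg (by omega)]
    · intro r g
      funext i
      show r • (if i = 0 then e g else 0) = (if i = 0 then e (r * g) else 0)
      split_ifs with h
      · exact h2 r g
      · exact smul_zero r
    · funext i
      show (if i = 0 then e 0 else 0) = 0
      split_ifs with h
      · exact h3
      · rfl
    · intro g hg
      have := congrFun hg 0
      exact h4 g this
    · intro g hg
      funext i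
      show (-1 : ℤ) ^ i • (cplx U l).d (if i = 0 then e g else 0) +
        (if i = 0 then 0 else (lin a.1) ^ (ex p a.2 i) • (if i - 1 = 0 then e g else 0)) = 0
      by_cases hi : i = 0
      · rw [if_pos hi, if_pos hi, h5 g (fun b hb => hg b (List.mem_cons_of_mem _ hb)), smul_zero,
          add_zero]
      · rw [if_neg hi, if_neg hi, map_zero, smul_zero, zero_add]
        by_cases hi1 : i - 1 = 0
        · rw [if_pos hi1]
          obtain rfl : i = 1 := by omega
          have h6 : ex p a.2 1 = p - a.2 := by simp [ex]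
          rw [h6, h2, hg a List.mem_cons_self, h3]
        · rw [if_neg hi1, smul_zero]

theorem t_HZ : S_HZ := by
  intro p N hp U l δ hV g hg hl
  obtain ⟨e, h1, h2, h3, h4, h5⟩ := HZ_emb p N U l
  have := hV (e g) (h1 δ g hg) (h5 g hl)
  rw [if_pos rfl] at this
  exact h4 g this

end Pool.H433AJT
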