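import Pool.Agent.H433R2.AJT.SpecA

open MvPolynomial
open scoped Classical

namespace Pool.H433AJT

theorem KER_per {p N : ℕ} [hp : Fact p.Prime] {B' B : BC p N} (v : Vec p N) (a : Vec p N × ℕ)
    (h : KerRel B' B v) : KerRel (per B' a) (per B a) v := by
  obtain ⟨e, h1, h2⟩ := h
  refine ⟨LinearEquiv.piCongrRight (fun _ : ℕ => e), fun c => ?_, fun j δ c => ?_⟩
  · funext i
    show e ((-1 : ℤ) ^ i • B'.d ((c : ℕ → B'.C) i) +
        (if i = 0 then 0 else (lin a.1) ^ (ex p a.2 i) • (c : ℕ → B'.C) (i - 1))) =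
      (-1 : ℤ) ^ i • B.d (e ((c : ℕ → B'.C) i)) +
        (if i = 0 then 0 else (lin a.1) ^ (ex p a.2 i) • e ((c : ℕ → B'.C) (i - 1)))
    rw [map_add, map_zsmul, h1]
    congr 1
    split_ifs
    · exact map_zero e
    · exact map_smul e _ _
  · show ((∀ i, i ≤ j → (c : ℕ → B'.C) i ∈ B'.G (j - i) (δ + sh p a.2 i)) ∧
        ∀ i, j < i → (c : ℕ → B'.C) i = 0) ↔
      (((∀ i, i ≤ j → e ((c : ℕ → B'.C) i) ∈ B.G (j - i) (δ + sh p a.2 i)) ∧
        ∀ i, j < i → e ((c : ℕ → B'.C) i) = 0) ∧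
        (fun i => lin v • e ((c : ℕ → B'.C) i)) = (0 : ℕ → B.C))
    constructor
    · rintro ⟨h3, h4⟩
      refine ⟨⟨fun i hi => ((h2 _ _ _).1 (h3 i hi)).1, fun i hi => by rw [h4 i hi, map_zero]⟩, ?_⟩
      funext i
      show lin v • e ((c : ℕ → B'.C) i) = 0
      by_cases hi : i ≤ j
      · exact ((h2 _ _ _).1 (h3 i hi)).2
      · rw [h4 i (by omega), map_zero, smul_zero]
    · rintro ⟨⟨h3, h4⟩, h5⟩
      exact ⟨fun i hi => (h2 _ _ _).2 ⟨h3 i hi, congrFun h5 i⟩, fun i hi =>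
        (LinearEquiv.map_eq_zero_iff e).1 (h4 i hi)⟩

theorem t_KER (hL : S_LINADD) : S_KER := by
  intro p N hp U v l
  induction l with
  | nil =>
    refine ⟨LinearEquiv.refl _ _, fun _ => rfl, fun j δ => ?_⟩
    show ∀ c : Rg p N, c ∈ (if j = 0 then Mo (U ⊔ Submodule.span (ZMod p) {v}) δ else
        (⊥ : AddSubgroup (Rg p N))) ↔
      (c ∈ (if j = 0 then Mo U δ else (⊥ : AddSubgroup (Rg p N))) ∧ lin v * c = 0)
    intro c
    split_ifs with h
    · constructor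
      · rintro ⟨h1, h2⟩
        refine ⟨⟨h1, fun u hu => h2 u (Submodule.mem_sup_left hu)⟩, h2 v ?_⟩
        exact Submodule.mem_sup_right (Submodule.mem_span_singleton_self v)
      · rintro ⟨⟨h1, h2⟩, h3⟩
        refine ⟨h1, fun u hu => ?_⟩
        obtain ⟨u1, hu1, w, hw, rfl⟩ := Submodule.mem_sup.1 hu
        obtain ⟨t, rfl⟩ := Submodule.mem_span_singleton.1 hw
        rw [(hL p N).1, (hL p N).2.1, add_mul, h2 u1 hu1, mul_assoc, h3, mul_zero, add_zero]
    · constructor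
      · intro h1
        rw [AddSubgroup.mem_bot] at h1
        rw [h1]
        exact ⟨zero_mem _, mul_zero _⟩
      · exact fun h1 => h1.1
  | cons a l ih => exact KER_per v a ih

end Pool.H433AJT
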