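import Pool.Agent.H433R2.AJT.SpecA

open MvPolynomial
open scoped Classical

namespace Pool.H433AJT

theorem t_KERV : S_KERV := by
  intro p N hp B' B v h j δ
  obtain ⟨e, h1, h2⟩ := h
  constructor
  · intro hV c hc hd
    have hc2 := (h2 j δ c).1 hc
    have hd' : B.d (e c) = 0 := by rw [← h1, hd, map_zero]
    have h3 := hV _ hc2.1 hc2.2 hd'
    split_ifs at h3 ⊢ with hj
    · exact (LinearEquiv.map_eq_zero_iff e).1 h3
    · obtain ⟨b, hb, hb1, hb2⟩ := h3
      refine ⟨e.symm b, ?_, ?_⟩
      · rw [h2, LinearEquiv.apply_symm_apply]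
        exact ⟨hb, hb1⟩
      · apply e.injective
        rw [h1, LinearEquiv.apply_symm_apply, hb2]
  · intro hV c hc hx hd
    have hc' : e.symm c ∈ B'.G j δ := by
      rw [h2, LinearEquiv.apply_symm_apply]
      exact ⟨hc, hx⟩
    have hd' : B'.d (e.symm c) = 0 := by
      apply e.injective
      rw [h1, LinearEquiv.apply_symm_apply, hd, map_zero]
    have h3 := hV _ hc' hd'
    split_ifs at h3 ⊢ with hj
    · have := congrArg e h3
      rwa [LinearEquiv.apply_symm_apply, map_zero] at this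
    · obtain ⟨b, hb, hb'⟩ := h3
      have hb2 := (h2 _ _ _).1 hb
      refine ⟨e b, hb2.1, hb2.2, ?_⟩
      rw [← h1, hb', LinearEquiv.apply_symm_apply]

end Pool.H433AJT
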