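import Pool.Agent.H433R2.AJT.SpecA

open MvPolynomial
open scoped Classical

namespace Pool.H433AJT

theorem LIFT_per {p N : ℕ} [hp : Fact p.Prime] {B : BC p N} (v : Vec p N) (a : Vec p N × ℕ)
    (h : B.Free v) : (per B a).Free v := by
  rintro n hn j δ c ⟨h1, h2⟩ h3
  have h4 : ∀ i, lin v ^ n • (c : ℕ → B.C) i = 0 := fun i => congrFun h3 i
  have h5 : ∀ i, ∃ c' : B.C, (i ≤ j → c' ∈ B.G (j - i) (δ + sh p a.2 i - (p - n))) ∧
      (j < i → c' = 0) ∧ (c : ℕ → B.C) i = lin v ^ (p - n) • c' := by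
    intro i
    by_cases hi : i ≤ j
    · obtain ⟨c', hc1, hc2⟩ := h n hn _ _ _ (h1 i hi) (h4 i)
      exact ⟨c', fun _ => hc1, fun h => absurd h (by omega), hc2⟩
    · exact ⟨0, fun h => absurd h hi, fun _ => rfl, by rw [smul_zero, h2 i (by omega)]⟩
  choose c' hc1 hc2 hc3 using h5
  refine ⟨c', ⟨fun i hi => ?_, fun i hi => hc2 i hi⟩, funext hc3⟩
  have := hc1 i hi
  rwa [show δ + (sh p a.2 i : ℤ) - ((p : ℤ) - (n : ℤ)) = δ - ((p : ℤ) - (n : ℤ)) + sh p a.2 i by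
    ring] at this

theorem t_LIFT (hF : S_FR) : S_LIFT := by
  intro p N hp U v hv l
  induction l with
  | nil =>
    intro a ha j δ
    show ∀ c : Rg p N, c ∈ (if j = 0 then Mo U δ else (⊥ : AddSubgroup (Rg p N))) →
      lin v ^ a * c = 0 → ∃ c' : Rg p N,
        c' ∈ (if j = 0 then Mo U (δ - (p - a)) else (⊥ : AddSubgroup (Rg p N))) ∧
        c = lin v ^ (p - a) * c'
    intro c hc hx
    split_ifs at hc ⊢ with h
    · exact hF p N U v hv a ha δ c hc hx
    · rw [AddSubgroup.mem_bot] at hc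
      exact ⟨0, zero_mem _, by rw [hc, mul_zero]⟩
  | cons a l ih => exact LIFT_per v a ih

end Pool.H433AJT
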