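import Pool.Agent.H433R2.AJT.SpecA

open MvPolynomial
open scoped Classical

namespace Pool.H433AJT

theorem t_LOOPB : S_LOOPB := by
  intro p N _ B v m hm1 hm2 hz j δ hV c hc hdc
  obtain ⟨hc1, hc2⟩ := hc
  have hex : ∀ a, 1 ≤ ex p m a := by
    intro a
    unfold ex
    split_ifs <;> omega
  have hpz : ∀ a j' δ' (y : B.C), y ∈ B.G j' δ' → lin v ^ ex p m a • y = 0 := by
    intro a j' δ' y hy
    obtain ⟨k, hk⟩ := Nat.exists_eq_add_of_le (hex a)
    rw [hk, add_comm, pow_succ, ← smul_smul, hz j' δ' y hy, smul_zero]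
  -- the differential of a component
  have hda : ∀ a, a ≤ j → B.d (c a) = 0 := by
    intro a ha
    have h := congrFun hdc a
    change (-1 : ℤ) ^ a • B.d (c a) +
        (if a = 0 then 0 else (lin v) ^ (ex p m a) • c (a - 1)) = 0 at h
    have h2 : (if a = 0 then 0 else (lin v) ^ (ex p m a) • c (a - 1)) = (0 : B.C) := by
      split_ifs with h0
      · rfl
      · exact hpz a _ _ _ (hc1 (a - 1) (by omega))
    rw [h2, add_zero] at h
    rcases neg_one_pow_eq_or ℤ a with h3 | h3
    · rwa [h3, one_smul] at h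
    · rw [h3, neg_smul, one_smul, neg_eq_zero] at h
      exact h
  have hvan := fun a (ha : a ≤ j) => hV a ha (c a) (hc1 a ha) (hda a ha)
  by_cases hj : j = 0
  · rw [if_pos hj]
    subst hj
    funext a
    rcases Nat.eq_zero_or_pos a with h0 | h0
    · subst h0
      have h5 := hvan 0 le_rfl
      rw [if_pos rfl] at h5
      exact h5
    · exact hc2 a h0
  · rw [if_neg hj]
    have hex2 : ∀ a, ∃ b : B.C, a ≤ j - 1 → (b ∈ B.G (j - 1 - a) (δ + sh p m a) ∧ B.d b = c a) := by
      intro a
      by_cases ha : a ≤ j - 1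
      · have h := hvan a (by omega)
        rw [if_neg (by omega)] at h
        obtain ⟨b, hb, hdb⟩ := h
        refine ⟨b, fun _ => ⟨?_, hdb⟩⟩
        rwa [show j - 1 - a = j - a - 1 by omega]
      · exact ⟨0, fun h => absurd h ha⟩
    choose b hb using hex2
    refine ⟨fun a => if a ≤ j - 1 then (-1 : ℤ) ^ a • b a else 0, ⟨fun a ha => ?_, fun a ha => ?_⟩, ?_⟩
    · show (if a ≤ j - 1 then (-1 : ℤ) ^ a • b a else 0) ∈ _
      rw [if_pos ha]
      exact zsmul_mem (hb a ha).1 _
    · show (if a ≤ j - 1 then (-1 : ℤ) ^ a • b a else 0) = 0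
      rw [if_neg (by omega)]
    · funext a
      show (-1 : ℤ) ^ a • B.d (if a ≤ j - 1 then (-1 : ℤ) ^ a • b a else 0) +
        (if a = 0 then 0 else (lin v) ^ (ex p m a) •
          (if a - 1 ≤ j - 1 then (-1 : ℤ) ^ (a - 1) • b (a - 1) else 0)) = c a
      have h2 : (if a = 0 then 0 else (lin v) ^ (ex p m a) •
          (if a - 1 ≤ j - 1 then (-1 : ℤ) ^ (a - 1) • b (a - 1) else 0)) = (0 : B.C) := by
        split_ifs with h0 h1
        · rfl
        · exact hpz a _ _ _ (zsmul_mem (hb (a - 1) h1).1 _)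
        · exact smul_zero _
      rw [h2, add_zero]
      split_ifs with h1
      · rw [map_zsmul, (hb a h1).2, smul_smul, ← mul_pow]
        simp
      · rw [map_zero, smul_zero]
        rcases Nat.lt_or_ge j a with h3 | h3
        · exact (hc2 a h3).symm
        · have h4 : a = j := by omega
          have h5 := hvan a h3
          rw [if_pos (by omega)] at h5
          exact h5.symm

end Pool.H433AJT
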