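import Pool.Agent.H433R2.AJT.SpecA

open MvPolynomial
open scoped Classical

namespace Pool.H433AJT

theorem t_LOW (hC : S_COORD) (hA : S_ADAPT) (hM : S_MONOLOW) : S_LOW := by
  intro p N _ U δ f hf hδ
  obtain ⟨g, T, hT, hU⟩ := (hA p N U).1
  obtain ⟨Φ, hΦ, hgr⟩ := hC p N g
  have h1 : Φ.symm f ∈ gr p N δ := by
    rw [hgr, RingEquiv.apply_symm_apply]
    exact hf.1
  have h2 : ∀ i ∈ T, lin (Pi.single i 1) * Φ.symm f = 0 := by
    intro i hi
    apply Φ.injective
    rw [map_mul, map_zero, hΦ, RingEquiv.apply_symm_apply]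
    apply hf.2
    rw [hU]
    exact Submodule.subset_span ⟨i, hi, rfl⟩
  have h3 := hM p N T δ (Φ.symm f) h1 h2 (by rw [hT]; exact hδ)
  have := congrArg Φ h3
  rwa [RingEquiv.apply_symm_apply, map_zero] at this

end Pool.H433AJT
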