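import Pool.Agent.H433R2.AJT.Basic

open scoped Classical

namespace Pool.H433AJT

theorem M1CON_wt_ge {lam : ℤ} (hl : 4 ≤ lam) {m : ℕ} (h1 : 1 ≤ m) : lam ≤ wt lam m := by
  unfold wt
  have h0 : m ≠ 0 := by omega
  rw [if_neg h0]
  split_ifs with h
  · exact le_rfl
  · have : (0 : ℤ) ≤ m := Int.natCast_nonneg m
    exact le_min (by linarith) (by linarith)

theorem M1CON_wt_nonneg {lam : ℤ} (hl : 4 ≤ lam) (m : ℕ) : 0 ≤ wt lam m := by
  unfold wt
  split_ifs with h h
  · exact le_rfl
  · linarith
  · have : (0 : ℤ) ≤ m := Int.natCast_nonneg m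
    exact le_min (by linarith) (by linarith)

theorem M1CON_wt_eq {lam : ℤ} {m : ℕ} (h1 : 2 ≤ m) (h2 : (m : ℤ) ≤ lam) :
    wt lam m = lam + m := by
  unfold wt
  have h0 : m ≠ 0 := by omega
  have h3 : m ≠ 1 := by omega
  rw [if_neg h0, if_neg h3]
  exact min_eq_left (by linarith)

theorem t_M1CON : S_M1CON := by
  intro F V ι _ _ _ _ lam v U I m b hl hM i hi hm
  obtain ⟨h1, h2, h3⟩ := hM
  refine ⟨?_, ?_, ?_⟩
  · intro j hj
    exact (Finset.mem_filter.1 hj).2
  · intro j hj
    exact h2 j (Finset.mem_filter.1 hj).1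
  · intro W hW D σ hD hmat hone
    have hUW : U ≤ W := (le_jn U (v i)).trans hW
    have hDI : D ⊆ I := hD.trans (Finset.filter_subset _ _)
    refine (h3 W hUW D σ hDI hmat hone).trans ?_
    unfold F1
    rw [finrank_jn (h1 i hi)]
    set U' := jn U (v i) with hU'
    have hsum : ∑ j ∈ I.filter (fun j => v j ∈ W), wt lam (m j) =
        ∑ j ∈ I.filter (fun j => v j ∈ U'), wt lam (m j) +
        ∑ j ∈ (I.filter (fun j => v j ∉ U')).filter (fun j => v j ∈ W), wt lam (m j) := by
      rw [← Finset.sum_union]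
      · apply Finset.sum_congr _ (fun _ _ => rfl)
        ext j
        simp only [Finset.mem_filter, Finset.mem_union]
        constructor
        · rintro ⟨g1, g2⟩
          by_cases g3 : v j ∈ U'
          · exact Or.inl ⟨g1, g3⟩
          · exact Or.inr ⟨⟨g1, g3⟩, g2⟩
        · rintro (⟨g1, g2⟩ | ⟨⟨g1, _⟩, g2⟩)
          · exact ⟨g1, hW g2⟩
          · exact ⟨g1, g2⟩
      · rw [Finset.disjoint_left]
        intro j g1 g2
        simp only [Finset.mem_filter] at g1 g2
        exact g2.1.2 g1.2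
    have hcls : cls v I U i ⊆ I.filter (fun j => v j ∈ U') := by
      intro j hj
      rw [mem_cls_iff_mem] at hj
      exact Finset.mem_filter.2 ⟨hj.1, hj.2.2⟩
    have hself : i ∈ cls v I U i := self_mem_cls hi (h1 i hi)
    have hlow : lam + (m i : ℤ) + lam * ((cls v I U i).card - 1) ≤
        ∑ j ∈ I.filter (fun j => v j ∈ U'), wt lam (m j) := by
      calc lam + (m i : ℤ) + lam * ((cls v I U i).card - 1)
          = wt lam (m i) + ∑ _j ∈ (cls v I U i).erase i, lam := by
            rw [M1CON_wt_eq hm (h2 i hi).2, Finset.sum_const, Finset.card_erase_of_mem hself,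
              nsmul_eq_mul]
            have : 1 ≤ (cls v I U i).card := Finset.card_pos.2 ⟨i, hself⟩
            rw [Nat.cast_sub this]
            push_cast
            ring
        _ ≤ wt lam (m i) + ∑ j ∈ (cls v I U i).erase i, wt lam (m j) := by
            gcongr with j hj
            exact M1CON_wt_ge hl (h2 j (mem_cls.1 (Finset.mem_of_mem_erase hj)).1).1
        _ = ∑ j ∈ cls v I U i, wt lam (m j) := Finset.add_sum_erase _ (fun j => wt lam (m j)) hself
        _ ≤ _ := Finset.sum_le_sum_of_subset_of_nonneg hcls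
            (fun j _ _ => M1CON_wt_nonneg hl _)
    rw [hsum]
    push_cast
    nlinarith

end Pool.H433AJT
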