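import Pool.Agent.H433R2.AJT.SpecB

open scoped Classical

namespace Pool.H433AJT

section M1DEL_aux

variable {F V ι : Type} [Field F] [AddCommGroup V] [Module F V] [FiniteDimensional F V]

theorem M1DEL_mem (W : Submodule F V) (x : V) : x ∈ jn W x :=
  Submodule.mem_sup_right (Submodule.mem_span_singleton_self _)

theorem M1DEL_le (W W' : Submodule F V) (x : V) (h : W ≤ W') (hx : x ∈ W') : jn W x ≤ W' :=
  sup_le h ((Submodule.span_singleton_le_iff_mem _ _).2 hx)

theorem M1DEL_finrank (W : Submodule F V) (x : V) (hx : x ∉ W) :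
    Module.finrank F (jn W x) = Module.finrank F W + 1 := by
  have hinf : W ⊓ Submodule.span F {x} = ⊥ := by
    rw [eq_bot_iff]
    intro y hy
    obtain ⟨h1, h2⟩ := Submodule.mem_inf.1 hy
    obtain ⟨c, rfl⟩ := Submodule.mem_span_singleton.1 h2
    by_cases hc : c = 0
    · simp [hc]
    · exact absurd ((Submodule.smul_mem_iff W hc).1 h1) hx
  have h := Submodule.finrank_sup_add_finrank_inf_eq W (Submodule.span F {x})
  have hx0 : x ≠ 0 := by
    rintro rfl
    exact hx W.zero_mem
  rw [hinf, finrank_bot, finrank_span_singleton hx0, add_zero] at h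
  exact h

theorem M1DEL_eq (W : Submodule F V) (x y : V) (hx : x ∉ W) (hy : y ∉ W) (h : y ∈ jn W x) :
    jn W y = jn W x := by
  refine Submodule.eq_of_le_of_finrank_eq (M1DEL_le W _ y le_sup_left h) ?_
  rw [M1DEL_finrank W x hx, M1DEL_finrank W y hy]

theorem M1DEL_wt_nonneg (lam : ℤ) (hl : 4 ≤ lam) (m : ℕ) : 0 ≤ wt lam m := by
  unfold wt
  have : (0 : ℤ) ≤ m := by positivity
  split_ifs
  · exact le_rfl
  · linarith
  · exact le_min (by linarith) (by linarith)

theorem M1DEL_wt_pred (lam : ℤ) (hl : 4 ≤ lam) (m : ℕ) (hm : 2 ≤ m) :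
    wt lam (m - 1) ≤ wt lam m := by
  unfold wt
  have h0 : m ≠ 0 := by omega
  have h1 : m ≠ 1 := by omega
  have h2 : (2 : ℤ) ≤ m := by exact_mod_cast hm
  rw [if_neg h0, if_neg h1]
  split_ifs with h3 h4
  · exact le_min (by linarith) (by linarith)
  · exact le_min (by linarith) (by linarith)
  · push_cast [Nat.cast_sub (show 1 ≤ m by omega)]
    exact min_le_min (by linarith) le_rfl

theorem M1DEL_wt_one (lam : ℤ) : wt lam 1 = lam := by
  unfold wt
  simp

theorem M1DEL_wt_two (lam : ℤ) (hl : 4 ≤ lam) : wt lam 2 = lam + 2 := by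
  unfold wt
  rw [if_neg (by norm_num), if_neg (by norm_num)]
  exact min_eq_left (by push_cast; linarith)

end M1DEL_aux

theorem t_M1DEL : S_M1DEL := by
  intro F V ι _ _ _ _ lam v U I m b hl hM i hi hmi
  obtain ⟨hI, hm, hD⟩ := hM
  refine ⟨hI, ?_, ?_⟩
  · intro j hj
    have h := hm j hj
    by_cases hji : j = i
    · subst hji
      rw [Function.update_self]
      refine ⟨by omega, ?_⟩
      have : ((m j - 1 : ℕ) : ℤ) ≤ m j := by exact_mod_cast Nat.sub_le _ _
      linarith
    · rw [Function.update_of_ne hji]
      exact h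
  · intro W hUW D σ hDI hMat hone
    by_cases hiD : i ∈ D
    · -- i is in D, so m i = 2
      have hmi2 : m i = 2 := by
        have := hone i hiD
        rw [Function.update_self] at this
        omega
      have hone' : ∀ j ∈ D, j ≠ i → m j = 1 := by
        intro j hj hji
        have := hone j hj
        rwa [Function.update_of_ne hji] at this
      have hiM := hMat i hiD
      have hiW : v i ∉ W := hiM.2.2.2.1
      have hF1 : F1 lam v U I (Function.update m i (m i - 1)) b W = F1 lam v U I m b W := by
        unfold F1
        congr 1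
        refine Finset.sum_congr rfl fun j hj => ?_
        have hji : j ≠ i := by
          rintro rfl
          exact hiW (Finset.mem_filter.1 hj).2
        rw [Function.update_of_ne hji]
      rw [hF1]
      set W' := jn W (v i) with hW'
      have hWW' : W ≤ W' := le_sup_left
      set D' := D.filter fun j => v j ∉ W' with hD'
      have hD'D : D' ⊆ D := Finset.filter_subset _ _
      have hviW' : v i ∈ W' := M1DEL_mem W (v i)
      have hMat' : Mat v W' D' σ := by
        intro j hj
        obtain ⟨hjD, hjW'⟩ := Finset.mem_filter.1 hj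
        obtain ⟨h1, h2, h3, h4, h5⟩ := hMat j hjD
        refine ⟨Finset.mem_filter.2 ⟨h1, ?_⟩, h2, h3, hjW', ?_⟩
        · intro hs
          have h6 : jn W (v (σ j)) ≤ W' := M1DEL_le W W' _ hWW' hs
          rw [h5] at h6
          exact hjW' (h6 (M1DEL_mem W (v j)))
        · have e : ∀ x : V, W' ⊔ jn W x = jn W' x := by
            intro x
            show W' ⊔ (W ⊔ Submodule.span F {x}) = W' ⊔ Submodule.span F {x}
            rw [← sup_assoc, sup_eq_left.2 hWW']
          rw [← e, ← e, h5]
      have h1 := hD W' (hUW.trans hWW') D' σ (hD'D.trans hDI) hMat' (by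
        intro j hj
        refine hone' j (hD'D hj) ?_
        rintro rfl
        exact (Finset.mem_filter.1 hj).2 hviW')
      -- F1 at W'
      set C := I.filter fun j => v j ∉ W ∧ v j ∈ W' with hC
      have hsplit : ∑ j ∈ I.filter (fun j => v j ∈ W'), wt lam (m j) =
          ∑ j ∈ I.filter (fun j => v j ∈ W), wt lam (m j) + ∑ j ∈ C, wt lam (m j) := by
        rw [← Finset.sum_union]
        · refine Finset.sum_congr ?_ fun _ _ => rfl
          ext j
          rw [Finset.mem_union, hC, Finset.mem_filter, Finset.mem_filter, Finset.mem_filter]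
          constructor
          · intro h
            by_cases hw : v j ∈ W
            · exact Or.inl ⟨h.1, hw⟩
            · exact Or.inr ⟨h.1, hw, h.2⟩
          · rintro (h | h)
            · exact ⟨h.1, hWW' h.2⟩
            · exact ⟨h.1, h.2.2⟩
        · rw [Finset.disjoint_left]
          intro j hj hj'
          exact (Finset.mem_filter.1 hj').2.1 (Finset.mem_filter.1 hj).2
      have hfr : (Module.finrank F W' : ℤ) = Module.finrank F W + 1 := by
        rw [hW', M1DEL_finrank W (v i) hiW]
        push_cast
        ring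
      have hF : F1 lam v U I m b W' = F1 lam v U I m b W + 2 * lam - ∑ j ∈ C, wt lam (m j) := by
        unfold F1
        rw [hsplit, hfr]
        ring
      set K := D.filter fun j => v j ∈ W' with hK
      have hKC : K ⊆ C := by
        intro j hj
        obtain ⟨hjD, hjW'⟩ := Finset.mem_filter.1 hj
        exact Finset.mem_filter.2 ⟨hDI hjD, (hMat j hjD).2.2.2.1, hjW'⟩
      have hcard : K.card + D'.card = D.card := Finset.card_filter_add_card_filter_not _
      have hiK : i ∈ K := Finset.mem_filter.2 ⟨hiD, hviW'⟩
      have hsK : σ i ∈ K.erase i := by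
        refine Finset.mem_erase.2 ⟨hiM.2.2.1, Finset.mem_filter.2 ⟨hiM.1, ?_⟩⟩
        have := M1DEL_mem W (v (σ i))
        rw [hiM.2.2.2.2] at this
        exact this
      have hKe : (K.erase i).card + 1 = K.card := Finset.card_erase_add_one hiK
      have hKe1 : 1 ≤ (K.erase i).card := Finset.card_pos.2 ⟨_, hsK⟩
      have hsumK : ∑ j ∈ K, wt lam (m j) = lam + 2 + lam * ((K.erase i).card : ℤ) := by
        rw [← Finset.add_sum_erase K _ hiK, hmi2, M1DEL_wt_two lam hl]
        congr 1
        rw [Finset.sum_congr rfl (g := fun _ => lam)]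
        · rw [Finset.sum_const, nsmul_eq_mul, mul_comm]
        · intro j hj
          obtain ⟨hji, hjK⟩ := Finset.mem_erase.1 hj
          rw [hone' j (Finset.mem_filter.1 hjK).1 hji, M1DEL_wt_one]
      have hsumC : ∑ j ∈ K, wt lam (m j) ≤ ∑ j ∈ C, wt lam (m j) :=
        Finset.sum_le_sum_of_subset_of_nonneg hKC fun j _ _ => M1DEL_wt_nonneg lam hl _
      rw [hF] at h1
      have c1 : (D.card : ℤ) = ((K.erase i).card : ℤ) + 1 + D'.card := by
        have : D.card = (K.erase i).card + 1 + D'.card := by omega
        exact_mod_cast this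
      have c2 : (1 : ℤ) ≤ ((K.erase i).card : ℤ) := by exact_mod_cast hKe1
      rw [c1]
      nlinarith
    · have h1 := hD W hUW D σ hDI hMat (by
        intro j hj
        have hji : j ≠ i := by
          rintro rfl
          exact hiD hj
        have := hone j hj
        rwa [Function.update_of_ne hji] at this)
      refine h1.trans ?_
      unfold F1
      have : ∑ j ∈ I.filter (fun j => v j ∈ W), wt lam (Function.update m i (m i - 1) j) ≤
          ∑ j ∈ I.filter (fun j => v j ∈ W), wt lam (m j) := by
        refine Finset.sum_le_sum fun j _ => ?_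
        by_cases hji : j = i
        · subst hji
          rw [Function.update_self]
          exact M1DEL_wt_pred lam hl _ hmi
        · rw [Function.update_of_ne hji]
      linarith

end Pool.H433AJT
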