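import Pool.Agent.H433R2.AJT.Basic

open MvPolynomial
open scoped Classical

namespace Pool.H433AJT

theorem t_M1START : S_M1START := by
  intro F V ι _ _ _ _ lam v U I hlam hC h2 h3 R i0 m hi0 hRI hRne hRex hm
  obtain ⟨hCU, hCs, hCc⟩ := hC
  have hi0U : v i0 ∉ U := hCU i0 hi0
  have hclsle : ∀ i ∈ I, 1 ≤ (cls v I U i).card := by
    intro i hi
    exact Finset.card_pos.mpr ⟨i, self_mem_cls hi (hCU i hi)⟩
  -- the class as a filter
  have hclsf : ∀ i ∈ I, (I.filter fun j => jn U (v j) = jn U (v i)) = cls v I U i := by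
    intro i _
    ext j
    rw [mem_cls, Finset.mem_filter]
    constructor
    · rintro ⟨h, h'⟩
      exact ⟨h, hCU j h, h'⟩
    · rintro ⟨h, _, h'⟩
      exact ⟨h, h'⟩
  have hinj : ∀ r ∈ R, ∀ r' ∈ R, jn U (v r) = jn U (v r') → r = r' := by
    intro r hr r' hr' he
    obtain ⟨a, -, ha2⟩ := hRex r (hRI hr) (hRne r hr)
    rw [ha2 r ⟨hr, rfl⟩, ha2 r' ⟨hr', he.symm⟩]
  refine ⟨?_, ?_, ?_⟩
  · intro r hr hmem
    have hrU := hCU r (hRI hr)
    exact hRne r hr (jn_eq_of_mem hrU hmem)
  · intro r hr
    rw [hm r hr]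
    refine ⟨hclsle r (hRI hr), ?_⟩
    exact (h3 r (hRI hr)).le
  · intro W hW D σ hDR hM hD1
    have hUW : U ≤ W := (le_jn U (v i0)).trans hW
    have hi0W : v i0 ∈ W := hW (mem_jn_self U (v i0))
    have hDc := h2 W hUW D σ (hDR.trans hRI) hM (fun i hi => by
      rw [← hm i (hDR hi)]
      exact hD1 i hi)
    -- the sum in the slack
    have himg : (I.filter (fun i => v i ∈ W)).image (fun i => jn U (v i)) =
        insert (jn U (v i0)) ((R.filter (fun r => v r ∈ W)).image fun r => jn U (v r)) := by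
      ext L
      rw [Finset.mem_image, Finset.mem_insert, Finset.mem_image]
      constructor
      · rintro ⟨i, hi, rfl⟩
        rw [Finset.mem_filter] at hi
        by_cases he : jn U (v i) = jn U (v i0)
        · exact Or.inl he
        · right
          obtain ⟨r, ⟨hr1, hr2⟩, -⟩ := hRex i hi.1 he
          refine ⟨r, Finset.mem_filter.mpr ⟨hr1, ?_⟩, hr2⟩
          exact (mem_iff_of_jn_eq hUW hr2).mpr hi.2
      · rintro (rfl | ⟨r, hr, rfl⟩)
        · exact ⟨i0, Finset.mem_filter.mpr ⟨hi0, hi0W⟩, rfl⟩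
        · rw [Finset.mem_filter] at hr
          exact ⟨r, Finset.mem_filter.mpr ⟨hRI hr.1, hr.2⟩, rfl⟩
    have hnot : jn U (v i0) ∉ (R.filter (fun r => v r ∈ W)).image fun r => jn U (v r) := by
      rw [Finset.mem_image]
      rintro ⟨r, hr, he⟩
      exact hRne r (Finset.mem_filter.mp hr).1 he
    have hsum : ∑ L ∈ (I.filter (fun i => v i ∈ W)).image (fun i => jn U (v i)),
        wt lam ((I.filter fun j => jn U (v j) = L).card) =
        wt lam (cls v I U i0).card + ∑ r ∈ R.filter (fun r => v r ∈ W), wt lam (m r) := by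
      rw [himg, Finset.sum_insert hnot, hclsf i0 hi0]
      congr 1
      rw [Finset.sum_image]
      · refine Finset.sum_congr rfl fun r hr => ?_
        have hrR := (Finset.mem_filter.mp hr).1
        rw [hclsf r (hRI hrR), hm r hrR]
      · intro r hr r' hr' he
        exact hinj r (Finset.mem_filter.mp hr).1 r' (Finset.mem_filter.mp hr').1 he
    unfold slack at hDc
    rw [hsum] at hDc
    unfold F1
    rw [finrank_jn hi0U]
    push_cast
    have ht1 := hclsle i0 hi0
    have ht2 := h3 i0 hi0
    set t := (cls v I U i0).card with ht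
    have hwt : lam + 1 - 2 + t ≤ wt lam t := by
      unfold wt
      split_ifs with h0 h1'
      · omega
      · rw [h1']
        push_cast
        linarith
      · rw [le_min_iff]
        constructor
        · linarith
        · linarith
    linarith

end Pool.H433AJT
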