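import Pool.Agent.H433R2.AJT.Basic

open scoped Classical

namespace Pool.H433AJT

section
variable {F V ι : Type} [Field F] [AddCommGroup V] [Module F V]

/-- the slack of the span of a big class vanishes -/
theorem MAIN0_slack [FiniteDimensional F V] {lam : ℤ} {v : ι → V} {U : Submodule F V}
    {I : Finset ι} (hlam : 4 ≤ lam) (hU : ∀ i ∈ I, v i ∉ U) {i : ι} (hi : i ∈ I)
    (hbig : lam ≤ ((cls v I U i).card : ℤ)) : slack lam v U I (jn U (v i)) = 0 := by
  have hmem : i ∈ I.filter (fun j => v j ∈ jn U (v i)) := by
    rw [Finset.mem_filter]; exact ⟨hi, mem_jn_self U _⟩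
  have himg : (I.filter (fun j => v j ∈ jn U (v i))).image (fun j => jn U (v j)) =
      {jn U (v i)} := by
    ext L
    rw [Finset.mem_image, Finset.mem_singleton]
    constructor
    · rintro ⟨j, hj, rfl⟩
      rw [Finset.mem_filter] at hj
      exact jn_eq_of_mem (hU j hj.1) hj.2
    · rintro rfl
      exact ⟨i, hmem, rfl⟩
  have hcls : (I.filter fun j => jn U (v j) = jn U (v i)) = cls v I U i := by
    ext j
    rw [mem_cls, Finset.mem_filter]
    constructor
    · rintro ⟨h1, h2⟩
      exact ⟨h1, hU j h1, h2⟩
    · rintro ⟨h1, _, h2⟩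
      exact ⟨h1, h2⟩
  have hwt : wt lam (cls v I U i).card = 2 * lam := by
    have h4 : (4 : ℤ) ≤ ((cls v I U i).card : ℤ) := le_trans hlam hbig
    unfold wt
    have h0 : (cls v I U i).card ≠ 0 := by intro h; rw [h] at h4; norm_num at h4
    have h1 : (cls v I U i).card ≠ 1 := by intro h; rw [h] at h4; norm_num at h4
    rw [if_neg h0, if_neg h1]
    apply min_eq_right
    linarith
  unfold slack
  rw [himg, Finset.sum_singleton, hcls, hwt, finrank_jn (hU i hi)]
  push_cast
  ring

/-- existence of representatives of the classes different from that of `i0` -/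
theorem MAIN0_rep (v : ι → V) (U : Submodule F V) (I : Finset ι) (i0 : ι) :
    ∃ R : Finset ι, R ⊆ I ∧ (∀ r ∈ R, jn U (v r) ≠ jn U (v i0)) ∧
      ∀ i ∈ I, jn U (v i) ≠ jn U (v i0) → ∃! r, r ∈ R ∧ jn U (v r) = jn U (v i) := by
  haveI : Nonempty ι := ⟨i0⟩
  let φ : ι → Submodule F V := fun i => jn U (v i)
  let s : Finset ι := I.filter fun i => jn U (v i) ≠ jn U (v i0)
  let g : Submodule F V → ι := Function.invFunOn φ (s : Set ι)
  have hg1 : ∀ i ∈ s, g (φ i) ∈ s := by
    intro i hi
    have : ∃ a ∈ (s : Set ι), φ a = φ i := ⟨i, hi, rfl⟩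
    exact Function.invFunOn_mem this
  have hg2 : ∀ i ∈ s, φ (g (φ i)) = φ i := by
    intro i hi
    have : ∃ a ∈ (s : Set ι), φ a = φ i := ⟨i, hi, rfl⟩
    exact Function.invFunOn_eq this
  refine ⟨s.image (fun i => g (φ i)), ?_, ?_, ?_⟩
  · intro r hr
    obtain ⟨i, hi, rfl⟩ := Finset.mem_image.mp hr
    exact (Finset.mem_filter.mp (hg1 i hi)).1
  · intro r hr
    obtain ⟨i, hi, rfl⟩ := Finset.mem_image.mp hr
    exact (Finset.mem_filter.mp (hg1 i hi)).2
  · intro i hi hne
    have his : i ∈ s := Finset.mem_filter.mpr ⟨hi, hne⟩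
    refine ⟨g (φ i), ⟨Finset.mem_image.mpr ⟨i, his, rfl⟩, hg2 i his⟩, ?_⟩
    rintro r ⟨hr, hri⟩
    obtain ⟨j, hj, rfl⟩ := Finset.mem_image.mp hr
    have h1 : φ j = φ i := by rw [← hg2 j hj]; exact hri
    show g (φ j) = g (φ i)
    rw [h1]

end

theorem t_MAIN0 (h1 : S_C0SUB) (h2 : S_DICH) (h3 : S_TZERO) (h4 : S_M1START) (h5 : S_MAIN1) :
    S_MAIN0 := by
  intro F V ι _ _ _ _ lam v N Z hlam hR hN
  have key : ∀ n : ℕ, ∀ (U : Submodule F V) (I : Finset ι),
      (Module.finrank F V - Module.finrank F U) + I.card = n → C0 lam v U I → N U I := by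
    intro n
    induction n using Nat.strong_induction_on with
    | _ n ih =>
      intro U I hn hC
      have hsplit : (∃ W, U < W ∧ (∃ i ∈ I, v i ∉ W) ∧ C0 lam v W (I.filter fun i => v i ∉ W)) →
          N U I := by
        rintro ⟨W, hUW, ⟨i, hi, hiW⟩, hCW⟩
        have hfr1 := Submodule.finrank_lt_finrank_of_lt hUW
        have hfr2 := Submodule.finrank_le W
        apply hN.split U W I hUW.le
        · have hlt : (I.filter fun i => v i ∈ W).card < I.card := by
            apply Finset.card_lt_card
            rw [Finset.filter_ssubset]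
            exact ⟨i, hi, hiW⟩
          exact ih _ (by omega) U _ rfl (h1 F V ι lam v U I _ hlam hC (Finset.filter_subset _ _))
        · have hle : (I.filter fun i => v i ∉ W).card ≤ I.card :=
            Finset.card_le_card (Finset.filter_subset _ _)
          exact ih _ (by omega) W _ rfl hCW
      rcases h2 F V ι lam v U I hlam hC with hd | hM
      · exact hsplit hd
      rcases Finset.eq_empty_or_nonempty I with rfl | ⟨i0, hi0⟩
      · refine hN.base U ∅ (by simp) (by simp) ?_
        simp only [Finset.card_empty]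
        push_cast
        linarith
      by_cases hbig : ∃ i ∈ I, lam ≤ ((cls v I U i).card : ℤ)
      · obtain ⟨i, hi, hb⟩ := hbig
        have hs := MAIN0_slack hlam hC.1 hi hb
        have hCW := h3 F V ι lam v U I hlam hC (jn U (v i)) (le_jn U _) hs
        have hUW : U < jn U (v i) := by
          refine lt_of_le_of_ne (le_jn U _) ?_
          intro h
          apply hC.1 i hi
          rw [h]
          exact mem_jn_self U _
        by_cases hout : ∃ j ∈ I, v j ∉ jn U (v i)
        · exact hsplit ⟨_, hUW, hout, hCW⟩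
        · push Not at hout
          have hall : ∀ j ∈ I, jn U (v j) = jn U (v i) := fun j hj =>
            jn_eq_of_mem (hC.1 j hj) (hout j hj)
          apply hN.base U I hC.1
          · intro j hj k hk
            rw [hall j hj, hall k hk]
          · have h6 := hC.2.2 i hi
            have h7 : cls v I U i = I := by
              ext j
              rw [mem_cls]
              constructor
              · rintro ⟨h, _⟩; exact h
              · intro h; exact ⟨h, hC.1 j h, hall j h⟩
            rw [h7] at h6
            exact h6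
      · push Not at hbig
        obtain ⟨R, hR1, hR2, hR3⟩ := MAIN0_rep v U I i0
        have hlt : (I.erase i0).card < I.card := Finset.card_erase_lt_of_mem hi0
        refine hN.step U I R i0 (fun r => (cls v I U r).card) hC.1 hi0 hR1 hR2 hR3
          (fun r _ => rfl) (fun i hi => (hbig i hi).le) ?_ ?_
        · exact ih _ (by omega) U _ rfl
            (h1 F V ι lam v U I _ hlam hC (Finset.erase_subset _ _))
        · apply h5 F V ι lam v Z hlam hR
          exact h4 F V ι lam v U I hlam hC hM hbig R i0 _ hi0 hR1 hR2 hR3 (fun r _ => rfl)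
  intro U I hC
  exact key _ U I rfl hC

end Pool.H433AJT
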