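import Pool.Agent.H433R2.AJT.SpecC

open MvPolynomial
open scoped Classical

namespace Pool.H433AJT

theorem MAIN1_upd {ι : Type} (I : Finset ι) (m : ι → ℕ) (i : ι) (hi : i ∈ I) (h2 : 2 ≤ m i) :
    ∑ j ∈ I, Function.update m i (m i - 1) j < ∑ j ∈ I, m j := by
  refine Finset.sum_lt_sum (fun j _ => ?_) ⟨i, hi, ?_⟩
  · by_cases h : j = i
    · subst h
      rw [Function.update_self]
      omega
    · rw [Function.update_of_ne h]
  · rw [Function.update_self]
    omega

theorem MAIN1_fil {ι : Type} (I : Finset ι) (m : ι → ℕ) (i : ι) (hi : i ∈ I) (h2 : 2 ≤ m i)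
    (P : ι → Prop) [DecidablePred P] (hP : ¬ P i) :
    ∑ j ∈ I.filter P, m j < ∑ j ∈ I, m j := by
  have h1 : ∑ j ∈ I.filter P, m j ≤ ∑ j ∈ I.erase i, m j := by
    refine Finset.sum_le_sum_of_subset ?_
    intro j hj
    rw [Finset.mem_filter] at hj
    rw [Finset.mem_erase]
    refine ⟨?_, hj.1⟩
    rintro rfl
    exact hP hj.2
  have h3 := Finset.add_sum_erase I m hi
  omega

theorem t_MAIN1 (h1 : S_M1DEL) (h2 : S_M1CON) (h3 : S_M1END) (h4 : S_MAIN2) (h5 : S_RX) :
    S_MAIN1 := by
  intro F V ι _ _ _ _ lam v Z hlam hR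
  have key : ∀ (n : ℕ) (U : Submodule F V) (I : Finset ι) (m : ι → ℕ) (b : ℤ),
      ∑ j ∈ I, m j = n → M1 lam v U I m b → Z U I m b := by
    intro n
    induction n using Nat.strong_induction_on with
    | _ n ih =>
      intro U I m b hn hM
      by_cases hall : ∀ i ∈ I, m i = 1
      · exact h4 F V ι lam v Z hlam hR U I m b hall (h3 F V ι lam v U I m b hlam hM hall)
      · push Not at hall
        obtain ⟨i, hi, hmi⟩ := hall
        have hb := hM.2.1 i hi
        have h2i : 2 ≤ m i := by
          have := hb.1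
          omega
        refine (h5 F V ι lam v Z hR U I m b i
          (fun j hj => ⟨hM.1 j hj, hM.2.1 j hj⟩) hi).2.2 h2i ?_ ?_
        · refine ih _ ?_ U I _ b rfl (h1 F V ι lam v U I m b hlam hM i hi h2i)
          rw [← hn]
          exact MAIN1_upd I m i hi h2i
        · refine ih _ ?_ _ _ m _ rfl (h2 F V ι lam v U I m b hlam hM i hi h2i)
          rw [← hn]
          refine MAIN1_fil I m i hi h2i _ ?_
          intro h
          exact h (Submodule.mem_sup_right (Submodule.mem_span_singleton_self _))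
  intro U I m b hM
  exact key _ U I m b rfl hM

end Pool.H433AJT
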