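import Pool.Agent.H433R2.AJT.SpecC

open MvPolynomial
open scoped Classical

namespace Pool.H433AJT

theorem t_MAIN2 (h1 : S_MOVE) (h2 : S_RX) : S_MAIN2 := by
  intro F V ι _ _ _ _ lam v Z hlam hR U I m b hm hI
  induction hn : I.card using Nat.strong_induction_on generalizing U I b with
  | _ n ih =>
    rcases I.eq_empty_or_nonempty with rfl | hne
    · apply hR.empty
      have h := hI.1.2 U le_rfl
      have h0 : (0 : ℤ) ≤ ((dbl v (∅ : Finset ι) U).card : ℤ) := by positivity
      have h3 : FF lam v U (∅ : Finset ι) b U = b - 1 := by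
        simp [FF, nn]
      rw [h3] at h
      linarith
    · have hlab : ∀ j ∈ I, v j ∉ U ∧ 1 ≤ m j ∧ (m j : ℤ) ≤ lam := by
        intro j hj
        refine ⟨hI.1.1 j hj, ?_, ?_⟩
        · rw [hm j hj]
        · rw [hm j hj]; push_cast; linarith
      obtain ⟨i, hi, hcase⟩ := h1 F V ι lam v U I b hlam hI hne
      have hce : (I.erase i).card < n := by
        rw [← hn]; exact Finset.card_erase_lt_of_mem hi
      have hcf : (I.filter fun j => v j ∉ jn U (v i)).card < n := by
        rw [← hn]
        apply Finset.card_lt_card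
        rw [Finset.filter_ssubset]
        refine ⟨i, hi, ?_⟩
        simp only [not_not]
        exact Submodule.mem_sup_right (Submodule.mem_span_singleton_self _)
      have hme : ∀ j ∈ I.erase i, m j = 1 := fun j hj => hm j (Finset.mem_of_mem_erase hj)
      have hmf : ∀ j ∈ I.filter (fun j => v j ∉ jn U (v i)), m j = 1 :=
        fun j hj => hm j (Finset.mem_of_mem_filter j hj)
      have hrx := h2 F V ι lam v Z hR U I m b i hlab hi
      rcases hcase with ⟨ha, hb⟩ | ⟨ha, hb⟩
      · exact hrx.1 (hm i hi) (ih _ hce U _ _ hme ha rfl) (ih _ hcf _ _ _ hmf hb rfl)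
      · exact hrx.2.1 (hm i hi) (ih _ hce U _ _ hme ha rfl) (ih _ hcf _ _ _ hmf hb rfl)

end Pool.H433AJT
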