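import Pool.Agent.H433R2.AJT.SpecA

open MvPolynomial

open scoped Classical

namespace Pool.H433AJT

theorem MONOFR_lin_single {p N : ℕ} (i : Fin N) :
    lin (Pi.single i (1 : ZMod p)) = mkR p N (X i) := by
  unfold lin linP
  congr 1
  rw [Finset.sum_eq_single i]
  · simp
  · intro j _ hj
    simp [Pi.single_eq_of_ne hj]
  · simp

/-- membership in the ideal `(X_i ^ p)` in terms of coefficients -/
theorem MONOFR_mem {p N : ℕ} (P : MvPolynomial (Fin N) (ZMod p)) :
    P ∈ Idl p N ↔ ∀ α, coeff α P ≠ 0 → ∃ i, p ≤ α i := by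
  have h : (Set.range fun i : Fin N => (X i : MvPolynomial (Fin N) (ZMod p)) ^ p)
      = (fun s => monomial s (1 : ZMod p)) '' (Set.range fun i : Fin N => Finsupp.single i p) := by
    rw [← Set.range_comp]
    congr 1
    funext i
    simp [X_pow_eq_monomial]
  unfold Idl
  rw [h, mem_ideal_span_monomial_image]
  constructor
  · intro H α hα
    obtain ⟨_, ⟨i, rfl⟩, hi⟩ := H α (mem_support_iff.2 hα)
    exact ⟨i, by simpa using hi i⟩
  · intro H α hα
    obtain ⟨i, hi⟩ := H α (mem_support_iff.1 hα)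
    refine ⟨_, ⟨i, rfl⟩, ?_⟩
    simpa [Finsupp.single_le_iff] using hi

/-- reduced representatives -/
theorem MONOFR_red {p N : ℕ} (δ : ℤ) (f : Rg p N) (hf : f ∈ gr p N δ) :
    ∃ P : MvPolynomial (Fin N) (ZMod p), mkR p N P = f ∧
      ∀ α, coeff α P ≠ 0 → ((α.degree : ℕ) : ℤ) = δ ∧ ∀ i, α i < p := by
  obtain ⟨P, rfl, hP⟩ := hf
  set Q : MvPolynomial (Fin N) (ZMod p) :=
    ∑ α ∈ P.support.filter (fun α => ∀ i, α i < p), monomial α (coeff α P) with hQ
  have hc : ∀ β, coeff β Q = if (∀ i, β i < p) then coeff β P else 0 := by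
    intro β
    rw [hQ, coeff_sum]
    simp only [coeff_monomial]
    rw [Finset.sum_ite_eq']
    by_cases hβ : ∀ i, β i < p
    · by_cases hz : coeff β P = 0
      · simp [hz]
      · simp [hβ, hz]
    · simp only [Finset.mem_filter, hβ, and_false, if_false]
  refine ⟨Q, ?_, ?_⟩
  · rw [← sub_eq_zero, ← map_sub, mkR_eq_zero, MONOFR_mem]
    intro α hα
    rw [coeff_sub, hc] at hα
    by_contra hcon
    push Not at hcon
    exact hα (by rw [if_pos hcon, sub_self])
  · intro α hα
    rw [hc] at hα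
    by_cases h : ∀ i, α i < p
    · rw [if_pos h] at hα
      exact ⟨hP α hα, h⟩
    · rw [if_neg h] at hα
      exact absurd rfl hα

/-- the condition `X_i ^ a f = 0` on a reduced representative -/
theorem MONOFR_ann {p N : ℕ} (P : MvPolynomial (Fin N) (ZMod p))
    (hP : ∀ α, coeff α P ≠ 0 → ∀ i, α i < p) (i : Fin N) (a : ℕ) :
    mkR p N (X i ^ a * P) = 0 ↔ ∀ α, coeff α P ≠ 0 → p ≤ α i + a := by
  rw [mkR_eq_zero, MONOFR_mem, X_pow_eq_monomial]
  constructor
  · intro H α hα
    obtain ⟨j, hj⟩ := H (Finsupp.single i a + α) (by rwa [coeff_monomial_mul, one_mul])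
    by_cases hij : i = j
    · subst hij
      simp at hj
      omega
    · have := hP α hα j
      simp [hij] at hj
      omega
  · intro H α hα
    rw [coeff_monomial_mul', one_mul] at hα
    split_ifs at hα with hle
    · have h1 := H _ hα
      have h2 : a ≤ α i := by simpa using hle i
      refine ⟨i, ?_⟩
      simp at h1
      omega
    · exact absurd rfl hα

theorem t_MONOFR : S_MONOFR := by
  intro p N _ T i0 hi0 a ha δ f hf hT h0
  obtain ⟨P, rfl, hP⟩ := MONOFR_red δ f hf
  have hP' : ∀ α, coeff α P ≠ 0 → ∀ i, α i < p := fun α hα => (hP α hα).2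
  have hT' : ∀ i ∈ T, ∀ α, coeff α P ≠ 0 → p ≤ α i + 1 := by
    intro i hi
    have := hT i hi
    rw [MONOFR_lin_single, ← map_mul] at this
    exact (MONOFR_ann P hP' i 1).1 (by rwa [pow_one])
  have h0' : ∀ α, coeff α P ≠ 0 → p ≤ α i0 + a := by
    rw [MONOFR_lin_single, ← map_pow, ← map_mul] at h0
    exact (MONOFR_ann P hP' i0 a).1 h0
  set s : Fin N →₀ ℕ := Finsupp.single i0 (p - a) with hs
  set Q : MvPolynomial (Fin N) (ZMod p) :=
    ∑ α ∈ P.support, monomial (α - s) (coeff α P) with hQ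
  have hsα : ∀ α, coeff α P ≠ 0 → s ≤ α := by
    intro α hα
    rw [hs, Finsupp.single_le_iff]
    have := h0' α hα
    omega
  have hPQ : P = X i0 ^ (p - a) * Q := by
    rw [X_pow_eq_monomial, hQ, Finset.mul_sum]
    conv_lhs => rw [P.as_sum]
    refine Finset.sum_congr rfl fun α hα => ?_
    rw [monomial_mul, one_mul, add_tsub_cancel_of_le (hsα α (mem_support_iff.1 hα))]
  have hQc : ∀ β, coeff β Q = coeff (s + β) P := by
    intro β
    rw [hPQ, X_pow_eq_monomial, coeff_monomial_mul, one_mul]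
  refine ⟨mkR p N Q, ⟨Q, rfl, ?_⟩, ?_, ?_⟩
  · intro β hβ
    rw [hQc] at hβ
    have h1 := (hP _ hβ).1
    rw [map_add] at h1
    simp only [hs, Finsupp.degree_single] at h1
    push_cast [Nat.cast_sub ha] at h1
    linarith
  · intro i hi
    rw [MONOFR_lin_single, ← map_mul, mkR_eq_zero, MONOFR_mem]
    intro γ hγ
    rw [X, coeff_monomial_mul', one_mul] at hγ
    split_ifs at hγ with hle
    · rw [hQc] at hγ
      have h1 := hT' i hi _ hγ
      have h2 : 1 ≤ γ i := by simpa using hle i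
      have hne : i0 ≠ i := fun h => hi0 (h ▸ hi)
      refine ⟨i, ?_⟩
      simp [hs, hne] at h1
      omega
    · exact absurd rfl hγ
  · rw [MONOFR_lin_single, ← map_pow, ← map_mul, ← hPQ]

end Pool.H433AJT
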