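import Pool.Agent.H433R2.AJT.SpecA

open MvPolynomial
open scoped Classical

namespace Pool.H433AJT

/-- The ideal `(X_i ^ p)` is a monomial ideal. -/
theorem MONOLOW_mem {p N : ℕ} (P : MvPolynomial (Fin N) (ZMod p)) :
    P ∈ Idl p N ↔ ∀ α ∈ P.support, ∃ i, p ≤ α i := by
  have h1 : (Set.range fun i : Fin N => (X i : MvPolynomial (Fin N) (ZMod p)) ^ p) =
      (fun s => monomial s (1 : ZMod p)) '' (Set.range fun i : Fin N => Finsupp.single i p) := by
    ext x
    simp only [Set.mem_range, Set.mem_image, exists_exists_eq_and]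
    constructor
    · rintro ⟨i, rfl⟩
      exact ⟨i, by rw [X_pow_eq_monomial]⟩
    · rintro ⟨i, rfl⟩
      exact ⟨i, by rw [X_pow_eq_monomial]⟩
  rw [Idl, h1, mem_ideal_span_monomial_image]
  refine forall₂_congr fun α _ => ?_
  simp only [Set.mem_range, exists_exists_eq_and]
  refine exists_congr fun i => ?_
  rw [Finsupp.single_le_iff]

theorem MONOLOW_lin {p N : ℕ} (i : Fin N) : lin (Pi.single i (1 : ZMod p)) = mkR p N (X i) := by
  unfold lin linP
  congr 1
  rw [Finset.sum_eq_single i]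
  · simp
  · intro j _ hj
    simp [Pi.single_eq_of_ne hj]
  · simp

theorem MONOLOW_exp {p N : ℕ} (P : MvPolynomial (Fin N) (ZMod p)) (i : Fin N)
    (h : lin (Pi.single i (1 : ZMod p)) * mkR p N P = 0) (α : Fin N →₀ ℕ) (hα : α ∈ P.support)
    (hr : ∀ j, α j < p) : α i = p - 1 := by
  rw [MONOLOW_lin, ← map_mul, mkR_eq_zero, MONOLOW_mem] at h
  have h2 : Finsupp.single i 1 + α ∈ (X i * P).support := by
    rw [mem_support_iff, coeff_X_mul]
    exact mem_support_iff.1 hα
  obtain ⟨j, hj⟩ := h _ h2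
  rw [Finsupp.add_apply, Finsupp.single_apply] at hj
  have := hr j
  split_ifs at hj with hij
  · subst hij
    omega
  · omega

theorem t_MONOLOW : S_MONOLOW := by
  intro p N _ T δ f hf hT hδ
  obtain ⟨P, rfl, hP⟩ := hf
  rw [mkR_eq_zero, MONOLOW_mem]
  intro α hα
  by_contra hcon
  push Not at hcon
  have h1 : ∀ i ∈ T, α i = p - 1 := fun i hi => MONOLOW_exp P i (hT i hi) α hα hcon
  have h2 := hP α (mem_support_iff.1 hα)
  have h3 : ∑ i ∈ T, α i ≤ α.degree := by
    rw [Finsupp.degree_eq_sum]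
    exact Finset.sum_le_sum_of_subset (Finset.subset_univ T)
  rw [Finset.sum_congr rfl h1, Finset.sum_const, smul_eq_mul] at h3
  have hp : 1 ≤ p := (Fact.out : p.Prime).one_le
  have h4 : ((T.card * (p - 1) : ℕ) : ℤ) ≤ δ := by
    rw [← h2]; exact_mod_cast h3
  push_cast [Nat.cast_sub hp] at h4
  nlinarith

end Pool.H433AJT
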