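import Pool.Agent.H433R2.AJT.SpecA

open MvPolynomial
open scoped Classical

namespace Pool.H433AJT

theorem MONOOM_lin (p N : ℕ) [Fact p.Prime] (i : Fin N) :
    lin (Pi.single i (1 : ZMod p)) = mkR p N (X i) := by
  unfold lin linP
  congr 1
  rw [Finset.sum_eq_single i]
  · simp
  · intro j _ hj
    simp [Pi.single_eq_of_ne hj]
  · intro h
    exact absurd (Finset.mem_univ i) h

theorem MONOOM_idl (p N : ℕ) : Idl p N = Ideal.span
    ((fun s : Fin N →₀ ℕ => (monomial s (1 : ZMod p) : MvPolynomial (Fin N) (ZMod p))) ''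
      (Set.range fun i : Fin N => Finsupp.single i p)) := by
  unfold Idl
  congr 1
  ext q
  simp only [Set.mem_range, Set.mem_image, exists_exists_eq_and, X_pow_eq_monomial]

theorem t_MONOOM : S_MONOOM := by
  intro p N hp T h
  have h1 : (∏ i ∈ T, lin (Pi.single i (1 : ZMod p)) ^ (p - 1) : Rg p N) =
      mkR p N (monomial (∑ i ∈ T, Finsupp.single i (p - 1)) 1) := by
    rw [monomial_sum_one, map_prod]
    refine Finset.prod_congr rfl fun i _ => ?_
    rw [MONOOM_lin, ← map_pow, X_pow_eq_monomial]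
  rw [h1, mkR_eq_zero, MONOOM_idl, mem_ideal_span_monomial_image] at h
  have h2 := h (∑ i ∈ T, Finsupp.single i (p - 1)) (by
    rw [mem_support_iff, coeff_monomial, if_pos rfl]
    exact one_ne_zero)
  obtain ⟨si, ⟨i, rfl⟩, hi⟩ := h2
  have h3 := hi i
  rw [Finsupp.single_eq_same, Finsupp.finsetSum_apply] at h3
  have h4 : ∑ j ∈ T, (Finsupp.single j (p - 1) : Fin N →₀ ℕ) i ≤ p - 1 := by
    simp only [Finsupp.single_apply]
    rw [Finset.sum_ite_eq' T i]
    split_ifs
    · exact le_refl _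
    · exact Nat.zero_le _
  have h5 := hp.out.pos
  omega

end Pool.H433AJT
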