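import Pool.Agent.H433R2.AJT.SpecA

open MvPolynomial
open scoped Classical

namespace Pool.H433AJT

section MONOSPL_sec
variable {p N : ℕ}

theorem MONOSPL_linP (i : Fin N) : linP (Pi.single i (1 : ZMod p)) = X i := by
  unfold linP
  rw [Finset.sum_eq_single i]
  · rw [Pi.single_eq_same, C_1, one_mul]
  · intro j _ hj
    rw [Pi.single_eq_of_ne hj, C_0, zero_mul]
  · intro h
    exact absurd (Finset.mem_univ i) h

theorem MONOSPL_lin (i : Fin N) : lin (Pi.single i (1 : ZMod p)) = mkR p N (X i) := by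
  unfold lin
  rw [MONOSPL_linP]

theorem MONOSPL_mem (Q : MvPolynomial (Fin N) (ZMod p)) :
    Q ∈ Idl p N ↔ ∀ α, coeff α Q ≠ 0 → ∃ i, p ≤ α i := by
  have h1 : (Set.range fun i : Fin N => (X i : MvPolynomial (Fin N) (ZMod p)) ^ p) =
      (fun s => monomial s (1 : ZMod p)) '' (Set.range fun i : Fin N => Finsupp.single i p) := by
    rw [← Set.range_comp]
    congr 1
    funext i
    simp only [Function.comp]
    rw [X_pow_eq_monomial]
  unfold Idl
  rw [h1, mem_ideal_span_monomial_image]
  constructor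
  · intro h α hα
    obtain ⟨s, ⟨i, rfl⟩, hs⟩ := h α (mem_support_iff.mpr hα)
    refine ⟨i, ?_⟩
    have := hs i
    simpa using this
  · intro h α hα
    obtain ⟨i, hi⟩ := h α (mem_support_iff.mp hα)
    refine ⟨_, ⟨i, rfl⟩, ?_⟩
    rw [Finsupp.single_le_iff]
    exact hi

/-- exponent vector from a function -/
noncomputable def MONOSPL_ex (a : Fin N → ℕ) : Fin N →₀ ℕ := Finsupp.equivFunOnFinite.symm a

theorem MONOSPL_ex_apply (a : Fin N → ℕ) (i : Fin N) : MONOSPL_ex a i = a i := rfl

/-- the exponent of `w_T` -/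
noncomputable def MONOSPL_e (p : ℕ) (T : Finset (Fin N)) : Fin N →₀ ℕ :=
  MONOSPL_ex fun i => if i ∈ T then p - 1 else 0

theorem MONOSPL_e_apply (T : Finset (Fin N)) (i : Fin N) :
    MONOSPL_e p T i = if i ∈ T then p - 1 else 0 := rfl

theorem MONOSPL_zero (hp : 1 ≤ p) (T : Finset (Fin N)) (f : Rg p N)
    (hf : ∀ i ∈ T, lin (Pi.single i 1) * f = 0) :
    ∃ h, f = mkR p N (monomial (MONOSPL_e p T) 1) * h := by
  obtain ⟨Q, rfl⟩ := mkR_surj p N f
  have hval : ∀ α, coeff α Q ≠ 0 → (∀ i, α i < p) → ∀ i ∈ T, α i = p - 1 := by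
    intro α hα hlt i hi
    have h1 := hf i hi
    rw [MONOSPL_lin, ← map_mul, mkR_eq_zero, MONOSPL_mem] at h1
    obtain ⟨j, hj⟩ := h1 (Finsupp.single i 1 + α) (by rw [coeff_X_mul]; exact hα)
    rw [Finsupp.add_apply, Finsupp.single_apply] at hj
    split_ifs at hj with h
    · subst h
      have := hlt i
      omega
    · have := hlt j
      omega
  set S := Q.support.filter (fun α => ∀ i, α i < p) with hS
  refine ⟨mkR p N (∑ α ∈ S, monomial (α - MONOSPL_e p T) (coeff α Q)), ?_⟩
  rw [← map_mul, ← sub_eq_zero, ← map_sub, mkR_eq_zero, Finset.mul_sum]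
  have h2 : ∑ α ∈ S, monomial (MONOSPL_e p T) (1 : ZMod p) *
      monomial (α - MONOSPL_e p T) (coeff α Q) = ∑ α ∈ S, monomial α (coeff α Q) := by
    refine Finset.sum_congr rfl fun α hα => ?_
    rw [hS, Finset.mem_filter, mem_support_iff] at hα
    have hee : MONOSPL_e p T + (α - MONOSPL_e p T) = α := by
      ext i
      rw [Finsupp.add_apply, Finsupp.tsub_apply, MONOSPL_e_apply]
      split_ifs with hi
      · have := hval α hα.1 hα.2 i hi
        omega
      · omega
    rw [monomial_mul, one_mul, hee]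
  rw [h2]
  have h3 : Q = ∑ α ∈ Q.support, monomial α (coeff α Q) := Q.as_sum
  have h4 : Q - ∑ α ∈ S, monomial α (coeff α Q) =
      ∑ α ∈ Q.support.filter (fun α => ¬ ∀ i, α i < p), monomial α (coeff α Q) := by
    have h5 := Finset.sum_filter_add_sum_filter_not Q.support (fun α => ∀ i, α i < p)
      (fun α => monomial α (coeff α Q))
    rw [← h3] at h5
    rw [sub_eq_iff_eq_add']
    exact h5.symm
  rw [h4]
  refine Ideal.sum_mem _ fun α hα => ?_
  rw [MONOSPL_mem]
  intro β hβ
  rw [coeff_monomial] at hβ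
  split_ifs at hβ with h
  · subst h
    have := (Finset.mem_filter.mp hα).2
    push Not at this
    exact this
  · exact absurd rfl hβ

end MONOSPL_sec

theorem t_MONOSPL : S_MONOSPL := by
  intro p N hp T T' hTT P n hP hsupp hex g hg
  have hp1 : 1 ≤ p := hp.out.one_lt.le
  -- step 1
  obtain ⟨f, hf1, hf2⟩ := hex
  obtain ⟨h0, rfl⟩ := MONOSPL_zero hp1 T f hf1
  have h1 : P * monomial (MONOSPL_e p T) 1 ∉ Idl p N := by
    intro hmem
    apply hf2
    rw [← mul_assoc, ← map_mul, (mkR_eq_zero _).mpr hmem, zero_mul]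
  rw [MONOSPL_mem] at h1
  push Not at h1
  obtain ⟨γ, hγ1, hγ2⟩ := h1
  rw [coeff_mul_monomial'] at hγ1
  split_ifs at hγ1 with hle
  swap
  · exact absurd rfl hγ1
  rw [mul_one] at hγ1
  set α : Fin N →₀ ℕ := γ - MONOSPL_e p T with hα
  have hαlt : ∀ i, α i < p := by
    intro i
    have := hγ2 i
    rw [hα, Finsupp.tsub_apply]
    omega
  have hαT : ∀ i ∈ T, α i = 0 := by
    intro i hi
    have := hγ2 i
    rw [hα, Finsupp.tsub_apply, MONOSPL_e_apply, if_pos hi]
    omega
  have hαT' : ∀ i, i ∉ T' → α i = 0 := hsupp α hγ1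
  have hdeg : ∀ β, coeff β P ≠ 0 → ∑ i, β i = n := by
    intro β hβ
    have := hP hβ
    rw [← this, Finsupp.weight_apply, Finsupp.sum_fintype]
    · simp
    · simp
  set c := coeff α P with hc
  -- step 2
  set s : Fin N →₀ ℕ := MONOSPL_ex (fun i => if i ∈ T then p - 1 else if i ∈ T' then p - 1 - α i
    else 0) with hs
  have hsapp : ∀ i, s i = if i ∈ T then p - 1 else if i ∈ T' then p - 1 - α i else 0 :=
    fun i => rfl
  have hsum : α + s = MONOSPL_e p T' := by
    ext i
    rw [Finsupp.add_apply, hsapp, MONOSPL_e_apply]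
    have h2 := hαlt i
    by_cases hi : i ∈ T
    · rw [if_pos hi, if_pos (hTT hi), hαT i hi, zero_add]
    · rw [if_neg hi]
      by_cases hi' : i ∈ T'
      · rw [if_pos hi', if_pos hi']
        omega
      · rw [if_neg hi', if_neg hi', hαT' i hi']
  have hkey : mkR p N (P * monomial s 1) = mkR p N (C c * monomial (MONOSPL_e p T') 1) := by
    rw [← sub_eq_zero, ← map_sub, mkR_eq_zero, MONOSPL_mem]
    intro β hβ
    rw [coeff_sub, coeff_mul_monomial', coeff_C_mul, coeff_monomial] at hβ
    by_cases hb : MONOSPL_e p T' = β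
    · exfalso
      apply hβ
      have hsle : s ≤ β := by
        rw [← hb, ← hsum]
        exact le_add_self
      have hbs : β - s = α := by
        rw [← hb, ← hsum]
        exact add_tsub_cancel_right α s
      rw [if_pos hsle, if_pos hb, hbs]
      ring
    · rw [if_neg hb, mul_zero, sub_zero] at hβ
      split_ifs at hβ with hsle
      swap
      · exact absurd rfl hβ
      rw [mul_one] at hβ
      have hne : β - s ≠ α := by
        intro he
        apply hb
        rw [← hsum, ← he, tsub_add_cancel_of_le hsle]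
      have hgt : ∃ i, α i < (β - s) i := by
        by_contra hcon
        push Not at hcon
        apply hne
        have h5 := (Finset.sum_eq_sum_iff_of_le (s := Finset.univ) (fun i _ => hcon i)).mp
          ((hdeg _ hβ).trans (hdeg _ hγ1).symm)
        ext i
        exact h5 i (Finset.mem_univ i)
      obtain ⟨i, hi⟩ := hgt
      have hiT' : i ∈ T' := by
        by_contra hni
        have := hsupp _ hβ i hni
        omega
      refine ⟨i, ?_⟩
      have h6 := hsle i
      have hi2 : (β - s) i = β i - s i := Finsupp.tsub_apply β s i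
      rw [hi2] at hi
      rw [hsapp] at h6 hi
      have h7 := hαlt i
      by_cases hiT : i ∈ T
      · rw [if_pos hiT] at h6 hi
        omega
      · rw [if_neg hiT, if_pos hiT'] at h6 hi
        omega
  -- step 3
  obtain ⟨h, rfl⟩ := MONOSPL_zero hp1 T' g hg
  refine ⟨mkR p N (C c⁻¹) * (mkR p N (monomial s 1) * h), ?_, ?_⟩
  · intro i hi
    have hz : lin (Pi.single i (1 : ZMod p)) * mkR p N (monomial s 1) = 0 := by
      rw [MONOSPL_lin, ← map_mul, mkR_eq_zero, MONOSPL_mem]
      intro β hβ
      rw [X, monomial_mul, coeff_monomial] at hβ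
      split_ifs at hβ with he
      · refine ⟨i, ?_⟩
        rw [← he, Finsupp.add_apply, Finsupp.single_eq_same, hsapp, if_pos hi]
        omega
      · exact absurd rfl hβ
    rw [mul_left_comm, ← mul_assoc (lin _), hz, zero_mul, mul_zero]
  · have h8 : mkR p N P * (mkR p N (C c⁻¹) * (mkR p N (monomial s 1) * h)) =
        mkR p N (C c⁻¹) * (mkR p N (P * monomial s 1) * h) := by
      rw [map_mul]
      ring
    rw [h8, hkey, map_mul, ← mul_assoc, ← mul_assoc, ← map_mul, ← C_mul, inv_mul_cancel₀ hγ1, C_1,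
      map_one, one_mul]

end Pool.H433AJT
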