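import Pool.Agent.H433R2.AJT.SpecC

open MvPolynomial
open scoped Classical

namespace Pool.H433AJT

theorem MOVE_ge {lam x r : ℤ} (hl : 4 ≤ lam) (k : ℤ) (hx : x % lam = r)
    (h : (k - 1) * lam + r < x) : k * lam + r ≤ x := by
  have h1 : x % lam + lam * (x / lam) = x := Int.emod_add_mul_ediv x lam
  rw [hx] at h1
  have h2 : k - 1 < x / lam := by
    by_contra hc
    push Not at hc
    nlinarith
  have h3 : k ≤ x / lam := by omega
  nlinarith

section

variable {F V ι : Type} [Field F] [AddCommGroup V] [Module F V]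

theorem MOVE_FU (lam : ℤ) (v : ι → V) (U : Submodule F V) (I : Finset ι) (b : ℤ)
    (h : ∀ i ∈ I, v i ∉ U) : FF lam v U I b U = b - 1 := by
  have h1 : I.filter (fun i => v i ∈ U) = ∅ := Finset.filter_eq_empty_iff.2 (fun i hi => h i hi)
  unfold FF nn
  rw [h1]
  simp

theorem MOVE_mod (lam : ℤ) (v : ι → V) (U : Submodule F V) (I : Finset ι) (b : ℤ)
    (W : Submodule F V) : FF lam v U I b W % lam = (b - 1) % lam := by
  unfold FF
  rw [Int.add_mul_emod_self_left]

theorem MOVE_dbl (v : ι → V) (U : Submodule F V) (I : Finset ι) (h : (dbl v I U).card ≤ 1) :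
    dbl v I U = ∅ := by
  by_contra hne
  obtain ⟨j, hj⟩ := Finset.nonempty_iff_ne_empty.2 hne
  have hj' := hj
  unfold dbl at hj'
  rw [Finset.mem_filter] at hj'
  obtain ⟨hjI, hjU, hjc⟩ := hj'
  have hsub : cls v I U j ⊆ dbl v I U := by
    intro k hk
    have hk' := hk
    unfold cls at hk'
    rw [Finset.mem_filter] at hk'
    obtain ⟨hkI, hkU, hkj⟩ := hk'
    have hcl : cls v I U k = cls v I U j := by
      unfold cls
      rw [hkj]
    unfold dbl
    rw [Finset.mem_filter]
    exact ⟨hkI, hkU, by rw [hcl]; exact hjc⟩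
  have := Finset.card_le_card hsub
  omega

theorem MOVE_cls_pos (v : ι → V) (U : Submodule F V) (I : Finset ι) (i : ι) (hi : i ∈ I)
    (hU : v i ∉ U) : 1 ≤ (cls v I U i).card := by
  apply Finset.card_pos.2
  refine ⟨i, ?_⟩
  unfold cls
  rw [Finset.mem_filter]
  exact ⟨hi, hU, rfl⟩

end

/-- the contraction child of the first move satisfies the invariant -/
theorem MOVE_con (h4 : S_CON1) (h9 : S_FCON) {F V ι : Type} [Field F] [AddCommGroup V] [Module F V]
    [FiniteDimensional F V] (lam : ℤ) (v : ι → V) (U : Submodule F V) (I : Finset ι) (b : ℤ)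
    (hl : 4 ≤ lam) (hI : InvC lam v U I b) (i : ι) (hi : i ∈ I) :
    InvC lam v (jn U (v i)) (I.filter fun j => v j ∉ jn U (v i))
      (b + lam + 2 - lam * ((cls v I U i).card - 1)) := by
  obtain ⟨hInv, hc0, hc1, hc2⟩ := hI
  have hInv' := h4 F V ι lam v U I b hl hInv i hi
  have hF := (h9 F V ι lam v U I b 2 i hInv.1 hi).1
  have hUle : U ≤ jn U (v i) := le_sup_left
  have hpos : ∀ W, jn U (v i) ≤ W → 2 ≤ FF lam v (jn U (v i)) (I.filter fun j => v j ∉ jn U (v i))
      (b + lam + 2 - lam * ((cls v I U i).card - 1)) W := by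
    intro W hW
    rw [hF W hW]
    have := hInv.2 W (hUle.trans hW)
    have h0 : (0 : ℤ) ≤ ((dbl v I W).card : ℤ) := Int.natCast_nonneg _
    linarith
  have hres : ∀ W, FF lam v (jn U (v i)) (I.filter fun j => v j ∉ jn U (v i))
      (b + lam + 2 - lam * ((cls v I U i).card - 1)) W % lam =
      (b + lam + 2 - lam * ((cls v I U i).card - 1) - 1) % lam := fun W => MOVE_mod _ _ _ _ _ _
  have hU' : FF lam v (jn U (v i)) (I.filter fun j => v j ∉ jn U (v i))
      (b + lam + 2 - lam * ((cls v I U i).card - 1)) (jn U (v i)) =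
      b + lam + 2 - lam * ((cls v I U i).card - 1) - 1 := MOVE_FU _ _ _ _ _ hInv'.1
  have hres2 : (b + lam + 2 - lam * ((cls v I U i).card - 1) - 1) % lam = (b - 1 + 2) % lam := by
    have : b + lam + 2 - lam * (((cls v I U i).card : ℤ) - 1) - 1 =
        (b - 1 + 2) + lam * (2 - ((cls v I U i).card : ℤ)) := by ring
    rw [this, Int.add_mul_emod_self_left]
  refine ⟨hInv', ?_, ?_, ?_⟩
  · intro hr W hW
    have h1 := MOVE_ge hl 1 ((hres W).trans hr) (by have := hpos W hW; linarith)
    linarith
  · intro hr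
    have h1 := MOVE_ge hl 1 hr (by
      have := hpos _ le_rfl
      rw [hU'] at this
      linarith)
    linarith
  · intro hr
    left
    rw [hres2] at hr
    have hb : (b - 1) % lam = 0 := by
      have h1 : (b - 1 + 2 - 2) % lam = (2 - 2) % lam := by
        rw [Int.sub_emod, hr, Int.sub_emod 2 2]
        have h2 : (2 : ℤ) % lam = 2 := Int.emod_eq_of_lt (by norm_num) (by linarith)
        rw [h2]
      simpa using h1
    have h2 := hc0 hb _ hUle
    have h3 := hF _ le_rfl
    rw [hU'] at h3
    linarith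

/-- the deletion child of the first move satisfies the invariant -/
theorem MOVE_del (h2 : S_DEL1) (h8 : S_FDEL) {F V ι : Type} [Field F] [AddCommGroup V] [Module F V]
    [FiniteDimensional F V] (lam : ℤ) (v : ι → V) (U : Submodule F V) (I : Finset ι) (b : ℤ)
    (hl : 4 ≤ lam) (hI : InvC lam v U I b) (i : ι) (hi : Safe lam v U I b i)
    (k1 : (b - 1) % lam = 1 → ∀ W, U ≤ W → FF lam v U I b W = 1 → v i ∈ W)
    (k2 : (b - 1) % lam = 2 → lam + 1 ≤ b - 2)
    (k3 : (b - 1) % lam = 3 → lam + 2 ≤ b - 2 ∨ dbl v (I.erase i) U = ∅) :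
    InvC lam v U (I.erase i) (b - 1) := by
  obtain ⟨hInv, hc0, hc1, hc2⟩ := hI
  have hInv' := h2 F V ι lam v U I b hl hInv i hi
  have hres : ∀ r : ℤ, 0 ≤ r → r + 1 < lam → (b - 1 - 1) % lam = r → (b - 1) % lam = r + 1 := by
    intro r hr0 hr1 hr
    have h1 : b - 1 = (b - 1 - 1) + 1 := by ring
    rw [h1, Int.add_emod, hr]
    have h2 : (1 : ℤ) % lam = 1 := Int.emod_eq_of_lt (by norm_num) (by linarith)
    rw [h2]
    exact Int.emod_eq_of_lt (by linarith) hr1
  refine ⟨hInv', ?_, ?_, ?_⟩
  · intro hr W hW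
    have hb := hres 0 le_rfl (by linarith) hr
    rw [zero_add] at hb
    have hF := (h8 F V ι lam v U I b (b - 1) W i hi.1).1
    have h0 : (0 : ℤ) ≤ FF lam v U I b W :=
      (Int.natCast_nonneg _).trans (hInv.2 W hW)
    have hmod : FF lam v U I b W % lam = 1 := (MOVE_mod lam v U I b W).trans hb
    have h1 : 0 * lam + 1 ≤ FF lam v U I b W := MOVE_ge hl 0 hmod (by linarith)
    rw [hF]
    by_cases hv : v i ∈ W
    · rw [if_pos hv]
      linarith
    · rw [if_neg hv]
      have hne : FF lam v U I b W ≠ 1 := fun h => hv (k1 hb W hW h)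
      have h3 : 1 < FF lam v U I b W := by
        rcases lt_or_eq_of_le (show (1 : ℤ) ≤ FF lam v U I b W by linarith) with h | h
        · exact h
        · exact absurd h.symm hne
      have h4 : 1 * lam + 1 ≤ FF lam v U I b W := MOVE_ge hl 1 hmod (by linarith)
      linarith
  · intro hr
    have hb := hres 1 (by norm_num) (by linarith) hr
    have := k2 (by rw [hb]; norm_num)
    linarith
  · intro hr
    have hb := hres 2 (by norm_num) (by linarith) hr
    rcases k3 (by rw [hb]; norm_num) with h | h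
    · left; linarith
    · right; exact h

theorem t_MOVE (h1 : S_EXSAFE) (h2 : S_DEL1) (h3 : S_DEL2) (h4 : S_CON1) (h5 : S_CON2)
    (h6 : S_RHO1) (h7 : S_EXT) (h8 : S_FDEL) (h9 : S_FCON) (h10 : S_DBLUP) (h11 : S_COV)
    (h12 : S_A3) : S_MOVE := by
  intro F V ι _ _ _ _ lam v U I b hl hI hne
  have hI' := hI
  obtain ⟨hInv, hc0, hc1, hc2⟩ := hI'
  have hlpos : 0 < lam := by linarith
  have hr0 : 0 ≤ (b - 1) % lam := Int.emod_nonneg _ (by linarith)
  have hr1 : (b - 1) % lam < lam := Int.emod_lt_of_pos _ hlpos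
  have hFU : FF lam v U I b U = b - 1 := MOVE_FU lam v U I b hInv.1
  have hdU : ((dbl v I U).card : ℤ) ≤ b - 1 := by
    rw [← hFU]
    exact hInv.2 U le_rfl
  have hb0 : 0 ≤ b - 1 := (Int.natCast_nonneg _).trans hdU
  have hbr : (b - 1) % lam ≤ b - 1 := by
    have := MOVE_ge hl 0 (rfl : (b - 1) % lam = (b - 1) % lam) (by linarith)
    linarith
  have hb2 : 2 ≤ b := by
    by_cases h : (b - 1) % lam = 0
    · have := hc0 h U le_rfl
      rw [hFU] at this
      linarith
    · have : 1 ≤ (b - 1) % lam := by omega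
      linarith
  -- classes of size at least three are impossible if `b` is small
  have hA3 : b - 1 < lam → ∀ i ∈ I, ¬ 3 ≤ (cls v I U i).card := by
    intro hb i hi h3'
    have h := h12 F V ι lam v U I b hl hInv U le_rfl ⟨i, hi, hInv.1 i hi, h3'⟩
    rw [hFU] at h
    have h0 : (0 : ℤ) ≤ ((dbl v I U).card : ℤ) := Int.natCast_nonneg _
    linarith
  -- a safe label for the first move
  have hT1 : ∀ i, Safe lam v U I b i →
      ((b - 1) % lam = 1 → ∀ W, U ≤ W → FF lam v U I b W = 1 → v i ∈ W) →
      ((b - 1) % lam = 2 → lam + 1 ≤ b - 2) →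
      ((b - 1) % lam = 3 → lam + 2 ≤ b - 2 ∨ dbl v (I.erase i) U = ∅) →
      ∃ i ∈ I,
        (InvC lam v U (I.erase i) (b - 1) ∧
          InvC lam v (jn U (v i)) (I.filter fun j => v j ∉ jn U (v i))
            (b + lam + 2 - lam * ((cls v I U i).card - 1))) ∨
        (InvC lam v U (I.erase i) b ∧
          InvC lam v (jn U (v i)) (I.filter fun j => v j ∉ jn U (v i))
            (b + lam - 1 - lam * ((cls v I U i).card - 1))) := by
    intro i hs k1 k2 k3
    exact ⟨i, hs.1, Or.inl ⟨MOVE_del h2 h8 lam v U I b hl hI i hs k1 k2 k3,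
      MOVE_con h4 h9 lam v U I b hl hI i hs.1⟩⟩
  obtain ⟨i0, hi0⟩ := h1 F V ι lam v U I b hl hInv hb2 hne
  by_cases hρ1 : (b - 1) % lam = 1
  · by_cases hex : ∃ W, U ≤ W ∧ FF lam v U I b W = 1
    · obtain ⟨i, hs, hi⟩ := h6 F V ι lam v U I b hl hInv hρ1 (hc1 hρ1) hex
      exact hT1 i hs (fun _ => hi) (fun h => absurd (hρ1.symm.trans h) (by norm_num))
        (fun h => absurd (hρ1.symm.trans h) (by norm_num))
    · push Not at hex
      exact hT1 i0 hi0 (fun _ W hW h => absurd h (hex W hW))
        (fun h => absurd (hρ1.symm.trans h) (by norm_num))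
        (fun h => absurd (hρ1.symm.trans h) (by norm_num))
  by_cases hρ2 : (b - 1) % lam = 2
  · by_cases hbig : lam + 2 ≤ b - 1
    · exact hT1 i0 hi0 (fun h => absurd h hρ1) (fun _ => by linarith)
        (fun h => absurd (hρ2.symm.trans h) (by norm_num))
    · have hdbl : dbl v I U = ∅ := (hc2 hρ2).resolve_left hbig
      have hb3 : b - 1 = 2 := by
        by_contra hcon
        have h5' : 2 < b - 1 := by
          rcases lt_or_eq_of_le (show (2 : ℤ) ≤ b - 1 by linarith) with h | h
          · exact h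
          · exact absurd h.symm hcon
        have := MOVE_ge hl 1 hρ2 (by linarith)
        exact hbig (by linarith)
      -- a label outside of all tight subspaces
      have hi1 : ∃ i ∈ I, ∀ W, Tight lam v U I b W → v i ∉ W := by
        by_cases ht : ∃ W, Tight lam v U I b W
        · obtain ⟨U₁, hU₁, hmax⟩ := (h7 F V ι lam v U I b hl hInv ht).2
          by_contra hcon
          push Not at hcon
          have hall : ∀ i ∈ I, v i ∈ U₁ := by
            intro i hi
            obtain ⟨W, hW, hiW⟩ := hcon i hi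
            exact hmax W hW hiW
          have hd : dbl v I U₁ = ∅ := by
            unfold dbl
            apply Finset.filter_eq_empty_iff.2
            intro i hi h
            exact h.1 (hall i hi)
          have hF1 := hU₁.2
          rw [hd, Finset.card_empty] at hF1
          have hm := MOVE_mod lam v U I b U₁
          rw [hF1, hρ2] at hm
          simp at hm
        · obtain ⟨i, hi⟩ := hne
          exact ⟨i, hi, fun W hW => absurd ⟨W, hW⟩ ht⟩
      obtain ⟨i, hi, hiT⟩ := hi1
      have hc3 : ¬ 3 ≤ (cls v I U i).card := hA3 (by linarith) i hi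
      have hfd := h8 F V ι lam v U I b b U i hi
      have hc2' : (cls v I U i).card ≠ 2 := by
        intro h
        have := (hfd.2.2.1 (hInv.1 i hi) h).2
        rw [hdbl] at this
        exact absurd this (Finset.notMem_empty i)
      have hcp := MOVE_cls_pos v U I i hi (hInv.1 i hi)
      have hc1' : (cls v I U i).card = 1 := by omega
      have hdbl' : dbl v (I.erase i) U = ∅ := by
        rw [hfd.2.2.2.2 (hInv.1 i hi) hc2' (by omega), hdbl]
      refine ⟨i, hi, Or.inr ⟨⟨h3 F V ι lam v U I b hl hInv i hi, fun h => ?_, fun h => ?_,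
        fun _ => Or.inr hdbl'⟩, ⟨h5 F V ι lam v U I b hl hInv i hi hiT, fun h => ?_, fun _ => ?_,
        fun h => ?_⟩⟩⟩
      · exact absurd (hρ2.symm.trans h) (by norm_num)
      · exact absurd h hρ1
      · exfalso
        rw [hc1'] at h
        have he : b + lam - 1 - lam * (((1 : ℕ) : ℤ) - 1) - 1 = 1 + lam * 1 := by
          push_cast
          linarith
        rw [he, Int.add_mul_emod_self_left, Int.emod_eq_of_lt (by norm_num) (by linarith)] at h
        norm_num at h
      · rw [hc1']
        push_cast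
        linarith
      · exfalso
        rw [hc1'] at h
        have he : b + lam - 1 - lam * (((1 : ℕ) : ℤ) - 1) - 1 = 1 + lam * 1 := by
          push_cast
          linarith
        rw [he, Int.add_mul_emod_self_left, Int.emod_eq_of_lt (by norm_num) (by linarith)] at h
        norm_num at h
  by_cases hρ3 : (b - 1) % lam = 3
  · by_cases hb4 : b - 1 = 3
    · by_cases hdn : dbl v I U = ∅
      · have hi0I : i0 ∈ I := hi0.1
        have hc3 : ¬ 3 ≤ (cls v I U i0).card := hA3 (by linarith) i0 hi0I
        have hfd := h8 F V ι lam v U I b b U i0 hi0I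
        have hc2' : (cls v I U i0).card ≠ 2 := by
          intro h
          have := (hfd.2.2.1 (hInv.1 i0 hi0I) h).2
          rw [hdn] at this
          exact absurd this (Finset.notMem_empty i0)
        have hdbl' : dbl v (I.erase i0) U = ∅ := by
          rw [hfd.2.2.2.2 (hInv.1 i0 hi0I) hc2' (by omega), hdn]
        exact hT1 i0 hi0 (fun h => absurd h hρ1) (fun h => absurd h hρ2) (fun _ => Or.inr hdbl')
      · obtain ⟨i, hi⟩ := Finset.nonempty_iff_ne_empty.2 hdn
        have hi' := hi
        unfold dbl at hi'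
        rw [Finset.mem_filter] at hi'
        obtain ⟨hiI, hiU, hic⟩ := hi'
        have hs : Safe lam v U I b i := by
          refine ⟨hiI, fun W hW hv => ?_⟩
          exact h10 F V ι lam v U I b hl hInv U W i hW.1 hi hW hv
        have hfd := h8 F V ι lam v U I b b U i hiI
        have hcard := (hfd.2.2.1 hiU hic).1
        have hdbl' : dbl v (I.erase i) U = ∅ := by
          apply MOVE_dbl
          have : ((dbl v (I.erase i) U).card : ℤ) ≤ 1 := by linarith
          exact_mod_cast this
        exact hT1 i hs (fun h => absurd h hρ1) (fun h => absurd h hρ2) (fun _ => Or.inr hdbl')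
    · have h5' : 3 < b - 1 := by
        rcases lt_or_eq_of_le (show (3 : ℤ) ≤ b - 1 by linarith) with h | h
        · exact h
        · exact absurd h.symm hb4
      have h6' := MOVE_ge hl 1 hρ3 (by linarith)
      exact hT1 i0 hi0 (fun h => absurd h hρ1) (fun h => absurd h hρ2)
        (fun _ => Or.inl (by linarith))
  exact hT1 i0 hi0 (fun h => absurd h hρ1) (fun h => absurd h hρ2) (fun h => absurd h hρ3)

end Pool.H433AJT
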