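import Pool.Agent.H433R2.AJT.SpecC

open MvPolynomial
open scoped Classical

namespace Pool.H433AJT

theorem t_NBASE (hF : S_FR) (hL : S_LOW) (hO : S_OM) (hP : S_NPAR) : S_NBASE := by
  intro p N _ ι v U I hI hpar hcard
  obtain ⟨w, hw, hw0, _⟩ := hO p N U
  rcases I.eq_empty_or_nonempty with rfl | ⟨i0, hi0⟩
  · exact ⟨w, hw.2, by simpa using hw0⟩
  · obtain ⟨c, hc, hprod⟩ := hP p N ι v U I (v i0) (hI i0 hi0)
      (fun j hj => ⟨hI j hj, hpar j hj i0 hi0⟩)
    refine ⟨w, hw.2, fun h0 => hw0 ?_⟩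
    rw [hprod w hw.2] at h0
    have h1 : lin (v i0) ^ I.card * w = 0 := by
      have h2 : mkR p N (C c⁻¹) * (mkR p N (C c) * lin (v i0) ^ I.card * w) = 0 := by
        rw [h0, mul_zero]
      rw [mul_assoc, ← mul_assoc, ← map_mul, ← C_mul, inv_mul_cancel₀ hc, C_1, map_one,
        one_mul] at h2
      exact h2
    obtain ⟨g, hg, hwg⟩ := hF p N U (v i0) (hI i0 hi0) I.card (by omega) _ w hw h1
    have hg0 : g = 0 := by
      apply hL p N U _ g hg
      have : ((I.card : ℤ)) + 1 ≤ p := by exact_mod_cast hcard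
      linarith
    rw [hwg, hg0, mul_zero]

end Pool.H433AJT
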