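import Pool.Agent.H433R2.AJT.SpecC

open MvPolynomial
open scoped Classical

namespace Pool.H433AJT

theorem t_NPAR (hL : S_LINADD) : S_NPAR := by
  intro p N _ ι v U J x hx hJ
  obtain ⟨hadd, hsm, -, -⟩ := hL p N
  have hrep : ∀ j ∈ J, ∃ a : ZMod p, ∃ u ∈ U, a ≠ 0 ∧ v j = u + a • x := by
    intro j hj
    obtain ⟨h1, h2⟩ := hJ j hj
    have h3 : v j ∈ jn U x := by
      rw [← h2]
      exact Submodule.mem_sup_right (Submodule.mem_span_singleton_self _)
    obtain ⟨u, hu, z, hz, huz⟩ := Submodule.mem_sup.1 h3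
    obtain ⟨a, rfl⟩ := Submodule.mem_span_singleton.1 hz
    refine ⟨a, u, hu, ?_, huz.symm⟩
    rintro rfl
    apply h1
    rw [← huz, zero_smul, add_zero]
    exact hu
  clear hJ
  induction J using Finset.induction_on with
  | empty =>
    refine ⟨1, one_ne_zero, fun f _ => ?_⟩
    simp
  | insert j J hj ih =>
    obtain ⟨c, hc, hcf⟩ := ih (fun i hi => hrep i (Finset.mem_insert_of_mem hi))
    obtain ⟨a, u, hu, ha, hv⟩ := hrep j (Finset.mem_insert_self j J)
    refine ⟨a * c, mul_ne_zero ha hc, fun f hf => ?_⟩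
    rw [Finset.prod_insert hj, Finset.card_insert_of_notMem hj, mul_assoc, hcf f hf, hv, hadd, hsm]
    have e1 : lin u * (mkR p N (C c) * lin x ^ J.card * f) = 0 := by
      have := hf u hu
      calc lin u * (mkR p N (C c) * lin x ^ J.card * f)
          = mkR p N (C c) * lin x ^ J.card * (lin u * f) := by ring
        _ = 0 := by rw [this, mul_zero]
    rw [add_mul, e1, zero_add, C_mul, map_mul]
    ring

end Pool.H433AJT
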