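import Pool.Agent.H433R2.AJT.SpecC

open MvPolynomial
open scoped Classical

namespace Pool.H433AJT

theorem NRULES_finrank {p N : ℕ} [Fact p.Prime] (U : Submodule (ZMod p) (Vec p N)) (x : Vec p N)
    (hx : x ∉ U) : Module.finrank (ZMod p) (jn U x : Submodule (ZMod p) (Vec p N))
      = Module.finrank (ZMod p) U + 1 := by
  have h0 : x ≠ 0 := fun h => hx (h ▸ U.zero_mem)
  have h1 := Submodule.finrank_sup_add_finrank_inf_eq U (Submodule.span (ZMod p) {x})
  have h2 : U ⊓ Submodule.span (ZMod p) {x} = ⊥ := by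
    rw [Submodule.eq_bot_iff]
    rintro y ⟨hy1, hy2⟩
    obtain ⟨c, rfl⟩ := Submodule.mem_span_singleton.1 hy2
    by_cases hc : c = 0
    · rw [hc, zero_smul]
    · exfalso
      apply hx
      have := U.smul_mem c⁻¹ hy1
      rwa [smul_smul, inv_mul_cancel₀ hc, one_smul] at this
  rw [h2, finrank_bot, finrank_span_singleton h0] at h1
  simpa using h1

theorem NRULES_sum {p N : ℕ} [Fact p.Prime] {ι : Type} (v : ι → Vec p N)
    (U : Submodule (ZMod p) (Vec p N)) (I R : Finset ι) (i0 : ι) (m : ι → ℕ)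
    (hU : ∀ i ∈ I, v i ∉ U) (hR0 : ∀ r ∈ R, jn U (v r) ≠ jn U (v i0))
    (hR : ∀ i ∈ I, jn U (v i) ≠ jn U (v i0) → ∃! r, r ∈ R ∧ jn U (v r) = jn U (v i))
    (hm : ∀ r ∈ R, m r = (cls v I U r).card) :
    (∑ r ∈ R, m r) + (cls v I U i0).card = I.card := by
  have h1 : ∑ r ∈ R, m r = (R.biUnion fun r => cls v I U r).card := by
    rw [Finset.card_biUnion]
    · exact Finset.sum_congr rfl hm
    · intro a ha b hb hab
      show Disjoint (cls v I U a) (cls v I U b)
      rw [Finset.disjoint_left]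
      intro j hja hjb
      unfold cls at hja hjb
      rw [Finset.mem_filter] at hja hjb
      apply hab
      have h2 : jn U (v j) ≠ jn U (v i0) := by
        rw [hja.2.2]; exact hR0 a ha
      exact (hR j hja.1 h2).unique ⟨ha, hja.2.2.symm⟩ ⟨hb, hjb.2.2.symm⟩
  rw [h1, ← Finset.card_union_of_disjoint]
  · congr 1
    ext j
    simp only [Finset.mem_union, Finset.mem_biUnion]
    constructor
    · rintro (⟨r, _, hr⟩ | hr)
      · unfold cls at hr
        exact (Finset.mem_filter.1 hr).1
      · unfold cls at hr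
        exact (Finset.mem_filter.1 hr).1
    · intro hj
      by_cases h : jn U (v j) = jn U (v i0)
      · right
        unfold cls
        rw [Finset.mem_filter]
        exact ⟨hj, hU j hj, h⟩
      · left
        obtain ⟨r, ⟨hr1, hr2⟩, _⟩ := hR j hj h
        refine ⟨r, hr1, ?_⟩
        unfold cls
        rw [Finset.mem_filter]
        exact ⟨hj, hU j hj, hr2.symm⟩
  · rw [Finset.disjoint_left]
    intro j hj1 hj2
    rw [Finset.mem_biUnion] at hj1
    obtain ⟨r, hr, hj1⟩ := hj1
    unfold cls at hj1 hj2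
    rw [Finset.mem_filter] at hj1 hj2
    exact hR0 r hr (hj1.2.2.symm.trans hj2.2.2)

theorem t_NRULES (h1 : S_NSPLIT) (h2 : S_NBASE) (h3 : S_NSTEP) : S_NRULES := by
  intro p N hp lam hlam hl1 ι v
  refine ⟨?_, ?_, ?_⟩
  · intro U W I hUW ha hb
    exact h1 p N ι v U W I hUW ha hb
  · intro U I hU hI hc
    refine h2 p N ι v U I hU hI ?_
    omega
  · intro U I R i0 m hU hi0 hRI hR0 hR hm hlt hN hZ
    refine h3 p N ι v U I R i0 m hU hi0 hRI hR0 hR hm ?_ hN ?_
    · intro i hi
      have := hlt i hi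
      omega
    · apply hZ 0
      have hs := NRULES_sum v U I R i0 m hU hR0 hR hm
      have hf := NRULES_finrank U (v i0) (hU i0 hi0)
      have h4 : ((List.map (fun a : Vec p N × ℕ => (a.2 : ℤ))
          (R.toList.map fun i => (v i, m i))).sum) = ((∑ r ∈ R, m r : ℕ) : ℤ) := by
        rw [List.map_map]
        push_cast
        rw [← Finset.sum_map_toList]
        rfl
      rw [h4, hf]
      push_cast
      have hs' : (∑ r ∈ R, (m r : ℤ)) + ((cls v I U i0).card : ℤ) = (I.card : ℤ) := by
        exact_mod_cast hs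
      rw [hlam]
      nlinarith [hs']

end Pool.H433AJT
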