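import Pool.Agent.H433R2.AJT.SpecC

open MvPolynomial
open scoped Classical

namespace Pool.H433AJT

theorem t_NSPLIT (h1 : S_SPL) : S_NSPLIT := by
  intro p N _ ι v U W I hUW hUI hWI
  obtain ⟨f, hf, hne⟩ := hWI
  obtain ⟨f', hf', hPf⟩ := h1 p N U W hUW ι (I.filter fun i => v i ∈ W) v
    (fun i hi => (Finset.mem_filter.1 hi).2) hUI f hf
  refine ⟨f', hf', ?_⟩
  rw [← Finset.prod_filter_mul_prod_filter_not I (fun i => v i ∈ W) (fun i => lin (v i)),
    mul_comm (∏ i ∈ I.filter (fun i => v i ∈ W), lin (v i)), mul_assoc, hPf]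
  exact hne

end Pool.H433AJT
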