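import Pool.Agent.H433R2.AJT.SpecC

open MvPolynomial
open scoped Classical

namespace Pool.H433AJT

theorem NSTEP_prod_gr {p N : ℕ} {ι : Type} (v : ι → Vec p N) (s : Finset ι) (δ : ℤ) (w : Rg p N)
    (hw : w ∈ gr p N δ) : (∏ i ∈ s, lin (v i)) * w ∈ gr p N (δ + s.card) := by
  induction s using Finset.induction_on with
  | empty => simpa using hw
  | insert a s ha ih =>
    rw [Finset.prod_insert ha, Finset.card_insert_of_notMem ha, mul_assoc]
    have := lin_mul_gr (v a) _ _ ih
    push_cast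
    rw [← add_assoc]
    exact this

theorem t_NSTEP (hO : S_OM) (hZ : S_HZ) (hP : S_NPAR) (hL : S_LINADD) : S_NSTEP := by
  intro p N _ ι v U I R i0 m hIU hi0 hRI hR0 _ hm hcl hNN hVan
  by_contra hN
  obtain ⟨w, hw, hw0, hgen⟩ := hO p N U
  have hwg : w ∈ gr p N (((p : ℤ) - 1) * Module.finrank (ZMod p) U) := hw.1
  have hwk : ∀ u ∈ U, lin u * w = 0 := hw.2
  obtain ⟨hadd, hsm, _, _⟩ := hL p N
  have hPP : (∏ i ∈ I, lin (v i)) = lin (v i0) * ∏ i ∈ I.erase i0, lin (v i) :=
    (Finset.mul_prod_erase I (fun i => lin (v i)) hi0).symm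
  have hG0 : (∏ i ∈ I.erase i0, lin (v i)) * w ≠ 0 := by
    obtain ⟨f, hfk, hf⟩ := hNN
    obtain ⟨g, rfl⟩ := hgen f hfk
    intro h
    apply hf
    rw [mul_left_comm, h, mul_zero]
  have hPw : lin (v i0) * ((∏ i ∈ I.erase i0, lin (v i)) * w) = 0 := by
    by_contra h
    apply hN
    refine ⟨w, hwk, ?_⟩
    rw [hPP, mul_assoc]
    exact h
  apply hG0
  have hcard : ((I.erase i0).card : ℤ) = (I.card : ℤ) - 1 := by
    have h1 := Finset.card_erase_add_one hi0
    have h2 : ((I.erase i0).card : ℤ) + 1 = (I.card : ℤ) := by exact_mod_cast h1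
    linarith
  have hgrG : (∏ i ∈ I.erase i0, lin (v i)) * w ∈
      gr p N (((p : ℤ) - 1) * Module.finrank (ZMod p) U + I.card - 1) := by
    have := NSTEP_prod_gr v (I.erase i0) _ w hwg
    rw [hcard] at this
    rw [add_sub_assoc]
    exact this
  have hkU : ∀ u ∈ U, lin u * ((∏ i ∈ I.erase i0, lin (v i)) * w) = 0 := by
    intro u hu
    rw [mul_left_comm, hwk u hu, mul_zero]
  apply hZ p N (jn U (v i0)) (R.toList.map fun i => (v i, m i)) _ hVan _
  · refine ⟨hgrG, fun u hu => ?_⟩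
    obtain ⟨a, ha, b, hb, rfl⟩ := Submodule.mem_sup.1 hu
    obtain ⟨c, rfl⟩ := Submodule.mem_span_singleton.1 hb
    rw [hadd, hsm, add_mul, hkU a ha, mul_assoc, hPw, mul_zero, add_zero]
  · intro a ha
    rw [List.mem_map] at ha
    obtain ⟨r, hr, rfl⟩ := ha
    have hrR : r ∈ R := Finset.mem_toList.1 hr
    have hrI : r ∈ I := hRI hrR
    have hJsub : cls v I U r ⊆ I.erase i0 := by
      intro j hj
      simp only [cls, Finset.mem_filter] at hj
      rw [Finset.mem_erase]
      refine ⟨?_, hj.1⟩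
      rintro rfl
      exact hR0 r hrR hj.2.2.symm
    have hsplit : (∏ i ∈ I.erase i0, lin (v i)) =
        (∏ i ∈ I.erase i0 \ cls v I U r, lin (v i)) * ∏ j ∈ cls v I U r, lin (v j) :=
      (Finset.prod_sdiff hJsub).symm
    obtain ⟨c, _, hc⟩ := hP p N ι v U (cls v I U r) (v r) (hIU r hrI) (fun j hj => by
      simp only [cls, Finset.mem_filter] at hj
      exact hj.2)
    have hpow : lin (v r) ^ (p - m r) * lin (v r) ^ (cls v I U r).card = (0 : Rg p N) := by
      rw [← pow_add, hm r hrR]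
      have h1 : p - (cls v I U r).card + (cls v I U r).card = p :=
        Nat.sub_add_cancel (hcl r hrI).le
      rw [h1, lin_pow]
    show lin (v r) ^ (p - m r) * ((∏ i ∈ I.erase i0, lin (v i)) * w) = 0
    rw [hsplit, mul_assoc, hc w hwk]
    calc lin (v r) ^ (p - m r) * ((∏ i ∈ I.erase i0 \ cls v I U r, lin (v i)) *
          (mkR p N (C c) * lin (v r) ^ (cls v I U r).card * w))
        = (lin (v r) ^ (p - m r) * lin (v r) ^ (cls v I U r).card) *
          ((∏ i ∈ I.erase i0 \ cls v I U r, lin (v i)) * mkR p N (C c) * w) := by ring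
      _ = 0 := by rw [hpow, zero_mul]

end Pool.H433AJT
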