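import Pool.Agent.H433R2.AJT.SpecC

open MvPolynomial
open scoped Classical

namespace Pool.H433AJT

namespace NULLaux

theorem linP_hom {p n : ℕ} (v : Vec p n) : (linP v).IsHomogeneous 1 := by
  unfold linP
  exact IsHomogeneous.sum _ _ _ fun i _ => isHomogeneous_C_mul_X _ _

theorem prod_hom {p n : ℕ} {ι : Type} (v : ι → Vec p n) (s : Finset ι) :
    (∏ i ∈ s, linP (v i)).IsHomogeneous s.card := by
  have h := IsHomogeneous.prod s (fun i => linP (v i)) (fun _ => 1) fun i _ => linP_hom (v i)
  simpa using h

/-- a polynomial outside the ideal has a monomial with all exponents less than `p` -/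
theorem exists_small {p n : ℕ} (P : MvPolynomial (Fin n) (ZMod p)) (hP : P ∉ Idl p n) :
    ∃ α, coeff α P ≠ 0 ∧ ∀ k, α k < p := by
  by_contra hcon
  push Not at hcon
  apply hP
  rw [P.as_sum]
  refine Ideal.sum_mem _ fun α hα => ?_
  obtain ⟨k, hk⟩ := hcon α (mem_support_iff.mp hα)
  have h1 : monomial α (coeff α P) =
      monomial (α - Finsupp.single k p) (coeff α P) * (X k : MvPolynomial (Fin n) (ZMod p)) ^ p := by
    rw [X_pow_eq_monomial, monomial_mul, mul_one]
    congr 2
    ext j
    simp only [Finsupp.add_apply, Finsupp.tsub_apply, Finsupp.single_apply]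
    split_ifs with hj
    · subst hj
      omega
    · simp
  rw [h1]
  exact Ideal.mul_mem_left _ _ (Ideal.subset_span ⟨k, rfl⟩)

theorem coeff_linP_mul {p n : ℕ} (v : Vec p n) (D : MvPolynomial (Fin n) (ZMod p)) (m : ℕ)
    (hD : ∀ β : Fin n →₀ ℕ, m ≤ β.degree → coeff β D = 0) (β : Fin n →₀ ℕ)
    (hβ : m + 1 ≤ β.degree) : coeff β (linP v * D) = 0 := by
  rw [linP, Finset.sum_mul, coeff_sum]
  refine Finset.sum_eq_zero fun i _ => ?_
  rw [mul_assoc, coeff_C_mul, coeff_X_mul']
  split_ifs with h
  · rw [hD, mul_zero]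
    have h3 : β = (β - Finsupp.single i 1) + Finsupp.single i 1 := by
      ext j
      simp only [Finsupp.add_apply, Finsupp.tsub_apply, Finsupp.single_apply]
      split_ifs with hj
      · subst hj
        have : β i ≠ 0 := by simpa using h
        omega
      · simp
    have h4 : β.degree = (β - Finsupp.single i 1).degree + 1 := by
      conv_lhs => rw [h3, map_add, Finsupp.degree_single]
    omega
  · exact mul_zero _

/-- the top coefficients of the product of affine linear forms -/
theorem coeff_top {p n : ℕ} {ι : Type} (v : ι → Vec p n) (c : ι → ZMod p) (s : Finset ι) :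
    ∀ β : Fin n →₀ ℕ, s.card ≤ β.degree →
      coeff β (∏ i ∈ s, (linP (v i) - C (c i)) - ∏ i ∈ s, linP (v i)) = 0 := by
  induction s using Finset.induction_on with
  | empty => intro β _; simp
  | insert a s ha ih =>
    intro β hβ
    rw [Finset.card_insert_of_notMem ha] at hβ
    rw [Finset.prod_insert ha, Finset.prod_insert ha]
    have h1 : (linP (v a) - C (c a)) * ∏ i ∈ s, (linP (v i) - C (c i)) -
        linP (v a) * ∏ i ∈ s, linP (v i) =
        linP (v a) * (∏ i ∈ s, (linP (v i) - C (c i)) - ∏ i ∈ s, linP (v i)) -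
        C (c a) * ∏ i ∈ s, (linP (v i) - C (c i)) := by ring
    rw [h1, coeff_sub, coeff_linP_mul _ _ s.card ih β hβ, coeff_C_mul]
    have h2 := ih β (by omega)
    rw [coeff_sub, sub_eq_zero] at h2
    rw [h2, (prod_hom v s).coeff_eq_zero (by omega)]
    simp

theorem deg_factor {p n : ℕ} (v : Vec p n) (c : ZMod p) :
    (linP v - C c : MvPolynomial (Fin n) (ZMod p)).totalDegree ≤ 1 :=
  (totalDegree_sub_C_le _ _).trans (linP_hom v).totalDegree_le

end NULLaux

open NULLaux in
theorem t_NULL (_hL : S_LINADD) : S_NULL := by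
  intro p n _ ι _ v c hNN
  obtain ⟨f, -, hf⟩ := hNN
  have h1 : ∏ i, linP (v i) ∉ Idl p n := by
    intro hmem
    apply hf
    have h2 : mkR p n (∏ i, linP (v i)) = 0 := (mkR_eq_zero _).mpr hmem
    rw [map_prod] at h2
    change (∏ i, lin (v i)) = 0 at h2
    rw [h2, zero_mul]
  obtain ⟨α, hα, hαp⟩ := exists_small _ h1
  have hdeg : α.degree = Fintype.card ι := by
    by_contra hne
    exact hα ((prod_hom v Finset.univ).coeff_eq_zero (by rwa [Finset.card_univ]))
  have hcoef : coeff α (∏ i, (linP (v i) - C (c i))) ≠ 0 := by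
    have h3 := coeff_top v c Finset.univ α (by rw [hdeg, Finset.card_univ])
    rw [coeff_sub, sub_eq_zero] at h3
    rwa [h3]
  have htot : (∏ i, (linP (v i) - C (c i))).totalDegree = α.degree := by
    apply le_antisymm
    · rw [hdeg]
      refine (totalDegree_finsetProd _ _).trans ?_
      refine (Finset.sum_le_card_nsmul _ _ 1 fun i _ => deg_factor (v i) (c i)).trans ?_
      simp
    · have := le_totalDegree (mem_support_iff.mpr hcoef)
      exact this
  obtain ⟨x, -, hx⟩ := combinatorial_nullstellensatz_exists_eval_nonzero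
    (∏ i, (linP (v i) - C (c i))) α hcoef htot (fun _ => Finset.univ) (fun k => by
      rw [Finset.card_univ, ZMod.card]; exact hαp k)
  refine ⟨x, fun i hi => hx ?_⟩
  rw [map_prod]
  apply Finset.prod_eq_zero (Finset.mem_univ i)
  simp only [linP, map_sub, map_sum, map_mul, eval_C, eval_X, sub_eq_zero]
  exact hi

end Pool.H433AJT
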