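import Pool.Agent.H433R2.AJT.SpecA

open MvPolynomial
open scoped Classical

namespace Pool.H433AJT

theorem OM_mem_Idl {p N : ℕ} (P : MvPolynomial (Fin N) (ZMod p)) :
    P ∈ Idl p N ↔ ∀ α ∈ P.support, ∃ j, p ≤ α j := by
  have h : Idl p N = Ideal.span ((fun s : Fin N →₀ ℕ => monomial s (1 : ZMod p)) ''
      (Set.range fun i : Fin N => Finsupp.single i p)) := by
    have h2 : (Set.range fun i : Fin N => (X i : MvPolynomial (Fin N) (ZMod p)) ^ p) =
        ((fun s : Fin N →₀ ℕ => monomial s (1 : ZMod p)) ''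
      (Set.range fun i : Fin N => Finsupp.single i p)) := by
      ext x
      constructor
      · rintro ⟨i, rfl⟩
        exact ⟨_, ⟨i, rfl⟩, by simp [X_pow_eq_monomial]⟩
      · rintro ⟨_, ⟨i, rfl⟩, rfl⟩
        exact ⟨i, by simp [X_pow_eq_monomial]⟩
    rw [← h2]
  rw [h, mem_ideal_span_monomial_image]
  refine forall₂_congr fun α _ => ?_
  constructor
  · rintro ⟨_, ⟨i, rfl⟩, hi⟩
    refine ⟨i, ?_⟩
    have := hi i
    simpa using this
  · rintro ⟨i, hi⟩
    exact ⟨_, ⟨i, rfl⟩, by simpa using hi⟩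

theorem OM_dvd {p N : ℕ} (T : Finset (Fin N)) (P : MvPolynomial (Fin N) (ZMod p))
    (h : ∀ i ∈ T, mkR p N (X i) * mkR p N P = 0) :
    mkR p N (∏ i ∈ T, X i ^ (p - 1)) ∣ mkR p N P := by
  have h0 : mkR p N P = ∑ α ∈ P.support, mkR p N (monomial α (coeff α P)) := by
    rw [← map_sum]
    congr 1
    exact P.as_sum
  rw [h0]
  refine Finset.dvd_sum fun α hα => ?_
  by_cases hj : ∃ j, p ≤ α j
  · have : mkR p N (monomial α (coeff α P)) = 0 := by
      rw [mkR_eq_zero, OM_mem_Idl]
      intro β hβ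
      have := support_monomial_subset hβ
      rw [Finset.mem_singleton] at this
      subst this
      exact hj
    rw [this]
    exact dvd_zero _
  · push Not at hj
    apply map_dvd
    have hprod : (∏ i ∈ T, (X i : MvPolynomial (Fin N) (ZMod p)) ^ (p - 1)) =
        monomial (∑ i ∈ T, Finsupp.single i (p - 1)) 1 := by
      rw [← Finset.prod_congr rfl (fun i _ => (X_pow_eq_monomial (R := ZMod p)).symm)]
      rw [monomial_sum_one]
    rw [hprod, monomial_dvd_monomial]
    refine ⟨Or.inr ?_, one_dvd _⟩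
    intro k
    rw [Finsupp.finset_sum_apply]
    by_cases hk : k ∈ T
    · rw [Finset.sum_eq_single k (fun b _ hb => by simp [Finsupp.single_apply, hb])
        (fun hb => absurd hk hb)]
      rw [Finsupp.single_eq_same]
      have h1 := h k hk
      rw [← map_mul, mkR_eq_zero, OM_mem_Idl] at h1
      have h2 : Finsupp.single k 1 + α ∈ (X k * P).support := by
        rw [mem_support_iff, coeff_X_mul]
        exact mem_support_iff.mp hα
      obtain ⟨j, hj2⟩ := h1 _ h2
      rw [Finsupp.add_apply, Finsupp.single_apply] at hj2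
      split_ifs at hj2 with hkj
      · subst hkj
        omega
      · have := hj j
        omega
    · rw [Finset.sum_eq_zero]
      · exact Nat.zero_le _
      · intro i hi
        rw [Finsupp.single_apply, if_neg]
        rintro rfl
        exact hk hi

theorem t_OM (hC : S_COORD) (hA : S_ADAPT) (hM : S_MONOOM) (hF : S_FR) (hL : S_LINADD) : S_OM := by
  intro p N hp U
  obtain ⟨⟨g, T, hT, hU⟩, -, -⟩ := hA p N U
  obtain ⟨Φ, hΦ, hgr⟩ := hC p N g
  obtain ⟨hL1, hL2, hL3, hL4⟩ := hL p N
  have hp1 : 1 ≤ p := hp.out.one_lt.le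
  have hw0 : mkR p N (∏ i ∈ T, X i ^ (p - 1)) =
      ∏ i ∈ T, lin (Pi.single i (1 : ZMod p)) ^ (p - 1) := by
    rw [map_prod]
    exact Finset.prod_congr rfl fun i _ => by rw [map_pow, hL4]
  have hw0gr : mkR p N (∏ i ∈ T, X i ^ (p - 1)) ∈
      gr p N (((p : ℤ) - 1) * Module.finrank (ZMod p) U) := by
    refine ⟨_, rfl, fun α hα => ?_⟩
    have hhom : (∏ i ∈ T, (X i : MvPolynomial (Fin N) (ZMod p)) ^ (p - 1)).IsHomogeneous
        (∑ i ∈ T, (p - 1)) := by
      apply IsHomogeneous.prod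
      intro i _
      have := (isHomogeneous_X (ZMod p) i).pow (p - 1)
      simpa using this
    have h1 := hhom hα
    rw [Finset.sum_const, smul_eq_mul] at h1
    have h2 : α.degree = T.card * (p - 1) := by
      rw [← h1, Finsupp.degree_eq_weight_one]
      rfl
    rw [h2, ← hT]
    push_cast [Nat.cast_sub hp1]
    ring
  have hkill0 : ∀ i ∈ T, lin (Pi.single i (1 : ZMod p)) *
      (∏ i ∈ T, lin (Pi.single i (1 : ZMod p)) ^ (p - 1) : Rg p N) = 0 := by
    intro i hi
    rw [← Finset.mul_prod_erase T _ hi, ← mul_assoc, ← pow_succ', Nat.sub_add_cancel hp1,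
      lin_pow, zero_mul]
  refine ⟨Φ (mkR p N (∏ i ∈ T, X i ^ (p - 1))), ⟨(hgr _ _).mp hw0gr, ?_⟩, ?_, ?_⟩
  · intro u hu
    rw [hU] at hu
    induction hu using Submodule.span_induction with
    | mem x hx =>
      obtain ⟨i, hi, rfl⟩ := hx
      simp only
      rw [← hΦ, ← map_mul, hw0, hkill0 i hi, map_zero]
    | zero =>
      have : lin (0 : Vec p N) = 0 := by
        have := hL2 0 0
        simpa using this
      rw [this, zero_mul]
    | add x y _ _ hx hy => rw [hL1, add_mul, hx, hy, add_zero]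
    | smul c x _ hx => rw [hL2, mul_assoc, hx, mul_zero]
  · rw [hw0]
    intro h
    exact hM p N T ((map_eq_zero_iff Φ Φ.injective).mp h)
  · intro f hf
    obtain ⟨P, hP⟩ := mkR_surj p N (Φ.symm f)
    have h1 : ∀ i ∈ T, mkR p N (X i) * mkR p N P = 0 := by
      intro i hi
      rw [hP, ← hL4]
      apply Φ.injective
      rw [map_mul, RingEquiv.apply_symm_apply, map_zero, hΦ]
      apply hf
      rw [hU]
      exact Submodule.subset_span ⟨i, hi, rfl⟩
    obtain ⟨h, hh⟩ := OM_dvd T P h1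
    refine ⟨Φ h, ?_⟩
    rw [← map_mul, mul_comm h, ← hh, hP, RingEquiv.apply_symm_apply]

end Pool.H433AJT
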