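import Pool.Agent.H433R2.AJT.SpecB

open scoped Classical

namespace Pool.H433AJT

theorem PART_three {α : Type} {s : Finset α} (h : s.card = 2) {a b c : α} (ha : a ∈ s) (hb : b ∈ s)
    (hc : c ∈ s) (hab : b ≠ a) (hcb : c ≠ b) : c = a := by
  obtain ⟨x, y, hxy, rfl⟩ := Finset.card_eq_two.1 h
  simp only [Finset.mem_insert, Finset.mem_singleton] at ha hb hc
  rcases ha with rfl | rfl <;> rcases hb with rfl | rfl <;> rcases hc with rfl | rfl <;>
    first
    | rfl
    | exact absurd rfl hab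
    | exact absurd rfl hcb

theorem t_PART : S_PART := by
  intro F V ι _ _ _ _ v I W
  have hex : ∀ i, i ∈ dbl v I W → ∃ j, j ∈ cls v I W i ∧ j ≠ i := by
    intro i hi
    have h := (Finset.mem_filter.1 hi).2.2
    have h1 : 1 < (cls v I W i).card := by omega
    obtain ⟨b, hb, hne⟩ := Finset.exists_mem_ne h1 i
    exact ⟨b, hb, hne⟩
  choose! σ hσ using hex
  have hself : ∀ i, i ∈ dbl v I W → i ∈ cls v I W i := by
    intro i hi
    have h := Finset.mem_filter.1 hi
    exact Finset.mem_filter.2 ⟨h.1, h.2.1, rfl⟩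
  have hcls : ∀ i, i ∈ dbl v I W → cls v I W (σ i) = cls v I W i := by
    intro i hi
    have h := (Finset.mem_filter.1 (hσ i hi).1).2.2
    unfold cls
    rw [h]
  have hmem : ∀ i, i ∈ dbl v I W → σ i ∈ dbl v I W := by
    intro i hi
    have h := Finset.mem_filter.1 (hσ i hi).1
    refine Finset.mem_filter.2 ⟨h.1, h.2.1, ?_⟩
    rw [hcls i hi]
    exact (Finset.mem_filter.1 hi).2.2
  refine ⟨σ, fun i hi => ⟨hmem i hi, ?_, (hσ i hi).2, (Finset.mem_filter.1 hi).2.1,
    (Finset.mem_filter.1 (hσ i hi).1).2.2⟩⟩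
  have h1 := hσ (σ i) (hmem i hi)
  rw [hcls i hi] at h1
  exact PART_three (Finset.mem_filter.1 hi).2.2 (hself i hi) (hσ i hi).1 h1.1 (hσ i hi).2 h1.2

end Pool.H433AJT
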