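import Pool.Agent.H433R2.AJT.SpecA

open MvPolynomial
open scoped Classical

namespace Pool.H433AJT

section
variable {p N : ℕ}

theorem PERM_refl (B : BC p N) : IsoRel B B :=
  ⟨LinearEquiv.refl _ _, fun _ => rfl, fun _ _ _ => Iff.rfl⟩

theorem PERM_trans {B1 B2 B3 : BC p N} (h : IsoRel B1 B2) (h' : IsoRel B2 B3) :
    IsoRel B1 B3 := by
  obtain ⟨e, h1, h2⟩ := h
  obtain ⟨e', h1', h2'⟩ := h'
  refine ⟨e.trans e', fun c => ?_, fun j δ c => ?_⟩
  · show e' (e (B1.d c)) = B3.d (e' (e c))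
    rw [h1, h1']
  · exact (h2 j δ c).trans (h2' j δ (e c))

theorem PERM_per [hp : Fact p.Prime] {B' B : BC p N} (a : Vec p N × ℕ) (h : IsoRel B' B) :
    IsoRel (per B' a) (per B a) := by
  obtain ⟨e, h1, h2⟩ := h
  refine ⟨LinearEquiv.piCongrRight (fun _ : ℕ => e), fun c => ?_, fun j δ c => ?_⟩
  · funext i
    show e ((-1 : ℤ) ^ i • B'.d ((c : ℕ → B'.C) i) +
        (if i = 0 then 0 else (lin a.1) ^ (ex p a.2 i) • (c : ℕ → B'.C) (i - 1))) =
      (-1 : ℤ) ^ i • B.d (e ((c : ℕ → B'.C) i)) +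
        (if i = 0 then 0 else (lin a.1) ^ (ex p a.2 i) • e ((c : ℕ → B'.C) (i - 1)))
    rw [map_add, map_zsmul, h1]
    congr 1
    split_ifs
    · exact map_zero e
    · exact map_smul e _ _
  · show ((∀ i, i ≤ j → (c : ℕ → B'.C) i ∈ B'.G (j - i) (δ + sh p a.2 i)) ∧
        ∀ i, j < i → (c : ℕ → B'.C) i = 0) ↔
      ((∀ i, i ≤ j → e ((c : ℕ → B'.C) i) ∈ B.G (j - i) (δ + sh p a.2 i)) ∧
        ∀ i, j < i → e ((c : ℕ → B'.C) i) = 0)
    constructor
    · rintro ⟨h3, h4⟩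
      exact ⟨fun i hi => (h2 _ _ _).1 (h3 i hi), fun i hi => by rw [h4 i hi, map_zero]⟩
    · rintro ⟨h3, h4⟩
      exact ⟨fun i hi => (h2 _ _ _).2 (h3 i hi), fun i hi =>
        (LinearEquiv.map_eq_zero_iff e).1 (h4 i hi)⟩

theorem PERM_van {B' B : BC p N} (h : IsoRel B' B) (j : ℕ) (δ : ℤ) (hV : B'.Van j δ) :
    B.Van j δ := by
  obtain ⟨e, h1, h2⟩ := h
  intro c hc hd
  have hc' : e.symm c ∈ B'.G j δ := by
    rw [h2, LinearEquiv.apply_symm_apply]
    exact hc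
  have hd' : B'.d (e.symm c) = 0 := by
    apply e.injective
    rw [h1, LinearEquiv.apply_symm_apply, hd, map_zero]
  have h3 := hV _ hc' hd'
  split_ifs at h3 ⊢ with hj
  · have := congrArg e h3
    rwa [LinearEquiv.apply_symm_apply, map_zero] at this
  · obtain ⟨b, hb, hb'⟩ := h3
    refine ⟨e b, (h2 _ _ _).1 hb, ?_⟩
    rw [← h1, hb', LinearEquiv.apply_symm_apply]

theorem PERM_iso [hp : Fact p.Prime] (hS : S_SWAP) (U : Submodule (ZMod p) (Vec p N))
    {l l' : List (Vec p N × ℕ)} (h : l.Perm l') : IsoRel (cplx U l) (cplx U l') := by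
  induction h with
  | nil => exact PERM_refl _
  | cons x _ ih => exact PERM_per x ih
  | swap x y l => exact hS p N (cplx U l) x y
  | trans _ _ ih1 ih2 => exact PERM_trans ih1 ih2

end

theorem t_PERM (hS : S_SWAP) : S_PERM := by
  intro p N hp U l l' h j δ hV
  exact PERM_van (PERM_iso hS U h) j δ hV

end Pool.H433AJT
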