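import Pool.Agent.H433R2.AJT.SpecC

open MvPolynomial
open scoped Classical

namespace Pool.H433AJT

theorem RHO1_mod {F V ι : Type} [Field F] [AddCommGroup V] [Module F V]
    (lam : ℤ) (v : ι → V) (U : Submodule F V) (I : Finset ι) (b : ℤ) (hlam : 4 ≤ lam)
    (hI : Inv lam v U I b) (hb : (b - 1) % lam = 1) (W : Submodule F V) (hW : U ≤ W) :
    1 ≤ FF lam v U I b W := by
  have h0 : 0 ≤ FF lam v U I b W := le_trans (by positivity) (hI.2 W hW)
  rcases h0.lt_or_eq with h | h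
  · omega
  · exfalso
    have h1 : FF lam v U I b W % lam = 1 := by
      unfold FF
      rw [Int.add_mul_emod_self_left]
      exact hb
    rw [← h] at h1
    simp at h1

theorem RHO1_mat_up {F V ι : Type} [Field F] [AddCommGroup V] [Module F V]
    (v : ι → V) (W W' : Submodule F V) (hWW : W ≤ W') (D : Finset ι) (σ : ι → ι)
    (hD : Mat v W D σ) : Mat v W' (D.filter fun i => v i ∉ W') σ := by
  intro i hi
  rw [Finset.mem_filter] at hi
  obtain ⟨h1, h2, h3, h4, h5⟩ := hD i hi.1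
  have h6 : jn W' (v (σ i)) = jn W' (v i) := by
    have e : ∀ x : V, jn W' x = W' ⊔ jn W x := by
      intro x
      unfold jn
      rw [← sup_assoc, sup_eq_left.2 hWW]
    rw [e, e, h5]
  have h7 : v (σ i) ∉ W' := by
    intro h
    apply hi.2
    have h8 : jn W' (v (σ i)) = W' := by
      unfold jn
      rw [sup_eq_left, Submodule.span_singleton_le_iff_mem]
      exact h
    rw [h8] at h6
    rw [h6]
    exact Submodule.mem_sup_right (Submodule.mem_span_singleton_self _)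
  exact ⟨Finset.mem_filter.2 ⟨h1, h7⟩, h2, h3, hi.2, h6⟩

theorem RHO1_min {F V ι : Type} [Field F] [AddCommGroup V] [Module F V] [FiniteDimensional F V]
    (h0 : S_SUBM) (lam : ℤ) (v : ι → V) (U : Submodule F V) (I : Finset ι) (b : ℤ)
    (hlam : 4 ≤ lam) (hI : Inv lam v U I b) (hb : (b - 1) % lam = 1)
    (hex : ∃ W, U ≤ W ∧ FF lam v U I b W = 1) :
    ∃ Z, U ≤ Z ∧ FF lam v U I b Z = 1 ∧ ∀ W, U ≤ W → FF lam v U I b W = 1 → Z ≤ W := by
  have hP : ∃ n : ℕ, ∃ W : Submodule F V, U ≤ W ∧ FF lam v U I b W = 1 ∧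
      Module.finrank F W = n := by
    obtain ⟨W, h1, h2⟩ := hex
    exact ⟨_, W, h1, h2, rfl⟩
  obtain ⟨Z, hZ1, hZ2, hZ3⟩ := Nat.find_spec hP
  refine ⟨Z, hZ1, hZ2, fun W hW1 hW2 => ?_⟩
  have hs := h0 F V ι lam v U I b Z W
  have hinf := RHO1_mod lam v U I b hlam hI hb (Z ⊓ W) (le_inf hZ1 hW1)
  have hsup := RHO1_mod lam v U I b hlam hI hb (Z ⊔ W) (hZ1.trans le_sup_left)
  have hr : 0 ≤ lam * ((I.filter fun i => v i ∈ Z ⊔ W ∧ v i ∉ Z ∧ v i ∉ W).card : ℤ) := by
    positivity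
  have h1 : FF lam v U I b (Z ⊓ W) = 1 := by omega
  have h2 : Nat.find hP ≤ Module.finrank F (Z ⊓ W : Submodule F V) :=
    Nat.find_min' hP ⟨Z ⊓ W, le_inf hZ1 hW1, h1, rfl⟩
  rw [← hZ3] at h2
  have h3 : Z ⊓ W = Z := Submodule.eq_of_le_of_finrank_le inf_le_left h2
  rw [← h3]
  exact inf_le_right

theorem RHO1_empty {F V ι : Type} [Field F] [AddCommGroup V] [Module F V] [FiniteDimensional F V]
    (lam : ℤ) (v : ι → V) (U : Submodule F V) (I : Finset ι) (b : ℤ) (hlam : 4 ≤ lam)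
    (W : Submodule F V) (hW : U ≤ W) (hn : ∀ i ∈ I, v i ∉ W) : b - 1 ≤ FF lam v U I b W := by
  have h1 : nn v I W = 0 := by
    unfold nn
    rw [Finset.filter_false_of_mem hn]
    simp
  have h2 : Module.finrank F U ≤ Module.finrank F W := Submodule.finrank_mono hW
  unfold FF
  rw [h1]
  have h3 : (0 : ℤ) ≤ lam * (2 * ((Module.finrank F W : ℤ) - Module.finrank F U) - 0) := by
    apply mul_nonneg (by omega)
    omega
  omega

theorem t_RHO1 (h0 : S_SUBM) (h1 : S_EXT) (h2 : S_DBLUP) (h3 : S_PART) (h4 : S_A1) : S_RHO1 := by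
  intro F V ι _ _ _ _ lam v U I b hlam hI hb hb1 hex
  obtain ⟨Z, hUZ, hFZ, hZmin⟩ := RHO1_min h0 lam v U I b hlam hI hb hex
  suffices h : ∃ i, Safe lam v U I b i ∧ v i ∈ Z by
    obtain ⟨i, hi, hiZ⟩ := h
    exact ⟨i, hi, fun W hW hW' => hZmin W hW hW' hiZ⟩
  have hlab : ∃ i ∈ I, v i ∈ Z := by
    by_contra hc
    push Not at hc
    have := RHO1_empty lam v U I b hlam Z hUZ hc
    omega
  by_cases ht : ∃ W, Tight lam v U I b W
  · obtain ⟨⟨U₀, hU₀, hU₀min⟩, -⟩ := h1 F V ι lam v U I b hlam hI ht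
    by_cases ha : ∃ i ∈ I, v i ∈ Z ⊓ U₀
    · obtain ⟨i, hi, hiY⟩ := ha
      exact ⟨i, ⟨hi, fun W hW hW' => absurd (hU₀min W hW hiY.2) hW'⟩, hiY.1⟩
    · by_cases hb' : ∃ i ∈ dbl v I U₀, v i ∈ Z
      · obtain ⟨i, hi, hiZ⟩ := hb'
        refine ⟨i, ⟨(Finset.mem_filter.1 hi).1, fun W hW hW' => ?_⟩, hiZ⟩
        exact h2 F V ι lam v U I b hlam hI U₀ W i (hU₀min W hW) hi hW hW'
      · exfalso
        push Not at ha hb'
        obtain ⟨σ, hσ⟩ := h3 F V ι v I U₀
        have hY := RHO1_empty lam v U I b hlam (Z ⊓ U₀) (le_inf hUZ hU₀.1) ha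
        have hout := RHO1_mat_up v U₀ (Z ⊔ U₀) le_sup_right (dbl v I U₀) σ hσ
        have hsub : (dbl v I U₀).filter (fun i => v i ∉ Z ⊔ U₀) ⊆ I :=
          (Finset.filter_subset _ _).trans (Finset.filter_subset _ _)
        have hA := (h4 F V ι lam v U I b hlam hI (Z ⊔ U₀) _ σ (hUZ.trans le_sup_left) hsub
          hout).1
        have hin : (dbl v I U₀).filter (fun i => v i ∈ Z ⊔ U₀) ⊆
            I.filter (fun i => v i ∈ Z ⊔ U₀ ∧ v i ∉ Z ∧ v i ∉ U₀) := by
          intro i hi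
          rw [Finset.mem_filter] at hi ⊢
          have hi' := hi.1
          unfold dbl at hi'
          rw [Finset.mem_filter] at hi'
          exact ⟨hi'.1, hi.2, hb' i hi.1, hi'.2.1⟩
        have hcard := Finset.card_le_card hin
        have hsplit := Finset.card_filter_add_card_filter_not (s := dbl v I U₀)
          (fun i => v i ∈ Z ⊔ U₀)
        have hS := h0 F V ι lam v U I b Z U₀
        rw [hFZ, hU₀.2] at hS
        generalize (dbl v I U₀).card = d at *
        generalize ((dbl v I U₀).filter (fun i => v i ∈ Z ⊔ U₀)).card = din at *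
        generalize ((dbl v I U₀).filter (fun i => v i ∉ Z ⊔ U₀)).card = dout at *
        generalize (I.filter (fun i => v i ∈ Z ⊔ U₀ ∧ v i ∉ Z ∧ v i ∉ U₀)).card = r at *
        have e1 : (din : ℤ) ≤ r := by exact_mod_cast hcard
        have e2 : (din : ℤ) + dout = d := by exact_mod_cast hsplit
        have e3 : lam * (din : ℤ) ≤ lam * r := mul_le_mul_of_nonneg_left e1 (by omega)
        have e4 : (din : ℤ) * 4 ≤ lam * din := by
          rw [mul_comm lam]
          exact mul_le_mul_of_nonneg_left hlam (Int.natCast_nonneg _)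
        have e5 : (0 : ℤ) ≤ din := Int.natCast_nonneg _
        linarith
  · obtain ⟨i, hi, hiZ⟩ := hlab
    exact ⟨i, ⟨hi, fun W hW _ => absurd ⟨W, hW⟩ ht⟩, hiZ⟩

end Pool.H433AJT
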