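import Pool.Agent.H433R2.AJT.SpecC

open MvPolynomial
open scoped Classical

namespace Pool.H433AJT

theorem t_RULES (h : S_ZRULES) : S_RULES := by
  intro p N _ lam hp hlam ι v
  obtain ⟨hperm, hemp, hT1, hT2, hU2, hloop⟩ := h p N lam hp hlam
  have key : ∀ (U : Submodule (ZMod p) (Vec p N)) (I : Finset ι) (m : ι → ℕ) (b : ℤ) (i : ι),
      i ∉ I → ZZ lam U ((v i, m i) :: I.toList.map fun j => (v j, m j)) b →
      ZZ lam U ((insert i I).toList.map fun j => (v j, m j)) b := by
    intro U I m b i hi hz
    refine hperm U _ _ b ?_ hz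
    have := (Finset.toList_insert hi).symm.map (fun j => (v j, m j))
    simpa using this
  have key' : ∀ (U : Submodule (ZMod p) (Vec p N)) (I : Finset ι) (m : ι → ℕ) (b : ℤ) (i : ι),
      i ∉ I → ZZ lam U ((insert i I).toList.map fun j => (v j, m j)) b →
      ZZ lam U ((v i, m i) :: I.toList.map fun j => (v j, m j)) b := by
    intro U I m b i hi hz
    refine hperm U _ _ b ?_ hz
    have := (Finset.toList_insert hi).map (fun j => (v j, m j))
    simpa using this
  constructor
  · intro U m b hb
    have := hemp U b hb
    simpa using this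
  · intro U I m b i hi hvi hm h1 h2
    apply key U I m b i hi
    rw [hm]
    exact hT1 U (v i) _ b hvi h1 h2
  · intro U I m b i hi hvi hm h1 h2
    apply key U I m b i hi
    rw [hm]
    exact hT2 U (v i) _ b hvi h1 h2
  · intro U I m b i hi hvi hm2 hml h1 h2
    apply key U I m b i hi
    have h1' := key' U I _ b i hi h1
    obtain ⟨k, hk⟩ : ∃ k, m i = k + 1 := ⟨m i - 1, by omega⟩
    have e1 : (I.toList.map fun j => (v j, Function.update m i (m i - 1) j)) =
        I.toList.map fun j => (v j, m j) := by
      apply List.map_congr_left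
      intro j hj
      have hji : j ≠ i := by
        rintro rfl
        exact hi (Finset.mem_toList.1 hj)
      rw [Function.update_of_ne hji]
    rw [e1, Function.update_self, hk, Nat.add_sub_cancel] at h1'
    rw [hk]
    rw [hk] at h2 hm2 hml
    push_cast at h2 hml
    refine hU2 U (v i) k _ b hvi (by omega) (by omega) h1' h2
  · intro U I m b i hi hvi hm1 hml h1
    apply key U I m b i hi
    exact hloop U (v i) (m i) _ b hvi hm1 hml h1

end Pool.H433AJT
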