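import Pool.Agent.H433R2.AJT.SpecC

set_option autoImplicit false

open MvPolynomial
open scoped Classical

namespace Pool.H433AJT

theorem RX_jn_eq {F V : Type} [Field F] [AddCommGroup V] [Module F V]
    (U : Submodule F V) (x y : V) (hy : y ∉ U) (h : y ∈ jn U x) : jn U y = jn U x := by
  have hle : jn U y ≤ jn U x := by
    unfold jn at h ⊢
    refine sup_le le_sup_left ?_
    rw [Submodule.span_singleton_le_iff_mem]
    exact h
  refine le_antisymm hle ?_
  unfold jn at h ⊢
  obtain ⟨u, hu, z, hz, huz⟩ := Submodule.mem_sup.1 h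
  obtain ⟨c, rfl⟩ := Submodule.mem_span_singleton.1 hz
  have hc : c ≠ 0 := by
    rintro rfl
    apply hy
    rw [← huz]
    simpa using hu
  refine sup_le le_sup_left ?_
  rw [Submodule.span_singleton_le_iff_mem]
  have hx : x = c⁻¹ • (y - u) := by
    rw [← huz]
    simp [smul_smul, inv_mul_cancel₀ hc]
  rw [hx]
  refine Submodule.smul_mem _ _ (Submodule.sub_mem _ ?_ ?_)
  · exact Submodule.mem_sup_right (Submodule.mem_span_singleton_self y)
  · exact Submodule.mem_sup_left hu

theorem RX_self {F V : Type} [Field F] [AddCommGroup V] [Module F V]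
    (U : Submodule F V) (x : V) : x ∈ jn U x := by
  unfold jn
  exact Submodule.mem_sup_right (Submodule.mem_span_singleton_self x)

theorem t_RX (h : S_BULK) : S_RX := by
  intro F V ι _ _ _ _ lam v Z hR U I m b i hI hi
  have hiU : v i ∉ U := (hI i hi).1
  have hiK : i ∈ cls v I U i := by
    unfold cls
    exact Finset.mem_filter.2 ⟨hi, hiU, rfl⟩
  have hcard : (((cls v I U i).erase i).card : ℤ) = (cls v I U i).card - 1 := by
    rw [Finset.card_erase_of_mem hiK]
    have : 1 ≤ (cls v I U i).card := Finset.card_pos.2 ⟨i, hiK⟩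
    omega
  have hdec : I.erase i = (I.filter fun j => v j ∉ jn U (v i)) ∪ (cls v I U i).erase i := by
    ext j
    simp only [Finset.mem_erase, Finset.mem_union, Finset.mem_filter, cls]
    constructor
    · rintro ⟨hji, hj⟩
      by_cases hm : v j ∈ jn U (v i)
      · right
        exact ⟨hji, hj, (hI j hj).1, RX_jn_eq U (v i) (v j) (hI j hj).1 hm⟩
      · left
        exact ⟨hj, hm⟩
    · rintro (⟨hj, hm⟩ | ⟨hji, hj, -, -⟩)
      · refine ⟨?_, hj⟩
        rintro rfl
        exact hm (RX_self U (v j))
      · exact ⟨hji, hj⟩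
  have hdisj : Disjoint (I.filter fun j => v j ∉ jn U (v i)) ((cls v I U i).erase i) := by
    rw [Finset.disjoint_left]
    intro j hj hj'
    simp only [Finset.mem_filter] at hj
    simp only [Finset.mem_erase, Finset.mem_filter, cls] at hj'
    apply hj.2
    rw [← hj'.2.2.2]
    exact RX_self U (v j)
  have key : ∀ β : ℤ, Z (jn U (v i)) (I.filter fun j => v j ∉ jn U (v i)) m
      (β - lam * ((cls v I U i).card - 1)) → Z (jn U (v i)) (I.erase i) m β := by
    intro β hβ
    have h2 := h F V ι lam v Z hR (jn U (v i)) (I.filter fun j => v j ∉ jn U (v i))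
      ((cls v I U i).erase i) m β hdisj (by
        intro j hj
        simp only [Finset.mem_erase, Finset.mem_filter, cls] at hj
        refine ⟨?_, (hI j hj.2.1).2⟩
        rw [← hj.2.2.2]
        exact RX_self U (v j)) (by rw [hcard]; exact hβ)
    rw [hdec]
    convert h2 using 2
  have hins : insert i (I.erase i) = I := Finset.insert_erase hi
  have hni : i ∉ I.erase i := Finset.notMem_erase i I
  refine ⟨fun h1 hZ hC => ?_, fun h1 hZ hC => ?_, fun h1 hZ hC => ?_⟩
  · have := hR.T1 U (I.erase i) m b i hni hiU h1 hZ (key _ hC)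
    rwa [hins] at this
  · have := hR.T2 U (I.erase i) m b i hni hiU h1 hZ (key _ hC)
    rwa [hins] at this
  · have := hR.U2 U (I.erase i) m b i hni hiU h1 (hI i hi).2.2 (by rwa [hins]) (key _ hC)
    rwa [hins] at this

end Pool.H433AJT
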