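import Pool.Agent.H433R2.AJT.SpecA

open MvPolynomial
open scoped Classical

namespace Pool.H433AJT

theorem SPL_lin_zero (hL : S_LINADD) (p N : ℕ) [Fact p.Prime] : lin (0 : Vec p N) = 0 := by
  have h := (hL p N).1 0 0
  rw [add_zero] at h
  exact left_eq_add.1 h

theorem SPL_ann (hL : S_LINADD) (p N : ℕ) [Fact p.Prime] (S : Set (Vec p N)) (f : Rg p N)
    (h : ∀ u ∈ S, lin u * f = 0) (u : Vec p N) (hu : u ∈ Submodule.span (ZMod p) S) :
    lin u * f = 0 := by
  induction hu using Submodule.span_induction with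
  | mem x hx => exact h x hx
  | zero => rw [SPL_lin_zero hL, zero_mul]
  | add x y _ _ hx hy => rw [(hL p N).1, add_mul, hx, hy, add_zero]
  | smul c x _ hx => rw [(hL p N).2.1, mul_assoc, hx, mul_zero]

theorem SPL_hom {p N : ℕ} [Fact p.Prime] (v : Vec p N) : (linP v).IsHomogeneous 1 := by
  unfold linP
  refine IsHomogeneous.sum _ _ _ fun i _ => ?_
  have := (isHomogeneous_C (Fin N) (v i)).mul (isHomogeneous_X (ZMod p) i)
  rwa [zero_add] at this

theorem SPL_supp {p N : ℕ} [Fact p.Prime] (T : Finset (Fin N)) (v : Vec p N)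
    (hv : ∀ j, j ∉ T → v j = 0) : linP v ∈ supported (ZMod p) (T : Set (Fin N)) := by
  unfold linP
  refine Subalgebra.sum_mem _ fun i _ => ?_
  by_cases hi : i ∈ T
  · refine Subalgebra.mul_mem _ ?_ ?_
    · exact Subalgebra.algebraMap_mem _ (v i)
    · exact X_mem_supported.2 hi
  · rw [hv i hi, C_0, zero_mul]
    exact Subalgebra.zero_mem _

theorem t_SPL (hC : S_COORD) (hA : S_ADAPT) (hM : S_MONOSPL) (hL : S_LINADD) : S_SPL := by
  intro p N _ U W hUW ι s w hw hf g hg
  obtain ⟨f, hf1, hf2⟩ := hf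
  obtain ⟨g0, T, T', hTT', -, -, hU, hW⟩ := (hA p N U).2.2 W hUW
  obtain ⟨Φ, hΦ, -⟩ := hC p N g0
  have hcoord : ∀ x ∈ W, ∀ j, j ∉ T' → (g0.symm x) j = 0 := by
    intro x hx j hj
    rw [hW] at hx
    induction hx using Submodule.span_induction with
    | mem x hx =>
      obtain ⟨i, hi, rfl⟩ := hx
      simp only [LinearEquiv.symm_apply_apply]
      rw [Pi.single_apply, if_neg]
      rintro rfl
      exact hj hi
    | zero => rw [map_zero]; rfl
    | add x y _ _ hx hy => rw [map_add, Pi.add_apply, hx, hy, add_zero]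
    | smul c x _ hx => rw [map_smul, Pi.smul_apply, hx, smul_zero]
  have hmk : Φ (mkR p N (∏ i ∈ s, linP (g0.symm (w i)))) = ∏ i ∈ s, lin (w i) := by
    rw [map_prod, map_prod]
    refine Finset.prod_congr rfl fun i _ => ?_
    have := hΦ (g0.symm (w i))
    rw [LinearEquiv.apply_symm_apply] at this
    exact this
  have hhom : (∏ i ∈ s, linP (g0.symm (w i))).IsHomogeneous s.card := by
    have := IsHomogeneous.prod s (fun i => linP (g0.symm (w i))) (fun _ => 1)
      (fun i _ => SPL_hom _)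
    simpa using this
  have hsupp : ∏ i ∈ s, linP (g0.symm (w i)) ∈ supported (ZMod p) (T' : Set (Fin N)) :=
    Subalgebra.prod_mem _ fun i hi => SPL_supp T' _ (hcoord (w i) (hw i hi))
  obtain ⟨f', hf'1, hf'2⟩ := hM p N T T' hTT' (∏ i ∈ s, linP (g0.symm (w i))) s.card hhom
    (by
      intro α hα i hi
      by_contra hc
      rw [mem_supported] at hsupp
      apply hi
      have : i ∈ (∏ i ∈ s, linP (g0.symm (w i))).vars := by
        rw [mem_vars]
        exact ⟨α, mem_support_iff.2 hα, Finsupp.mem_support_iff.2 hc⟩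
      exact_mod_cast hsupp this)
    ⟨Φ.symm f, fun i hi => by
      apply Φ.injective
      rw [map_mul, map_zero, hΦ, RingEquiv.apply_symm_apply]
      apply hf1
      rw [hU]
      exact Submodule.subset_span ⟨i, hi, rfl⟩, fun h => by
      apply hf2
      have := congrArg Φ h
      rwa [map_mul, map_zero, hmk, RingEquiv.apply_symm_apply] at this⟩
    (Φ.symm g) (fun i hi => by
      apply Φ.injective
      rw [map_mul, map_zero, hΦ, RingEquiv.apply_symm_apply]
      apply hg
      rw [hW]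
      exact Submodule.subset_span ⟨i, hi, rfl⟩)
  refine ⟨Φ f', ?_, ?_⟩
  · intro u hu
    rw [hU] at hu
    refine SPL_ann hL p N _ (Φ f') ?_ u hu
    rintro _ ⟨i, hi, rfl⟩
    have := congrArg Φ (hf'1 i hi)
    rwa [map_mul, map_zero, hΦ] at this
  · have := congrArg Φ hf'2
    rwa [map_mul, hmk, RingEquiv.apply_symm_apply] at this

end Pool.H433AJT
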