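import Pool.Agent.H433R2.AJT.SpecA

open MvPolynomial
open scoped Classical

namespace Pool.H433AJT

theorem t_ST1 : S_ST1 := by
  intro p N hp B v hF j δ hV hK c hc hd
  have hp1 : 1 < p := hp.out.one_lt
  have hxc : lin v ^ 1 • c ∈ B.G j δ := by
    have := lin_pow_smul_G B v 1 j _ c hc
    rwa [show δ - ((1 : ℕ) : ℤ) + ((1 : ℕ) : ℤ) = δ by ring] at this
  have h0 := hV _ hxc hd
  split_ifs at h0 ⊢ with hj
  · exact h0
  · obtain ⟨b, hb, hb'⟩ := h0
    obtain ⟨i, rfl⟩ := Nat.exists_eq_succ_of_ne_zero hj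
    have hb : b ∈ B.G i δ := hb
    show ∃ b ∈ B.G i (δ - ((1 : ℕ) : ℤ)), B.d (lin v ^ 1 • b) = lin v ^ 1 • c
    have he : lin v ^ (p - 1) • b ∈ B.G i (δ + (p - 1)) := by
      have := lin_pow_smul_G B v (p - 1) i δ b hb
      rwa [Nat.cast_sub hp1.le, Nat.cast_one] at this
    have hxe : lin v • (lin v ^ (p - 1) • b) = 0 := by
      rw [← mul_smul, ← pow_succ', Nat.sub_add_cancel hp1.le, lin_pow, zero_smul]
    have hde : B.d (lin v ^ (p - 1) • b) = 0 := by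
      rw [map_smul, hb', ← mul_smul, ← pow_add, Nat.sub_add_cancel hp1.le, lin_pow, zero_smul]
    have h3 : ∃ b2 : B.C, B.d b2 ∈ B.G i δ ∧ lin v ^ (p - 1) • (b - B.d b2) = 0 := by
      have h4 := hK i rfl _ he hxe hde
      split_ifs at h4 with hi
      · exact ⟨0, by rw [map_zero]; exact zero_mem _, by rw [map_zero, sub_zero, h4]⟩
      · obtain ⟨b', hb1, hb2, hb3⟩ := h4
        obtain ⟨b2, hb4, hb5⟩ := hF 1 hp1.le (i - 1) _ b' hb1 (by rw [pow_one]; exact hb2)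
        refine ⟨b2, ?_, ?_⟩
        · have := B.dG _ _ _ hb4
          rw [show i - 1 + 1 = i by omega, Nat.cast_one, add_sub_cancel_right] at this
          exact this
        · rw [smul_sub, ← map_smul, ← hb5, hb3, sub_self]
    obtain ⟨b2, hb2, hb3⟩ := h3
    obtain ⟨b3, hb4, hb5⟩ := hF (p - 1) (by omega) i δ (b - B.d b2) (sub_mem hb hb2) hb3
    refine ⟨b3, ?_, ?_⟩
    · rw [Nat.cast_sub hp1.le] at hb4
      rwa [show δ - ((1 : ℕ) : ℤ) = δ - ((p : ℤ) - ((p : ℤ) - ((1 : ℕ) : ℤ))) by ring]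
    · rw [show p - (p - 1) = 1 by omega] at hb5
      rw [← hb5, map_sub, B.dd, sub_zero, hb']

end Pool.H433AJT
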