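import Pool.Agent.H433R2.AJT.SpecA

open MvPolynomial
open scoped Classical

namespace Pool.H433AJT

theorem t_SU : S_SU := by
  intro p N _ B v hF m hm j δ hIm hKer c hc hdc
  have hp1 : 1 ≤ p := by omega
  set x : Rg p N := lin v with hx
  have hy : x ^ m • c ∈ B.G j (δ - 1) := by
    have := lin_pow_smul_G B v m j _ c hc
    have h2 : δ - ((m + 1 : ℕ) : ℤ) + (m : ℤ) = δ - 1 := by push_cast; ring
    rwa [h2] at this
  have he1 : B.d (x ^ m • c) ∈ B.G (j + 1) (δ - 1) := B.dG _ _ _ hy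
  have he2 : x • B.d (x ^ m • c) = 0 := by
    rw [← map_smul, smul_smul, ← pow_succ']
    exact hdc
  have he3 : B.d (B.d (x ^ m • c)) = 0 := B.dd _
  have hK := hKer _ he1 he2 he3
  rw [if_neg (Nat.succ_ne_zero j), Nat.add_sub_cancel] at hK
  obtain ⟨b, hb, hxb, hdb⟩ := hK
  obtain ⟨b', hb', hbb'⟩ := hF 1 hp1 j _ b hb (by rw [pow_one]; exact hxb)
  have hpm : p - 1 = m + (p - 1 - m) := by omega
  have hb'' : x ^ (p - 1 - m) • b' ∈ B.G j (δ - 1 - (m : ℤ)) := by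
    have := lin_pow_smul_G B v (p - 1 - m) j _ b' hb'
    have h2 : δ - 1 - ((p : ℤ) - ((1 : ℕ) : ℤ)) + ((p - 1 - m : ℕ) : ℤ) = δ - 1 - (m : ℤ) := by
      have h3 : ((p - 1 - m : ℕ) : ℤ) = (p : ℤ) - 1 - m := by omega
      rw [h3]; push_cast; ring
    rwa [h2] at this
  have hc2 : c ∈ B.G j (δ - 1 - (m : ℤ)) := by
    have h2 : δ - ((m + 1 : ℕ) : ℤ) = δ - 1 - (m : ℤ) := by push_cast; ring
    rwa [h2] at hc
  have hc' : c - x ^ (p - 1 - m) • b' ∈ B.G j (δ - 1 - (m : ℤ)) := sub_mem hc2 hb''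
  have hxc' : x ^ m • (c - x ^ (p - 1 - m) • b') = x ^ m • c - b := by
    rw [smul_sub, smul_smul, ← pow_add, ← hpm, ← hbb']
  have hd' : B.d (x ^ m • (c - x ^ (p - 1 - m) • b')) = 0 := by
    rw [hxc', map_sub, hdb, sub_self]
  have h := hIm _ hc' hd'
  rw [hxc'] at h
  by_cases hj : j = 0
  · rw [if_pos hj] at h ⊢
    have hyb : x ^ m • c = b := sub_eq_zero.mp h
    rw [pow_succ', ← smul_smul, hyb]
    exact hxb
  · rw [if_neg hj] at h ⊢
    obtain ⟨b2, hb2, hdb2⟩ := h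
    refine ⟨b2, ?_, ?_⟩
    · have h2 : δ - ((m + 1 : ℕ) : ℤ) = δ - 1 - (m : ℤ) := by push_cast; ring
      rw [h2]; exact hb2
    · rw [pow_succ', ← smul_smul, map_smul, hdb2, smul_sub, hxb, sub_zero, smul_smul]

end Pool.H433AJT
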