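import Pool.Agent.H433R2.AJT.SpecC

open MvPolynomial
open scoped Classical

namespace Pool.H433AJT

theorem t_SUBM : S_SUBM := by
  intro F V ι _ _ _ _ lam v U I b W W'
  have hfr : (Module.finrank F (W ⊔ W' : Submodule F V) : ℤ) +
      Module.finrank F (W ⊓ W' : Submodule F V) =
      Module.finrank F W + Module.finrank F W' := by
    exact_mod_cast Submodule.finrank_sup_add_finrank_inf_eq W W'
  have e1 : ((I.filter fun i => v i ∈ W).card : ℤ) + (I.filter fun i => v i ∈ W').card =
      (I.filter fun i => v i ∈ W ⊓ W').card + (I.filter fun i => v i ∈ W ∨ v i ∈ W').card := by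
    have h1 := Finset.card_union_add_card_inter (I.filter fun i => v i ∈ W)
      (I.filter fun i => v i ∈ W')
    have h2 : (I.filter fun i => v i ∈ W ∨ v i ∈ W') =
        (I.filter fun i => v i ∈ W) ∪ (I.filter fun i => v i ∈ W') := by
      ext i
      simp only [Finset.mem_union, Finset.mem_filter]
      tauto
    have h3 : (I.filter fun i => v i ∈ W ⊓ W') =
        (I.filter fun i => v i ∈ W) ∩ (I.filter fun i => v i ∈ W') := by
      ext i
      simp only [Finset.mem_inter, Finset.mem_filter, Submodule.mem_inf]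
      tauto
    rw [h2, h3]
    have h1' : (((I.filter fun i => v i ∈ W) ∪ (I.filter fun i => v i ∈ W')).card : ℤ) +
        ((I.filter fun i => v i ∈ W) ∩ (I.filter fun i => v i ∈ W')).card =
        (I.filter fun i => v i ∈ W).card + (I.filter fun i => v i ∈ W').card := by
      exact_mod_cast h1
    linarith
  have e2 : ((I.filter fun i => v i ∈ W ⊔ W').card : ℤ) =
      (I.filter fun i => v i ∈ W ∨ v i ∈ W').card +
      (I.filter fun i => v i ∈ W ⊔ W' ∧ v i ∉ W ∧ v i ∉ W').card := by
    have h1 : (I.filter fun i => v i ∈ W ⊔ W') = (I.filter fun i => v i ∈ W ∨ v i ∈ W') ∪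
        (I.filter fun i => v i ∈ W ⊔ W' ∧ v i ∉ W ∧ v i ∉ W') := by
      ext i
      have hl : v i ∈ W → v i ∈ W ⊔ W' := fun h => (le_sup_left : W ≤ W ⊔ W') h
      have hr : v i ∈ W' → v i ∈ W ⊔ W' := fun h => (le_sup_right : W' ≤ W ⊔ W') h
      simp only [Finset.mem_union, Finset.mem_filter]
      tauto
    have h2 : Disjoint (I.filter fun i => v i ∈ W ∨ v i ∈ W')
        (I.filter fun i => v i ∈ W ⊔ W' ∧ v i ∉ W ∧ v i ∉ W') := by
      rw [Finset.disjoint_left]
      intro i h3 h4
      rw [Finset.mem_filter] at h3 h4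
      tauto
    rw [h1, Finset.card_union_of_disjoint h2]
    push_cast
    rfl
  unfold FF nn
  rw [e2]
  linear_combination -lam * e1 - 2 * lam * hfr

end Pool.H433AJT
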