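import Pool.Agent.H433R2.AJT.SpecA

open MvPolynomial
open scoped Classical

namespace Pool.H433AJT

theorem SWAP_mem {p N : ℕ} [hp : Fact p.Prime] (B : BC p N) (a b : Vec p N × ℕ) (j : ℕ) (δ : ℤ)
    (c : (per (per B a) b).C) :
    c ∈ (per (per B a) b).G j δ ↔
      (∀ i k, i + k ≤ j → (c : ℕ → ℕ → B.C) i k ∈
        B.G (j - i - k) (δ + sh p b.2 i + sh p a.2 k)) ∧
      ∀ i k, j < i + k → (c : ℕ → ℕ → B.C) i k = 0 := by
  constructor
  · rintro ⟨h1, h2⟩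
    refine ⟨fun i k hik => (h1 i (by omega)).1 k (by omega), fun i k hik => ?_⟩
    by_cases hi : i ≤ j
    · exact (h1 i hi).2 k (by omega)
    · have := h2 i (by omega)
      exact congrFun this k
  · rintro ⟨h1, h2⟩
    refine ⟨fun i hi => ⟨fun k hk => h1 i k (by omega), fun k hk => h2 i k (by omega)⟩,
      fun i hi => ?_⟩
    funext k
    exact h2 i k (by omega)

theorem SWAP_sq (n : ℕ) : ((-1 : ℤ) ^ n) * ((-1 : ℤ) ^ n) = 1 := by
  rw [← mul_pow]; simp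

noncomputable def SWAP_e {p N : ℕ} [hp : Fact p.Prime] (B : BC p N) (a b : Vec p N × ℕ) :
    (per (per B a) b).C ≃ₗ[Rg p N] (per (per B b) a).C where
  toFun := fun (c : ℕ → ℕ → B.C) => fun (k i : ℕ) => ((-1 : ℤ) ^ (i * k)) • c i k
  invFun := fun (c : ℕ → ℕ → B.C) => fun (i k : ℕ) => ((-1 : ℤ) ^ (i * k)) • c k i
  map_add' := by
    intro c c'
    funext k i
    show ((-1 : ℤ) ^ (i * k)) • ((c : ℕ → ℕ → B.C) i k + (c' : ℕ → ℕ → B.C) i k) =
      ((-1 : ℤ) ^ (i * k)) • (c : ℕ → ℕ → B.C) i k + ((-1 : ℤ) ^ (i * k)) • (c' : ℕ → ℕ → B.C) i k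
    rw [smul_add]
  map_smul' := by
    intro r c
    funext k i
    show ((-1 : ℤ) ^ (i * k)) • (r • (c : ℕ → ℕ → B.C) i k) =
      r • (((-1 : ℤ) ^ (i * k)) • (c : ℕ → ℕ → B.C) i k)
    rw [smul_comm]
  left_inv := by
    intro c
    funext i k
    show ((-1 : ℤ) ^ (i * k)) • (((-1 : ℤ) ^ (i * k)) • (c : ℕ → ℕ → B.C) i k) =
      (c : ℕ → ℕ → B.C) i k
    rw [← mul_smul, SWAP_sq, one_smul]
  right_inv := by
    intro c
    funext i k
    show ((-1 : ℤ) ^ (k * i)) • (((-1 : ℤ) ^ (k * i)) • (c : ℕ → ℕ → B.C) i k) =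
      (c : ℕ → ℕ → B.C) i k
    rw [← mul_smul, SWAP_sq, one_smul]

theorem SWAP_pm {G : Type} [AddCommGroup G] (H : AddSubgroup G) (n : ℕ) (x : G) :
    ((-1 : ℤ) ^ n) • x ∈ H ↔ x ∈ H := by
  rcases neg_one_pow_eq_or ℤ n with h | h
  · rw [h, one_smul]
  · rw [h, neg_one_smul, neg_mem_iff]

theorem SWAP_pm0 {G : Type} [AddCommGroup G] (n : ℕ) (x : G) :
    ((-1 : ℤ) ^ n) • x = 0 ↔ x = 0 := by
  rcases neg_one_pow_eq_or ℤ n with h | h
  · rw [h, one_smul]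
  · rw [h, neg_one_smul, neg_eq_zero]

theorem SWAP_d {p N : ℕ} [hp : Fact p.Prime] (B : BC p N) (a b : Vec p N × ℕ)
    (c : (per (per B a) b).C) (i k : ℕ) :
    ((per (per B a) b).d c : ℕ → ℕ → B.C) i k =
      (-1 : ℤ) ^ i • ((-1 : ℤ) ^ k • B.d ((c : ℕ → ℕ → B.C) i k) +
        (if k = 0 then 0 else (lin a.1) ^ (ex p a.2 k) • (c : ℕ → ℕ → B.C) i (k - 1))) +
      (if i = 0 then 0 else (lin b.1) ^ (ex p b.2 i) • (c : ℕ → ℕ → B.C) (i - 1) k) := by
  show ((-1 : ℤ) ^ i • (per B a).d ((c : ℕ → ℕ → B.C) i) +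
        (if i = 0 then (0 : (per B a).C) else (lin b.1) ^ (ex p b.2 i) •
          (show (per B a).C from (c : ℕ → ℕ → B.C) (i - 1))) : ℕ → B.C) k = _
  by_cases h : i = 0
  · rw [if_pos h, if_pos h]
    rfl
  · rw [if_neg h, if_neg h]
    rfl

theorem t_SWAP : S_SWAP := by
  intro p N hp B a b
  refine ⟨SWAP_e B a b, fun c => ?_, fun j δ c => ?_⟩
  · funext k i
    rw [SWAP_d B b a (SWAP_e B a b c) k i]
    show ((-1 : ℤ) ^ (i * k)) • ((per (per B a) b).d c : ℕ → ℕ → B.C) i k =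
      (-1 : ℤ) ^ k • ((-1 : ℤ) ^ i • B.d (((-1 : ℤ) ^ (i * k)) • (c : ℕ → ℕ → B.C) i k) +
        (if i = 0 then 0 else (lin b.1) ^ (ex p b.2 i) •
          (((-1 : ℤ) ^ ((i - 1) * k)) • (c : ℕ → ℕ → B.C) (i - 1) k))) +
      (if k = 0 then 0 else (lin a.1) ^ (ex p a.2 k) •
          (((-1 : ℤ) ^ (i * (k - 1))) • (c : ℕ → ℕ → B.C) i (k - 1)))
    rw [SWAP_d B a b c i k]
    have hd : B.d (((-1 : ℤ) ^ (i * k)) • (c : ℕ → ℕ → B.C) i k) =
        ((-1 : ℤ) ^ (i * k)) • B.d ((c : ℕ → ℕ → B.C) i k) := map_zsmul _ _ _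
    rw [hd]
    simp only [smul_add, ← mul_smul]
    have e1 : (-1 : ℤ) ^ (i * k) * (-1) ^ i * (-1) ^ k = (-1) ^ k * (-1) ^ i * (-1) ^ (i * k) := by
      ring
    have e1' : (-1 : ℤ) ^ (i * k) * ((-1) ^ i * (-1) ^ k) =
      (-1) ^ k * ((-1) ^ i * (-1) ^ (i * k)) := by ring
    rcases Nat.eq_zero_or_pos i with hi | hi
    · subst hi
      rcases Nat.eq_zero_or_pos k with hk | hk
      · subst hk
        simp
      · have hk0 : k ≠ 0 := by omega
        simp [hk0]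
    · obtain ⟨i, rfl⟩ : ∃ i', i = i' + 1 := ⟨i - 1, by omega⟩
      rcases Nat.eq_zero_or_pos k with hk | hk
      · subst hk
        simp
      · obtain ⟨k, rfl⟩ : ∃ k', k = k' + 1 := ⟨k - 1, by omega⟩
        simp only [Nat.add_sub_cancel, Nat.succ_ne_zero, if_false]
        rw [smul_comm ((lin a.1) ^ (ex p a.2 (k + 1))) ((-1 : ℤ) ^ ((i + 1) * k)),
          smul_comm ((lin b.1) ^ (ex p b.2 (i + 1))) ((-1 : ℤ) ^ (i * (k + 1)))]
        rw [← mul_smul]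
        have e2 : (-1 : ℤ) ^ ((i + 1) * (k + 1)) * (-1) ^ (i + 1) = (-1) ^ ((i + 1) * k) := by
          rw [← pow_add]
          have : (i + 1) * (k + 1) + (i + 1) = (i + 1) * k + 2 * (i + 1) := by ring
          rw [this, pow_add, pow_mul]
          simp
        have e3 : (-1 : ℤ) ^ (k + 1) * (-1) ^ (i * (k + 1)) = (-1) ^ ((i + 1) * (k + 1)) := by
          rw [← pow_add]
          congr 1
          ring
        rw [e1', e2, e3]
        abel
  · rw [SWAP_mem, SWAP_mem]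
    constructor
    · rintro ⟨h1, h2⟩
      refine ⟨fun k i hik => ?_, fun k i hik => ?_⟩
      · show ((-1 : ℤ) ^ (i * k)) • (c : ℕ → ℕ → B.C) i k ∈ _
        rw [SWAP_pm]
        have := h1 i k (by omega)
        rw [show j - k - i = j - i - k by omega, add_right_comm]
        exact this
      · show ((-1 : ℤ) ^ (i * k)) • (c : ℕ → ℕ → B.C) i k = 0
        rw [SWAP_pm0]
        exact h2 i k (by omega)
    · rintro ⟨h1, h2⟩
      refine ⟨fun i k hik => ?_, fun i k hik => ?_⟩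
      · have : ((-1 : ℤ) ^ (i * k)) • (c : ℕ → ℕ → B.C) i k ∈ _ := h1 k i (by omega)
        rw [SWAP_pm] at this
        rw [show j - i - k = j - k - i by omega, add_right_comm]
        exact this
      · have : ((-1 : ℤ) ^ (i * k)) • (c : ℕ → ℕ → B.C) i k = 0 := h2 k i (by omega)
        rw [SWAP_pm0] at this
        exact this

end Pool.H433AJT
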