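import Pool.Agent.H433R2.AJT.SpecC

open MvPolynomial
open scoped Classical

namespace Pool.H433AJT

section TRI_sec
variable {F V ι : Type} [Field F] [AddCommGroup V] [Module F V]

theorem TRI_up {W Z : Submodule F V} {x y : V} (h : jn W y = jn W x) (hZ : W ≤ Z) :
    jn Z y = jn Z x := by
  have h1 : ∀ t : V, jn Z t = Z ⊔ jn W t := by
    intro t
    rw [jn, jn, ← sup_assoc, sup_eq_left.2 hZ]
  rw [h1, h1, h]

theorem TRI_mem {W Z : Submodule F V} {x y : V} (h : jn W y = jn W x) (hZ : W ≤ Z) :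
    y ∈ Z ↔ x ∈ Z := by
  have key : ∀ {x y : V}, jn W y = jn W x → x ∈ Z → y ∈ Z := by
    intro x y h hx
    have h1 : y ∈ jn W x := by
      rw [← h]
      exact Submodule.mem_sup_right (Submodule.mem_span_singleton_self y)
    have h2 : jn W x ≤ Z := sup_le hZ (by simpa using hx)
    exact h2 h1
  exact ⟨key h.symm, key h⟩

theorem TRI_c {W : Submodule F V} {x y : V} (h : jn W y = jn W x) (hy : y ∉ W) :
    ∃ c : F, c ≠ 0 ∧ y - c • x ∈ W := by
  have h1 : y ∈ jn W x := by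
    rw [← h]
    exact Submodule.mem_sup_right (Submodule.mem_span_singleton_self y)
  obtain ⟨w, hw, z, hz, hwz⟩ := Submodule.mem_sup.1 h1
  obtain ⟨c, rfl⟩ := Submodule.mem_span_singleton.1 hz
  refine ⟨c, ?_, ?_⟩
  · rintro rfl
    apply hy
    rw [← hwz]
    simpa using hw
  · rw [← hwz]
    simpa using hw

theorem TRI_of {Y : Submodule F V} {x y : V} {c : F} (hc : c ≠ 0) (h : y - c • x ∈ Y) :
    jn Y y = jn Y x := by
  apply le_antisymm
  · refine sup_le le_sup_left ?_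
    rw [Submodule.span_singleton_le_iff_mem]
    have : y = (y - c • x) + c • x := by abel
    rw [this]
    exact add_mem (Submodule.mem_sup_left h)
      (Submodule.mem_sup_right (Submodule.smul_mem _ _ (Submodule.mem_span_singleton_self x)))
  · refine sup_le le_sup_left ?_
    rw [Submodule.span_singleton_le_iff_mem]
    have : x = c⁻¹ • y - c⁻¹ • (y - c • x) := by
      rw [smul_sub, smul_smul, inv_mul_cancel₀ hc, one_smul]
      abel
    rw [this]
    exact sub_mem (Submodule.mem_sup_right (Submodule.smul_mem _ _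
      (Submodule.mem_span_singleton_self y))) (Submodule.mem_sup_left (Submodule.smul_mem _ _ h))

theorem TRI_inI {v : ι → V} {I : Finset ι} {W : Submodule F V} {i : ι} (h : i ∈ dbl v I W) :
    i ∈ I := (Finset.mem_filter.1 h).1

theorem TRI_count (v : ι → V) (I : Finset ι) (W W' Z : Submodule F V) (hZ : W ≤ Z) (σ : ι → ι)
    (hσ : Mat v W (dbl v I W) σ) (R : Finset ι)
    (hR : ∀ i ∈ I, v i ∈ Z → v i ∉ W → v i ∉ W' → i ∈ R) :
    (dbl v I W).card ≤ ((dbl v I W).filter fun i => v i ∉ Z).card +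
      ((dbl v I W).filter fun i => v i ∈ W' ∧ v (σ i) ∈ W').card + 2 * R.card := by
  have h1 : dbl v I W ⊆ (((dbl v I W).filter fun i => v i ∉ Z) ∪
      ((dbl v I W).filter fun i => v i ∈ W' ∧ v (σ i) ∈ W')) ∪ (R ∪ R.image σ) := by
    intro i hi
    obtain ⟨h1, h2, h3, h4, h5⟩ := hσ i hi
    simp only [Finset.mem_union, Finset.mem_filter, Finset.mem_image]
    by_cases hz : v i ∈ Z
    · have hz' : v (σ i) ∈ Z := (TRI_mem h5 hZ).2 hz
      by_cases ha : v i ∈ W'
      · by_cases hb : v (σ i) ∈ W'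
        · exact Or.inl (Or.inr ⟨hi, ha, hb⟩)
        · refine Or.inr (Or.inr ⟨σ i, ?_, h2⟩)
          exact hR _ (TRI_inI h1) hz' (hσ _ h1).2.2.2.1 hb
      · exact Or.inr (Or.inl (hR _ (TRI_inI hi) hz h4 ha))
    · exact Or.inl (Or.inl ⟨hi, hz⟩)
  have h2 := Finset.card_le_card h1
  have h3 := Finset.card_union_le (((dbl v I W).filter fun i => v i ∉ Z) ∪
      ((dbl v I W).filter fun i => v i ∈ W' ∧ v (σ i) ∈ W')) (R ∪ R.image σ)
  have h4 := Finset.card_union_le ((dbl v I W).filter fun i => v i ∉ Z)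
      ((dbl v I W).filter fun i => v i ∈ W' ∧ v (σ i) ∈ W')
  have h5 := Finset.card_union_le R (R.image σ)
  have h6 : (R.image σ).card ≤ R.card := Finset.card_image_le
  omega

theorem t_TRI (hP : S_PART) : S_TRI := by
  intro F V ι _ _ _ _ v I W W'
  obtain ⟨σ, hσ⟩ := hP F V ι v I W
  obtain ⟨σ', hσ'⟩ := hP F V ι v I W'
  set Z := W ⊔ W' with hZ
  have hWZ : W ≤ Z := le_sup_left
  have hWZ' : W' ≤ Z := le_sup_right
  set R := I.filter fun i => v i ∈ Z ∧ v i ∉ W ∧ v i ∉ W' with hRdef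
  set D₁ := (dbl v I W).filter fun i => v i ∉ Z with hD1
  set D₂ := (dbl v I W').filter fun i => v i ∉ Z with hD2
  set Db := (dbl v I W).filter fun i => v i ∈ W' ∧ v (σ i) ∈ W' with hDb
  set Db' := (dbl v I W').filter fun i => v i ∈ W ∧ v (σ' i) ∈ W with hDb'
  set K := (D₁ ∩ D₂).filter fun i => σ i = σ' i with hK
  have c1 := TRI_count v I W W' Z hWZ σ hσ R (by
    intro i hi h1 h2 h3
    exact Finset.mem_filter.2 ⟨hi, h1, h2, h3⟩)
  have c2 := TRI_count v I W' W Z hWZ' σ' hσ' R (by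
    intro i hi h1 h2 h3
    exact Finset.mem_filter.2 ⟨hi, h1, h3, h2⟩)
  have mb : ∀ i, i ∈ Db ↔ i ∈ dbl v I W ∧ v i ∈ W' ∧ v (σ i) ∈ W' := by
    intro i; rw [hDb, Finset.mem_filter]
  have mb' : ∀ i, i ∈ Db' ↔ i ∈ dbl v I W' ∧ v i ∈ W ∧ v (σ' i) ∈ W := by
    intro i; rw [hDb', Finset.mem_filter]
  have mK : ∀ i, i ∈ K ↔ i ∈ dbl v I W ∧ i ∈ dbl v I W' ∧ v i ∉ Z ∧ σ i = σ' i := by
    intro i
    rw [hK, Finset.mem_filter, Finset.mem_inter, hD1, hD2, Finset.mem_filter, Finset.mem_filter]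
    tauto
  have hd1 : Disjoint Db Db' := by
    rw [Finset.disjoint_left]
    intro i h1 h2
    exact (hσ i ((mb i).1 h1).1).2.2.2.1 ((mb' i).1 h2).2.1
  have hd2 : Disjoint (Db ∪ Db') K := by
    rw [Finset.disjoint_left]
    intro i h1 h2
    have h3 := ((mK i).1 h2).2.2.1
    rcases Finset.mem_union.1 h1 with h | h
    · exact h3 (hWZ' ((mb i).1 h).2.1)
    · exact h3 (hWZ ((mb' i).1 h).2.1)
  have cY : ((Db ∪ Db') ∪ K).card = Db.card + Db'.card + K.card := by
    rw [Finset.card_union_of_disjoint hd2, Finset.card_union_of_disjoint hd1]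
  refine ⟨(Db ∪ Db') ∪ K, D₁, D₂, fun i => if v i ∈ W then σ' i else σ i, σ, σ', ?_, ?_, ?_, ?_,
    ?_, ?_, ?_⟩
  · intro i hi
    rcases Finset.mem_union.1 hi with h | h
    · rcases Finset.mem_union.1 h with h | h
      · exact TRI_inI ((mb i).1 h).1
      · exact TRI_inI ((mb' i).1 h).1
    · exact TRI_inI ((mK i).1 h).1
  · intro i hi
    exact TRI_inI (Finset.mem_filter.1 hi).1
  · intro i hi
    exact TRI_inI (Finset.mem_filter.1 hi).1
  · intro i hi
    rcases Finset.mem_union.1 hi with h | h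
    · rcases Finset.mem_union.1 h with h | h
      · obtain ⟨a1, a2, a3⟩ := (mb i).1 h
        obtain ⟨h1, h2, h3, h4, h5⟩ := hσ i a1
        have h6 : v (σ i) ∉ W := (hσ _ h1).2.2.2.1
        simp only [if_neg h4, if_neg h6]
        refine ⟨?_, h2, h3, fun hh => h4 hh.1, ?_⟩
        · refine Finset.mem_union_left _ (Finset.mem_union_left _ ((mb _).2 ⟨h1, a3, ?_⟩))
          rw [h2]; exact a2
        · obtain ⟨c, hc, hw⟩ := TRI_c h5 h6
          exact TRI_of hc ⟨hw, sub_mem a3 (Submodule.smul_mem _ _ a2)⟩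
      · obtain ⟨a1, a2, a3⟩ := (mb' i).1 h
        obtain ⟨h1, h2, h3, h4, h5⟩ := hσ' i a1
        have h6 : v (σ' i) ∉ W' := (hσ' _ h1).2.2.2.1
        simp only [if_pos a2, if_pos a3]
        refine ⟨?_, h2, h3, fun hh => h4 hh.2, ?_⟩
        · refine Finset.mem_union_left _ (Finset.mem_union_right _ ((mb' _).2 ⟨h1, a3, ?_⟩))
          rw [h2]; exact a2
        · obtain ⟨c, hc, hw⟩ := TRI_c h5 h6
          exact TRI_of hc ⟨sub_mem a3 (Submodule.smul_mem _ _ a2), hw⟩
    · obtain ⟨a1, a2, a3, a4⟩ := (mK i).1 h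
      obtain ⟨h1, h2, h3, h4, h5⟩ := hσ i a1
      obtain ⟨h1', h2', h3', h4', h5'⟩ := hσ' i a2
      rw [← a4] at h1' h2' h5'
      have h6 : v (σ i) ∉ W := (hσ _ h1).2.2.2.1
      have h6' : v (σ i) ∉ W' := (hσ' _ h1').2.2.2.1
      simp only [if_neg h4, if_neg h6]
      refine ⟨?_, h2, h3, fun hh => h4 hh.1, ?_⟩
      · refine Finset.mem_union_right _ ((mK _).2 ⟨h1, h1', ?_, ?_⟩)
        · rw [TRI_mem h5 hWZ]; exact a3
        · rw [h2, h2']
      · obtain ⟨c, hc, hw⟩ := TRI_c h5 h6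
        obtain ⟨c', hc', hw'⟩ := TRI_c h5' h6'
        have hcc : c = c' := by
          by_contra hne
          apply a3
          have e1 : v i = (c' - c)⁻¹ • ((v (σ i) - c • v i) - (v (σ i) - c' • v i)) := by
            have : (v (σ i) - c • v i) - (v (σ i) - c' • v i) = (c' - c) • v i := by
              rw [sub_smul]; abel
            rw [this, smul_smul, inv_mul_cancel₀ (sub_ne_zero.2 (Ne.symm hne)), one_smul]
          rw [e1]
          exact Submodule.smul_mem _ _ (sub_mem (hWZ hw) (hWZ' hw'))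
        subst hcc
        exact TRI_of hc ⟨hw, hw'⟩
  · intro i hi
    obtain ⟨a1, a2⟩ := Finset.mem_filter.1 hi
    obtain ⟨h1, h2, h3, h4, h5⟩ := hσ i a1
    refine ⟨Finset.mem_filter.2 ⟨h1, ?_⟩, h2, h3, a2, TRI_up h5 hWZ⟩
    rw [TRI_mem h5 hWZ]; exact a2
  · intro i hi
    obtain ⟨a1, a2⟩ := Finset.mem_filter.1 hi
    obtain ⟨h1, h2, h3, h4, h5⟩ := hσ' i a1
    refine ⟨Finset.mem_filter.2 ⟨h1, ?_⟩, h2, h3, a2, TRI_up h5 hWZ'⟩
    rw [TRI_mem h5 hWZ']; exact a2
  · rw [cY]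
    push_cast
    have c1' : ((dbl v I W).card : ℤ) ≤ D₁.card + Db.card + 2 * R.card := by exact_mod_cast c1
    have c2' : ((dbl v I W').card : ℤ) ≤ D₂.card + Db'.card + 2 * R.card := by exact_mod_cast c2
    linarith

end TRI_sec

end Pool.H433AJT
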