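import Pool.Agent.H433R2.AJT.SpecC

open MvPolynomial
open scoped Classical

namespace Pool.H433AJT

theorem TWOB_cnt {F : Type} [Field F] {n : ℕ} (f : Fin n → (Fin n → F))
    (hf : LinearIndependent F f) (W : Submodule F (Fin n → F)) :
    (Finset.univ.filter (fun a => f a ∈ W)).card ≤ Module.finrank F W := by
  have hg : LinearIndependent F (fun a : {a // f a ∈ W} => (⟨f a.1, a.2⟩ : W)) := by
    apply LinearIndependent.of_comp W.subtype
    exact hf.comp (fun a : {a // f a ∈ W} => a.1) Subtype.val_injective
  have h1 := hg.fintype_card_le_finrank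
  rwa [Fintype.card_subtype] at h1

theorem TWOB_one {F : Type} [Field F] {n : ℕ} (f : Fin n → (Fin n → F))
    (hf : LinearIndependent F f) (L : Submodule F (Fin n → F)) :
    (Finset.univ.filter (fun a => jn (⊥ : Submodule F (Fin n → F)) (f a) = L)).card ≤ 1 := by
  by_cases h : ∃ a, jn (⊥ : Submodule F (Fin n → F)) (f a) = L
  · obtain ⟨a, ha⟩ := h
    have h1 : Module.finrank F L = 1 := by
      rw [← ha]
      unfold jn
      rw [bot_sup_eq]
      exact finrank_span_singleton (hf.ne_zero a)
    rw [← h1]
    refine le_trans (Finset.card_le_card ?_) (TWOB_cnt f hf L)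
    intro b hb
    rw [Finset.mem_filter] at hb ⊢
    refine ⟨Finset.mem_univ _, ?_⟩
    rw [← hb.2]
    exact Submodule.mem_sup_right (Submodule.mem_span_singleton_self _)
  · push Not at h
    rw [Finset.filter_false_of_mem fun a _ => h a]
    simp

theorem TWOB_sum {n : ℕ} (P : Fin n ⊕ Fin n → Prop) [DecidablePred P] :
    (Finset.univ.filter P).card = (Finset.univ.filter (fun a : Fin n => P (Sum.inl a))).card +
      (Finset.univ.filter (fun a : Fin n => P (Sum.inr a))).card := by
  rw [Finset.card_filter, Fintype.sum_sum_type, Finset.card_filter, Finset.card_filter]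

theorem TWOB_wt (lam : ℤ) (hlam : 4 ≤ lam) (k : ℕ) : wt lam k ≤ lam * k := by
  unfold wt
  split_ifs with h0 h1
  · rw [h0]; simp
  · rw [h1]; simp
  · have h2 : (2 : ℤ) ≤ k := by
      have : 2 ≤ k := by omega
      exact_mod_cast this
    have h3 : min (lam + (k : ℤ)) (2 * lam) ≤ 2 * lam := min_le_right _ _
    nlinarith

theorem t_TWOB : S_TWOB := by
  intro F _ n A lam hlam hA
  set v : Fin n ⊕ Fin n → (Fin n → F) :=
    fun i => Sum.elim (fun i => (Pi.single i 1 : Fin n → F)) A i with hv
  have he : LinearIndependent F (fun i : Fin n => (Pi.single i 1 : Fin n → F)) := by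
    have h1 := (Pi.basisFun F (Fin n)).linearIndependent
    convert h1 using 1
    funext i
    simp
  have hr : LinearIndependent F (fun i : Fin n => A i) := by
    have h1 : LinearIndependent F A.row := by
      rw [Matrix.linearIndependent_rows_iff_isUnit, Matrix.isUnit_iff_isUnit_det]
      exact hA
    exact h1
  have hl0 : ∀ i, v i ≠ 0 := by
    rintro (i | i)
    · exact he.ne_zero i
    · exact hr.ne_zero i
  have hcard : ∀ L : Submodule F (Fin n → F),
      (Finset.univ.filter (fun i => jn (⊥ : Submodule F (Fin n → F)) (v i) = L)).card ≤ 2 := by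
    intro L
    rw [TWOB_sum]
    have h1 := TWOB_one _ he L
    have h2 := TWOB_one _ hr L
    exact Nat.add_le_add h1 h2
  refine ⟨fun i _ h => hl0 i (by simpa using h), ?_, ?_⟩
  · intro W _
    unfold slack
    rw [finrank_bot]
    have h1 : (Finset.univ.filter (fun i => v i ∈ W)).card ≤ 2 * Module.finrank F W := by
      rw [TWOB_sum]
      have h1 := TWOB_cnt _ he W
      have h2 := TWOB_cnt _ hr W
      have h3 : (Finset.univ.filter (fun a : Fin n => v (Sum.inl a) ∈ W)).card ≤
          Module.finrank F W := h1
      have h4 : (Finset.univ.filter (fun a : Fin n => v (Sum.inr a) ∈ W)).card ≤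
          Module.finrank F W := h2
      omega
    have h2 : ∑ L ∈ (Finset.univ.filter (fun i => v i ∈ W)).image
          (fun i => jn (⊥ : Submodule F (Fin n → F)) (v i)),
        wt lam ((Finset.univ.filter fun j => jn (⊥ : Submodule F (Fin n → F)) (v j) = L).card) ≤
        lam * ((Finset.univ.filter (fun i => v i ∈ W)).card : ℤ) := by
      have h3 : ((Finset.univ.filter (fun i => v i ∈ W)).card : ℤ) =
          ∑ L ∈ (Finset.univ.filter (fun i => v i ∈ W)).image
            (fun i => jn (⊥ : Submodule F (Fin n → F)) (v i)),
            ((Finset.univ.filter fun j =>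
              jn (⊥ : Submodule F (Fin n → F)) (v j) = L).card : ℤ) := by
        rw [Finset.card_eq_sum_card_image
          (fun i => jn (⊥ : Submodule F (Fin n → F)) (v i))
          (Finset.univ.filter (fun i => v i ∈ W))]
        push_cast
        refine Finset.sum_congr rfl fun L hL => ?_
        congr 2
        ext j
        simp only [Finset.mem_filter, Finset.mem_univ, true_and, and_iff_right_iff_imp]
        intro hj
        rw [Finset.mem_image] at hL
        obtain ⟨i, hi, hiL⟩ := hL
        rw [Finset.mem_filter] at hi
        have h5 : v j ∈ jn (⊥ : Submodule F (Fin n → F)) (v i) := by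
          rw [hiL, ← hj]
          exact Submodule.mem_sup_right (Submodule.mem_span_singleton_self _)
        have h6 : jn (⊥ : Submodule F (Fin n → F)) (v i) ≤ W := by
          refine sup_le bot_le ?_
          rw [Submodule.span_singleton_le_iff_mem]
          exact hi.2
        exact h6 h5
      rw [h3, Finset.mul_sum]
      exact Finset.sum_le_sum fun L _ => TWOB_wt lam hlam _
    have h4 : ((Finset.univ.filter (fun i => v i ∈ W)).card : ℤ) ≤ 2 * Module.finrank F W := by
      exact_mod_cast h1
    push_cast
    nlinarith
  · intro i _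
    have h1 : (cls v Finset.univ (⊥ : Submodule F (Fin n → F)) i).card ≤ 2 := by
      refine le_trans (Finset.card_le_card ?_) (hcard (jn ⊥ (v i)))
      intro j hj
      unfold cls at hj
      rw [Finset.mem_filter] at hj ⊢
      exact ⟨Finset.mem_univ _, hj.2.2⟩
    have h2 : ((cls v Finset.univ (⊥ : Submodule F (Fin n → F)) i).card : ℤ) ≤ 2 := by
      exact_mod_cast h1
    linarith

end Pool.H433AJT
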