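import Pool.Agent.H433R2.AJT.T_A2

set_option autoImplicit false

open MvPolynomial
open scoped Classical

namespace Pool.H433AJT

theorem t_TY (hA : S_A1) : S_TY := by
  intro F V ι _ _ _ _ lam v U I b hlam hI W D σ hW hD h hle
  have h1 := hA F V ι lam v U I b hlam hI W D σ hW hD h
  have hs : ∀ i ∈ I, v i ∉ W → (cls v I W i).card ≤ 2 := by
    intro i hi hv
    by_contra hc
    have := h1.2 ⟨i, hi, hv, by omega⟩
    omega
  have h2 := Finset.card_le_card (A2_small hD h hs).1
  have h3 := hI.2 W hW
  exact ⟨hW, by omega⟩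

end Pool.H433AJT
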