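import Pool.Agent.H433R2.AJT.T_A2

set_option autoImplicit false

open MvPolynomial
open scoped Classical

namespace Pool.H433AJT

theorem t_TZ (hC : S_COV) (hA : S_A2) : S_TZ := by
  intro F V ι _ _ _ _ lam v U I b hlam hI W
  refine WellFoundedGT.induction (motive := fun W => ∀ (D₁ D₂ : Finset ι) (σ₁ σ₂ : ι → ι), U ≤ W →
    D₁ ⊆ I → D₂ ⊆ I → Mat v W D₁ σ₁ → Mat v W D₂ σ₂ →
    FF lam v U I b W + (((D₁ ∩ D₂).filter fun i => σ₁ i = σ₂ i).card : ℤ)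
      ≤ (D₁.card : ℤ) + D₂.card →
    ∃ T, Tight lam v U I b T ∧ W ≤ T) W ?_
  clear W
  intro W ih D₁ D₂ σ₁ σ₂ hW hD₁ hD₂ h₁ h₂ hle
  by_cases hs : ∀ i ∈ I, v i ∉ W → (cls v I W i).card ≤ 2
  · have h3 := A2_small2 hD₁ h₁ hD₂ h₂ hs
    have h4 := hI.2 W hW
    exact ⟨W, ⟨hW, by omega⟩, le_rfl⟩
  · push Not at hs
    obtain ⟨i, hi, hv, hc⟩ := hs
    have h3 := A2_big hlam (i := i) hD₁ h₁ hD₂ h₂ hc
    have h5 := hC F V ι lam v U I b W i hv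
    have h6 := A2_K (v := v) (W' := jn W (v i)) (D₁ := D₁) (D₂ := D₂) (σ₁ := σ₁) (σ₂ := σ₂)
    have h7 : lam * (2 - ((cls v I W i).card : ℤ)) = - (lam * ((cls v I W i).card - 2)) := by ring
    rw [h7] at h5
    obtain ⟨T, hT, hWT⟩ := ih (jn W (v i)) (A2_lt hv) _ _ σ₁ σ₂ (le_trans hW le_sup_left)
      ((Finset.filter_subset (fun j => v j ∉ jn W (v i)) D₁).trans hD₁)
      ((Finset.filter_subset (fun j => v j ∉ jn W (v i)) D₂).trans hD₂)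
      (A2_Mat_restrict (v i) h₁) (A2_Mat_restrict (v i) h₂) (by rw [h5]; omega)
    exact ⟨T, hT, (A2_lt hv).le.trans hWT⟩

end Pool.H433AJT
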