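import Pool.Agent.H433R2.AJT.SpecB

open MvPolynomial
open scoped Classical

namespace Pool.H433AJT

section
variable {F V : Type} [Field F] [AddCommGroup V] [Module F V]

theorem TZERO_mem (W : Submodule F V) (x : V) : x ∈ jn W x :=
  Submodule.mem_sup_right (Submodule.mem_span_singleton_self x)

theorem TZERO_finrank [FiniteDimensional F V] (W : Submodule F V) (x : V) (hx : x ∉ W) :
    Module.finrank F (jn W x) = Module.finrank F W + 1 := by
  have h0 : x ≠ 0 := by
    rintro rfl
    exact hx (zero_mem _)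
  have h1 := Submodule.finrank_sup_add_finrank_inf_eq W (Submodule.span F {x})
  have h2 : W ⊓ Submodule.span F {x} = ⊥ :=
    disjoint_iff.1 ((Submodule.disjoint_span_singleton' h0).2 hx)
  rw [h2, finrank_bot, finrank_span_singleton h0] at h1
  simpa using h1

theorem TZERO_exch [FiniteDimensional F V] (W : Submodule F V) (x y : V) (hx : x ∉ W)
    (hxy : x ∈ jn W y) : jn W x = jn W y := by
  have hy : y ∉ W := by
    intro hy
    apply hx
    have : jn W y ≤ W := sup_le le_rfl (by
      rw [Submodule.span_singleton_le_iff_mem]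
      exact hy)
    exact this hxy
  refine Submodule.eq_of_le_of_finrank_eq (sup_le le_sup_left ?_) ?_
  · rw [Submodule.span_singleton_le_iff_mem]
    exact hxy
  · rw [TZERO_finrank W x hx, TZERO_finrank W y hy]

theorem TZERO_up (U W : Submodule F V) (hUW : U ≤ W) (x y : V) (h : jn U x = jn U y) :
    jn W x = jn W y := by
  have h1 : ∀ z, jn W z = W ⊔ jn U z := by
    intro z
    unfold jn
    rw [← sup_assoc, sup_eq_left.2 hUW]
  rw [h1 x, h1 y, h]

end

theorem TZERO_wt1 (lam : ℤ) (c : ℕ) (hc : c = 1) : wt lam c = lam := by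
  subst hc
  simp [wt]

theorem TZERO_wt2 (lam : ℤ) (hlam : 4 ≤ lam) (c : ℕ) (hc : 2 ≤ c) : lam + 2 ≤ wt lam c := by
  unfold wt
  rw [if_neg (by omega), if_neg (by omega)]
  have : (2 : ℤ) ≤ c := by exact_mod_cast hc
  exact le_min (by omega) (by omega)

theorem TZERO_wt0 (lam : ℤ) (hlam : 4 ≤ lam) (c : ℕ) : 0 ≤ wt lam c := by
  unfold wt
  split_ifs
  · exact le_rfl
  · omega
  · exact le_min (by omega) (by omega)

theorem TZERO_count {κ : Type} (lam : ℤ) (hlam : 4 ≤ lam) (S : Finset κ) (f : κ → ℕ)
    (hf1 : ∀ L ∈ S, 1 ≤ f L) (hf2 : ∀ L ∈ S, (f L : ℤ) ≤ 2 * lam + 2)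
    (hs : ∑ L ∈ S, wt lam (f L) ≤ 2 * lam) : ((∑ L ∈ S, f L : ℕ) : ℤ) ≤ 2 * lam + 2 := by
  by_cases h : ∀ L ∈ S, f L = 1
  · have h1 : ∑ L ∈ S, wt lam (f L) = S.card * lam := by
      rw [Finset.sum_congr rfl fun L hL => TZERO_wt1 lam (f L) (h L hL), Finset.sum_const,
        nsmul_eq_mul]
    have h2 : ∑ L ∈ S, f L = S.card := by
      rw [Finset.sum_congr rfl fun L hL => h L hL, Finset.sum_const, smul_eq_mul, mul_one]
    rw [h1] at hs
    rw [h2]
    nlinarith
  · push Not at h
    obtain ⟨L0, hL0, hL1⟩ := h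
    have h3 : 2 ≤ f L0 := by
      have := hf1 L0 hL0
      omega
    have h4 := TZERO_wt2 lam hlam _ h3
    have h5 : S = {L0} := by
      rw [Finset.eq_singleton_iff_unique_mem]
      refine ⟨hL0, fun L hL => ?_⟩
      by_contra hne
      have h6 : wt lam (f L0) + wt lam (f L) ≤ ∑ L ∈ S, wt lam (f L) := by
        have h7 : ∑ K ∈ ({L0, L} : Finset κ), wt lam (f K) ≤ ∑ K ∈ S, wt lam (f K) := by
          refine Finset.sum_le_sum_of_subset_of_nonneg ?_ fun K _ _ => TZERO_wt0 lam hlam _
          intro K hK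
          rcases Finset.mem_insert.1 hK with rfl | hK
          · exact hL0
          · rw [Finset.mem_singleton] at hK
            subst hK
            exact hL
        rwa [Finset.sum_pair (Ne.symm hne)] at h7
      have h8 : lam ≤ wt lam (f L) := by
        rcases Nat.lt_or_ge (f L) 2 with h9 | h9
        · rw [TZERO_wt1 lam (f L) (by have := hf1 L hL; omega)]
        · have := TZERO_wt2 lam hlam _ h9
          omega
      omega
    rw [h5, Finset.sum_singleton]
    exact hf2 L0 hL0

theorem t_TZERO (hG : S_GAIN) : S_TZERO := by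
  intro F V ι _ _ _ _ lam v U I hlam hC W hUW hW
  obtain ⟨hC1, hC2, hC3⟩ := hC
  refine ⟨fun i hi => (Finset.mem_filter.1 hi).2, fun W' hW' => ?_, fun i hi => ?_⟩
  · have h1 := hG F V ι lam v U I hlam hC1 W W' hUW hW' ∅ id (Finset.empty_subset _)
      (by intro i hi; simp at hi) (by intro i hi; simp at hi)
    have h2 := hC2 W' (hUW.trans hW')
    simp only [Finset.filter_empty, Finset.card_empty] at h1
    push_cast at h1
    rw [hW] at h1
    linarith
  · obtain ⟨hiI, hiW⟩ := Finset.mem_filter.1 hi
    obtain ⟨C, hCdef⟩ : ∃ C, C = cls v (I.filter fun i => v i ∉ W) W i := ⟨_, rfl⟩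
    rw [← hCdef]
    have hCmem : ∀ j, j ∈ C ↔ j ∈ I ∧ v j ∉ W ∧ jn W (v j) = jn W (v i) := by
      intro j
      rw [hCdef, cls, Finset.mem_filter, Finset.mem_filter]
      tauto
    obtain ⟨f, hf⟩ : ∃ f : Submodule F V → ℕ, f = fun L =>
      (I.filter fun j => jn U (v j) = L).card := ⟨_, rfl⟩
    obtain ⟨S, hS⟩ : ∃ S, S = C.image (fun j => jn U (v j)) := ⟨_, rfl⟩
    have hcard : C.card = ∑ L ∈ S, f L := by
      rw [Finset.card_eq_sum_card_fiberwise (f := fun j => jn U (v j)) (t := S)]
      · refine Finset.sum_congr rfl fun L hL => ?_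
        rw [hf]
        show _ = (I.filter fun j => jn U (v j) = L).card
        congr 1
        ext k
        rw [Finset.mem_filter, Finset.mem_filter]
        constructor
        · rintro ⟨h1, h2⟩
          exact ⟨((hCmem k).1 h1).1, h2⟩
        · rintro ⟨h1, h2⟩
          refine ⟨(hCmem k).2 ⟨h1, ?_, ?_⟩, h2⟩
          · intro hk
            rw [hS, Finset.mem_image] at hL
            obtain ⟨j, hj, hjL⟩ := hL
            have h3 := (hCmem j).1 hj
            apply h3.2.1
            have h4 : v j ∈ jn U (v k) := by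
              rw [h2, ← hjL]
              exact TZERO_mem _ _
            have h5 : jn U (v k) ≤ W := sup_le hUW (by
              rw [Submodule.span_singleton_le_iff_mem]
              exact hk)
            exact h5 h4
          · rw [hS, Finset.mem_image] at hL
            obtain ⟨j, hj, hjL⟩ := hL
            have h3 := (hCmem j).1 hj
            rw [← h3.2.2]
            exact TZERO_up U W hUW _ _ (h2.trans hjL.symm)
      · intro j hj
        rw [hS]
        exact Finset.mem_coe.2 (Finset.mem_image_of_mem _ hj)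
    rw [hcard]
    have hself : ∀ L ∈ S, ∃ j ∈ C, jn U (v j) = L ∧ f L = (cls v I U j).card := by
      intro L hL
      rw [hS, Finset.mem_image] at hL
      obtain ⟨j, hj, hjL⟩ := hL
      refine ⟨j, hj, hjL, ?_⟩
      rw [hf]
      show (I.filter fun j => jn U (v j) = L).card = _
      congr 1
      ext k
      rw [cls, Finset.mem_filter, Finset.mem_filter, hjL]
      constructor
      · rintro ⟨h1, h2⟩
        exact ⟨h1, hC1 k h1, h2⟩
      · rintro ⟨h1, _, h2⟩
        exact ⟨h1, h2⟩
    refine TZERO_count lam hlam S f ?_ ?_ ?_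
    · intro L hL
      obtain ⟨j, hj, hjL, hfL⟩ := hself L hL
      rw [hf]
      refine Finset.card_pos.2 ⟨j, Finset.mem_filter.2 ⟨((hCmem j).1 hj).1, hjL⟩⟩
    · intro L hL
      obtain ⟨j, hj, hjL, hfL⟩ := hself L hL
      rw [hfL]
      exact hC3 j ((hCmem j).1 hj).1
    · have h1 := hC2 (jn W (v i)) (hUW.trans le_sup_left)
      have h2 : (I.filter fun j => v j ∈ jn W (v i)).image (fun j => jn U (v j)) =
          (I.filter fun j => v j ∈ W).image (fun j => jn U (v j)) ∪ S := by
        ext L
        rw [Finset.mem_union, Finset.mem_image, Finset.mem_image, hS, Finset.mem_image]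
        constructor
        · rintro ⟨j, hj, hjL⟩
          rw [Finset.mem_filter] at hj
          by_cases hjW : v j ∈ W
          · exact Or.inl ⟨j, Finset.mem_filter.2 ⟨hj.1, hjW⟩, hjL⟩
          · exact Or.inr ⟨j, (hCmem j).2 ⟨hj.1, hjW, TZERO_exch W _ _ hjW hj.2⟩, hjL⟩
        · rintro (⟨j, hj, hjL⟩ | ⟨j, hj, hjL⟩)
          · rw [Finset.mem_filter] at hj
            exact ⟨j, Finset.mem_filter.2 ⟨hj.1, Submodule.mem_sup_left hj.2⟩, hjL⟩
          · have h3 := (hCmem j).1 hj
            refine ⟨j, Finset.mem_filter.2 ⟨h3.1, ?_⟩, hjL⟩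
            rw [← h3.2.2]
            exact TZERO_mem _ _
      have h3 : Disjoint ((I.filter fun j => v j ∈ W).image (fun j => jn U (v j))) S := by
        rw [Finset.disjoint_left]
        intro L hL1 hL2
        rw [Finset.mem_image] at hL1
        obtain ⟨j, hj, hjL⟩ := hL1
        rw [Finset.mem_filter] at hj
        rw [hS, Finset.mem_image] at hL2
        obtain ⟨k, hk, hkL⟩ := hL2
        apply ((hCmem k).1 hk).2.1
        have h4 : v k ∈ jn U (v j) := by
          rw [hjL, ← hkL]
          exact TZERO_mem _ _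
        have h5 : jn U (v j) ≤ W := sup_le hUW (by
          rw [Submodule.span_singleton_le_iff_mem]
          exact hj.2)
        exact h5 h4
      unfold slack at h1 hW
      rw [h2, Finset.sum_union h3, TZERO_finrank W (v i) hiW] at h1
      have h6 : ∑ L ∈ S, wt lam ((I.filter fun j => jn U (v j) = L).card) =
          ∑ L ∈ S, wt lam (f L) := by
        rw [hf]
      rw [h6] at h1
      push_cast at h1
      linarith

end Pool.H433AJT
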