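import Pool.Agent.H433R2.AJT.SpecC

open MvPolynomial
open scoped Classical

namespace Pool.H433AJT

theorem t_VLP (h1 : S_ZERO) (h2 : S_LOOPB) : S_VLP := by
  intro p N hp U v m l j δ hv hm hmp hV
  exact h2 p N (cplx U l) v m hm hmp (h1 p N U v hv l) j δ hV

end Pool.H433AJT
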