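import Pool.Agent.H433R2.AJT.SpecC

open MvPolynomial
open scoped Classical

namespace Pool.H433AJT

theorem t_VT1 (h1 : S_RED) (h2 : S_ST1) (h3 : S_LIFT) (h4 : S_KER) (h5 : S_KERV) : S_VT1 := by
  intro p N hp U v l j δ hv hV hK
  have hfree := h3 p N U v hv l
  have h1p : 1 ≤ p := hp.out.one_lt.le
  refine (h1 p N (cplx U l) v 1 h1p hfree j δ).mp ?_
  refine h2 p N (cplx U l) v hfree j δ hV ?_
  intro j' hj'
  exact (h5 p N _ _ v (h4 p N U v l) j' _).mpr (hK j' hj')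

end Pool.H433AJT
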