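import Pool.Agent.H433R2.AJT.SpecA

open MvPolynomial
open scoped Classical

namespace Pool.H433AJT

theorem t_ZERO : S_ZERO := by
  intro p N hp U v hv l
  induction l with
  | nil =>
    intro j δ
    show ∀ c : Rg p N, c ∈ (if j = 0 then Mo U δ else (⊥ : AddSubgroup (Rg p N))) →
      lin v * c = 0
    intro c hc
    split_ifs at hc with h
    · exact hc.2 v hv
    · rw [AddSubgroup.mem_bot] at hc
      rw [hc, mul_zero]
  | cons a l ih =>
    rintro j δ c ⟨h1, h2⟩
    funext i
    show lin v • (c : ℕ → (cplx U l).C) i = 0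
    by_cases hi : i ≤ j
    · exact ih _ _ _ (h1 i hi)
    · rw [h2 i (by omega), smul_zero]

end Pool.H433AJT
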