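import Pool.Agent.H433R2.AJT.SpecC

open MvPolynomial
open scoped Classical

namespace Pool.H433AJT

theorem ZRULES_fr {p N : ℕ} [Fact p.Prime] (U : Submodule (ZMod p) (Vec p N)) (v : Vec p N)
    (hv : v ∉ U) :
    Module.finrank (ZMod p) (U ⊔ Submodule.span (ZMod p) {v} : Submodule (ZMod p) (Vec p N))
      = Module.finrank (ZMod p) U + 1 := by
  have h0 : v ≠ 0 := by
    rintro rfl
    exact hv U.zero_mem
  have h1 := Submodule.finrank_sup_add_finrank_inf_eq U (Submodule.span (ZMod p) {v})
  have h2 : U ⊓ Submodule.span (ZMod p) {v} = ⊥ := by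
    rw [← disjoint_iff]
    rw [Submodule.disjoint_span_singleton' h0] 
    exact hv
  rw [h2, finrank_bot, add_zero, finrank_span_singleton h0] at h1
  exact h1

theorem t_ZRULES (h0 : S_PERM) (h1 : S_EMP) (h2 : S_VT1) (h3 : S_VT2) (h4 : S_VU2) (h5 : S_VLP) :
    S_ZRULES := by
  intro p N _ lam hp hlam
  refine ⟨?_, ?_, ?_, ?_, ?_, ?_⟩
  · intro U l l' b hl hz j δ hδ
    refine h0 p N U l l' hl j δ (hz j δ ?_)
    rw [(hl.map (fun a : Vec p N × ℕ => (a.2 : ℤ))).sum_eq]
    exact hδ
  · intro U b hb j δ hδ
    apply h1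
    by_cases hj : 1 ≤ j
    · exact Or.inl hj
    · right
      have hj0 : j = 0 := by omega
      subst hj0
      simp only [List.map_nil, List.sum_nil, Nat.cast_zero, mul_zero] at hδ
      linarith
  · intro U v l b hv hz hz2 j δ hδ
    simp only [List.map_cons, List.sum_cons, Nat.cast_one] at hδ
    refine h2 p N U v l j δ hv (hz j δ (by linarith)) ?_
    rintro j' rfl
    refine hz2 j' _ ?_
    rw [ZRULES_fr U v hv]
    push_cast at hδ ⊢
    nlinarith
  · intro U v l b hv hz hz2 j δ hδ
    simp only [List.map_cons, List.sum_cons, Nat.cast_one] at hδ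
    refine h3 p N U v l j δ hv (hz j _ (by linarith)) (hz2 (j + 1) _ ?_)
    rw [ZRULES_fr U v hv]
    push_cast at hδ ⊢
    nlinarith
  · intro U v m l b hv hm hmp hz hz2 j δ hδ
    simp only [List.map_cons, List.sum_cons] at hδ
    refine h4 p N U v m l j δ hv (by omega) (hz j _ ?_) (hz2 (j + 1) _ ?_)
    · simp only [List.map_cons, List.sum_cons]
      push_cast at hδ ⊢
      linarith
    · rw [ZRULES_fr U v hv]
      push_cast at hδ ⊢
      nlinarith
  · intro U v m l b hv hm hml hz j δ hδ
    simp only [List.map_cons, List.sum_cons] at hδ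
    have hmp : m < p := by omega
    refine h5 p N U v m l j δ hv hm hmp ?_
    intro a ha
    refine hz (j - a) _ ?_
    obtain ⟨k, rfl⟩ := Nat.exists_eq_add_of_le ha
    have e1 : a + k - a = k := by omega
    rw [e1]
    have e2 : ((sh p m a : ℕ) : ℤ) + m ≤ lam + (lam + 3) * a := by
      unfold sh
      have e3 : m + (p - m) = p := by omega
      rw [e3]
      rcases Nat.even_or_odd' a with ⟨c, rfl | rfl⟩
      · have g2 : (2 * c) % 2 = 0 := by omega
        have g4 : (2 * c) / 2 = c := by omega
        simp only [g2, g4]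
        norm_num
        rw [hp]
        have : (0:ℤ) ≤ c := Int.natCast_nonneg c
        nlinarith
      · have g2 : (2 * c + 1) % 2 = 1 := by omega
        have g4 : (2 * c + 1) / 2 = c := by omega
        simp only [g2, g4]
        norm_num
        rw [Nat.cast_sub hmp.le, hp]
        have : (0:ℤ) ≤ c := Int.natCast_nonneg c
        nlinarith
    push_cast at hδ
    nlinarith

end Pool.H433AJT
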