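import Pool.Agent.H433R2.AJT.T_LINADD
import Pool.Agent.H433R2.AJT.T_COORD
import Pool.Agent.H433R2.AJT.T_ADAPT
import Pool.Agent.H433R2.AJT.T_MONOFR
import Pool.Agent.H433R2.AJT.T_MONOLOW
import Pool.Agent.H433R2.AJT.T_MONOOM
import Pool.Agent.H433R2.AJT.T_MONOSPL
import Pool.Agent.H433R2.AJT.T_FR
import Pool.Agent.H433R2.AJT.T_LOW
import Pool.Agent.H433R2.AJT.T_OM
import Pool.Agent.H433R2.AJT.T_SPL
import Pool.Agent.H433R2.AJT.T_RED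
import Pool.Agent.H433R2.AJT.T_ST1
import Pool.Agent.H433R2.AJT.T_SU
import Pool.Agent.H433R2.AJT.T_LIFT
import Pool.Agent.H433R2.AJT.T_KER
import Pool.Agent.H433R2.AJT.T_KERV
import Pool.Agent.H433R2.AJT.T_SWAP
import Pool.Agent.H433R2.AJT.T_PERM
import Pool.Agent.H433R2.AJT.T_ZERO
import Pool.Agent.H433R2.AJT.T_LOOPB
import Pool.Agent.H433R2.AJT.T_HZ
import Pool.Agent.H433R2.AJT.T_EMP
import Pool.Agent.H433R2.AJT.T_VT1
import Pool.Agent.H433R2.AJT.T_VT2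
import Pool.Agent.H433R2.AJT.T_VU2
import Pool.Agent.H433R2.AJT.T_VLP
import Pool.Agent.H433R2.AJT.T_ZRULES
import Pool.Agent.H433R2.AJT.T_RULES
import Pool.Agent.H433R2.AJT.T_NSPLIT
import Pool.Agent.H433R2.AJT.T_NPAR
import Pool.Agent.H433R2.AJT.T_NBASE
import Pool.Agent.H433R2.AJT.T_NSTEP
import Pool.Agent.H433R2.AJT.T_NRULES
import Pool.Agent.H433R2.AJT.T_NULL
import Pool.Agent.H433R2.AJT.T_TWOB
import Pool.Agent.H433R2.AJT.T_COV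
import Pool.Agent.H433R2.AJT.T_SUBM
import Pool.Agent.H433R2.AJT.T_PART
import Pool.Agent.H433R2.AJT.T_A2
import Pool.Agent.H433R2.AJT.T_A1
import Pool.Agent.H433R2.AJT.T_A3
import Pool.Agent.H433R2.AJT.T_TRI
import Pool.Agent.H433R2.AJT.T_TY
import Pool.Agent.H433R2.AJT.T_TZ
import Pool.Agent.H433R2.AJT.T_B
import Pool.Agent.H433R2.AJT.T_EXT
import Pool.Agent.H433R2.AJT.T_DBLUP
import Pool.Agent.H433R2.AJT.T_EXSAFE
import Pool.Agent.H433R2.AJT.T_FDEL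
import Pool.Agent.H433R2.AJT.T_FCON
import Pool.Agent.H433R2.AJT.T_DEL1
import Pool.Agent.H433R2.AJT.T_DEL2
import Pool.Agent.H433R2.AJT.T_CON1
import Pool.Agent.H433R2.AJT.T_CON2
import Pool.Agent.H433R2.AJT.T_RHO1
import Pool.Agent.H433R2.AJT.T_BULK
import Pool.Agent.H433R2.AJT.T_RX
import Pool.Agent.H433R2.AJT.T_MOVE
import Pool.Agent.H433R2.AJT.T_MAIN2
import Pool.Agent.H433R2.AJT.T_M1DEL
import Pool.Agent.H433R2.AJT.T_M1CON
import Pool.Agent.H433R2.AJT.T_M1END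
import Pool.Agent.H433R2.AJT.T_MAIN1
import Pool.Agent.H433R2.AJT.T_C0SUB
import Pool.Agent.H433R2.AJT.T_GAIN
import Pool.Agent.H433R2.AJT.T_DICH
import Pool.Agent.H433R2.AJT.T_TZERO
import Pool.Agent.H433R2.AJT.T_M1START
import Pool.Agent.H433R2.AJT.T_MAIN0
import Pool.Agent.H433R2.AJT.T_FINAL

/-! Assembly: Alon-Jaeger-Tarsi for all primes p >= 11 -/

namespace Pool.H433AJT

theorem f_LINADD : S_LINADD := t_LINADD

theorem f_COORD : S_COORD := t_COORD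

theorem f_ADAPT : S_ADAPT := t_ADAPT

theorem f_MONOFR : S_MONOFR := t_MONOFR

theorem f_MONOLOW : S_MONOLOW := t_MONOLOW

theorem f_MONOOM : S_MONOOM := t_MONOOM

theorem f_MONOSPL : S_MONOSPL := t_MONOSPL

theorem f_FR : S_FR := t_FR f_COORD f_ADAPT f_MONOFR

theorem f_LOW : S_LOW := t_LOW f_COORD f_ADAPT f_MONOLOW

theorem f_OM : S_OM := t_OM f_COORD f_ADAPT f_MONOOM f_FR f_LINADD

theorem f_SPL : S_SPL := t_SPL f_COORD f_ADAPT f_MONOSPL f_LINADD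

theorem f_RED : S_RED := t_RED

theorem f_ST1 : S_ST1 := t_ST1

theorem f_SU : S_SU := t_SU

theorem f_LIFT : S_LIFT := t_LIFT f_FR

theorem f_KER : S_KER := t_KER f_LINADD

theorem f_KERV : S_KERV := t_KERV

theorem f_SWAP : S_SWAP := t_SWAP

theorem f_PERM : S_PERM := t_PERM f_SWAP

theorem f_ZERO : S_ZERO := t_ZERO

theorem f_LOOPB : S_LOOPB := t_LOOPB

theorem f_HZ : S_HZ := t_HZ

theorem f_EMP : S_EMP := t_EMP f_LOW

theorem f_VT1 : S_VT1 := t_VT1 f_RED f_ST1 f_LIFT f_KER f_KERV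

theorem f_VT2 : S_VT2 := t_VT2 f_RED f_SU f_LIFT f_KER f_KERV

theorem f_VU2 : S_VU2 := t_VU2 f_RED f_SU f_LIFT f_KER f_KERV

theorem f_VLP : S_VLP := t_VLP f_ZERO f_LOOPB

theorem f_ZRULES : S_ZRULES := t_ZRULES f_PERM f_EMP f_VT1 f_VT2 f_VU2 f_VLP

theorem f_RULES : S_RULES := t_RULES f_ZRULES

theorem f_NSPLIT : S_NSPLIT := t_NSPLIT f_SPL

theorem f_NPAR : S_NPAR := t_NPAR f_LINADD

theorem f_NBASE : S_NBASE := t_NBASE f_FR f_LOW f_OM f_NPAR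

theorem f_NSTEP : S_NSTEP := t_NSTEP f_OM f_HZ f_NPAR f_LINADD

theorem f_NRULES : S_NRULES := t_NRULES f_NSPLIT f_NBASE f_NSTEP

theorem f_NULL : S_NULL := t_NULL f_LINADD

theorem f_TWOB : S_TWOB := t_TWOB

theorem f_COV : S_COV := t_COV

theorem f_SUBM : S_SUBM := t_SUBM

theorem f_PART : S_PART := t_PART

theorem f_A2 : S_A2 := t_A2 f_COV

theorem f_A1 : S_A1 := t_A1 f_COV f_A2

theorem f_A3 : S_A3 := t_A3 f_COV f_PART f_A1

theorem f_TRI : S_TRI := t_TRI f_PART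

theorem f_TY : S_TY := t_TY f_A1

theorem f_TZ : S_TZ := t_TZ f_COV f_A2

theorem f_B : S_B := t_B f_SUBM f_TRI f_A1 f_A2 f_TY f_TZ

theorem f_EXT : S_EXT := t_EXT f_B

theorem f_DBLUP : S_DBLUP := t_DBLUP f_PART f_A1

theorem f_EXSAFE : S_EXSAFE := t_EXSAFE f_EXT f_DBLUP

theorem f_FDEL : S_FDEL := t_FDEL

theorem f_FCON : S_FCON := t_FCON

theorem f_DEL1 : S_DEL1 := t_DEL1 f_FDEL f_A3

theorem f_DEL2 : S_DEL2 := t_DEL2 f_FDEL f_A3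

theorem f_CON1 : S_CON1 := t_CON1 f_FCON

theorem f_CON2 : S_CON2 := t_CON2 f_FCON

theorem f_RHO1 : S_RHO1 := t_RHO1 f_SUBM f_EXT f_DBLUP f_PART f_A1

theorem f_BULK : S_BULK := t_BULK

theorem f_RX : S_RX := t_RX f_BULK

theorem f_MOVE : S_MOVE := t_MOVE f_EXSAFE f_DEL1 f_DEL2 f_CON1 f_CON2 f_RHO1 f_EXT f_FDEL f_FCON f_DBLUP f_COV f_A3

theorem f_MAIN2 : S_MAIN2 := t_MAIN2 f_MOVE f_RX

theorem f_M1DEL : S_M1DEL := t_M1DEL

theorem f_M1CON : S_M1CON := t_M1CON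

theorem f_M1END : S_M1END := t_M1END f_PART

theorem f_MAIN1 : S_MAIN1 := t_MAIN1 f_M1DEL f_M1CON f_M1END f_MAIN2 f_RX

theorem f_C0SUB : S_C0SUB := t_C0SUB

theorem f_GAIN : S_GAIN := t_GAIN

theorem f_DICH : S_DICH := t_DICH f_GAIN

theorem f_TZERO : S_TZERO := t_TZERO f_GAIN

theorem f_M1START : S_M1START := t_M1START

theorem f_MAIN0 : S_MAIN0 := t_MAIN0 f_C0SUB f_DICH f_TZERO f_M1START f_MAIN1

theorem f_FINAL : S_FINAL := t_FINAL f_MAIN0 f_RULES f_NRULES f_TWOB f_NULL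

end Pool.H433AJT
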