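import Pool.Agent.H433R2.AJT.SpecC

open scoped Classical

namespace Pool.H433AJT

section
variable {F V ι : Type} [Field F] [AddCommGroup V] [Module F V]

theorem le_jn (W : Submodule F V) (x : V) : W ≤ jn W x := le_sup_left

theorem mem_jn_self (W : Submodule F V) (x : V) : x ∈ jn W x :=
  (le_sup_right : Submodule.span F {x} ≤ jn W x) (Submodule.mem_span_singleton_self x)

theorem jn_le {W W' : Submodule F V} {x : V} (h : W ≤ W') (hx : x ∈ W') : jn W x ≤ W' :=
  sup_le h (by rw [Submodule.span_le]; simpa using hx)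

theorem mem_jn {W : Submodule F V} {x y : V} : y ∈ jn W x ↔ ∃ w ∈ W, ∃ c : F, y = w + c • x := by
  rw [Submodule.mem_sup]
  constructor
  · rintro ⟨w, hw, z, hz, rfl⟩
    obtain ⟨c, rfl⟩ := Submodule.mem_span_singleton.1 hz
    exact ⟨w, hw, c, rfl⟩
  · rintro ⟨w, hw, c, rfl⟩
    exact ⟨w, hw, c • x, Submodule.mem_span_singleton.2 ⟨c, rfl⟩, rfl⟩

theorem jn_eq_of_mem {W : Submodule F V} {x y : V} (hy : y ∉ W) (h : y ∈ jn W x) :
    jn W y = jn W x := by
  apply le_antisymm (jn_le (le_jn W x) h)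
  apply jn_le (le_jn W y)
  obtain ⟨w, hw, c, hc⟩ := mem_jn.1 h
  have hc0 : c ≠ 0 := by
    rintro rfl
    apply hy
    rw [hc]
    simpa using hw
  rw [mem_jn]
  refine ⟨-(c⁻¹ • w), W.neg_mem (W.smul_mem _ hw), c⁻¹, ?_⟩
  rw [hc, smul_add, smul_smul, inv_mul_cancel₀ hc0, one_smul]
  abel

/-- `y` is parallel to `x` modulo `W` -/
theorem jn_eq_iff {W : Submodule F V} {x y : V} (hy : y ∉ W) :
    jn W y = jn W x ↔ y ∈ jn W x :=
  ⟨fun h => h ▸ mem_jn_self W y, jn_eq_of_mem hy⟩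

/-- explicit form of parallelism -/
theorem jn_eq_iff' {W : Submodule F V} {x y : V} (hy : y ∉ W) :
    jn W y = jn W x ↔ ∃ w ∈ W, ∃ c : F, c ≠ 0 ∧ y = w + c • x := by
  rw [jn_eq_iff hy, mem_jn]
  constructor
  · rintro ⟨w, hw, c, rfl⟩
    refine ⟨w, hw, c, ?_, rfl⟩
    rintro rfl
    apply hy
    simpa using hw
  · rintro ⟨w, hw, c, _, rfl⟩
    exact ⟨w, hw, c, rfl⟩

theorem not_mem_of_jn_eq {W : Submodule F V} {x y : V} (hy : y ∉ W) (h : jn W y = jn W x) :
    x ∉ W := by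
  intro hx
  apply hy
  have : jn W x = W := le_antisymm (jn_le le_rfl hx) (le_jn W x)
  rw [← this, ← h]
  exact mem_jn_self W y

theorem jn_up {W W' : Submodule F V} {x y : V} (h : W ≤ W') (he : jn W x = jn W y) :
    jn W' x = jn W' y := by
  have h1 : jn W' x = W' ⊔ jn W x := by
    rw [jn, jn, ← sup_assoc, sup_eq_left.2 h]
  have h2 : jn W' y = W' ⊔ jn W y := by
    rw [jn, jn, ← sup_assoc, sup_eq_left.2 h]
  rw [h1, h2, he]

theorem mem_iff_of_jn_eq {W W' : Submodule F V} {x y : V} (h : W ≤ W') (he : jn W x = jn W y) :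
    x ∈ W' ↔ y ∈ W' := by
  constructor
  · intro hx
    exact (jn_le h hx) (he ▸ mem_jn_self W y)
  · intro hy
    exact (jn_le h hy) (he ▸ mem_jn_self W x)

theorem finrank_jn [FiniteDimensional F V] {W : Submodule F V} {x : V} (hx : x ∉ W) :
    Module.finrank F (jn W x : Submodule F V) = Module.finrank F W + 1 := by
  have h1 := Submodule.finrank_sup_add_finrank_inf_eq W (Submodule.span F {x})
  have h2 : W ⊓ Submodule.span F {x} = ⊥ := by
    rw [eq_bot_iff]
    rintro y ⟨hy1, hy2⟩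
    obtain ⟨c, rfl⟩ := Submodule.mem_span_singleton.1 hy2
    by_cases hc : c = 0
    · simp [hc]
    · exfalso
      apply hx
      have := W.smul_mem c⁻¹ hy1
      rwa [smul_smul, inv_mul_cancel₀ hc, one_smul] at this
  have hx0 : x ≠ 0 := by
    rintro rfl
    exact hx W.zero_mem
  rw [h2, finrank_bot, finrank_span_singleton hx0] at h1
  simpa using h1

/-! ### classes -/

theorem mem_cls {v : ι → V} {I : Finset ι} {W : Submodule F V} {i j : ι} :
    j ∈ cls v I W i ↔ j ∈ I ∧ v j ∉ W ∧ jn W (v j) = jn W (v i) := by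
  simp [cls]

theorem self_mem_cls {v : ι → V} {I : Finset ι} {W : Submodule F V} {i : ι} (hi : i ∈ I)
    (h : v i ∉ W) : i ∈ cls v I W i := mem_cls.2 ⟨hi, h, rfl⟩

theorem cls_eq {v : ι → V} {I : Finset ι} {W : Submodule F V} {i j : ι}
    (h : jn W (v j) = jn W (v i)) : cls v I W j = cls v I W i := by
  ext k
  rw [mem_cls, mem_cls, h]

theorem mem_cls_iff_mem {v : ι → V} {I : Finset ι} {W : Submodule F V} {i j : ι} :
    j ∈ cls v I W i ↔ j ∈ I ∧ v j ∉ W ∧ v j ∈ jn W (v i) := by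
  rw [mem_cls]
  constructor
  · rintro ⟨h1, h2, h3⟩
    exact ⟨h1, h2, (jn_eq_iff h2).1 h3⟩
  · rintro ⟨h1, h2, h3⟩
    exact ⟨h1, h2, (jn_eq_iff h2).2 h3⟩

theorem mem_dbl {v : ι → V} {I : Finset ι} {W : Submodule F V} {i : ι} :
    i ∈ dbl v I W ↔ i ∈ I ∧ v i ∉ W ∧ (cls v I W i).card = 2 := by
  simp [dbl]

/-! ### matchings -/

theorem Mat_even {v : ι → V} {W : Submodule F V} {D : Finset ι} {σ : ι → ι}
    (h : Mat v W D σ) : Even D.card := by
  have h1 : (∑ _i ∈ D, (1 : ZMod 2)) = 0 := by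
    refine Finset.sum_involution (fun i _ => σ i) (fun i _ => by decide) (fun i hi _ => ?_)
      (fun i hi => (h i hi).1) (fun i hi => (h i hi).2.1)
    exact (h i hi).2.2.1
  rw [Finset.sum_const, nsmul_eq_mul, mul_one] at h1
  rw [Nat.even_iff, ← Nat.dvd_iff_mod_eq_zero, ← ZMod.natCast_eq_zero_iff]
  exact h1

/-- restriction of a matching modulo `W` to the labels outside `W' ≥ W` -/
theorem Mat_up {v : ι → V} {W W' : Submodule F V} {D : Finset ι} {σ : ι → ι}
    (h : Mat v W D σ) (hW : W ≤ W') : Mat v W' (D.filter fun i => v i ∉ W') σ := by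
  intro i hi
  rw [Finset.mem_filter] at hi
  obtain ⟨h1, h2, h3, h4, h5⟩ := h i hi.1
  refine ⟨?_, h2, h3, hi.2, jn_up hW h5⟩
  rw [Finset.mem_filter]
  refine ⟨h1, fun h6 => hi.2 ?_⟩
  exact (mem_iff_of_jn_eq hW h5).1 h6

/-- the part of a matching modulo `W` inside `W' ≥ W` -/
theorem Mat_in {v : ι → V} {W W' : Submodule F V} {D : Finset ι} {σ : ι → ι}
    (h : Mat v W D σ) (hW : W ≤ W') : Mat v W (D.filter fun i => v i ∈ W') σ := by
  intro i hi
  rw [Finset.mem_filter] at hi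
  obtain ⟨h1, h2, h3, h4, h5⟩ := h i hi.1
  refine ⟨?_, h2, h3, h4, h5⟩
  rw [Finset.mem_filter]
  exact ⟨h1, (mem_iff_of_jn_eq hW h5).2 hi.2⟩

theorem Mat_mem_cls {v : ι → V} {I : Finset ι} {W : Submodule F V} {D : Finset ι} {σ : ι → ι}
    (h : Mat v W D σ) (hD : D ⊆ I) {i : ι} (hi : i ∈ D) :
    i ∈ cls v I W i ∧ σ i ∈ cls v I W i ∧ σ i ≠ i := by
  obtain ⟨h1, h2, h3, h4, h5⟩ := h i hi
  exact ⟨self_mem_cls (hD hi) h4, mem_cls.2 ⟨hD h1, not_mem_of_jn_eq h4 h5.symm, h5⟩, h3⟩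

theorem Mat_two_le {v : ι → V} {I : Finset ι} {W : Submodule F V} {D : Finset ι} {σ : ι → ι}
    (h : Mat v W D σ) (hD : D ⊆ I) {i : ι} (hi : i ∈ D) : 2 ≤ (cls v I W i).card := by
  obtain ⟨h1, h2, h3⟩ := Mat_mem_cls h hD hi
  exact Finset.one_lt_card.2 ⟨_, h1, _, h2, fun h => h3 h.symm⟩

/-- the labels of `I` in `jn W (v i)` but not in `W` are the class of `i` -/
theorem filter_jn_sdiff {v : ι → V} {I : Finset ι} {W : Submodule F V} {i : ι} :
    (I.filter fun j => v j ∈ jn W (v i) ∧ v j ∉ W) = cls v I W i := by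
  ext j
  rw [mem_cls_iff_mem, Finset.mem_filter]
  tauto

theorem nn_jn (v : ι → V) (I : Finset ι) (W : Submodule F V) (i : ι) :
    nn v I (jn W (v i)) = nn v I W + (cls v I W i).card := by
  unfold nn
  rw [← filter_jn_sdiff, ← Nat.cast_add, ← Finset.card_union_of_disjoint]
  · congr 2
    ext j
    simp only [Finset.mem_filter, Finset.mem_union]
    constructor
    · rintro ⟨h1, h2⟩
      by_cases h3 : v j ∈ W
      · exact Or.inl ⟨h1, h3⟩
      · exact Or.inr ⟨h1, h2, h3⟩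
    · rintro (⟨h1, h2⟩ | ⟨h1, h2, _⟩)
      · exact ⟨h1, le_jn W _ h2⟩
      · exact ⟨h1, h2⟩
  · rw [Finset.disjoint_left]
    intro j h1 h2
    simp only [Finset.mem_filter] at h1 h2
    exact h2.2.2 h1.2

/-- `F(W) ≡ b - 1` modulo `λ` -/
theorem FF_emod (lam : ℤ) (v : ι → V) (U : Submodule F V) (I : Finset ι) (b : ℤ)
    (W : Submodule F V) : FF lam v U I b W % lam = (b - 1) % lam := by
  unfold FF
  simp

/-- `F(U) = b - 1` if there is no label in `U` -/
theorem FF_self {lam : ℤ} {v : ι → V} {U : Submodule F V} {I : Finset ι} {b : ℤ}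
    (h : ∀ i ∈ I, v i ∉ U) : FF lam v U I b U = b - 1 := by
  unfold FF nn
  rw [Finset.filter_false_of_mem (fun i hi => h i hi)]
  simp

theorem nn_nonneg (v : ι → V) (I : Finset ι) (W : Submodule F V) : 0 ≤ nn v I W := by
  unfold nn
  positivity

end

end Pool.H433AJT
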