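import Mathlib

open MvPolynomial

namespace Pool.H433AJT

/-! ## Part A : algebra -/

abbrev Vec (p N : ℕ) : Type := Fin N → ZMod p

/-- the ideal `(X_i ^ p)` -/
noncomputable abbrev Idl (p N : ℕ) : Ideal (MvPolynomial (Fin N) (ZMod p)) :=
  Ideal.span (Set.range fun i : Fin N => (X i : MvPolynomial (Fin N) (ZMod p)) ^ p)

/-- truncated polynomial ring `F[X_1..X_N]/(X_i ^ p)` -/
def Rg (p N : ℕ) : Type := MvPolynomial (Fin N) (ZMod p) ⧸ Idl p N

noncomputable instance instRg (p N : ℕ) : CommRing (Rg p N) :=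
  inferInstanceAs (CommRing (MvPolynomial (Fin N) (ZMod p) ⧸ Idl p N))

/-- the quotient map -/
noncomputable def mkR (p N : ℕ) : MvPolynomial (Fin N) (ZMod p) →+* Rg p N :=
  Ideal.Quotient.mk (Idl p N)

theorem mkR_surj (p N : ℕ) : Function.Surjective (mkR p N) := Ideal.Quotient.mk_surjective

theorem mkR_eq_zero {p N : ℕ} (P : MvPolynomial (Fin N) (ZMod p)) :
    mkR p N P = 0 ↔ P ∈ Idl p N := Ideal.Quotient.eq_zero_iff_mem

/-- linear form of a vector, as a polynomial -/
noncomputable def linP {p N : ℕ} (v : Vec p N) : MvPolynomial (Fin N) (ZMod p) :=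
  ∑ i, C (v i) * X i

/-- linear form of a vector, in the truncated ring -/
noncomputable def lin {p N : ℕ} (v : Vec p N) : Rg p N := mkR p N (linP v)

theorem lin_pow {p N : ℕ} [hp : Fact p.Prime] (v : Vec p N) : (lin v) ^ p = 0 := by
  unfold lin linP
  rw [← map_pow, mkR_eq_zero, sum_pow_char]
  refine Ideal.sum_mem _ fun i _ => ?_
  rw [mul_pow]
  exact Ideal.mul_mem_left _ _ (Ideal.subset_span ⟨i, rfl⟩)

/-- homogeneous elements of degree `δ` of the truncated ring (only `0` for `δ < 0`) -/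
noncomputable def gr (p N : ℕ) (δ : ℤ) : AddSubgroup (Rg p N) where
  carrier := {f | ∃ P : MvPolynomial (Fin N) (ZMod p), mkR p N P = f ∧
      ∀ α, coeff α P ≠ 0 → ((α.degree : ℕ) : ℤ) = δ}
  zero_mem' := ⟨0, by simp, by simp⟩
  add_mem' := by
    rintro _ _ ⟨P, rfl, hP⟩ ⟨Q, rfl, hQ⟩
    refine ⟨P + Q, by simp, fun α hα => ?_⟩
    by_cases h : coeff α P = 0
    · exact hQ α (by intro h'; apply hα; simp [h, h'])
    · exact hP α h
  neg_mem' := by
    rintro _ ⟨P, rfl, hP⟩
    exact ⟨-P, by simp, fun α hα => hP α (by simpa using hα)⟩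

theorem lin_mul_gr {p N : ℕ} (v : Vec p N) (δ : ℤ) (f : Rg p N) (hf : f ∈ gr p N δ) :
    lin v * f ∈ gr p N (δ + 1) := by
  obtain ⟨P, rfl, hP⟩ := hf
  refine ⟨linP v * P, by simp [lin], fun α hα => ?_⟩
  rw [linP, Finset.sum_mul, coeff_sum] at hα
  obtain ⟨i, _, hi⟩ := Finset.exists_ne_zero_of_sum_ne_zero hα
  rw [mul_assoc, coeff_C_mul, coeff_X_mul'] at hi
  split_ifs at hi with h
  · have h2 := hP _ (right_ne_zero_of_mul hi)
    have h3 : α = (α - Finsupp.single i 1) + Finsupp.single i 1 := by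
      ext j
      simp only [Finsupp.add_apply, Finsupp.tsub_apply, Finsupp.single_apply]
      split_ifs with hj
      · subst hj
        have : α i ≠ 0 := by simpa using h
        omega
      · simp
    rw [h3, map_add]
    simp only [Finsupp.degree_single]
    push_cast
    rw [h2]
  · simp at hi

/-- `Mo U δ` : elements of degree `δ` of the annihilator of the linear forms in `U` -/
noncomputable def Mo {p N : ℕ} (U : Submodule (ZMod p) (Vec p N)) (δ : ℤ) :
    AddSubgroup (Rg p N) where
  carrier := {f | f ∈ gr p N δ ∧ ∀ u ∈ U, lin u * f = 0}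
  zero_mem' := ⟨zero_mem _, by simp⟩
  add_mem' := by
    rintro a b ⟨h1, h2⟩ ⟨h3, h4⟩
    exact ⟨add_mem h1 h3, fun u hu => by rw [mul_add, h2 u hu, h4 u hu, add_zero]⟩
  neg_mem' := by
    rintro a ⟨h1, h2⟩
    exact ⟨neg_mem h1, fun u hu => by rw [mul_neg, h2 u hu, neg_zero]⟩

/-- bigraded cochain complex of modules over the truncated ring: cohomological degree `j`,
internal degree `δ`; `G j δ` is the component, `d` has bidegree `(1,0)`. -/
structure BC (p N : ℕ) where
  C : Type
  [acg : AddCommGroup C]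
  [mdl : Module (Rg p N) C]
  G : ℕ → ℤ → AddSubgroup C
  d : C →ₗ[Rg p N] C
  dG : ∀ j δ c, c ∈ G j δ → d c ∈ G (j + 1) δ
  dd : ∀ c, d (d c) = 0
  lG : ∀ (v : Vec p N) j δ c, c ∈ G j δ → lin v • c ∈ G j (δ + 1)

attribute [instance] BC.acg BC.mdl

/-- the cohomology in bidegree `(j, δ)` vanishes -/
def BC.Van {p N : ℕ} (B : BC p N) (j : ℕ) (δ : ℤ) : Prop :=
  ∀ c ∈ B.G j δ, B.d c = 0 → if j = 0 then c = 0 else ∃ b ∈ B.G (j - 1) δ, B.d b = c

/-- the complex `Ann(U)` in cohomological degree `0` -/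
noncomputable def base {p N : ℕ} (U : Submodule (ZMod p) (Vec p N)) : BC p N where
  C := Rg p N
  G := fun j δ => if j = 0 then Mo U δ else ⊥
  d := 0
  dG := by intro j δ c _; simp
  dd := by intro c; simp
  lG := by
    intro v j δ c hc
    split_ifs at hc ⊢ with h
    · refine ⟨?_, fun u hu => ?_⟩
      · exact lin_mul_gr v δ c hc.1
      · rw [smul_eq_mul, mul_left_comm, hc.2 u hu, mul_zero]
    · rw [AddSubgroup.mem_bot] at hc ⊢
      rw [hc, smul_zero]

/-- exponent of `x` in the `a`-th arrow (`a ≥ 1`) of the periodic complex of a label with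
multiplicity `m`: `p - m` for odd `a`, `m` for even `a` -/
def ex (p m a : ℕ) : ℕ := if a % 2 = 1 then p - m else m

/-- internal shift in position `a` -/
def sh (p m a : ℕ) : ℕ := (a / 2) * (m + (p - m)) + (if a % 2 = 1 then p - m else 0)

theorem sh_succ (p m a : ℕ) : sh p m (a + 1) = sh p m a + ex p m (a + 1) := by
  unfold sh ex
  rcases Nat.even_or_odd' a with ⟨c, rfl | rfl⟩
  · have h1 : (2 * c + 1) % 2 = 1 := by omega
    have h2 : (2 * c) % 2 = 0 := by omega
    have h3 : (2 * c + 1) / 2 = c := by omega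
    have h4 : (2 * c) / 2 = c := by omega
    simp [h1, h3]
  · have h1 : (2 * c + 1 + 1) % 2 = 0 := by omega
    have h2 : (2 * c + 1) % 2 = 1 := by omega
    have h3 : (2 * c + 1 + 1) / 2 = c + 1 := by omega
    have h4 : (2 * c + 1) / 2 = c := by omega
    simp only [h1, h2, h3, h4]
    simp
    ring

theorem ex_add (p m a : ℕ) : p ≤ ex p m (a + 2) + ex p m (a + 1) := by
  unfold ex
  rcases Nat.even_or_odd' a with ⟨c, rfl | rfl⟩
  · have h1 : (2 * c + 2) % 2 = 0 := by omega
    have h2 : (2 * c + 1) % 2 = 1 := by omega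
    simp only [h1, h2]
    simp
    omega
  · have h1 : (2 * c + 1 + 2) % 2 = 1 := by omega
    have h2 : (2 * c + 1 + 1) % 2 = 0 := by omega
    simp only [h1, h2]
    simp
    omega

theorem lin_pow_smul_G {p N : ℕ} (B : BC p N) (v : Vec p N) (e : ℕ) (j : ℕ) (δ : ℤ) (c : B.C)
    (hc : c ∈ B.G j δ) : (lin v) ^ e • c ∈ B.G j (δ + e) := by
  induction e with
  | zero => simpa using hc
  | succ e ih =>
    rw [pow_succ', mul_smul]
    have := B.lG v j _ _ ih
    rwa [add_assoc] at this

/-- the periodic complex of a label `(v, m)` with coefficients in `B` :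
`B → B → B → B → ...` with maps `x^(p-m)`, `x^m`, `x^(p-m)`, ..., total complex. -/
noncomputable def per {p N : ℕ} [hp : Fact p.Prime] (B : BC p N) (l : Vec p N × ℕ) : BC p N where
  C := ℕ → B.C
  G := fun j δ =>
    { carrier := {c | (∀ a, a ≤ j → c a ∈ B.G (j - a) (δ + sh p l.2 a)) ∧ ∀ a, j < a → c a = 0}
      zero_mem' := ⟨fun a _ => zero_mem _, fun a _ => rfl⟩
      add_mem' := by
        rintro a b ⟨h1, h2⟩ ⟨h3, h4⟩
        exact ⟨fun i hi => add_mem (h1 i hi) (h3 i hi), fun i hi => by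
          simp [h2 i hi, h4 i hi]⟩
      neg_mem' := by
        rintro a ⟨h1, h2⟩
        exact ⟨fun i hi => neg_mem (h1 i hi), fun i hi => by simp [h2 i hi]⟩ }
  d :=
    { toFun := fun c a => (-1 : ℤ) ^ a • B.d (c a) +
        (if a = 0 then 0 else (lin l.1) ^ (ex p l.2 a) • c (a - 1))
      map_add' := by
        intro c c'
        funext a
        simp only [Pi.add_apply, map_add, smul_add]
        split_ifs <;> abel
      map_smul' := by
        intro r c
        funext a
        simp only [Pi.smul_apply, map_smul, RingHom.id_apply, smul_add]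
        congr 1
        · rw [smul_comm]
        · split_ifs
          · simp
          · rw [smul_comm] }
  dG := by
    rintro j δ c ⟨h1, h2⟩
    refine ⟨fun a ha => ?_, fun a ha => ?_⟩
    · apply add_mem
      · apply zsmul_mem
        by_cases haj : a ≤ j
        · have := B.dG _ _ _ (h1 a haj)
          rwa [show j - a + 1 = j + 1 - a by omega] at this
        · rw [h2 a (by omega), map_zero]
          exact zero_mem _
      · split_ifs with h0
        · exact zero_mem _
        · obtain ⟨a, rfl⟩ := Nat.exists_eq_succ_of_ne_zero h0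
          have := lin_pow_smul_G B l.1 (ex p l.2 (a + 1)) _ _ _ (h1 a (by omega))
          rw [Nat.succ_eq_add_one, show j + 1 - (a + 1) = j - a by omega, sh_succ]
          push_cast
          rw [← add_assoc]
          exact this
    · show (-1 : ℤ) ^ a • B.d (c a) + _ = 0
      rw [h2 a (by omega), map_zero, smul_zero, zero_add]
      split_ifs with h0
      · rfl
      · rw [h2 (a - 1) (by omega), smul_zero]
  dd := by
    intro c
    funext a
    show (-1 : ℤ) ^ a • B.d ((-1 : ℤ) ^ a • B.d (c a) +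
        (if a = 0 then 0 else (lin l.1) ^ (ex p l.2 a) • c (a - 1))) +
        (if a = 0 then 0 else (lin l.1) ^ (ex p l.2 a) • ((-1 : ℤ) ^ (a - 1) • B.d (c (a - 1)) +
        (if a - 1 = 0 then 0 else (lin l.1) ^ (ex p l.2 (a - 1)) • c (a - 1 - 1)))) = 0
    rw [map_add, map_zsmul, B.dd, smul_zero, zero_add]
    split_ifs with h0 h1
    · simp
    · obtain ⟨a, rfl⟩ := Nat.exists_eq_succ_of_ne_zero h0
      simp only [Nat.succ_eq_add_one, add_tsub_cancel_right] at h1 ⊢
      subst h1
      simp only [map_smul, zero_add, add_zero, pow_one, pow_zero, one_smul]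
      simp
    · obtain ⟨a, rfl⟩ := Nat.exists_eq_succ_of_ne_zero h0
      simp only [Nat.succ_eq_add_one, add_tsub_cancel_right] at h1 ⊢
      obtain ⟨a, rfl⟩ := Nat.exists_eq_succ_of_ne_zero h1
      simp only [Nat.succ_eq_add_one, add_tsub_cancel_right, smul_add, map_smul]
      rw [← mul_smul, ← pow_add]
      have h3 : (lin l.1) ^ (ex p l.2 (a + 1 + 1) + ex p l.2 (a + 1)) = 0 := by
        obtain ⟨k, hk⟩ := Nat.exists_eq_add_of_le (ex_add p l.2 a)
        rw [show a + 1 + 1 = a + 2 by ring, hk, pow_add, lin_pow, zero_mul]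
      rw [h3, zero_smul, add_zero, smul_comm ((lin l.1) ^ ex p l.2 (a + 1 + 1)) ((-1 : ℤ) ^ (a + 1)),
        ← add_smul, pow_succ (-1 : ℤ) (a + 1)]
      simp
  lG := by
    rintro v j δ c ⟨h1, h2⟩
    refine ⟨fun a ha => ?_, fun a ha => ?_⟩
    · have := B.lG v _ _ _ (h1 a ha)
      rw [show δ + 1 + (sh p l.2 a : ℤ) = δ + (sh p l.2 a : ℤ) + 1 by ring]
      exact this
    · show lin v • c a = 0
      rw [h2 a ha, smul_zero]

/-- the complex of the state `(U, l)` -/
noncomputable def cplx {p N : ℕ} [hp : Fact p.Prime] (U : Submodule (ZMod p) (Vec p N))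
    (l : List (Vec p N × ℕ)) : BC p N :=
  l.foldr (fun a B => per B a) (base U)

end Pool.H433AJT
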