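import Pool.Agent.H433R2.AJT.Spec

open MvPolynomial

namespace Pool.H433AJT

/-! ## statements of part A (algebra) -/

/-- COORD: change of coordinates -/
def S_COORD : Prop :=
  ∀ (p N : ℕ) [Fact p.Prime] (g : Vec p N ≃ₗ[ZMod p] Vec p N),
    ∃ Φ : Rg p N ≃+* Rg p N, (∀ v, Φ (lin v) = lin (g v)) ∧ ∀ δ f, f ∈ gr p N δ ↔ Φ f ∈ gr p N δ

/-- ADAPT: coordinates adapted to a subspace and a vector outside it -/
def S_ADAPT : Prop :=
  ∀ (p N : ℕ) [Fact p.Prime] (U : Submodule (ZMod p) (Vec p N)),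
    (∃ (g : Vec p N ≃ₗ[ZMod p] Vec p N) (T : Finset (Fin N)),
      T.card = Module.finrank (ZMod p) U ∧
      U = Submodule.span (ZMod p) ((fun i => g (Pi.single i 1)) '' (T : Set (Fin N)))) ∧
    (∀ v, v ∉ U → ∃ (g : Vec p N ≃ₗ[ZMod p] Vec p N) (T : Finset (Fin N)) (i0 : Fin N), i0 ∉ T ∧
      T.card = Module.finrank (ZMod p) U ∧ g (Pi.single i0 1) = v ∧
      U = Submodule.span (ZMod p) ((fun i => g (Pi.single i 1)) '' (T : Set (Fin N)))) ∧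
    (∀ W, U ≤ W → ∃ (g : Vec p N ≃ₗ[ZMod p] Vec p N) (T T' : Finset (Fin N)), T ⊆ T' ∧
      T.card = Module.finrank (ZMod p) U ∧ T'.card = Module.finrank (ZMod p) W ∧
      U = Submodule.span (ZMod p) ((fun i => g (Pi.single i 1)) '' (T : Set (Fin N))) ∧
      W = Submodule.span (ZMod p) ((fun i => g (Pi.single i 1)) '' (T' : Set (Fin N))))

/-- MONOFR: freeness in coordinates -/
def S_MONOFR : Prop :=
  ∀ (p N : ℕ) [Fact p.Prime] (T : Finset (Fin N)) (i0 : Fin N), i0 ∉ T →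
    ∀ (a : ℕ), a ≤ p → ∀ (δ : ℤ) (f : Rg p N), f ∈ gr p N δ →
      (∀ i ∈ T, lin (Pi.single i 1) * f = 0) → lin (Pi.single i0 1) ^ a * f = 0 →
      ∃ g ∈ gr p N (δ - (p - a)), (∀ i ∈ T, lin (Pi.single i 1) * g = 0) ∧
        f = lin (Pi.single i0 1) ^ (p - a) * g

/-- MONOLOW: lower degree bound in coordinates -/
def S_MONOLOW : Prop :=
  ∀ (p N : ℕ) [Fact p.Prime] (T : Finset (Fin N)) (δ : ℤ) (f : Rg p N), f ∈ gr p N δ →
    (∀ i ∈ T, lin (Pi.single i 1) * f = 0) → δ < ((p : ℤ) - 1) * T.card → f = 0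

/-- MONOOM: the socle-type element is non-zero -/
def S_MONOOM : Prop :=
  ∀ (p N : ℕ) [Fact p.Prime] (T : Finset (Fin N)),
    (∏ i ∈ T, lin (Pi.single i (1 : ZMod p)) ^ (p - 1) : Rg p N) ≠ 0

/-- MONOSPL: Frobenius property in coordinates. `q` is a polynomial in the variables of `T'`,
homogeneous. -/
def S_MONOSPL : Prop :=
  ∀ (p N : ℕ) [Fact p.Prime] (T T' : Finset (Fin N)), T ⊆ T' →
    ∀ (P : MvPolynomial (Fin N) (ZMod p)) (n : ℕ), P.IsHomogeneous n →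
      (∀ α, coeff α P ≠ 0 → ∀ i, i ∉ T' → α i = 0) →
      (∃ f : Rg p N, (∀ i ∈ T, lin (Pi.single i 1) * f = 0) ∧ mkR p N P * f ≠ 0) →
      ∀ g : Rg p N, (∀ i ∈ T', lin (Pi.single i 1) * g = 0) →
        ∃ f' : Rg p N, (∀ i ∈ T, lin (Pi.single i 1) * f' = 0) ∧ mkR p N P * f' = g

/-- LINADD: `lin` is additive and compatible with scalars -/
def S_LINADD : Prop :=
  ∀ (p N : ℕ) [Fact p.Prime],
    (∀ v w : Vec p N, lin (v + w) = lin v + lin w) ∧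
    (∀ (c : ZMod p) (v : Vec p N), lin (c • v) = mkR p N (C c) * lin v) ∧
    (∀ (c : ZMod p) (δ : ℤ) (f : Rg p N), f ∈ gr p N δ → mkR p N (C c) * f ∈ gr p N δ) ∧
    (∀ i : Fin N, lin (Pi.single i (1 : ZMod p)) = mkR p N (X i))

/-- FR: freeness -/
def S_FR : Prop :=
  ∀ (p N : ℕ) [Fact p.Prime] (U : Submodule (ZMod p) (Vec p N)) (v : Vec p N), v ∉ U →
    ∀ a : ℕ, a ≤ p → ∀ (δ : ℤ) (f : Rg p N), f ∈ Mo U δ → lin v ^ a * f = 0 →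
      ∃ g ∈ Mo U (δ - (p - a)), f = lin v ^ (p - a) * g

/-- LOW: lower degree bound -/
def S_LOW : Prop :=
  ∀ (p N : ℕ) [Fact p.Prime] (U : Submodule (ZMod p) (Vec p N)) (δ : ℤ) (f : Rg p N),
    f ∈ Mo U δ → δ < ((p : ℤ) - 1) * Module.finrank (ZMod p) U → f = 0

/-- OM: the annihilator of `U` is non-zero in degree `(p-1) dim U`, and every element of the
annihilator is a multiple of the generator -/
def S_OM : Prop :=
  ∀ (p N : ℕ) [Fact p.Prime] (U : Submodule (ZMod p) (Vec p N)),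
    ∃ w ∈ Mo U (((p : ℤ) - 1) * Module.finrank (ZMod p) U), w ≠ 0 ∧
      ∀ f : Rg p N, (∀ u ∈ U, lin u * f = 0) → ∃ g, f = g * w

/-- SPL: Frobenius property -/
def S_SPL : Prop :=
  ∀ (p N : ℕ) [Fact p.Prime] (U W : Submodule (ZMod p) (Vec p N)), U ≤ W →
    ∀ (ι : Type) (s : Finset ι) (w : ι → Vec p N), (∀ i ∈ s, w i ∈ W) →
      (∃ f : Rg p N, (∀ u ∈ U, lin u * f = 0) ∧ (∏ i ∈ s, lin (w i)) * f ≠ 0) →
      ∀ g : Rg p N, (∀ u ∈ W, lin u * g = 0) →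
        ∃ f' : Rg p N, (∀ u ∈ U, lin u * f' = 0) ∧ (∏ i ∈ s, lin (w i)) * f' = g

section BCdefs
variable {p N : ℕ}

/-- `x` acts freely on `B` -/
def BC.Free (B : BC p N) (v : Vec p N) : Prop :=
  ∀ a ≤ p, ∀ (j : ℕ) (δ : ℤ) (c : B.C), c ∈ B.G j δ → lin v ^ a • c = 0 →
    ∃ c' ∈ B.G j (δ - (p - a)), c = lin v ^ (p - a) • c'

/-- vanishing for the subcomplex `x^m B` -/
def BC.VanIm (B : BC p N) (v : Vec p N) (m : ℕ) (j : ℕ) (δ : ℤ) : Prop :=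
  ∀ c ∈ B.G j (δ - m), B.d (lin v ^ m • c) = 0 →
    if j = 0 then lin v ^ m • c = 0
    else ∃ b ∈ B.G (j - 1) (δ - m), B.d (lin v ^ m • b) = lin v ^ m • c

/-- vanishing for the subcomplex `ker x` -/
def BC.VanKer (B : BC p N) (v : Vec p N) (j : ℕ) (δ : ℤ) : Prop :=
  ∀ c ∈ B.G j δ, lin v • c = 0 → B.d c = 0 →
    if j = 0 then c = 0 else ∃ b ∈ B.G (j - 1) δ, lin v • b = 0 ∧ B.d b = c

/-- `B'` is the kernel of `x` on `B` -/
def KerRel (B' B : BC p N) (v : Vec p N) : Prop :=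
  ∃ e : B'.C ≃ₗ[Rg p N] B.C, (∀ c, e (B'.d c) = B.d (e c)) ∧
    ∀ j δ c, c ∈ B'.G j δ ↔ (e c ∈ B.G j δ ∧ lin v • e c = 0)

/-- isomorphic complexes -/
def IsoRel (B' B : BC p N) : Prop :=
  ∃ e : B'.C ≃ₗ[Rg p N] B.C, (∀ c, e (B'.d c) = B.d (e c)) ∧
    ∀ j δ c, c ∈ B'.G j δ ↔ e c ∈ B.G j δ

end BCdefs

/-- RED: a free label can be resolved -/
def S_RED : Prop :=
  ∀ (p N : ℕ) [Fact p.Prime] (B : BC p N) (v : Vec p N) (m : ℕ), m ≤ p → B.Free v →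
    ∀ j δ, B.VanIm v m j δ ↔ (per B (v, m)).Van j δ

/-- ST1 -/
def S_ST1 : Prop :=
  ∀ (p N : ℕ) [Fact p.Prime] (B : BC p N) (v : Vec p N), B.Free v → ∀ (j : ℕ) (δ : ℤ),
    B.Van j δ → (∀ j', j = j' + 1 → B.VanKer v j' (δ + (p - 1))) → B.VanIm v 1 j δ

/-- SU -/
def S_SU : Prop :=
  ∀ (p N : ℕ) [Fact p.Prime] (B : BC p N) (v : Vec p N), B.Free v →
    ∀ (m : ℕ), m + 1 ≤ p → ∀ (j : ℕ) (δ : ℤ),
      B.VanIm v m j (δ - 1) → B.VanKer v (j + 1) (δ - 1) → B.VanIm v (m + 1) j δ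

/-- LIFT: freeness passes to `cplx` -/
def S_LIFT : Prop :=
  ∀ (p N : ℕ) [Fact p.Prime] (U : Submodule (ZMod p) (Vec p N)) (v : Vec p N), v ∉ U →
    ∀ l, (cplx U l).Free v

/-- KER: kernel of `x` on `cplx U l` is `cplx (U + x) l` -/
def S_KER : Prop :=
  ∀ (p N : ℕ) [Fact p.Prime] (U : Submodule (ZMod p) (Vec p N)) (v : Vec p N) (l),
    KerRel (cplx (U ⊔ Submodule.span (ZMod p) {v}) l) (cplx U l) v

/-- KERV -/
def S_KERV : Prop :=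
  ∀ (p N : ℕ) [Fact p.Prime] (B' B : BC p N) (v : Vec p N), KerRel B' B v →
    ∀ j δ, B.VanKer v j δ ↔ B'.Van j δ

/-- SWAP -/
def S_SWAP : Prop :=
  ∀ (p N : ℕ) [Fact p.Prime] (B : BC p N) (a b : Vec p N × ℕ),
    IsoRel (per (per B a) b) (per (per B b) a)

/-- PERM -/
def S_PERM : Prop :=
  ∀ (p N : ℕ) [Fact p.Prime] (U : Submodule (ZMod p) (Vec p N)) (l l' : List (Vec p N × ℕ)),
    l.Perm l' → ∀ j δ, (cplx U l).Van j δ → (cplx U l').Van j δ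

/-- ZERO: elements of `U` act as zero -/
def S_ZERO : Prop :=
  ∀ (p N : ℕ) [Fact p.Prime] (U : Submodule (ZMod p) (Vec p N)) (v : Vec p N), v ∈ U →
    ∀ l j δ, ∀ c ∈ (cplx U l).G j δ, lin v • c = 0

/-- LOOPB -/
def S_LOOPB : Prop :=
  ∀ (p N : ℕ) [Fact p.Prime] (B : BC p N) (v : Vec p N) (m : ℕ), 1 ≤ m → m < p →
    (∀ j δ, ∀ c ∈ B.G j δ, lin v • c = 0) → ∀ (j : ℕ) (δ : ℤ),
      (∀ a ≤ j, B.Van (j - a) (δ + sh p m a)) → (per B (v, m)).Van j δ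

/-- HZ: elements of `H^0` -/
def S_HZ : Prop :=
  ∀ (p N : ℕ) [Fact p.Prime] (U : Submodule (ZMod p) (Vec p N)) (l : List (Vec p N × ℕ)) (δ : ℤ),
    (cplx U l).Van 0 δ → ∀ g ∈ Mo U δ, (∀ a ∈ l, lin a.1 ^ (p - a.2) * g = 0) → g = 0

/-- the vanishing predicate of a state with budget `b` -/
def ZZ {p N : ℕ} [Fact p.Prime] (lam : ℤ) (U : Submodule (ZMod p) (Vec p N))
    (l : List (Vec p N × ℕ)) (b : ℤ) : Prop :=
  ∀ (j : ℕ) (δ : ℤ), δ ≤ ((p : ℤ) - 1) * Module.finrank (ZMod p) U +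
      ((l.map fun a => (a.2 : ℤ)).sum) - b - (lam + 3) * j → (cplx U l).Van j δ

/-- rules for the list version of `ZZ`, `p = 2 λ + 3` -/
def S_ZRULES : Prop :=
  ∀ (p N : ℕ) [Fact p.Prime] (lam : ℤ), (p : ℤ) = 2 * lam + 3 → 1 ≤ lam →
    -- permutation
    (∀ (U : Submodule (ZMod p) (Vec p N)) (l l' : List (Vec p N × ℕ)) (b : ℤ), l.Perm l' →
      ZZ lam U l b → ZZ lam U l' b) ∧
    -- empty
    (∀ (U : Submodule (ZMod p) (Vec p N)) (b : ℤ), 1 ≤ b → ZZ lam U [] b) ∧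
    -- T1
    (∀ (U : Submodule (ZMod p) (Vec p N)) (v : Vec p N) (l) (b : ℤ), v ∉ U → ZZ lam U l (b - 1) →
      ZZ lam (U ⊔ Submodule.span (ZMod p) {v}) l (b + lam + 2) → ZZ lam U ((v, 1) :: l) b) ∧
    -- T2
    (∀ (U : Submodule (ZMod p) (Vec p N)) (v : Vec p N) (l) (b : ℤ), v ∉ U → ZZ lam U l b →
      ZZ lam (U ⊔ Submodule.span (ZMod p) {v}) l (b + lam - 1) → ZZ lam U ((v, 1) :: l) b) ∧
    -- U2
    (∀ (U : Submodule (ZMod p) (Vec p N)) (v : Vec p N) (m : ℕ) (l) (b : ℤ), v ∉ U → 1 ≤ m →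
      m + 1 < p → ZZ lam U ((v, m) :: l) b →
      ZZ lam (U ⊔ Submodule.span (ZMod p) {v}) l (b + lam - (m + 1)) →
      ZZ lam U ((v, m + 1) :: l) b) ∧
    -- loops
    (∀ (U : Submodule (ZMod p) (Vec p N)) (v : Vec p N) (m : ℕ) (l) (b : ℤ), v ∈ U → 1 ≤ m →
      (m : ℤ) ≤ lam → ZZ lam U l (b - lam) → ZZ lam U ((v, m) :: l) b)

end Pool.H433AJT
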