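import Pool.Agent.H433R2.AJT.SpecA

open scoped Classical

namespace Pool.H433AJT

/-! ## Part B : combinatorics of labels in a vector space -/

section defs
variable {F V ι : Type} [Field F] [AddCommGroup V] [Module F V]

/-- the subspace `W + ⟨x⟩` -/
abbrev jn (W : Submodule F V) (x : V) : Submodule F V := W ⊔ Submodule.span F {x}

/-- number of labels in `W` -/
noncomputable def nn (v : ι → V) (I : Finset ι) (W : Submodule F V) : ℤ :=
  ((I.filter fun i => v i ∈ W).card : ℤ)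

/-- `F(W) = b - 1 + λ (2 (dim W - dim U) - n(W))` -/
noncomputable def FF (lam : ℤ) (v : ι → V) (U : Submodule F V) (I : Finset ι) (b : ℤ)
    (W : Submodule F V) : ℤ :=
  b - 1 + lam * (2 * ((Module.finrank F W : ℤ) - Module.finrank F U) - nn v I W)

/-- class of `i` modulo `W` (labels outside `W` spanning the same line modulo `W`) -/
noncomputable def cls (v : ι → V) (I : Finset ι) (W : Submodule F V) (i : ι) : Finset ι :=
  I.filter fun j => v j ∉ W ∧ jn W (v j) = jn W (v i)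

/-- the labels which lie in a class of size exactly 2 modulo `W` -/
noncomputable def dbl (v : ι → V) (I : Finset ι) (W : Submodule F V) : Finset ι :=
  I.filter fun i => v i ∉ W ∧ (cls v I W i).card = 2

/-- `D` is perfectly matched by `σ` into pairs of labels parallel modulo `W` -/
def Mat (v : ι → V) (W : Submodule F V) (D : Finset ι) (σ : ι → ι) : Prop :=
  ∀ i ∈ D, σ i ∈ D ∧ σ (σ i) = i ∧ σ i ≠ i ∧ v i ∉ W ∧ jn W (v (σ i)) = jn W (v i)

/-- main invariant: `F(W) ≥ 2 μ(W)` -/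
def Inv (lam : ℤ) (v : ι → V) (U : Submodule F V) (I : Finset ι) (b : ℤ) : Prop :=
  (∀ i ∈ I, v i ∉ U) ∧ ∀ W, U ≤ W → ((dbl v I W).card : ℤ) ≤ FF lam v U I b W

def Tight (lam : ℤ) (v : ι → V) (U : Submodule F V) (I : Finset ι) (b : ℤ)
    (W : Submodule F V) : Prop :=
  U ≤ W ∧ FF lam v U I b W = ((dbl v I W).card : ℤ)

def Safe (lam : ℤ) (v : ι → V) (U : Submodule F V) (I : Finset ι) (b : ℤ) (i : ι) : Prop :=
  i ∈ I ∧ ∀ W, Tight lam v U I b W → v i ∉ W → i ∈ dbl v I W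

/-- full invariant of stage 2 -/
def InvC (lam : ℤ) (v : ι → V) (U : Submodule F V) (I : Finset ι) (b : ℤ) : Prop :=
  Inv lam v U I b ∧
  ((b - 1) % lam = 0 → ∀ W, U ≤ W → lam ≤ FF lam v U I b W) ∧
  ((b - 1) % lam = 1 → lam + 1 ≤ b - 1) ∧
  ((b - 1) % lam = 2 → (lam + 2 ≤ b - 1 ∨ dbl v I U = ∅))

/-- weight of a label of multiplicity `m` -/
def wt (lam : ℤ) (m : ℕ) : ℤ :=
  if m = 0 then 0 else if m = 1 then lam else min (lam + m) (2 * lam)

/-- `F` of a state with multiplicities -/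
noncomputable def F1 (lam : ℤ) (v : ι → V) (U : Submodule F V) (I : Finset ι) (m : ι → ℕ) (b : ℤ)
    (W : Submodule F V) : ℤ :=
  b - 1 + 2 * lam * ((Module.finrank F W : ℤ) - Module.finrank F U)
    - ∑ i ∈ I.filter (fun i => v i ∈ W), wt lam (m i)

/-- invariant of stage 1 -/
def M1 (lam : ℤ) (v : ι → V) (U : Submodule F V) (I : Finset ι) (m : ι → ℕ) (b : ℤ) : Prop :=
  (∀ i ∈ I, v i ∉ U) ∧ (∀ i ∈ I, 1 ≤ m i ∧ (m i : ℤ) ≤ lam) ∧
  ∀ W, U ≤ W → ∀ (D : Finset ι) (σ : ι → ι), D ⊆ I → Mat v W D σ → (∀ i ∈ D, m i = 1) →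
    lam + 1 + (D.card : ℤ) ≤ F1 lam v U I m b W

/-- slack of a (merged) state of stage 0 -/
noncomputable def slack (lam : ℤ) (v : ι → V) (U : Submodule F V) (I : Finset ι)
    (W : Submodule F V) : ℤ :=
  2 * lam * ((Module.finrank F W : ℤ) - Module.finrank F U)
    - ∑ L ∈ (I.filter (fun i => v i ∈ W)).image (fun i => jn U (v i)),
        wt lam ((I.filter fun j => jn U (v j) = L).card)

/-- the class of stage 0 -/
def C0 (lam : ℤ) (v : ι → V) (U : Submodule F V) (I : Finset ι) : Prop :=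
  (∀ i ∈ I, v i ∉ U) ∧ (∀ W, U ≤ W → 0 ≤ slack lam v U I W) ∧
  ∀ i ∈ I, ((cls v I U i).card : ℤ) ≤ 2 * lam + 2

/-- rules for the vanishing predicate of states -/
structure Rules (lam : ℤ) (v : ι → V)
    (Z : Submodule F V → Finset ι → (ι → ℕ) → ℤ → Prop) : Prop where
  empty : ∀ U m b, 1 ≤ b → Z U ∅ m b
  T1 : ∀ U I m b i, i ∉ I → v i ∉ U → m i = 1 → Z U I m (b - 1) →
    Z (jn U (v i)) I m (b + lam + 2) → Z U (insert i I) m b
  T2 : ∀ U I m b i, i ∉ I → v i ∉ U → m i = 1 → Z U I m b →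
    Z (jn U (v i)) I m (b + lam - 1) → Z U (insert i I) m b
  U2 : ∀ U I m b i, i ∉ I → v i ∉ U → 2 ≤ m i → (m i : ℤ) ≤ lam →
    Z U (insert i I) (Function.update m i (m i - 1)) b →
    Z (jn U (v i)) I m (b + lam - m i) → Z U (insert i I) m b
  loop : ∀ U I m b i, i ∉ I → v i ∈ U → 1 ≤ m i → (m i : ℤ) ≤ lam → Z U I m (b - lam) →
    Z U (insert i I) m b

/-- rules for the non-vanishing predicate -/
structure NRules (lam : ℤ) (v : ι → V) (N : Submodule F V → Finset ι → Prop)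
    (Z : Submodule F V → Finset ι → (ι → ℕ) → ℤ → Prop) : Prop where
  split : ∀ U W I, U ≤ W → N U (I.filter fun i => v i ∈ W) → N W (I.filter fun i => v i ∉ W) →
    N U I
  base : ∀ (U : Submodule F V) (I : Finset ι), (∀ i ∈ I, v i ∉ U) →
    (∀ i ∈ I, ∀ j ∈ I, jn U (v i) = jn U (v j)) → (I.card : ℤ) ≤ 2 * lam + 2 → N U I
  step : ∀ (U : Submodule F V) (I R : Finset ι) (i0 : ι) (m : ι → ℕ), (∀ i ∈ I, v i ∉ U) →
    i0 ∈ I → R ⊆ I → (∀ r ∈ R, jn U (v r) ≠ jn U (v i0)) →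
    (∀ i ∈ I, jn U (v i) ≠ jn U (v i0) → ∃! r, r ∈ R ∧ jn U (v r) = jn U (v i)) →
    (∀ r ∈ R, m r = (cls v I U r).card) → (∀ i ∈ I, ((cls v I U i).card : ℤ) ≤ lam) →
    N U (I.erase i0) → Z (jn U (v i0)) R m (2 * lam + 3 - (cls v I U i0).card) → N U I

end defs

/-! ### statements of part B -/

/-- COV -/
def S_COV : Prop :=
  ∀ (F V ι : Type) [Field F] [AddCommGroup V] [Module F V] [FiniteDimensional F V]
    (lam : ℤ) (v : ι → V) (U : Submodule F V) (I : Finset ι) (b : ℤ) (W : Submodule F V) (i : ι),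
    v i ∉ W → FF lam v U I b (jn W (v i)) = FF lam v U I b W + lam * (2 - (cls v I W i).card)

/-- SUBM -/
def S_SUBM : Prop :=
  ∀ (F V ι : Type) [Field F] [AddCommGroup V] [Module F V] [FiniteDimensional F V]
    (lam : ℤ) (v : ι → V) (U : Submodule F V) (I : Finset ι) (b : ℤ) (W W' : Submodule F V),
    FF lam v U I b W + FF lam v U I b W' = FF lam v U I b (W ⊓ W') + FF lam v U I b (W ⊔ W') +
      lam * ((I.filter fun i => v i ∈ W ⊔ W' ∧ v i ∉ W ∧ v i ∉ W').card : ℤ)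

/-- PART: partner function of the exact pairs -/
def S_PART : Prop :=
  ∀ (F V ι : Type) [Field F] [AddCommGroup V] [Module F V] [FiniteDimensional F V]
    (v : ι → V) (I : Finset ι) (W : Submodule F V), ∃ σ : ι → ι, Mat v W (dbl v I W) σ

/-- A2: two matchings -/
def S_A2 : Prop :=
  ∀ (F V ι : Type) [Field F] [AddCommGroup V] [Module F V] [FiniteDimensional F V]
    (lam : ℤ) (v : ι → V) (U : Submodule F V) (I : Finset ι) (b : ℤ), 4 ≤ lam →
    Inv lam v U I b → ∀ (W : Submodule F V) (D₁ D₂ : Finset ι) (σ₁ σ₂ : ι → ι), U ≤ W →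
    D₁ ⊆ I → D₂ ⊆ I → Mat v W D₁ σ₁ → Mat v W D₂ σ₂ →
    (D₁.card : ℤ) + D₂.card ≤ FF lam v U I b W +
      (((D₁ ∩ D₂).filter fun i => σ₁ i = σ₂ i).card : ℤ)

/-- A1: one matching -/
def S_A1 : Prop :=
  ∀ (F V ι : Type) [Field F] [AddCommGroup V] [Module F V] [FiniteDimensional F V]
    (lam : ℤ) (v : ι → V) (U : Submodule F V) (I : Finset ι) (b : ℤ), 4 ≤ lam →
    Inv lam v U I b → ∀ (W : Submodule F V) (D : Finset ι) (σ : ι → ι), U ≤ W →
    D ⊆ I → Mat v W D σ → (D.card : ℤ) ≤ FF lam v U I b W ∧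
      ((∃ i ∈ I, v i ∉ W ∧ 3 ≤ (cls v I W i).card) → (D.card : ℤ) + 1 ≤ FF lam v U I b W)

/-- A3: if there is a class of size at least 3 then there is a lot of room -/
def S_A3 : Prop :=
  ∀ (F V ι : Type) [Field F] [AddCommGroup V] [Module F V] [FiniteDimensional F V]
    (lam : ℤ) (v : ι → V) (U : Submodule F V) (I : Finset ι) (b : ℤ), 4 ≤ lam →
    Inv lam v U I b → ∀ (W : Submodule F V), U ≤ W →
    (∃ i ∈ I, v i ∉ W ∧ 3 ≤ (cls v I W i).card) →
    ((dbl v I W).card : ℤ) + lam ≤ FF lam v U I b W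

/-- TRI: the counting lemma behind uncrossing -/
def S_TRI : Prop :=
  ∀ (F V ι : Type) [Field F] [AddCommGroup V] [Module F V] [FiniteDimensional F V]
    (v : ι → V) (I : Finset ι) (W W' : Submodule F V),
    ∃ (DY D₁ D₂ : Finset ι) (σY σ₁ σ₂ : ι → ι), DY ⊆ I ∧ D₁ ⊆ I ∧ D₂ ⊆ I ∧
      Mat v (W ⊓ W') DY σY ∧ Mat v (W ⊔ W') D₁ σ₁ ∧ Mat v (W ⊔ W') D₂ σ₂ ∧
      ((dbl v I W).card : ℤ) + (dbl v I W').card + (((D₁ ∩ D₂).filter fun i => σ₁ i = σ₂ i).card : ℤ)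
        ≤ DY.card + D₁.card + D₂.card +
          4 * ((I.filter fun i => v i ∈ W ⊔ W' ∧ v i ∉ W ∧ v i ∉ W').card : ℤ)

/-- TY -/
def S_TY : Prop :=
  ∀ (F V ι : Type) [Field F] [AddCommGroup V] [Module F V] [FiniteDimensional F V]
    (lam : ℤ) (v : ι → V) (U : Submodule F V) (I : Finset ι) (b : ℤ), 4 ≤ lam →
    Inv lam v U I b → ∀ (W : Submodule F V) (D : Finset ι) (σ : ι → ι), U ≤ W → D ⊆ I →
    Mat v W D σ → FF lam v U I b W ≤ D.card → Tight lam v U I b W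

/-- TZ -/
def S_TZ : Prop :=
  ∀ (F V ι : Type) [Field F] [AddCommGroup V] [Module F V] [FiniteDimensional F V]
    (lam : ℤ) (v : ι → V) (U : Submodule F V) (I : Finset ι) (b : ℤ), 4 ≤ lam →
    Inv lam v U I b → ∀ (W : Submodule F V) (D₁ D₂ : Finset ι) (σ₁ σ₂ : ι → ι), U ≤ W →
    D₁ ⊆ I → D₂ ⊆ I → Mat v W D₁ σ₁ → Mat v W D₂ σ₂ →
    FF lam v U I b W + (((D₁ ∩ D₂).filter fun i => σ₁ i = σ₂ i).card : ℤ)
      ≤ (D₁.card : ℤ) + D₂.card →
    ∃ T, Tight lam v U I b T ∧ W ≤ T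

/-- B: uncrossing of tight subspaces -/
def S_B : Prop :=
  ∀ (F V ι : Type) [Field F] [AddCommGroup V] [Module F V] [FiniteDimensional F V]
    (lam : ℤ) (v : ι → V) (U : Submodule F V) (I : Finset ι) (b : ℤ), 4 ≤ lam →
    Inv lam v U I b → ∀ (W W' : Submodule F V), Tight lam v U I b W → Tight lam v U I b W' →
    Tight lam v U I b (W ⊓ W') ∧ ∃ T, Tight lam v U I b T ∧ W ⊔ W' ≤ T

/-- EXT: least and greatest tight subspace -/
def S_EXT : Prop :=
  ∀ (F V ι : Type) [Field F] [AddCommGroup V] [Module F V] [FiniteDimensional F V]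
    (lam : ℤ) (v : ι → V) (U : Submodule F V) (I : Finset ι) (b : ℤ), 4 ≤ lam →
    Inv lam v U I b → (∃ W, Tight lam v U I b W) →
    (∃ U₀, Tight lam v U I b U₀ ∧ ∀ W, Tight lam v U I b W → U₀ ≤ W) ∧
    (∃ U₁, Tight lam v U I b U₁ ∧ ∀ W, Tight lam v U I b W → W ≤ U₁)

/-- DBLUP -/
def S_DBLUP : Prop :=
  ∀ (F V ι : Type) [Field F] [AddCommGroup V] [Module F V] [FiniteDimensional F V]
    (lam : ℤ) (v : ι → V) (U : Submodule F V) (I : Finset ι) (b : ℤ), 4 ≤ lam →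
    Inv lam v U I b → ∀ (W₀ W : Submodule F V) (i : ι), W₀ ≤ W → i ∈ dbl v I W₀ →
    Tight lam v U I b W → v i ∉ W → i ∈ dbl v I W

/-- EXSAFE -/
def S_EXSAFE : Prop :=
  ∀ (F V ι : Type) [Field F] [AddCommGroup V] [Module F V] [FiniteDimensional F V]
    (lam : ℤ) (v : ι → V) (U : Submodule F V) (I : Finset ι) (b : ℤ), 4 ≤ lam →
    Inv lam v U I b → 2 ≤ b → I.Nonempty → ∃ i, Safe lam v U I b i

/-- FDEL: effect of deletion on `F` and on `dbl` -/
def S_FDEL : Prop :=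
  ∀ (F V ι : Type) [Field F] [AddCommGroup V] [Module F V] [FiniteDimensional F V]
    (lam : ℤ) (v : ι → V) (U : Submodule F V) (I : Finset ι) (b b' : ℤ) (W : Submodule F V)
    (i : ι), i ∈ I →
    FF lam v U (I.erase i) b' W = FF lam v U I b W + (b' - b) + (if v i ∈ W then lam else 0) ∧
    (v i ∈ W → dbl v (I.erase i) W = dbl v I W) ∧
    (v i ∉ W → (cls v I W i).card = 2 →
      (((dbl v (I.erase i) W).card : ℤ) = (dbl v I W).card - 2 ∧
        i ∈ dbl v I W)) ∧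
    (v i ∉ W → (cls v I W i).card = 3 →
      ((dbl v (I.erase i) W).card : ℤ) = (dbl v I W).card + 2) ∧
    (v i ∉ W → (cls v I W i).card ≠ 2 → (cls v I W i).card ≠ 3 →
      dbl v (I.erase i) W = dbl v I W)

/-- FCON: effect of contraction on `F` and on `dbl` -/
def S_FCON : Prop :=
  ∀ (F V ι : Type) [Field F] [AddCommGroup V] [Module F V] [FiniteDimensional F V]
    (lam : ℤ) (v : ι → V) (U : Submodule F V) (I : Finset ι) (b β : ℤ) (i : ι),
    (∀ j ∈ I, v j ∉ U) → i ∈ I →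
    (∀ W, jn U (v i) ≤ W →
      FF lam v (jn U (v i)) (I.filter fun j => v j ∉ jn U (v i))
        (b + lam + β - lam * ((cls v I U i).card - 1)) W = FF lam v U I b W + β) ∧
    (∀ W, jn U (v i) ≤ W → dbl v (I.filter fun j => v j ∉ jn U (v i)) W = dbl v I W)

/-- DEL1 -/
def S_DEL1 : Prop :=
  ∀ (F V ι : Type) [Field F] [AddCommGroup V] [Module F V] [FiniteDimensional F V]
    (lam : ℤ) (v : ι → V) (U : Submodule F V) (I : Finset ι) (b : ℤ), 4 ≤ lam →
    Inv lam v U I b → ∀ i, Safe lam v U I b i → Inv lam v U (I.erase i) (b - 1)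

/-- DEL2 -/
def S_DEL2 : Prop :=
  ∀ (F V ι : Type) [Field F] [AddCommGroup V] [Module F V] [FiniteDimensional F V]
    (lam : ℤ) (v : ι → V) (U : Submodule F V) (I : Finset ι) (b : ℤ), 4 ≤ lam →
    Inv lam v U I b → ∀ i ∈ I, Inv lam v U (I.erase i) b

/-- CON1 -/
def S_CON1 : Prop :=
  ∀ (F V ι : Type) [Field F] [AddCommGroup V] [Module F V] [FiniteDimensional F V]
    (lam : ℤ) (v : ι → V) (U : Submodule F V) (I : Finset ι) (b : ℤ), 4 ≤ lam →
    Inv lam v U I b → ∀ i ∈ I, Inv lam v (jn U (v i)) (I.filter fun j => v j ∉ jn U (v i))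
      (b + lam + 2 - lam * ((cls v I U i).card - 1))

/-- CON2 -/
def S_CON2 : Prop :=
  ∀ (F V ι : Type) [Field F] [AddCommGroup V] [Module F V] [FiniteDimensional F V]
    (lam : ℤ) (v : ι → V) (U : Submodule F V) (I : Finset ι) (b : ℤ), 4 ≤ lam →
    Inv lam v U I b → ∀ i ∈ I, (∀ W, Tight lam v U I b W → v i ∉ W) →
      Inv lam v (jn U (v i)) (I.filter fun j => v j ∉ jn U (v i))
        (b + lam - 1 - lam * ((cls v I U i).card - 1))

/-- RHO1: the choice for residue 1 -/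
def S_RHO1 : Prop :=
  ∀ (F V ι : Type) [Field F] [AddCommGroup V] [Module F V] [FiniteDimensional F V]
    (lam : ℤ) (v : ι → V) (U : Submodule F V) (I : Finset ι) (b : ℤ), 4 ≤ lam →
    Inv lam v U I b → (b - 1) % lam = 1 → lam + 1 ≤ b - 1 →
    (∃ W, U ≤ W ∧ FF lam v U I b W = 1) →
    ∃ i, Safe lam v U I b i ∧ ∀ W, U ≤ W → FF lam v U I b W = 1 → v i ∈ W

/-- BULK: many loops -/
def S_BULK : Prop :=
  ∀ (F V ι : Type) [Field F] [AddCommGroup V] [Module F V] [FiniteDimensional F V]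
    (lam : ℤ) (v : ι → V) (Z : Submodule F V → Finset ι → (ι → ℕ) → ℤ → Prop),
    Rules lam v Z → ∀ (U : Submodule F V) (I J : Finset ι) (m : ι → ℕ) (b : ℤ),
    Disjoint I J → (∀ i ∈ J, v i ∈ U ∧ 1 ≤ m i ∧ (m i : ℤ) ≤ lam) →
    Z U I m (b - lam * J.card) → Z U (I ∪ J) m b

/-- RX: rules with the loops removed -/
def S_RX : Prop :=
  ∀ (F V ι : Type) [Field F] [AddCommGroup V] [Module F V] [FiniteDimensional F V]
    (lam : ℤ) (v : ι → V) (Z : Submodule F V → Finset ι → (ι → ℕ) → ℤ → Prop),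
    Rules lam v Z → ∀ (U : Submodule F V) (I : Finset ι) (m : ι → ℕ) (b : ℤ) (i : ι),
    (∀ j ∈ I, v j ∉ U ∧ 1 ≤ m j ∧ (m j : ℤ) ≤ lam) → i ∈ I →
    (m i = 1 → Z U (I.erase i) m (b - 1) →
      Z (jn U (v i)) (I.filter fun j => v j ∉ jn U (v i)) m
        (b + lam + 2 - lam * ((cls v I U i).card - 1)) → Z U I m b) ∧
    (m i = 1 → Z U (I.erase i) m b →
      Z (jn U (v i)) (I.filter fun j => v j ∉ jn U (v i)) m
        (b + lam - 1 - lam * ((cls v I U i).card - 1)) → Z U I m b) ∧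
    (2 ≤ m i → Z U I (Function.update m i (m i - 1)) b →
      Z (jn U (v i)) (I.filter fun j => v j ∉ jn U (v i)) m
        (b + lam - m i - lam * ((cls v I U i).card - 1)) → Z U I m b)

/-- MOVE: in every state of stage 2 there is a good move -/
def S_MOVE : Prop :=
  ∀ (F V ι : Type) [Field F] [AddCommGroup V] [Module F V] [FiniteDimensional F V]
    (lam : ℤ) (v : ι → V) (U : Submodule F V) (I : Finset ι) (b : ℤ), 4 ≤ lam →
    InvC lam v U I b → I.Nonempty → ∃ i ∈ I,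
      (InvC lam v U (I.erase i) (b - 1) ∧
        InvC lam v (jn U (v i)) (I.filter fun j => v j ∉ jn U (v i))
          (b + lam + 2 - lam * ((cls v I U i).card - 1))) ∨
      (InvC lam v U (I.erase i) b ∧
        InvC lam v (jn U (v i)) (I.filter fun j => v j ∉ jn U (v i))
          (b + lam - 1 - lam * ((cls v I U i).card - 1)))

/-- MAIN2 -/
def S_MAIN2 : Prop :=
  ∀ (F V ι : Type) [Field F] [AddCommGroup V] [Module F V] [FiniteDimensional F V]
    (lam : ℤ) (v : ι → V) (Z : Submodule F V → Finset ι → (ι → ℕ) → ℤ → Prop), 4 ≤ lam →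
    Rules lam v Z → ∀ (U : Submodule F V) (I : Finset ι) (m : ι → ℕ) (b : ℤ),
    (∀ i ∈ I, m i = 1) → InvC lam v U I b → Z U I m b

/-- M1DEL -/
def S_M1DEL : Prop :=
  ∀ (F V ι : Type) [Field F] [AddCommGroup V] [Module F V] [FiniteDimensional F V]
    (lam : ℤ) (v : ι → V) (U : Submodule F V) (I : Finset ι) (m : ι → ℕ) (b : ℤ), 4 ≤ lam →
    M1 lam v U I m b → ∀ i ∈ I, 2 ≤ m i → M1 lam v U I (Function.update m i (m i - 1)) b

/-- M1CON -/
def S_M1CON : Prop :=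
  ∀ (F V ι : Type) [Field F] [AddCommGroup V] [Module F V] [FiniteDimensional F V]
    (lam : ℤ) (v : ι → V) (U : Submodule F V) (I : Finset ι) (m : ι → ℕ) (b : ℤ), 4 ≤ lam →
    M1 lam v U I m b → ∀ i ∈ I, 2 ≤ m i →
    M1 lam v (jn U (v i)) (I.filter fun j => v j ∉ jn U (v i)) m
      (b + lam - m i - lam * ((cls v I U i).card - 1))

/-- M1END -/
def S_M1END : Prop :=
  ∀ (F V ι : Type) [Field F] [AddCommGroup V] [Module F V] [FiniteDimensional F V]
    (lam : ℤ) (v : ι → V) (U : Submodule F V) (I : Finset ι) (m : ι → ℕ) (b : ℤ), 4 ≤ lam →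
    M1 lam v U I m b → (∀ i ∈ I, m i = 1) → InvC lam v U I b

/-- MAIN1 -/
def S_MAIN1 : Prop :=
  ∀ (F V ι : Type) [Field F] [AddCommGroup V] [Module F V] [FiniteDimensional F V]
    (lam : ℤ) (v : ι → V) (Z : Submodule F V → Finset ι → (ι → ℕ) → ℤ → Prop), 4 ≤ lam →
    Rules lam v Z → ∀ (U : Submodule F V) (I : Finset ι) (m : ι → ℕ) (b : ℤ),
    M1 lam v U I m b → Z U I m b

/-- C0SUB -/
def S_C0SUB : Prop :=
  ∀ (F V ι : Type) [Field F] [AddCommGroup V] [Module F V] [FiniteDimensional F V]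
    (lam : ℤ) (v : ι → V) (U : Submodule F V) (I J : Finset ι), 4 ≤ lam →
    C0 lam v U I → J ⊆ I → C0 lam v U J

/-- GAIN: slack of a contraction -/
def S_GAIN : Prop :=
  ∀ (F V ι : Type) [Field F] [AddCommGroup V] [Module F V] [FiniteDimensional F V]
    (lam : ℤ) (v : ι → V) (U : Submodule F V) (I : Finset ι), 4 ≤ lam → (∀ i ∈ I, v i ∉ U) →
    ∀ (W W' : Submodule F V), U ≤ W → W ≤ W' → ∀ (D : Finset ι) (σ : ι → ι), D ⊆ I →
    Mat v W D σ → (∀ i ∈ D, (cls v I U i).card = 1) →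
    slack lam v U I W' - slack lam v U I W + ((D.filter fun i => v i ∈ W').card : ℤ) ≤
      slack lam v W (I.filter fun i => v i ∉ W) W'

/-- DICH: dichotomy of stage 0 -/
def S_DICH : Prop :=
  ∀ (F V ι : Type) [Field F] [AddCommGroup V] [Module F V] [FiniteDimensional F V]
    (lam : ℤ) (v : ι → V) (U : Submodule F V) (I : Finset ι), 4 ≤ lam → C0 lam v U I →
    (∃ W, U < W ∧ (∃ i ∈ I, v i ∉ W) ∧ C0 lam v W (I.filter fun i => v i ∉ W)) ∨
    (∀ W, U ≤ W → ∀ (D : Finset ι) (σ : ι → ι), D ⊆ I → Mat v W D σ →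
      (∀ i ∈ D, (cls v I U i).card = 1) → (D.card : ℤ) ≤ slack lam v U I W)

/-- TZERO -/
def S_TZERO : Prop :=
  ∀ (F V ι : Type) [Field F] [AddCommGroup V] [Module F V] [FiniteDimensional F V]
    (lam : ℤ) (v : ι → V) (U : Submodule F V) (I : Finset ι), 4 ≤ lam → C0 lam v U I →
    ∀ W, U ≤ W → slack lam v U I W = 0 → C0 lam v W (I.filter fun i => v i ∉ W)

/-- M1START -/
def S_M1START : Prop :=
  ∀ (F V ι : Type) [Field F] [AddCommGroup V] [Module F V] [FiniteDimensional F V]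
    (lam : ℤ) (v : ι → V) (U : Submodule F V) (I : Finset ι), 4 ≤ lam → C0 lam v U I →
    (∀ W, U ≤ W → ∀ (D : Finset ι) (σ : ι → ι), D ⊆ I → Mat v W D σ →
      (∀ i ∈ D, (cls v I U i).card = 1) → (D.card : ℤ) ≤ slack lam v U I W) →
    (∀ i ∈ I, ((cls v I U i).card : ℤ) < lam) →
    ∀ (R : Finset ι) (i0 : ι) (m : ι → ℕ), i0 ∈ I → R ⊆ I →
    (∀ r ∈ R, jn U (v r) ≠ jn U (v i0)) →
    (∀ i ∈ I, jn U (v i) ≠ jn U (v i0) → ∃! r, r ∈ R ∧ jn U (v r) = jn U (v i)) →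
    (∀ r ∈ R, m r = (cls v I U r).card) →
    M1 lam v (jn U (v i0)) R m (2 * lam + 3 - (cls v I U i0).card)

/-- MAIN0 -/
def S_MAIN0 : Prop :=
  ∀ (F V ι : Type) [Field F] [AddCommGroup V] [Module F V] [FiniteDimensional F V]
    (lam : ℤ) (v : ι → V) (N : Submodule F V → Finset ι → Prop)
    (Z : Submodule F V → Finset ι → (ι → ℕ) → ℤ → Prop), 4 ≤ lam →
    Rules lam v Z → NRules lam v N Z → ∀ (U : Submodule F V) (I : Finset ι), C0 lam v U I → N U I

/-! ### link of the two parts and end -/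

/-- RULES -/
def S_RULES : Prop :=
  ∀ (p N : ℕ) [Fact p.Prime] (lam : ℤ), (p : ℤ) = 2 * lam + 3 → 1 ≤ lam →
    ∀ (ι : Type) (v : ι → Vec p N),
    Rules lam v (fun U I m b => ZZ lam U (I.toList.map fun i => (v i, m i)) b)

/-- non-vanishing of the product of the linear forms in `I` on `Ann U` -/
def NN {p N : ℕ} {ι : Type} (v : ι → Vec p N) (U : Submodule (ZMod p) (Vec p N))
    (I : Finset ι) : Prop :=
  ∃ f : Rg p N, (∀ u ∈ U, lin u * f = 0) ∧ (∏ i ∈ I, lin (v i)) * f ≠ 0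

/-- NRULES -/
def S_NRULES : Prop :=
  ∀ (p N : ℕ) [Fact p.Prime] (lam : ℤ), (p : ℤ) = 2 * lam + 3 → 1 ≤ lam →
    ∀ (ι : Type) (v : ι → Vec p N),
    NRules lam v (NN v) (fun U I m b => ZZ lam U (I.toList.map fun i => (v i, m i)) b)

/-- TWOB: two bases are in the class -/
def S_TWOB : Prop :=
  ∀ (F : Type) [Field F] (n : ℕ) (A : Matrix (Fin n) (Fin n) F) (lam : ℤ), 4 ≤ lam →
    IsUnit A.det →
    C0 lam (fun i : Fin n ⊕ Fin n => Sum.elim (fun i => (Pi.single i 1 : Fin n → F)) A i)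
      (⊥ : Submodule F (Fin n → F)) Finset.univ

/-- NULL: end by the Combinatorial Nullstellensatz -/
def S_NULL : Prop :=
  ∀ (p n : ℕ) [Fact p.Prime] (ι : Type) [Fintype ι] (v : ι → Vec p n) (c : ι → ZMod p),
    NN v ⊥ Finset.univ → ∃ x : Fin n → ZMod p, ∀ i, (∑ k, v i k * x k) ≠ c i

/-- FINAL -/
def S_FINAL : Prop :=
  ∀ (p : ℕ) [Fact p.Prime], 11 ≤ p → ∀ (n : ℕ) (A : Matrix (Fin n) (Fin n) (ZMod p)),
    IsUnit A.det → ∀ c c' : Fin n → ZMod p,
      ∃ x : Fin n → ZMod p, (∀ i, x i ≠ c i) ∧ ∀ i, A.mulVec x i ≠ c' i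

end Pool.H433AJT
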