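import Pool.Agent.H433R2.AJT.SpecB

open MvPolynomial
open scoped Classical

namespace Pool.H433AJT

/-! ### pieces of ZRULES and NRULES -/

/-- EMP: the empty list -/
def S_EMP : Prop :=
  ∀ (p N : ℕ) [Fact p.Prime] (U : Submodule (ZMod p) (Vec p N)) (j : ℕ) (δ : ℤ),
    (1 ≤ j ∨ δ < ((p : ℤ) - 1) * Module.finrank (ZMod p) U) → (cplx U []).Van j δ

/-- VT1 -/
def S_VT1 : Prop :=
  ∀ (p N : ℕ) [Fact p.Prime] (U : Submodule (ZMod p) (Vec p N)) (v : Vec p N) (l) (j : ℕ) (δ : ℤ),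
    v ∉ U → (cplx U l).Van j δ →
    (∀ j', j = j' + 1 → (cplx (U ⊔ Submodule.span (ZMod p) {v}) l).Van j' (δ + (p - 1))) →
    (cplx U ((v, 1) :: l)).Van j δ

/-- VT2 -/
def S_VT2 : Prop :=
  ∀ (p N : ℕ) [Fact p.Prime] (U : Submodule (ZMod p) (Vec p N)) (v : Vec p N) (l) (j : ℕ) (δ : ℤ),
    v ∉ U → (cplx U l).Van j (δ - 1) →
    (cplx (U ⊔ Submodule.span (ZMod p) {v}) l).Van (j + 1) (δ - 1) →
    (cplx U ((v, 1) :: l)).Van j δ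

/-- VU2 -/
def S_VU2 : Prop :=
  ∀ (p N : ℕ) [Fact p.Prime] (U : Submodule (ZMod p) (Vec p N)) (v : Vec p N) (m : ℕ) (l) (j : ℕ)
    (δ : ℤ), v ∉ U → m + 1 ≤ p → (cplx U ((v, m) :: l)).Van j (δ - 1) →
    (cplx (U ⊔ Submodule.span (ZMod p) {v}) l).Van (j + 1) (δ - 1) →
    (cplx U ((v, m + 1) :: l)).Van j δ

/-- VLP -/
def S_VLP : Prop :=
  ∀ (p N : ℕ) [Fact p.Prime] (U : Submodule (ZMod p) (Vec p N)) (v : Vec p N) (m : ℕ) (l) (j : ℕ)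
    (δ : ℤ), v ∈ U → 1 ≤ m → m < p → (∀ a ≤ j, (cplx U l).Van (j - a) (δ + sh p m a)) →
    (cplx U ((v, m) :: l)).Van j δ

/-- NSPLIT -/
def S_NSPLIT : Prop :=
  ∀ (p N : ℕ) [Fact p.Prime] (ι : Type) (v : ι → Vec p N) (U W : Submodule (ZMod p) (Vec p N))
    (I : Finset ι), U ≤ W → NN v U (I.filter fun i => v i ∈ W) →
    NN v W (I.filter fun i => v i ∉ W) → NN v U I

/-- NBASE -/
def S_NBASE : Prop :=
  ∀ (p N : ℕ) [Fact p.Prime] (ι : Type) (v : ι → Vec p N) (U : Submodule (ZMod p) (Vec p N))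
    (I : Finset ι), (∀ i ∈ I, v i ∉ U) → (∀ i ∈ I, ∀ j ∈ I, jn U (v i) = jn U (v j)) →
    I.card + 1 ≤ p → NN v U I

/-- NPAR: in a class the product of the linear forms is a power of one of them, on `Ann U` -/
def S_NPAR : Prop :=
  ∀ (p N : ℕ) [Fact p.Prime] (ι : Type) (v : ι → Vec p N) (U : Submodule (ZMod p) (Vec p N))
    (J : Finset ι) (x : Vec p N), x ∉ U → (∀ j ∈ J, v j ∉ U ∧ jn U (v j) = jn U x) →
    ∃ c : ZMod p, c ≠ 0 ∧ ∀ f : Rg p N, (∀ u ∈ U, lin u * f = 0) →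
      (∏ j ∈ J, lin (v j)) * f = mkR p N (C c) * lin x ^ J.card * f

/-- NSTEP -/
def S_NSTEP : Prop :=
  ∀ (p N : ℕ) [Fact p.Prime] (ι : Type) (v : ι → Vec p N) (U : Submodule (ZMod p) (Vec p N))
    (I R : Finset ι) (i0 : ι) (m : ι → ℕ), (∀ i ∈ I, v i ∉ U) → i0 ∈ I → R ⊆ I →
    (∀ r ∈ R, jn U (v r) ≠ jn U (v i0)) →
    (∀ i ∈ I, jn U (v i) ≠ jn U (v i0) → ∃! r, r ∈ R ∧ jn U (v r) = jn U (v i)) →
    (∀ r ∈ R, m r = (cls v I U r).card) → (∀ i ∈ I, (cls v I U i).card < p) →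
    NN v U (I.erase i0) →
    (cplx (jn U (v i0)) (R.toList.map fun i => (v i, m i))).Van 0
      (((p : ℤ) - 1) * Module.finrank (ZMod p) U + I.card - 1) → NN v U I

end Pool.H433AJT
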