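import Pool.Agent.H433R2.AJT.SpecC

open MvPolynomial
open scoped Classical

namespace Pool.H433AJT

theorem COV_jn {F V : Type} [Field F] [AddCommGroup V] [Module F V] {W : Submodule F V} {x y : V}
    (hy : y ∉ W) : y ∈ jn W x ↔ jn W y = jn W x := by
  constructor
  · intro h
    obtain ⟨w, hw, z, hz, hwz⟩ := Submodule.mem_sup.1 h
    obtain ⟨c, rfl⟩ := Submodule.mem_span_singleton.1 hz
    have hc : c ≠ 0 := by
      rintro rfl
      apply hy
      rw [← hwz, zero_smul, add_zero]
      exact hw
    apply le_antisymm
    · exact sup_le le_sup_left (by rw [Submodule.span_singleton_le_iff_mem]; exact h)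
    · refine sup_le le_sup_left ?_
      rw [Submodule.span_singleton_le_iff_mem]
      have h1 : x = c⁻¹ • (y - w) := by
        rw [← hwz, add_sub_cancel_left, smul_smul, inv_mul_cancel₀ hc, one_smul]
      rw [h1]
      apply Submodule.smul_mem
      exact Submodule.sub_mem _ ((le_sup_right : Submodule.span F {y} ≤ jn W y)
        (Submodule.mem_span_singleton_self y)) ((le_sup_left : W ≤ jn W y) hw)
  · intro h
    rw [← h]
    exact (le_sup_right : Submodule.span F {y} ≤ jn W y) (Submodule.mem_span_singleton_self y)

theorem t_COV : S_COV := by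
  intro F V ι _ _ _ _ lam v U I b W i hi
  have hx0 : v i ≠ 0 := by
    intro h
    apply hi
    rw [h]
    exact W.zero_mem
  have hfr : Module.finrank F (jn W (v i) : Submodule F V) = Module.finrank F W + 1 := by
    have h1 := Submodule.finrank_sup_add_finrank_inf_eq W (Submodule.span F {v i})
    have h2 : W ⊓ Submodule.span F {v i} = ⊥ :=
      disjoint_iff.1 ((Submodule.disjoint_span_singleton' hx0).2 hi)
    rw [h2, finrank_bot, finrank_span_singleton hx0, add_zero] at h1
    exact h1
  have hnn : nn v I (jn W (v i)) = nn v I W + ((cls v I W i).card : ℤ) := by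
    have h1 : I.filter (fun j => v j ∈ jn W (v i)) =
        I.filter (fun j => v j ∈ W) ∪ cls v I W i := by
      ext j
      unfold cls
      rw [Finset.mem_union, Finset.mem_filter, Finset.mem_filter, Finset.mem_filter]
      constructor
      · rintro ⟨hj, hj'⟩
        by_cases hW : v j ∈ W
        · exact Or.inl ⟨hj, hW⟩
        · exact Or.inr ⟨hj, hW, (COV_jn hW).1 hj'⟩
      · rintro (⟨hj, hj'⟩ | ⟨hj, hj', hj''⟩)
        · exact ⟨hj, (le_sup_left : W ≤ jn W (v i)) hj'⟩
        · exact ⟨hj, (COV_jn hj').2 hj''⟩
    have h2 : Disjoint (I.filter (fun j => v j ∈ W)) (cls v I W i) := by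
      rw [Finset.disjoint_left]
      intro j hj hj'
      unfold cls at hj'
      rw [Finset.mem_filter] at hj hj'
      exact hj'.2.1 hj.2
    unfold nn
    rw [h1, Finset.card_union_of_disjoint h2]
    push_cast
    rfl
  unfold FF
  rw [hfr, hnn]
  push_cast
  ring

end Pool.H433AJT
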