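import Pool.Agent.H433R2.AJT.Basic

open MvPolynomial

open scoped Classical

namespace Pool.H433AJT

section
variable {F V ι : Type} [Field F] [AddCommGroup V] [Module F V]

theorem FDEL_cls (v : ι → V) (I : Finset ι) (W : Submodule F V) (i j : ι) :
    cls v (I.erase i) W j = (cls v I W j).erase i := by
  ext k
  rw [mem_cls, Finset.mem_erase, Finset.mem_erase, mem_cls]
  tauto

theorem FDEL_mem_dbl (v : ι → V) (I : Finset ι) (W : Submodule F V) (i j : ι) :
    j ∈ dbl v (I.erase i) W ↔
      (j ≠ i ∧ j ∈ I) ∧ v j ∉ W ∧ ((cls v I W j).erase i).card = 2 := by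
  rw [mem_dbl, FDEL_cls, Finset.mem_erase]

theorem FDEL_symm {v : ι → V} {I : Finset ι} {W : Submodule F V} {i j : ι} (hi : i ∈ I)
    (hiW : v i ∉ W) (h : j ∈ cls v I W i) : i ∈ cls v I W j := by
  rw [mem_cls] at h ⊢
  exact ⟨hi, hiW, h.2.2.symm⟩

theorem FDEL_eq {v : ι → V} {I : Finset ι} {W : Submodule F V} {i j : ι}
    (h : j ∈ cls v I W i) : cls v I W j = cls v I W i := cls_eq (mem_cls.1 h).2.2

/-- if `j` is not in the class of `i` nothing changes -/
theorem FDEL_out {v : ι → V} {I : Finset ι} {W : Submodule F V} {i j : ι} (hij : j ≠ i)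
    (h : j ∉ cls v I W i) : j ∈ dbl v (I.erase i) W ↔ j ∈ dbl v I W := by
  rw [FDEL_mem_dbl, mem_dbl]
  constructor
  · rintro ⟨⟨_, h1⟩, h2, h3⟩
    refine ⟨h1, h2, ?_⟩
    rwa [Finset.erase_eq_of_notMem] at h3
    intro hc
    apply h
    rw [mem_cls] at hc ⊢
    exact ⟨h1, h2, hc.2.2.symm⟩
  · rintro ⟨h1, h2, h3⟩
    refine ⟨⟨hij, h1⟩, h2, ?_⟩
    rwa [Finset.erase_eq_of_notMem]
    intro hc
    apply h
    rw [mem_cls] at hc ⊢
    exact ⟨h1, h2, hc.2.2.symm⟩

/-- for `j` in the class of `i` -/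
theorem FDEL_in {v : ι → V} {I : Finset ι} {W : Submodule F V} {i j : ι} (hi : i ∈ I)
    (hiW : v i ∉ W) (h : j ∈ cls v I W i) :
    (j ∈ dbl v I W ↔ (cls v I W i).card = 2) ∧
    (j ∈ dbl v (I.erase i) W ↔ j ≠ i ∧ (cls v I W i).card = 3) := by
  have h1 := mem_cls.1 h
  have h2 := FDEL_eq h
  have hii : i ∈ cls v I W i := self_mem_cls hi hiW
  constructor
  · rw [mem_dbl, h2]
    exact ⟨fun h => h.2.2, fun h3 => ⟨h1.1, h1.2.1, h3⟩⟩
  · rw [FDEL_mem_dbl, h2, Finset.card_erase_of_mem hii]
    have hpos : 0 < (cls v I W i).card := Finset.card_pos.2 ⟨i, hii⟩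
    constructor
    · rintro ⟨⟨h3, _⟩, _, h5⟩
      exact ⟨h3, by omega⟩
    · rintro ⟨h3, h4⟩
      exact ⟨⟨h3, h1.1⟩, h1.2.1, by omega⟩

theorem FDEL_nn (v : ι → V) (I : Finset ι) (W : Submodule F V) {i : ι} (hi : i ∈ I) :
    nn v (I.erase i) W = nn v I W - (if v i ∈ W then 1 else 0) := by
  unfold nn
  have h1 : (I.erase i).filter (fun j => v j ∈ W) = (I.filter fun j => v j ∈ W).erase i := by
    ext k
    simp only [Finset.mem_filter, Finset.mem_erase]
    tauto
  rw [h1]
  by_cases h : v i ∈ W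
  · have hm : i ∈ I.filter fun j => v j ∈ W := Finset.mem_filter.2 ⟨hi, h⟩
    have hpos : 0 < (I.filter fun j => v j ∈ W).card := Finset.card_pos.2 ⟨i, hm⟩
    rw [Finset.card_erase_of_mem hm, if_pos h]
    omega
  · have hm : i ∉ I.filter fun j => v j ∈ W := fun h' => h (Finset.mem_filter.1 h').2
    rw [Finset.erase_eq_of_notMem hm, if_neg h, sub_zero]

end

theorem t_FDEL : S_FDEL := by
  intro F V ι _ _ _ _ lam v U I b b' W i hi
  refine ⟨?_, ?_, ?_, ?_, ?_⟩
  · unfold FF
    rw [FDEL_nn v I W hi]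
    by_cases h : v i ∈ W
    · rw [if_pos h, if_pos h]; ring
    · rw [if_neg h, if_neg h]; ring
  · intro hiW
    ext j
    by_cases hij : j = i
    · subst hij
      rw [mem_dbl, mem_dbl]
      constructor
      · rintro ⟨_, h, _⟩
        exact absurd hiW h
      · rintro ⟨_, h, _⟩
        exact absurd hiW h
    · by_cases hc : j ∈ cls v I W i
      · exfalso
        rw [mem_cls] at hc
        exact not_mem_of_jn_eq hc.2.1 hc.2.2 hiW
      · exact FDEL_out hij hc
  · intro hiW hcard
    have hii : i ∈ cls v I W i := self_mem_cls hi hiW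
    have hsub : cls v I W i ⊆ dbl v I W := by
      intro j hj
      exact ((FDEL_in hi hiW hj).1).2 hcard
    refine ⟨?_, hsub hii⟩
    have h1 : dbl v (I.erase i) W = dbl v I W \ cls v I W i := by
      ext j
      rw [Finset.mem_sdiff]
      by_cases hc : j ∈ cls v I W i
      · rw [(FDEL_in hi hiW hc).2]
        constructor
        · rintro ⟨_, h⟩
          omega
        · rintro ⟨_, h⟩
          exact absurd hc h
      · have hij : j ≠ i := by
          rintro rfl
          exact hc hii
        rw [FDEL_out hij hc]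
        exact ⟨fun h => ⟨h, hc⟩, fun h => h.1⟩
    rw [h1, Finset.card_sdiff_of_subset hsub, hcard]
    have h2 := Finset.card_le_card hsub
    omega
  · intro hiW hcard
    have hii : i ∈ cls v I W i := self_mem_cls hi hiW
    have h1 : dbl v (I.erase i) W = dbl v I W ∪ (cls v I W i).erase i := by
      ext j
      rw [Finset.mem_union, Finset.mem_erase]
      by_cases hc : j ∈ cls v I W i
      · rw [(FDEL_in hi hiW hc).2, (FDEL_in hi hiW hc).1]
        constructor
        · rintro ⟨h, _⟩
          exact Or.inr ⟨h, hc⟩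
        · rintro (h | ⟨h, _⟩)
          · omega
          · exact ⟨h, hcard⟩
      · have hij : j ≠ i := by
          rintro rfl
          exact hc hii
        rw [FDEL_out hij hc]
        exact ⟨fun h => Or.inl h, fun h => h.elim id fun h' => absurd h'.2 hc⟩
    have h2 : Disjoint (dbl v I W) ((cls v I W i).erase i) := by
      rw [Finset.disjoint_left]
      intro j h3 h4
      rw [Finset.mem_erase] at h4
      have := ((FDEL_in hi hiW h4.2).1).1 h3
      omega
    rw [h1, Finset.card_union_of_disjoint h2, Finset.card_erase_of_mem hii, hcard]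
    push_cast
    ring
  · intro hiW hc2 hc3
    have hii : i ∈ cls v I W i := self_mem_cls hi hiW
    ext j
    by_cases hc : j ∈ cls v I W i
    · rw [(FDEL_in hi hiW hc).2, (FDEL_in hi hiW hc).1]
      constructor
      · rintro ⟨_, h⟩
        exact absurd h hc3
      · intro h
        exact absurd h hc2
    · have hij : j ≠ i := by
        rintro rfl
        exact hc hii
      exact FDEL_out hij hc

end Pool.H433AJT
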