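import Pool.Agent.H433R2.AJT.SpecA

open MvPolynomial
open scoped Classical

namespace Pool.H433AJT

theorem t_LINADD : S_LINADD := by
  intro p N _
  refine ⟨?_, ?_, ?_, ?_⟩
  · intro v w
    unfold lin linP
    rw [← map_add, ← Finset.sum_add_distrib]
    congr 1
    apply Finset.sum_congr rfl
    intro i _
    rw [Pi.add_apply, C_add, add_mul]
  · intro c v
    unfold lin linP
    rw [← map_mul, Finset.mul_sum]
    congr 1
    apply Finset.sum_congr rfl
    intro i _
    rw [Pi.smul_apply, smul_eq_mul, C_mul, mul_assoc]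
  · rintro c δ f ⟨P, rfl, hP⟩
    refine ⟨C c * P, map_mul _ _ _, fun α hα => hP α ?_⟩
    intro h
    apply hα
    rw [coeff_C_mul, h, mul_zero]
  · intro i
    unfold lin linP
    congr 1
    rw [Finset.sum_eq_single i]
    · simp
    · intro j _ hj
      simp [Pi.single_apply, hj]
    · simp

end Pool.H433AJT
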