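import Pool.Agent.H433R2.AJT.SpecC

open MvPolynomial
open scoped Classical

namespace Pool.H433AJT

theorem M1END_F1 {F V ι : Type} [Field F] [AddCommGroup V] [Module F V]
    (lam : ℤ) (v : ι → V) (U : Submodule F V) (I : Finset ι) (m : ι → ℕ) (b : ℤ)
    (hm : ∀ i ∈ I, m i = 1) (W : Submodule F V) :
    F1 lam v U I m b W = FF lam v U I b W := by
  unfold F1 FF nn
  have h1 : ∑ i ∈ I.filter (fun i => v i ∈ W), wt lam (m i)
      = ∑ i ∈ I.filter (fun i => v i ∈ W), lam := by
    refine Finset.sum_congr rfl fun i hi => ?_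
    rw [Finset.mem_filter] at hi
    unfold wt
    rw [hm i hi.1]
    simp
  rw [h1, Finset.sum_const, nsmul_eq_mul]
  ring

theorem M1END_nn {F V ι : Type} [Field F] [AddCommGroup V] [Module F V]
    (v : ι → V) (U : Submodule F V) (I : Finset ι) (h : ∀ i ∈ I, v i ∉ U) :
    nn v I U = 0 := by
  unfold nn
  rw [Finset.filter_false_of_mem (fun i hi => h i hi)]
  simp

theorem t_M1END (hP : S_PART) : S_M1END := by
  intro F V ι _ _ _ _ lam v U I m b hlam hM hm
  obtain ⟨h1, h2, h3⟩ := hM
  have key : ∀ W, U ≤ W → lam + 1 + ((dbl v I W).card : ℤ) ≤ FF lam v U I b W := by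
    intro W hW
    obtain ⟨σ, hσ⟩ := hP F V ι v I W
    have hsub : dbl v I W ⊆ I := Finset.filter_subset _ _
    have := h3 W hW (dbl v I W) σ hsub hσ (fun i hi => hm i (hsub hi))
    rwa [M1END_F1 lam v U I m b hm W] at this
  have hU : lam + 1 ≤ b - 1 := by
    have h4 := key U le_rfl
    have h5 : FF lam v U I b U = b - 1 := by
      unfold FF
      rw [M1END_nn v U I h1]
      ring
    rw [h5] at h4
    have : (0 : ℤ) ≤ ((dbl v I U).card : ℤ) := by positivity
    linarith
  refine ⟨⟨h1, fun W hW => ?_⟩, fun _ W hW => ?_, fun _ => hU, fun h => Or.inl ?_⟩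
  · have := key W hW
    linarith
  · have := key W hW
    have h6 : (0 : ℤ) ≤ ((dbl v I W).card : ℤ) := by positivity
    linarith
  · by_contra hcon
    have h7 : b - 1 = lam + 1 := by linarith [not_le.mp hcon, hU]
    rw [h7] at h
    have h8 : (lam + 1) % lam = 1 := by
      rw [Int.add_emod, Int.emod_self, zero_add, Int.emod_emod_of_dvd _ (dvd_refl _)]
      exact Int.emod_eq_of_lt (by norm_num) (by linarith)
    rw [h8] at h
    norm_num at h

end Pool.H433AJT
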