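import Pool.Agent.H433R2.AJT.SpecA

open MvPolynomial
open scoped Classical

namespace Pool.H433AJT

section RED
variable {p N : ℕ} [hp : Fact p.Prime]

/-- the differential of `per`, on plain sequences -/
noncomputable def REDd (B : BC p N) (v : Vec p N) (m : ℕ) : (ℕ → B.C) →+ (ℕ → B.C) :=
  (per B (v, m)).d.toAddMonoidHom

/-- the grading of `per`, on plain sequences -/
noncomputable def REDG (B : BC p N) (v : Vec p N) (m : ℕ) (j : ℕ) (δ : ℤ) :
    AddSubgroup (ℕ → B.C) := (per B (v, m)).G j δ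

theorem RED_van (B : BC p N) (v : Vec p N) (m : ℕ) (j : ℕ) (δ : ℤ) :
    (per B (v, m)).Van j δ ↔ ∀ c ∈ REDG B v m j δ, REDd B v m c = 0 →
      if j = 0 then c = 0 else ∃ b ∈ REDG B v m (j - 1) δ, REDd B v m b = c := Iff.rfl

theorem RED_dd (B : BC p N) (v : Vec p N) (m : ℕ) (c : ℕ → B.C) :
    REDd B v m (REDd B v m c) = 0 := (per B (v, m)).dd c

theorem RED_dG (B : BC p N) (v : Vec p N) (m : ℕ) (j : ℕ) (δ : ℤ) (c : ℕ → B.C)
    (hc : c ∈ REDG B v m j δ) : REDd B v m c ∈ REDG B v m (j + 1) δ :=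
  (per B (v, m)).dG j δ c hc

theorem RED_d_zero (B : BC p N) (v : Vec p N) (m : ℕ) (c : ℕ → B.C) :
    REDd B v m c 0 = B.d (c 0) := by
  change (-1 : ℤ) ^ 0 • B.d (c 0) + (if (0 : ℕ) = 0 then 0 else (lin v) ^ (ex p m 0) • c (0 - 1)) = _
  simp

theorem RED_d_succ (B : BC p N) (v : Vec p N) (m : ℕ) (c : ℕ → B.C) (a : ℕ) :
    REDd B v m c (a + 1) =
      (-1 : ℤ) ^ (a + 1) • B.d (c (a + 1)) + (lin v) ^ (ex p m (a + 1)) • c a := by
  change (-1 : ℤ) ^ (a + 1) • B.d (c (a + 1)) +
    (if (a + 1 : ℕ) = 0 then 0 else (lin v) ^ (ex p m (a + 1)) • c (a + 1 - 1)) = _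
  simp

/-- the element `y` placed at position `k` -/
noncomputable def REDsg (B : BC p N) (k : ℕ) (y : B.C) : ℕ → B.C := fun a => if a = k then y else 0

theorem RED_mem (B : BC p N) (v : Vec p N) (m : ℕ) (j : ℕ) (δ : ℤ) (c : ℕ → B.C) :
    c ∈ REDG B v m j δ ↔
      (∀ a, a ≤ j → c a ∈ B.G (j - a) (δ + sh p m a)) ∧ ∀ a, j < a → c a = 0 := Iff.rfl

theorem RED_sg_mem (B : BC p N) (v : Vec p N) (m : ℕ) (j : ℕ) (δ : ℤ) (k : ℕ) (hk : k ≤ j)
    (y : B.C) (hy : y ∈ B.G (j - k) (δ + sh p m k)) :
    REDsg B k y ∈ REDG B v m j δ := by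
  rw [RED_mem]
  refine ⟨fun a _ => ?_, fun a ha => ?_⟩
  · by_cases h : a = k
    · subst h
      simpa [REDsg] using hy
    · have : REDsg B k y a = 0 := by simp [REDsg, h]
      rw [this]
      exact zero_mem _
  · have h : a ≠ k := by omega
    simp [REDsg, h]

theorem RED_ex_add (m a : ℕ) (hm : m ≤ p) : ex p m (a + 2) + ex p m (a + 1) = p := by
  unfold ex
  rcases Nat.even_or_odd' a with ⟨c, rfl | rfl⟩
  · have h1 : (2 * c + 2) % 2 = 0 := by omega
    have h2 : (2 * c + 1) % 2 = 1 := by omega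
    simp only [h1, h2]
    simp
    omega
  · have h1 : (2 * c + 1 + 2) % 2 = 1 := by omega
    have h2 : (2 * c + 1 + 1) % 2 = 0 := by omega
    simp only [h1, h2]
    simp
    omega

theorem RED_key (B : BC p N) (v : Vec p N) (m : ℕ) (hm : m ≤ p) (hF : B.Free v) (k : ℕ) :
    ∀ (j : ℕ) (δ : ℤ) (b : ℕ → B.C), b ∈ REDG B v m j δ →
      (∀ a, REDd B v m b (a + 1) = 0) → (∀ a, k < a → b a = 0) →
      ∃ g : ℕ → B.C, g ∈ REDG B v m (j - 1) δ ∧
        (j = 0 → g = 0) ∧
        ∀ a, b (a + 1) = REDd B v m g (a + 1) := by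
  induction k with
  | zero =>
    intro j δ b hb hd h0
    refine ⟨0, zero_mem _, fun _ => rfl, fun a => ?_⟩
    rw [h0 _ (Nat.succ_pos a), map_zero]
    rfl
  | succ k ih =>
    intro j δ b hb hd h0
    by_cases hk : b (k + 1) = 0
    · refine ih j δ b hb hd fun a ha => ?_
      by_cases h : a = k + 1
      · rw [h]; exact hk
      · exact h0 a (by omega)
    · have hkj : k + 1 ≤ j := by
        by_contra hcon
        exact hk (((RED_mem B v m j δ b).1 hb).2 (k + 1) (by omega))
      have h1 : lin v ^ (ex p m (k + 2)) • b (k + 1) = 0 := by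
        have := hd (k + 1)
        rw [RED_d_succ, h0 (k + 1 + 1) (by omega), map_zero, smul_zero, zero_add] at this
        exact this
      have hexs : ex p m (k + 2) + ex p m (k + 1) = p := RED_ex_add m k hm
      obtain ⟨y, hy, hby⟩ := hF (ex p m (k + 2)) (by omega) _ _ _
        (((RED_mem B v m j δ b).1 hb).1 (k + 1) hkj) h1
      have hsub : p - ex p m (k + 2) = ex p m (k + 1) := by omega
      rw [hsub] at hby
      have hδ : (δ + (sh p m (k + 1) : ℕ) - ((p : ℤ) - (ex p m (k + 2) : ℕ)) : ℤ)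
          = δ + (sh p m k : ℕ) := by
        rw [sh_succ]
        push_cast
        have : ((ex p m (k + 2) : ℤ)) + ex p m (k + 1) = p := by exact_mod_cast hexs
        linarith
      have hy' : y ∈ B.G (j - 1 - k) (δ + (sh p m k : ℕ)) := by
        rw [← hδ, show j - 1 - k = j - (k + 1) by omega]
        exact hy
      have hg := RED_sg_mem B v m (j - 1) δ k (by omega) y hy'
      set g : ℕ → B.C := REDsg B k y with hgdef
      have hgk : g k = y := by simp [hgdef, REDsg]
      have hgne : ∀ a, a ≠ k → g a = 0 := fun a ha => by simp [hgdef, REDsg, ha]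
      have hdg : REDd B v m g ∈ REDG B v m j δ := by
        have := RED_dG _ _ _ _ _ _ hg
        rwa [show j - 1 + 1 = j by omega] at this
      have hb' : b - REDd B v m g ∈ REDG B v m j δ := sub_mem hb hdg
      have hlin : REDd B v m (b - REDd B v m g) = REDd B v m b := by
        rw [map_sub, RED_dd, sub_zero]
      obtain ⟨g', hg', hg0, hg''⟩ := ih j δ _ hb' (fun a => by rw [hlin]; exact hd a)
        (fun a ha => by
          obtain ⟨a, rfl⟩ := Nat.exists_eq_succ_of_ne_zero (show a ≠ 0 by omega)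
          rw [Pi.sub_apply, Nat.succ_eq_add_one, RED_d_succ, hgne (a + 1) (by omega), map_zero,
            smul_zero, zero_add]
          by_cases hak : a = k
          · rw [hak, hgk, hby, sub_self]
          · rw [hgne a hak, h0 (a + 1) (by omega), smul_zero, sub_zero])
      refine ⟨g + g', add_mem hg hg', fun h => by omega, fun a => ?_⟩
      have h5 := hg'' a
      rw [Pi.sub_apply] at h5
      rw [map_add, Pi.add_apply, ← h5]
      abel

theorem t_RED : S_RED := by
  intro p N _ B v m hm hF j δ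
  rw [RED_van]
  have hpm : ∀ y : B.C, lin v ^ (p - m) • lin v ^ m • y = 0 := by
    intro y
    rw [← mul_smul, ← pow_add, show p - m + m = p by omega, lin_pow, zero_smul]
  have hex1 : ex p m 1 = p - m := by simp [ex]
  have hsh0 : sh p m 0 = 0 := by simp [sh]
  -- placing `x^m y` in position `0`
  have hplace : ∀ (i : ℕ) (y : B.C), y ∈ B.G i (δ - m) →
      REDsg B 0 (lin v ^ m • y) ∈ REDG B v m i δ := by
    intro i y hy
    apply RED_sg_mem B v m i δ 0 (Nat.zero_le _)
    have := lin_pow_smul_G B v m _ _ _ hy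
    rw [hsh0]
    simpa using this
  have hplaced : ∀ (y : B.C), REDd B v m (REDsg B 0 (lin v ^ m • y)) =
      REDsg B 0 (B.d (lin v ^ m • y)) := by
    intro y
    funext a
    cases a with
    | zero => rw [RED_d_zero]; simp [REDsg]
    | succ a =>
      rw [RED_d_succ]
      cases a with
      | zero =>
        simp only [REDsg, zero_add, hex1]
        simp [hpm]
      | succ a => simp [REDsg]
  have hsg0 : ∀ y : B.C, REDsg B 0 y 0 = y := fun y => by simp [REDsg]
  have hsgs : ∀ (y : B.C) (a : ℕ), REDsg B 0 y (a + 1) = 0 := fun y a => by simp [REDsg]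
  have hδm : (δ - ((p : ℤ) - ((p - m : ℕ) : ℤ))) = δ - m := by
    rw [Nat.cast_sub hm]; ring
  constructor
  · intro hV c hc hdc
    obtain ⟨g, hg, hg0, hgc⟩ := RED_key B v m hm hF j j δ c hc
      (fun a => by rw [hdc]; rfl) (fun a ha => ((RED_mem B v m j δ c).1 hc).2 a ha)
    -- c' = c - d g
    have hc'mem : c - REDd B v m g ∈ REDG B v m j δ := by
      by_cases hj : j = 0
      · rw [hg0 hj, map_zero, sub_zero]
        exact hc
      · have := RED_dG _ _ _ _ _ _ hg
        rw [show j - 1 + 1 = j by omega] at this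
        exact sub_mem hc this
    have hdc'' : REDd B v m (c - REDd B v m g) = 0 := by
      rw [map_sub, RED_dd, sub_zero]
      exact hdc
    obtain ⟨c', hc'def⟩ : ∃ c', c' = c - REDd B v m g := ⟨_, rfl⟩
    rw [← hc'def] at hc'mem hdc''
    have hc'a : ∀ a, c' (a + 1) = 0 := by
      intro a
      rw [hc'def, Pi.sub_apply, ← hgc a]
      exact sub_self _
    have hc'0 : c' 0 ∈ B.G j δ := by
      have := ((RED_mem B v m j δ c').1 hc'mem).1 0 (Nat.zero_le _)
      simpa [hsh0] using this
    have e0 : B.d (c' 0) = 0 := by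
      rw [← RED_d_zero B v m c', hdc'']
      rfl
    have e1 : lin v ^ (p - m) • c' 0 = 0 := by
      have h1 : REDd B v m c' (0 + 1) = 0 := by rw [hdc'']; rfl
      rw [RED_d_succ, hc'a 0, map_zero, smul_zero, zero_add, zero_add, hex1] at h1
      exact h1
    obtain ⟨b, hb, hcb⟩ := hF (p - m) (by omega) _ _ _ hc'0 e1
    rw [show p - (p - m) = m by omega] at hcb
    have hb' : b ∈ B.G j (δ - m) := by rwa [hδm] at hb
    have h2 := hV b hb' (by rw [← hcb]; exact e0)
    by_cases hj : j = 0
    · rw [if_pos hj] at h2 ⊢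
      have hz : c' = 0 := by
        funext a
        cases a with
        | zero => rw [hcb, h2]; rfl
        | succ a => exact hc'a a
      rw [hz, hg0 hj, map_zero, sub_zero] at hc'def
      exact hc'def.symm
    · rw [if_neg hj] at h2 ⊢
      obtain ⟨b2, hb2, hdb2⟩ := h2
      refine ⟨REDsg B 0 (lin v ^ m • b2) + g, add_mem (hplace (j - 1) b2 hb2) hg, ?_⟩
      have h3 : REDd B v m (REDsg B 0 (lin v ^ m • b2)) = c' := by
        rw [hplaced]
        funext a
        cases a with
        | zero => rw [hsg0, hdb2, ← hcb]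
        | succ a => rw [hc'a, hsgs]
      rw [map_add, h3, hc'def, sub_add_cancel]
  · intro hV c hc hdc
    have hz := hplace j c hc
    have hdz : REDd B v m (REDsg B 0 (lin v ^ m • c)) = 0 := by
      rw [hplaced, hdc]
      funext a
      simp [REDsg]
    have h2 := hV _ hz hdz
    by_cases hj : j = 0
    · rw [if_pos hj] at h2 ⊢
      rw [← hsg0 (lin v ^ m • c), h2]
      rfl
    · rw [if_neg hj] at h2 ⊢
      obtain ⟨b, hb, hdb⟩ := h2
      obtain ⟨g, hg, hg0, hgc⟩ := RED_key B v m hm hF (j - 1) (j - 1) δ b hb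
        (fun a => by rw [hdb, hsgs]) (fun a ha => ((RED_mem B v m (j - 1) δ b).1 hb).2 a ha)
      have hb'mem : b - REDd B v m g ∈ REDG B v m (j - 1) δ := by
        by_cases hj1 : j - 1 = 0
        · rw [hg0 hj1, map_zero, sub_zero]
          exact hb
        · have := RED_dG _ _ _ _ _ _ hg
          rw [show j - 1 - 1 + 1 = j - 1 by omega] at this
          exact sub_mem hb this
      have hdb'' : REDd B v m (b - REDd B v m g) = REDsg B 0 (lin v ^ m • c) := by
        rw [map_sub, RED_dd, sub_zero]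
        exact hdb
      obtain ⟨b', hb'def⟩ : ∃ b', b' = b - REDd B v m g := ⟨_, rfl⟩
      rw [← hb'def] at hb'mem hdb''
      have hb'a : ∀ a, b' (a + 1) = 0 := by
        intro a
        rw [hb'def, Pi.sub_apply, ← hgc a]
        exact sub_self _
      have hb'0 : b' 0 ∈ B.G (j - 1) δ := by
        have := ((RED_mem B v m (j - 1) δ b').1 hb'mem).1 0 (Nat.zero_le _)
        simpa [hsh0] using this
      have e0 : B.d (b' 0) = lin v ^ m • c := by
        rw [← RED_d_zero B v m b', hdb'', hsg0]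
      have e1 : lin v ^ (p - m) • b' 0 = 0 := by
        have h1 : REDd B v m b' (0 + 1) = 0 := by rw [hdb'', hsgs]
        rw [RED_d_succ, hb'a 0, map_zero, smul_zero, zero_add, zero_add, hex1] at h1
        exact h1
      obtain ⟨b2, hb2, hbb⟩ := hF (p - m) (by omega) _ _ _ hb'0 e1
      rw [show p - (p - m) = m by omega] at hbb
      refine ⟨b2, by rwa [hδm] at hb2, ?_⟩
      rw [← hbb]; exact e0

end RED

end Pool.H433AJT
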