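import Pool.Agent.H433R2.AJT.SpecC

open MvPolynomial
open scoped Classical

namespace Pool.H433AJT

theorem t_VT2 (h1 : S_RED) (h2 : S_SU) (h3 : S_LIFT) (h4 : S_KER) (h5 : S_KERV) : S_VT2 := by
  intro p N hp U v l j δ hv hV hK
  have hfree := h3 p N U v hv l
  have h1p : 1 ≤ p := hp.out.one_lt.le
  refine (h1 p N (cplx U l) v 1 h1p hfree j δ).mp ?_
  refine h2 p N (cplx U l) v hfree 0 (by simpa using h1p) j δ ?_ ?_
  · intro c hc hd
    have hc' : c ∈ (cplx U l).G j (δ - 1) := by simpa using hc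
    have hd' : (cplx U l).d c = 0 := by simpa using hd
    have h6 := hV c hc' hd'
    split_ifs at h6 ⊢ with hj
    · simpa using h6
    · obtain ⟨b, hb, hb2⟩ := h6
      exact ⟨b, by simpa using hb, by simpa using hb2⟩
  · exact (h5 p N _ _ v (h4 p N U v l) (j + 1) (δ - 1)).mpr hK

end Pool.H433AJT
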